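import Pool.Agent.Work.MP_376faf_co_gap.Walls

set_option autoImplicit false

/-!
Counting the walls of chains of polygons.
-/

namespace Pool.Agent.Work.MP_376faf_co_gap

open Pool.Agent.Work.MP_376faf_co_lower

/-! ### lists with entries in a finite set -/

/-- the lists of length at most `n` with entries in `B` -/
def LL {α : Type} [DecidableEq α] (B : Finset α) : ℕ → Finset (List α)
  | 0 => {[]}
  | n + 1 => insert [] ((B ×ˢ LL B n).image fun z => z.1 :: z.2)

theorem mem_LL {α : Type} [DecidableEq α] {B : Finset α} {n : ℕ} : ∀ {l : List α},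
    l.length ≤ n → (∀ s ∈ l, s ∈ B) → l ∈ LL B n := by
  induction n with
  | zero =>
    intro l h1 _
    rw [LL, Finset.mem_singleton]
    exact List.eq_nil_of_length_eq_zero (by omega)
  | succ n ih =>
    intro l h1 h2
    rw [LL]
    rcases l with _ | ⟨a, l⟩
    · exact Finset.mem_insert_self _ _
    · refine Finset.mem_insert_of_mem (Finset.mem_image.2 ⟨(a, l), ?_, rfl⟩)
      rw [List.length_cons] at h1
      exact Finset.mem_product.2 ⟨h2 a List.mem_cons_self,
        ih (l := l) (Nat.le_of_succ_le_succ h1) fun s hs => h2 s (List.mem_cons_of_mem _ hs)⟩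

theorem card_LL {α : Type} [DecidableEq α] (B : Finset α) (n : ℕ) :
    (LL B n).card ≤ (B.card + 1) ^ n := by
  induction n with
  | zero => simp [LL]
  | succ n ih =>
    rw [LL]
    refine (Finset.card_insert_le _ _).trans ?_
    have h1 : ((B ×ˢ LL B n).image fun z => z.1 :: z.2).card ≤ B.card * (B.card + 1) ^ n := by
      refine Finset.card_image_le.trans ?_
      rw [Finset.card_product]
      exact Nat.mul_le_mul_left _ ih
    have h2 : 1 ≤ (B.card + 1) ^ n := Nat.one_le_pow _ _ (Nat.succ_pos _)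
    calc _ ≤ B.card * (B.card + 1) ^ n + (B.card + 1) ^ n := Nat.add_le_add h1 h2
      _ = _ := by ring

/-- the unit steps -/
def U4 : Finset Pt := {(1, 0), (-1, 0), (0, 1), (0, -1)}

theorem mem_U4 {s : Pt} (h : Un s) : s ∈ U4 := by
  obtain ⟨a, b⟩ := s
  unfold Un at h
  simp only at h
  have h1 : (a = 1 ∧ b = 0) ∨ (a = -1 ∧ b = 0) ∨ (a = 0 ∧ b = 1) ∨ (a = 0 ∧ b = -1) := by
    rcases abs_cases a with ⟨h2, h3⟩ | ⟨h2, h3⟩ <;> rcases abs_cases b with ⟨h4, h5⟩ | ⟨h4, h5⟩ <;>
      omega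
  unfold U4
  rcases h1 with ⟨rfl, rfl⟩ | ⟨rfl, rfl⟩ | ⟨rfl, rfl⟩ | ⟨rfl, rfl⟩ <;> decide

theorem card_U4 : U4.card = 4 := by decide

theorem finite_of {P : List Pt → Prop} (n : ℕ) (h : ∀ w, P w → (∀ s ∈ w, Un s) ∧ w.length = n) :
    Finite {w // P w} := by
  refine Finite.of_injective (β := {w // w ∈ LL U4 n})
    (fun w => ⟨w.1, mem_LL (h _ w.2).2.le fun s hs => mem_U4 ((h _ w.2).1 s hs)⟩) ?_
  intro a b hab
  have h1 := congrArg Subtype.val hab
  exact Subtype.ext h1

theorem card_of {P : List Pt → Prop} (n : ℕ) (h : ∀ w, P w → (∀ s ∈ w, Un s) ∧ w.length = n) :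
    Nat.card {w // P w} ≤ 5 ^ n := by
  have h1 : Nat.card {w // P w} ≤ Nat.card {w // w ∈ LL U4 n} :=
    Nat.card_le_card_of_injective
      (fun w => ⟨w.1, mem_LL (h _ w.2).2.le fun s hs => mem_U4 ((h _ w.2).1 s hs)⟩)
      (fun a b hab => by
        have h1 := congrArg Subtype.val hab
        exact Subtype.ext h1)
  have h2 := card_LL U4 n
  rw [card_U4] at h2
  refine h1.trans (le_trans (le_of_eq ?_) h2)
  rw [Nat.card_eq_fintype_card, Fintype.card_coe]

/-! ### lengths and decoding -/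

def n1 {ι : Type} : List (Cd ι) → List Pt → ℕ
  | [], cf => cf.length
  | c :: t, cf => c.1.length + (c.2.2.2 + n1 t cf)

def n2 {ι : Type} (M : ℕ) : List (Cd ι) → List Pt → ℕ
  | [], cf => cf.length
  | c :: t, cf => n2 M t cf + ((M - c.2.2.2) + c.1.length)

def lam {ι : Type} : List (Cd ι) → List Pt → ℕ
  | [], cf => cf.length
  | c :: t, cf => c.1.length + lam t cf

theorem W1_len {ι : Type} {Y : ι → List Pt} {M : ℕ} (hM : ∀ l, (Y l).length = M) {cf : List Pt} :
    ∀ {cs : List (Cd ι)}, (∀ c ∈ cs, c.2.2.2 < M) → (W1 Y cs cf).length = n1 cs cf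
  | [], _ => rfl
  | c :: t, h => by
    have h1 := h c List.mem_cons_self
    rw [W1, n1, List.length_append, List.length_append, List.length_take, List.length_rotate, hM,
      W1_len hM fun c' hc' => h c' (List.mem_cons_of_mem _ hc'), min_eq_left h1.le]

theorem W2_len {ι : Type} {Y : ι → List Pt} {M : ℕ} (hM : ∀ l, (Y l).length = M) {cf : List Pt} :
    ∀ {cs : List (Cd ι)}, (∀ c ∈ cs, c.2.2.2 < M) → (W2 Y cs cf).length = n2 M cs cf
  | [], _ => by rw [W2, n2, rv_length]
  | c :: t, h => by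
    rw [W2, n2, List.length_append, List.length_append, List.length_drop, List.length_rotate, hM,
      W2_len hM fun c' hc' => h c' (List.mem_cons_of_mem _ hc'), rv_length]

theorem n12 {ι : Type} {M : ℕ} {cf : List Pt} : ∀ {cs : List (Cd ι)}, (∀ c ∈ cs, c.2.2.2 < M) →
    n1 cs cf + n2 M cs cf = cs.length * M + 2 * lam cs cf
  | [], _ => by
    rw [n1, n2, lam, List.length_nil]
    ring
  | c :: t, h => by
    have h1 := h c List.mem_cons_self
    have h2 := n12 (cf := cf) fun c' hc' => h c' (List.mem_cons_of_mem _ hc')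
    rw [n1, n2, lam, List.length_cons, Nat.succ_mul]
    omega

theorem lam_le {ι : Type} {K : ℕ} {cf : List Pt} (hcf : cf.length ≤ K) : ∀ {cs : List (Cd ι)},
    (∀ c ∈ cs, c.1.length ≤ K) → lam cs cf ≤ (cs.length + 1) * K
  | [], _ => by
    rw [lam, List.length_nil]
    omega
  | c :: t, h => by
    have h1 := h c List.mem_cons_self
    have h2 := lam_le hcf fun c' hc' => h c' (List.mem_cons_of_mem _ hc')
    rw [lam, List.length_cons]
    have h3 : (t.length + 1 + 1) * K = (t.length + 1) * K + K := by ring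
    omega

theorem decode {ι : Type} {Y Y' : ι → List Pt} {M : ℕ} (hM : ∀ l, (Y l).length = M)
    (hM' : ∀ l, (Y' l).length = M) {cf : List Pt} : ∀ {cs : List (Cd ι)},
    (∀ c ∈ cs, c.2.2.2 < M) → W1 Y cs cf = W1 Y' cs cf → W2 Y cs cf = W2 Y' cs cf →
      ∀ c ∈ cs, Y c.2.1 = Y' c.2.1
  | [], _, _, _ => by simp
  | c :: t, h, e1, e2 => by
    have h1 := h c List.mem_cons_self
    rw [W1, W1] at e1
    have e3 := List.append_cancel_left e1
    have e4 := List.append_inj e3 (by
      rw [List.length_take, List.length_take, List.length_rotate, List.length_rotate, hM, hM'])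
    rw [W2, W2] at e2
    have e5 := List.append_inj' e2 (by
      rw [List.length_append, List.length_append, List.length_drop, List.length_drop,
        List.length_rotate, List.length_rotate, hM, hM'])
    have e6 := List.append_cancel_right e5.2
    have e7 : (Y c.2.1).rotate c.2.2.1 = (Y' c.2.1).rotate c.2.2.1 := by
      rw [← List.take_append_drop c.2.2.2 ((Y c.2.1).rotate c.2.2.1), e4.1, e6,
        List.take_append_drop]
    intro c' hc'
    rcases List.mem_cons.1 hc' with rfl | hc'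
    · exact List.rotate_injective _ e7
    · exact decode hM hM' (fun c'' hc'' => h c'' (List.mem_cons_of_mem _ hc'')) e4.2 e5.1 c' hc'

/-! ### the count -/

/-- number of codes -/
def Nc (k M K : ℕ) : ℕ := (5 ^ K * (k * (M * M)) + 1) ^ k * 5 ^ K

theorem count {ι : Type} [Fintype ι] {M : ℕ} {P : Finset (List Pt)} (hM : ∀ l ∈ P, l.length = M)
    (hne : P.Nonempty) {G : List Pt → Prop} (hG : ∀ w, G w → ∀ s ∈ w, Un s) {K : ℕ}
    (H : ∀ Y : ι → List Pt, (∀ l, Y l ∈ P) → ∃ (cs : List (Cd ι)) (cf : List Pt),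
      G (W1 Y cs cf) ∧ G (rv (W2 Y cs cf)) ∧
      (∀ c ∈ cs, c.2.2.1 < M ∧ c.2.2.2 < M ∧ (∀ s ∈ c.1, Un s) ∧ c.1.length ≤ K) ∧
      (cs.map fun c => c.2.1).Nodup ∧ (∀ s ∈ cf, Un s) ∧ cf.length ≤ K) :
    ∃ q k1 k2 L : ℕ, q ≤ Fintype.card ι ∧ k1 + k2 = q * M + 2 * L ∧
      L ≤ (Fintype.card ι + 1) * K ∧
      P.card ^ q ≤ Nc (Fintype.card ι) M K *
        (Nat.card {w // G w ∧ w.length = k1} * Nat.card {w // G w ∧ w.length = k2}) := by
  classical
  set k := Fintype.card ι with hk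
  set O : Finset (ι → List Pt) := Fintype.piFinset fun _ => P with hO
  have cO : O.card = P.card ^ k := by
    rw [hO, Fintype.card_piFinset, Finset.prod_const, Finset.card_univ]
  have hOm : ∀ Y, Y ∈ O ↔ ∀ l, Y l ∈ P := fun Y => Fintype.mem_piFinset
  choose! cs cf g1 g2 g3 g4 g5 g6 using H
  set B : Finset (Cd ι) := LL U4 K ×ˢ (Finset.univ ×ˢ (Finset.range M ×ˢ Finset.range M)) with hB
  set T : Finset (List (Cd ι) × List Pt) := LL B k ×ˢ LL U4 K with hT
  have cU : (LL U4 K).card ≤ 5 ^ K := by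
    have := card_LL U4 K
    rwa [card_U4] at this
  have cT : T.card ≤ Nc k M K := by
    rw [hT, Finset.card_product, Nc]
    refine Nat.mul_le_mul ((card_LL B k).trans (Nat.pow_le_pow_left ?_ k)) cU
    rw [hB, Finset.card_product, Finset.card_product, Finset.card_product, Finset.card_univ,
      Finset.card_range]
    exact Nat.add_le_add_right (Nat.mul_le_mul_right _ cU) 1
  have hmaps : ∀ Y ∈ O, (cs Y, cf Y) ∈ T := by
    intro Y hY
    rw [hOm] at hY
    rw [hT, Finset.mem_product]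
    refine ⟨mem_LL ?_ ?_, mem_LL (g6 Y hY) fun s hs => mem_U4 (g5 Y hY s hs)⟩
    · have h1 := (g4 Y hY).length_le_card
      rw [List.length_map] at h1
      exact h1
    · intro c hc
      obtain ⟨h1, h2, h3, h4⟩ := g3 Y hY c hc
      rw [hB, Finset.mem_product, Finset.mem_product, Finset.mem_product]
      exact ⟨mem_LL h4 fun s hs => mem_U4 (h3 s hs), Finset.mem_univ _, Finset.mem_range.2 h1,
        Finset.mem_range.2 h2⟩
  have hOne : O.Nonempty := by
    obtain ⟨l, hl⟩ := hne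
    exact ⟨fun _ => l, (hOm _).2 fun _ => hl⟩
  have hTne : T.Nonempty := by
    obtain ⟨Y, hY⟩ := hOne
    exact ⟨_, hmaps Y hY⟩
  obtain ⟨c0, hc0, hmax⟩ := Finset.exists_max_image T
    (fun c => (O.filter fun Y => (cs Y, cf Y) = c).card) hTne
  have h1 : O.card ≤ (O.filter fun Y => (cs Y, cf Y) = c0).card * T.card :=
    Finset.card_le_mul_card_image_of_maps_to hmaps _ fun b hb => hmax b hb
  have hPpos : 0 < P.card := hne.card_pos
  have hOpos : 0 < O.card := hOne.card_pos
  have hFpos : 0 < (O.filter fun Y => (cs Y, cf Y) = c0).card := by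
    rcases Nat.eq_zero_or_pos (O.filter fun Y => (cs Y, cf Y) = c0).card with h | h
    · rw [h, zero_mul] at h1
      omega
    · exact h
  obtain ⟨Y0, hY0⟩ := Finset.card_pos.1 hFpos
  rw [Finset.mem_filter, hOm] at hY0
  obtain ⟨hY0, hY0c⟩ := hY0
  obtain ⟨cs0, cf0⟩ := c0
  have e1 : cs Y0 = cs0 := congrArg Prod.fst hY0c
  have e2 : cf Y0 = cf0 := congrArg Prod.snd hY0c
  have f3 := g3 Y0 hY0
  have f4 := g4 Y0 hY0
  have f6 := g6 Y0 hY0
  rw [e1] at f3 f4
  rw [e2] at f6
  have ha : ∀ c ∈ cs0, c.2.2.2 < M := fun c hc => (f3 c hc).2.1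
  set I : Finset ι := (cs0.map fun c => c.2.1).toFinset with hI
  have cI : I.card = cs0.length := by
    rw [hI, List.toFinset_card_of_nodup f4, List.length_map]
  have hq : cs0.length ≤ k := by
    rw [← cI]
    exact Finset.card_le_univ I
  have : Finite {w // G w ∧ w.length = n1 cs0 cf0} :=
    finite_of (n1 cs0 cf0) fun w hw => ⟨hG w hw.1, hw.2⟩
  have : Finite {w // G w ∧ w.length = n2 M cs0 cf0} :=
    finite_of (n2 M cs0 cf0) fun w hw => ⟨hG w hw.1, hw.2⟩
  have h2 : Nat.card {Y // Y ∈ O.filter fun Y => (cs Y, cf Y) = (cs0, cf0)} ≤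
      Nat.card ({w // G w ∧ w.length = n1 cs0 cf0} × {w // G w ∧ w.length = n2 M cs0 cf0} ×
        ({l // l ∉ I} → {p // p ∈ P})) := by
    have hm : ∀ Y : {Y // Y ∈ O.filter fun Y => (cs Y, cf Y) = (cs0, cf0)},
        (∀ l, Y.1 l ∈ P) ∧ cs Y.1 = cs0 ∧ cf Y.1 = cf0 := by
      rintro ⟨Y, hY⟩
      rw [Finset.mem_filter, hOm] at hY
      exact ⟨hY.1, congrArg Prod.fst hY.2, congrArg Prod.snd hY.2⟩
    have hl : ∀ Y : {Y // Y ∈ O.filter fun Y => (cs Y, cf Y) = (cs0, cf0)},
        ∀ l, (Y.1 l).length = M := fun Y l => hM _ ((hm Y).1 l)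
    refine Nat.card_le_card_of_injective (fun Y => (⟨W1 Y.1 cs0 cf0, by
      have := g1 Y.1 (hm Y).1
      rw [(hm Y).2.1, (hm Y).2.2] at this
      exact ⟨this, W1_len (hl Y) ha⟩⟩, ⟨rv (W2 Y.1 cs0 cf0), by
      have := g2 Y.1 (hm Y).1
      rw [(hm Y).2.1, (hm Y).2.2] at this
      exact ⟨this, by rw [rv_length]; exact W2_len (hl Y) ha⟩⟩,
      fun l => ⟨Y.1 l.1, (hm Y).1 l.1⟩)) ?_
    intro Y Y' h
    simp only [Prod.mk.injEq, Subtype.mk.injEq] at h
    obtain ⟨h3, h4, h5⟩ := h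
    have h6 := decode (hl Y) (hl Y') ha h3 (rv_inj h4)
    apply Subtype.ext
    funext l
    by_cases hl' : l ∈ I
    · rw [hI, List.mem_toFinset, List.mem_map] at hl'
      obtain ⟨c, hc, rfl⟩ := hl'
      exact h6 c hc
    · have := congrFun h5 ⟨l, hl'⟩
      exact congrArg Subtype.val this
  have h3 : Nat.card {Y // Y ∈ O.filter fun Y => (cs Y, cf Y) = (cs0, cf0)} =
      (O.filter fun Y => (cs Y, cf Y) = (cs0, cf0)).card := by
    rw [Nat.card_eq_fintype_card, Fintype.card_coe]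
  have h4 : Nat.card ({l // l ∉ I} → {p // p ∈ P}) = P.card ^ (k - cs0.length) := by
    rw [Nat.card_eq_fintype_card, Fintype.card_fun, Fintype.card_coe]
    congr 1
    rw [Fintype.card_subtype_compl, Fintype.card_coe, cI]
  rw [Nat.card_prod, Nat.card_prod, h3, h4] at h2
  refine ⟨cs0.length, n1 cs0 cf0, n2 M cs0 cf0, lam cs0 cf0, hq, n12 ha, ?_, ?_⟩
  · refine (lam_le f6 fun c hc => (f3 c hc).2.2.2).trans ?_
    exact Nat.mul_le_mul_right _ (by omega)
  · have h5 : P.card ^ (k - cs0.length) * P.card ^ cs0.length ≤ P.card ^ (k - cs0.length) *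
        (Nc k M K * (Nat.card {w // G w ∧ w.length = n1 cs0 cf0} *
          Nat.card {w // G w ∧ w.length = n2 M cs0 cf0})) := by
      rw [← pow_add, show k - cs0.length + cs0.length = k by omega, ← cO]
      refine h1.trans ((Nat.mul_le_mul h2 cT).trans (le_of_eq ?_))
      ring
    exact Nat.le_of_mul_le_mul_left h5 (Nat.pow_pos hPpos)

end Pool.Agent.Work.MP_376faf_co_gap
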