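import Pool.Agent.Work.MP_376faf_co_gap.Dia
import Pool.Agent.Work.MP_376faf_co_gap.Codes

/-! The counting step: cut a polygon along two independent chords. -/

set_option autoImplicit false

namespace Pool.Agent.Work.MP_376faf_co_gap

open Pool.Agent.Work.MP_376faf_co_lower
open Pool.Agent.Work.MP_376faf_co_hw
open Pool.Agent.Work.MP_376faf_co_hw.HP (Nb)

theorem VS_VWx {p : Pt} {l : List Pt} {q : Pt} (h : VS p l q) : VW p l q := by
  obtain ⟨i, hi, e⟩ := h
  exact ⟨i, hi.le, e⟩

theorem chord_pos {L N k n : ℕ} {l D : List Pt} (hl : PG l) (hlN : l.length = N) (hk0 : 0 < k)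
    (hk : k < N) (h : Chord L l k n D) : 0 < n := by
  rcases Nat.eq_zero_or_pos n with h0 | h0
  · exfalso
    obtain ⟨-, h1, h2, -⟩ := h
    rw [h0] at h1
    rw [List.eq_nil_of_length_eq_zero h1, List.sum_nil] at h2
    have := hl.2.2.1 (Set.mem_Iio.2 (show 0 < l.length by omega))
      (Set.mem_Iio.2 (show k < l.length by omega)) (by rw [pos_zero, h2])
    omega
  · exact h0

/-- first polygon -/
theorem cut_one {L N k n : ℕ} {l D : List Pt} (hl : PG l) (hlN : l.length = N) (hk0 : 2 ≤ k)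
    (hk : k < N) (h : Chord L l k n D) : PGB L (k + n) (l.take k ++ rv D) := by
  have hn := chord_pos hl hlN (by omega) hk h
  obtain ⟨h1, h2, h3, h4, b, hb⟩ := h
  obtain ⟨c1, c2, c3⟩ := hl.cut (a := k) (by omega) (by omega)
  have hlt : (l.take k).length = k := by rw [List.length_take]; omega
  have hs : (l.take k).sum = pos l k := rfl
  refine ⟨pg_append (p := 0) c1 h1.rv ?_ ?_ ?_, ?_, b, ?_⟩
  · rw [hs, rv_sum, h3]
    abel
  · rw [hlt, rv_length]
    omega
  · intro q q1 q2
    rw [hs, ← h3] at q2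
    have q3 := VW_rv.1 q2
    have q4 := VW_take (by omega) q1
    rcases h4 q q3 q4 with q5 | q5
    · exact Or.inr q5
    · left
      rw [q5, hs, zero_add]
  · rw [List.length_append, hlt, rv_length, h2]
  · intro q hq
    rcases VW.append.1 (VS_VWx hq) with q1 | q1
    · exact hb q (Or.inl (VW_take (by omega) q1))
    · rw [hs, ← h3] at q1
      exact hb q (Or.inr (VW_rv.1 q1))

/-- second polygon -/
theorem cut_two {L N k n : ℕ} {l D : List Pt} (hl : PG l) (hlN : l.length = N) (hk0 : 0 < k)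
    (hk : k + 2 ≤ N) (h : Chord L l k n D) : PGB L (N - k + n) (l.drop k ++ D) := by
  have hn := chord_pos hl hlN hk0 (by omega) h
  obtain ⟨h1, h2, h3, h4, b, hb⟩ := h
  obtain ⟨c1, c2, c3⟩ := hl.cut (a := k) (by omega) (by omega)
  have hld : (l.drop k).length = N - k := by rw [List.length_drop]; omega
  have hs : (l.take k).sum = pos l k := rfl
  have hend : pos l k + (l.drop k).sum = 0 := by rw [← hs, c3]
  refine ⟨pg_append (p := pos l k) c2 h1 ?_ ?_ ?_, ?_, b - pos l k, ?_⟩
  · rw [h3, add_comm]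
    exact hend
  · rw [hld]
    omega
  · intro q q1 q2
    rw [hend] at q2
    have q4 : VS 0 l q := VW_drop (a := k) hl.2.1 (by omega) (by omega)
      (by rw [zero_add, hs]; exact q1)
    rcases h4 q q2 q4 with q5 | q5
    · left
      rw [hend, q5]
    · exact Or.inr q5
  · rw [List.length_append, hld, h2]
  · intro q hq
    have e1 : VW (pos l k) (l.drop k ++ D) (pos l k + q) := by
      obtain ⟨i, hi, e⟩ := VS_VWx hq
      exact ⟨i, hi, by rw [e, zero_add]⟩
    have e2 : InR b.1 (b.1 + L) b.2 (b.2 + L) (pos l k + q) := by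
      rcases VW.append.1 e1 with q1 | q1
      · exact hb _ (Or.inl (VW_drop (a := k) hl.2.1 (by omega) (by omega)
          (by rw [zero_add, hs]; exact q1)))
      · rw [hend] at q1
        exact hb _ (Or.inr q1)
    unfold InR at e2 ⊢
    simp only [Prod.fst_add, Prod.snd_add, Prod.fst_sub, Prod.snd_sub] at e2 ⊢
    omega

theorem chord_fin (L : ℕ) (l : List Pt) (k n : ℕ) : Finite {D : List Pt // Chord L l k n D} :=
  finite_of n fun _ h => ⟨h.1.1, h.2.1⟩

theorem count_step {L N n0 : ℕ} {x g : ℝ} (hN : 32 ≤ N) (hx : 0 < x) (hg : 0 < g)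
    (hG : ∀ l, PGB L N l → ∃ i < N, ∃ k, N ≤ 16 * k ∧ 16 * k ≤ 15 * N ∧ ∃ n ≤ n0,
      g ≤ (Nat.card {D : List Pt // Chord L (l.rotate i) k n D} : ℝ) * x ^ n) :
    ∃ k n, N ≤ 16 * k ∧ 16 * k ≤ 15 * N ∧ n ≤ n0 ∧
      (cPG L N : ℝ) * x ^ N * g ^ 2 ≤ (N:ℝ) ^ 2 * (n0 + 1) *
        (((cPG L (k + n) : ℝ) * x ^ (k + n)) * ((cPG L (N - k + n) : ℝ) * x ^ (N - k + n))) := by
  classical
  choose! i hi k hk1 hk2 n hn hc using hG
  have hfin := finite_PGB L N
  have := Fintype.ofFinite {l : List Pt // PGB L N l}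
  set f : ℕ × ℕ → ℝ := fun p => ((cPG L (p.1 + p.2) : ℝ) * x ^ (p.1 + p.2)) *
    ((cPG L (N - p.1 + p.2) : ℝ) * x ^ (N - p.1 + p.2)) with hf
  set Λ : Finset (ℕ × ℕ) := ((Finset.range N).filter fun k => N ≤ 16 * k ∧ 16 * k ≤ 15 * N) ×ˢ
    Finset.range (n0 + 1) with hΛ
  have hΛne : Λ.Nonempty := by
    refine ⟨(N / 2, 0), ?_⟩
    rw [hΛ, Finset.mem_product, Finset.mem_filter, Finset.mem_range, Finset.mem_range]
    simp only
    omega
  obtain ⟨⟨k0, n1⟩, hm, hmax⟩ := Finset.exists_max_image Λ f hΛne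
  have hm2 := hm
  rw [hΛ, Finset.mem_product, Finset.mem_filter, Finset.mem_range, Finset.mem_range] at hm2
  simp only at hm2
  refine ⟨k0, n1, hm2.1.2.1, hm2.1.2.2, by omega, ?_⟩
  change _ ≤ (N:ℝ) ^ 2 * (n0 + 1) * f (k0, n1)
  -- the labels
  set lab : {l : List Pt // PGB L N l} → ℕ × (ℕ × ℕ) := fun t => (i t.1, (k t.1, n t.1)) with hlab
  set Γ : Finset (ℕ × (ℕ × ℕ)) := Finset.range N ×ˢ Λ with hΓ
  have hmaps : ∀ t ∈ (Finset.univ : Finset {l : List Pt // PGB L N l}), lab t ∈ Γ := by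
    intro t _
    have e1 := hi t.1 t.2
    have e2 := hk1 t.1 t.2
    have e3 := hk2 t.1 t.2
    have e4 := hn t.1 t.2
    rw [hΓ, Finset.mem_product, hΛ, Finset.mem_product, Finset.mem_filter, Finset.mem_range,
      Finset.mem_range, Finset.mem_range]
    simp only [hlab]
    omega
  -- the injection for fixed labels
  have hinj : ∀ a ∈ Γ, ∑ t ∈ (Finset.univ : Finset {l : List Pt // PGB L N l}).filter
      (fun t => lab t = a),
        (Nat.card {D : List Pt // Chord L (t.1.rotate (i t.1)) (k t.1) (n t.1) D}) ^ 2 ≤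
      cPG L (a.2.1 + a.2.2) * cPG L (N - a.2.1 + a.2.2) := by
    rintro ⟨i0, k1, m1⟩ ha
    rw [hΓ, Finset.mem_product, hΛ, Finset.mem_product, Finset.mem_filter, Finset.mem_range,
      Finset.mem_range, Finset.mem_range] at ha
    simp only at ha ⊢
    have hk2 : 2 ≤ k1 := by omega
    have hk3 : k1 + 2 ≤ N := by omega
    have h1 : ∀ t ∈ (Finset.univ : Finset {l : List Pt // PGB L N l}).filter
        (fun t => lab t = (i0, (k1, m1))),
        (Nat.card {D : List Pt // Chord L (t.1.rotate (i t.1)) (k t.1) (n t.1) D}) ^ 2 =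
          Nat.card ({D : List Pt // Chord L (t.1.rotate i0) k1 m1 D} ×
            {D : List Pt // Chord L (t.1.rotate i0) k1 m1 D}) := by
      intro t ht
      rw [Finset.mem_filter] at ht
      obtain ⟨e1, e2⟩ := Prod.mk.inj ht.2
      obtain ⟨e3, e4⟩ := Prod.mk.inj e2
      rw [e1, e3, e4, Nat.card_prod, pow_two]
    rw [Finset.sum_congr rfl h1]
    have hcf : ∀ t : {l : List Pt // PGB L N l},
        Finite {D : List Pt // Chord L (t.1.rotate i0) k1 m1 D} := fun t => chord_fin _ _ _ _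
    have h2 : ∑ t ∈ (Finset.univ : Finset {l : List Pt // PGB L N l}).filter
        (fun t => lab t = (i0, (k1, m1))),
          Nat.card ({D : List Pt // Chord L (t.1.rotate i0) k1 m1 D} ×
            {D : List Pt // Chord L (t.1.rotate i0) k1 m1 D}) ≤
        Nat.card (Σ t : {l : List Pt // PGB L N l},
          ({D : List Pt // Chord L (t.1.rotate i0) k1 m1 D} ×
            {D : List Pt // Chord L (t.1.rotate i0) k1 m1 D})) := by
      rw [Nat.card_sigma]
      exact Finset.sum_le_sum_of_subset (Finset.filter_subset _ _)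
    refine h2.trans ?_
    unfold cPG
    rw [← Nat.card_prod]
    have hf1 := finite_PGB L (k1 + m1)
    have hf2 := finite_PGB L (N - k1 + m1)
    have hrot : ∀ t : {l : List Pt // PGB L N l}, PG (t.1.rotate i0) ∧
        (t.1.rotate i0).length = N := by
      intro t
      refine ⟨t.2.1.rot ?_, by rw [List.length_rotate, t.2.2.1]⟩
      rw [t.2.2.1]
      omega
    refine Nat.card_le_card_of_injective
      (fun p : Σ t : {l : List Pt // PGB L N l},
          ({D : List Pt // Chord L (t.1.rotate i0) k1 m1 D} ×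
            {D : List Pt // Chord L (t.1.rotate i0) k1 m1 D}) =>
        ((⟨(p.1.1.rotate i0).take k1 ++ rv p.2.1.1,
            cut_one (hrot p.1).1 (hrot p.1).2 hk2 (by omega) p.2.1.2⟩,
          ⟨(p.1.1.rotate i0).drop k1 ++ p.2.2.1,
            cut_two (hrot p.1).1 (hrot p.1).2 (by omega) hk3 p.2.2.2⟩) :
          {l : List Pt // PGB L (k1 + m1) l} × {l : List Pt // PGB L (N - k1 + m1) l})) ?_
    rintro ⟨⟨l, hl⟩, ⟨D1, hD1⟩, ⟨D2, hD2⟩⟩ ⟨⟨l', hl'⟩, ⟨D1', hD1'⟩, ⟨D2', hD2'⟩⟩ h
    simp only [Prod.mk.injEq, Subtype.mk.injEq] at h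
    obtain ⟨e1, e2⟩ := h
    have hlen : (l.rotate i0).length = (l'.rotate i0).length := by
      rw [List.length_rotate, List.length_rotate, hl.2.1, hl'.2.1]
    obtain ⟨e3, e4⟩ := List.append_inj e1 (by rw [List.length_take, List.length_take, hlen])
    obtain ⟨e5, e6⟩ := List.append_inj e2 (by rw [List.length_drop, List.length_drop, hlen])
    have e7 : l.rotate i0 = l'.rotate i0 := by
      rw [← List.take_append_drop k1 (l.rotate i0), ← List.take_append_drop k1 (l'.rotate i0),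
        e3, e5]
    have e8 := List.rotate_injective i0 e7
    have e9 := rv_inj e4
    subst e8 e9 e6
    rfl
  -- summation
  have hcard : (cPG L N : ℝ) = ∑ _t : {l : List Pt // PGB L N l}, (1:ℝ) := by
    unfold cPG
    rw [Nat.card_eq_fintype_card, Finset.sum_const, Finset.card_univ, nsmul_eq_mul, mul_one]
  have hterm : ∀ t : {l : List Pt // PGB L N l}, x ^ N * g ^ 2 ≤ x ^ (N + 2 * n t.1) *
      ((Nat.card {D : List Pt // Chord L (t.1.rotate (i t.1)) (k t.1) (n t.1) D} : ℕ) : ℝ) ^ 2 := by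
    intro t
    have e1 := hc t.1 t.2
    have e2 := pow_le_pow_left₀ hg.le e1 2
    calc x ^ N * g ^ 2 ≤ x ^ N * ((Nat.card {D : List Pt // Chord L (t.1.rotate (i t.1))
          (k t.1) (n t.1) D} : ℝ) * x ^ (n t.1)) ^ 2 :=
          mul_le_mul_of_nonneg_left e2 (by positivity)
      _ = _ := by
          rw [pow_add, mul_pow, pow_mul, ← pow_mul x 2, mul_comm 2, pow_mul]
          ring
  have hlabel : ∀ a ∈ Γ, ∑ t ∈ (Finset.univ : Finset {l : List Pt // PGB L N l}).filter
      (fun t => lab t = a), x ^ (N + 2 * n t.1) *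
      ((Nat.card {D : List Pt // Chord L (t.1.rotate (i t.1)) (k t.1) (n t.1) D} : ℕ) : ℝ) ^ 2 ≤
      f (k0, n1) := by
    rintro ⟨i0, k1, m1⟩ ha
    have h1 := hinj _ ha
    have ha2 := ha
    rw [hΓ, Finset.mem_product] at ha2
    have h2 := hmax _ ha2.2
    have ha3 := ha2.2
    rw [hΛ, Finset.mem_product, Finset.mem_filter, Finset.mem_range, Finset.mem_range] at ha3
    simp only at h1 ha3
    have h3 : ∑ t ∈ (Finset.univ : Finset {l : List Pt // PGB L N l}).filter
        (fun t => lab t = (i0, (k1, m1))), x ^ (N + 2 * n t.1) *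
        ((Nat.card {D : List Pt // Chord L (t.1.rotate (i t.1)) (k t.1) (n t.1) D} : ℕ) : ℝ) ^ 2 =
        x ^ (N + 2 * m1) * ((∑ t ∈ (Finset.univ : Finset {l : List Pt // PGB L N l}).filter
        (fun t => lab t = (i0, (k1, m1))),
        (Nat.card {D : List Pt // Chord L (t.1.rotate (i t.1)) (k t.1) (n t.1) D}) ^ 2 : ℕ) : ℝ) := by
      rw [Nat.cast_sum, Finset.mul_sum]
      refine Finset.sum_congr rfl fun t ht => ?_
      rw [Finset.mem_filter] at ht
      obtain ⟨e1, e2⟩ := Prod.mk.inj ht.2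
      obtain ⟨e3, e4⟩ := Prod.mk.inj e2
      rw [e4, Nat.cast_pow]
    rw [h3]
    refine le_trans ?_ h2
    have h4 : ((∑ t ∈ (Finset.univ : Finset {l : List Pt // PGB L N l}).filter
        (fun t => lab t = (i0, (k1, m1))),
        (Nat.card {D : List Pt // Chord L (t.1.rotate (i t.1)) (k t.1) (n t.1) D}) ^ 2 : ℕ) : ℝ) ≤
        (cPG L (k1 + m1) : ℝ) * (cPG L (N - k1 + m1) : ℝ) := by exact_mod_cast h1
    calc _ ≤ x ^ (N + 2 * m1) * ((cPG L (k1 + m1) : ℝ) * (cPG L (N - k1 + m1) : ℝ)) :=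
          mul_le_mul_of_nonneg_left h4 (by positivity)
      _ = f (k1, m1) := by
          rw [hf]
          simp only
          have e1 : N + 2 * m1 = (k1 + m1) + (N - k1 + m1) := by omega
          rw [e1, pow_add]
          ring
  have hf0 : 0 ≤ f (k0, n1) := by
    rw [hf]
    positivity
  calc (cPG L N : ℝ) * x ^ N * g ^ 2 = ∑ _t : {l : List Pt // PGB L N l}, x ^ N * g ^ 2 := by
        rw [hcard, Finset.sum_const, Finset.sum_const, nsmul_eq_mul, nsmul_eq_mul]
        ring
    _ ≤ ∑ t : {l : List Pt // PGB L N l}, x ^ (N + 2 * n t.1) *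
        ((Nat.card {D : List Pt // Chord L (t.1.rotate (i t.1)) (k t.1) (n t.1) D} : ℕ) : ℝ) ^ 2 :=
        Finset.sum_le_sum fun t _ => hterm t
    _ = ∑ a ∈ Γ, ∑ t ∈ (Finset.univ : Finset {l : List Pt // PGB L N l}).filter
        (fun t => lab t = a), x ^ (N + 2 * n t.1) *
        ((Nat.card {D : List Pt // Chord L (t.1.rotate (i t.1)) (k t.1) (n t.1) D} : ℕ) : ℝ) ^ 2 :=
        (Finset.sum_fiberwise_of_maps_to hmaps _).symm
    _ ≤ ∑ _a ∈ Γ, f (k0, n1) := Finset.sum_le_sum hlabel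
    _ = (Γ.card : ℝ) * f (k0, n1) := by rw [Finset.sum_const, nsmul_eq_mul]
    _ ≤ (N:ℝ) ^ 2 * (n0 + 1) * f (k0, n1) := by
        refine mul_le_mul_of_nonneg_right ?_ hf0
        have h1 : Γ.card ≤ N * (N * (n0 + 1)) := by
          rw [hΓ, Finset.card_product, hΛ, Finset.card_product, Finset.card_range,
            Finset.card_range]
          refine Nat.mul_le_mul_left _ (Nat.mul_le_mul_right _ ?_)
          exact (Finset.card_filter_le _ _).trans (le_of_eq (Finset.card_range N))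
        calc (Γ.card : ℝ) ≤ ((N * (N * (n0 + 1)) : ℕ) : ℝ) := by exact_mod_cast h1
          _ = _ := by
              push_cast
              ring

end Pool.Agent.Work.MP_376faf_co_gap
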