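import Pool.Agent.Work.MP_376faf_co_gap.GDefs

/-! The diamond: four corner walks form a polygon. Lengths of corner walks, polygons in small
boxes. -/

set_option autoImplicit false

namespace Pool.Agent.Work.MP_376faf_co_gap

open Pool.Agent.Work.MP_376faf_co_lower
open Pool.Agent.Work.MP_376faf_co_hw
open Pool.Agent.Work.MP_376faf_co_hw.HP (Nb)

theorem sum_le_len : ∀ l : List Pt, (∀ s ∈ l, Un s) → |l.sum.1| + |l.sum.2| ≤ (l.length : ℤ) := by
  intro l
  induction l with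
  | nil => intro _; simp
  | cons s l ih =>
    intro h
    have h1 := ih fun t ht => h t (List.mem_cons_of_mem _ ht)
    have h2 : |s.1| + |s.2| = 1 := h s List.mem_cons_self
    rw [List.sum_cons, Prod.fst_add, Prod.snd_add, List.length_cons]
    have h3 := abs_add_le s.1 l.sum.1
    have h4 := abs_add_le s.2 l.sum.2
    push_cast
    linarith

theorem CW_len {a m : ℕ} {l : List Pt} (h : CW a m l) : 2 * a ≤ m := by
  have h1 := sum_le_len l h.1.1
  rw [h.2.2.1, h.2.1] at h1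
  simp only [Nat.abs_cast] at h1
  omega

theorem cPG_zero {L N : ℕ} (h : (L + 1) ^ 2 < N) : cPG L N = 0 := by
  unfold cPG
  rw [Nat.card_eq_zero]
  left
  constructor
  rintro ⟨l, hl, hlen, b, hb⟩
  have hinj : Set.InjOn (pos l) ((Finset.range N : Finset ℕ) : Set ℕ) := by
    intro i hi j hj hij
    rw [Finset.coe_range, Set.mem_Iio, ← hlen] at hi hj
    exact hl.2.2.1 hi hj hij
  have hmap : ∀ i ∈ Finset.range N,
      pos l i ∈ Finset.Icc b.1 (b.1 + L) ×ˢ Finset.Icc b.2 (b.2 + L) := by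
    intro i hi
    rw [Finset.mem_range, ← hlen] at hi
    have h1 := hb (pos l i) ⟨i, hi, (zero_add _).symm⟩
    rw [Finset.mem_product, Finset.mem_Icc, Finset.mem_Icc]
    exact ⟨⟨h1.1, h1.2.1⟩, ⟨h1.2.2.1, h1.2.2.2⟩⟩
  have h1 := Finset.card_le_card_of_injOn (pos l) hmap hinj
  rw [Finset.card_range, Finset.card_product, Int.card_Icc, Int.card_Icc] at h1
  have e1 : (b.1 + (L:ℤ) + 1 - b.1).toNat = L + 1 := by omega
  have e2 : (b.2 + (L:ℤ) + 1 - b.2).toNat = L + 1 := by omega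
  rw [e1, e2] at h1
  have e3 : (L + 1) ^ 2 = (L + 1) * (L + 1) := by ring
  omega

/-! ### finitely many polygons -/

theorem finite_un : {s : Pt | Un s}.Finite := by
  have h : {s : Pt | Un s} ⊆ ((Finset.Icc (-1:ℤ) 1 ×ˢ Finset.Icc (-1:ℤ) 1 : Finset Pt) : Set Pt) := by
    intro s hs
    have hs' : |s.1| + |s.2| = 1 := hs
    have h1 : |s.1| ≤ 1 := by
      have := abs_nonneg s.2
      linarith
    have h2 : |s.2| ≤ 1 := by
      have := abs_nonneg s.1
      linarith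
    rw [abs_le] at h1 h2
    rw [Finset.mem_coe, Finset.mem_product, Finset.mem_Icc, Finset.mem_Icc]
    exact ⟨h1, h2⟩
  exact (Finset.finite_toSet _).subset h

theorem finite_steps (N : ℕ) : {l : List Pt | (∀ s ∈ l, Un s) ∧ l.length = N}.Finite := by
  have hfin : Finite {s : Pt // Un s} := finite_un
  have h1 : {l : List {s : Pt // Un s} | l.length = N}.Finite := List.finite_length_eq _ N
  refine (h1.image (List.map Subtype.val)).subset ?_
  rintro l ⟨hl, hlen⟩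
  refine ⟨l.attach.map (fun s => ⟨s.1, hl s.1 s.2⟩), ?_, ?_⟩
  · simp [hlen]
  · rw [List.map_map]
    have : (Subtype.val ∘ fun s : {x // x ∈ l} => (⟨s.1, hl s.1 s.2⟩ : {s : Pt // Un s})) =
        Subtype.val := rfl
    rw [this, List.attach_map_subtype_val]

theorem finite_PGB (L N : ℕ) : Finite {l : List Pt // PGB L N l} := by
  have h1 : {l : List Pt | PGB L N l}.Finite :=
    (finite_steps N).subset fun l hl => ⟨hl.1.1, hl.2.1⟩
  exact h1

/-! ### reflections of walks -/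

/-- reflection in the axes -/
def sg (σ τ : ℤ) (s : Pt) : Pt := (σ * s.1, τ * s.2)

theorem sum_sg (σ τ : ℤ) (l : List Pt) : (l.map (sg σ τ)).sum = sg σ τ l.sum := by
  induction l with
  | nil =>
    simp only [List.map_nil, List.sum_nil, sg, Prod.fst_zero, Prod.snd_zero, mul_zero]
    rfl
  | cons s l ih =>
    rw [List.map_cons, List.sum_cons, List.sum_cons, ih]
    unfold sg
    ext
    · simp [mul_add]
    · simp [mul_add]

theorem pos_sg (σ τ : ℤ) (l : List Pt) (i : ℕ) :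
    pos (l.map (sg σ τ)) i = sg σ τ (pos l i) := by
  unfold pos
  rw [← List.map_take, sum_sg]

theorem sg_inj {σ τ : ℤ} (hσ : σ = 1 ∨ σ = -1) (hτ : τ = 1 ∨ τ = -1) :
    Function.Injective (sg σ τ) := by
  intro s t h
  unfold sg at h
  rw [Prod.mk.injEq] at h
  rcases hσ with rfl | rfl <;> rcases hτ with rfl | rfl <;> exact Prod.ext (by omega) (by omega)

theorem Walk.sg {σ τ : ℤ} (hσ : σ = 1 ∨ σ = -1) (hτ : τ = 1 ∨ τ = -1) {l : List Pt}
    (h : Walk l) : Walk (l.map (sg σ τ)) := by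
  refine ⟨?_, ?_⟩
  · intro s hs
    obtain ⟨t, ht, rfl⟩ := List.mem_map.1 hs
    have h1 : |t.1| + |t.2| = 1 := h.1 t ht
    change |σ * t.1| + |τ * t.2| = 1
    rcases hσ with rfl | rfl <;> rcases hτ with rfl | rfl <;> simpa using h1
  · intro i hi j hj hij
    rw [List.length_map] at hi hj
    rw [pos_sg, pos_sg] at hij
    exact h.2 hi hj (sg_inj hσ hτ hij)

theorem map_sg_inj {σ τ : ℤ} (hσ : σ = 1 ∨ σ = -1) (hτ : τ = 1 ∨ τ = -1) {l l' : List Pt}
    (h : l.map (sg σ τ) = l'.map (sg σ τ)) : l = l' :=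
  (List.map_injective_iff.2 (sg_inj hσ hτ)) h

/-! ### joining walks by one step -/

theorem VW_one {r s z : Pt} : VW r [s] z ↔ z = r ∨ z = r + s := by
  constructor
  · rintro ⟨i, hi, rfl⟩
    simp only [List.length_singleton] at hi
    have hi' : i = 0 ∨ i = 1 := by omega
    rcases hi' with rfl | rfl
    · exact Or.inl (by rw [pos_zero, add_zero])
    · exact Or.inr (by simp [pos])
  · rintro (rfl | rfl)
    · exact ⟨0, Nat.zero_le _, by rw [pos_zero, add_zero]⟩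
    · exact ⟨1, le_rfl, by simp [pos]⟩

theorem walk_one {s : Pt} (h : Un s) : Walk [s] := by
  refine ⟨fun t ht => by rwa [List.mem_singleton.1 ht], ?_⟩
  have h0 : s ≠ 0 := by
    intro e
    rw [e] at h
    simp [Un] at h
  intro i hi j hj hij
  simp only [Set.mem_Iic, List.length_singleton] at hi hj
  have hi' : i = 0 ∨ i = 1 := by omega
  have hj' : j = 0 ∨ j = 1 := by omega
  have e1 : pos [s] 1 = s := by simp [pos]
  rcases hi' with rfl | rfl <;> rcases hj' with rfl | rfl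
  · rfl
  · rw [pos_zero, e1] at hij
    exact absurd hij.symm h0
  · rw [pos_zero, e1] at hij
    exact absurd hij h0
  · rfl

theorem VW_snoc {p q s z : Pt} {a : List Pt} (e : p + a.sum + s = q) :
    VW p (a ++ [s]) z ↔ VW p a z ∨ z = q := by
  rw [VW.append, VW_one, e]
  constructor
  · rintro (h | h | h)
    · exact Or.inl h
    · exact Or.inl (h ▸ VW.end p a)
    · exact Or.inr h
  · rintro (h | h)
    · exact Or.inl h
    · exact Or.inr (Or.inr h)

theorem walk_snoc {p q s : Pt} {a : List Pt} (ha : Walk a) (hs : Un s) (e : p + a.sum + s = q)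
    (h : ¬ VW p a q) : Walk (a ++ [s]) := by
  refine walk_append (p := p) ha (walk_one hs) ?_
  intro z h1 h2
  rcases VW_one.1 h2 with h3 | h3
  · exact h3
  · rw [e] at h3
    exact absurd (h3 ▸ h1) h

theorem walk_join {p q s : Pt} {a b : List Pt} (ha : Walk a) (hb : Walk b) (hs : Un s)
    (e : p + a.sum + s = q) (hd : ∀ z, VW p a z → ¬ VW q b z) : Walk (a ++ [s] ++ b) := by
  have h1 : Walk (a ++ [s]) := walk_snoc ha hs e fun h => hd q h (VW.start q b)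
  have e2 : p + (a ++ [s]).sum = q := by
    rw [List.sum_append, List.sum_singleton, ← add_assoc, e]
  refine walk_append (p := p) h1 hb ?_
  intro z h2 h3
  rw [e2] at h3 ⊢
  rcases (VW_snoc e).1 h2 with h4 | h4
  · exact absurd h3 (hd z h4)
  · exact h4

theorem VW_join {p q s z : Pt} {a b : List Pt} (e : p + a.sum + s = q) :
    VW p (a ++ [s] ++ b) z ↔ VW p a z ∨ VW q b z := by
  have e2 : p + (a ++ [s]).sum = q := by
    rw [List.sum_append, List.sum_singleton, ← add_assoc, e]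
  rw [VW.append, VW_snoc e, e2]
  constructor
  · rintro ((h | h) | h)
    · exact Or.inl h
    · exact Or.inr (h ▸ VW.start q b)
    · exact Or.inr h
  · rintro (h | h)
    · exact Or.inl (Or.inl h)
    · exact Or.inr h

theorem pg_join {p q s t : Pt} {a b : List Pt} (ha : Walk a) (hb : Walk b) (hs : Un s)
    (ht : Un t) (e1 : p + a.sum + s = q) (e2 : q + b.sum + t = p)
    (hd : ∀ z, VW p a z → ¬ VW q b z) (hl : 0 < a.length) :
    PG ((a ++ [s]) ++ (b ++ [t])) := by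
  have h1 : Walk (a ++ [s]) := walk_snoc ha hs e1 fun h => hd q h (VW.start q b)
  have h2 : Walk (b ++ [t]) := walk_snoc hb ht e2 fun h => hd p (VW.start p a) h
  have e3 : p + (a ++ [s]).sum = q := by
    rw [List.sum_append, List.sum_singleton, ← add_assoc, e1]
  have e4 : q + (b ++ [t]).sum = p := by
    rw [List.sum_append, List.sum_singleton, ← add_assoc, e2]
  refine pg_append (p := p) h1 h2 ?_ ?_ ?_
  · have : p + ((a ++ [s]).sum + (b ++ [t]).sum) = p := by rw [← add_assoc, e3, e4]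
    exact add_eq_left.1 this
  · simp only [List.length_append, List.length_singleton]
    omega
  · intro z h3 h4
    rw [e3] at h4 ⊢
    rcases (VW_snoc e1).1 h3 with h5 | h5
    · rcases (VW_snoc e2).1 h4 with h6 | h6
      · exact absurd h6 (hd z h5)
      · exact Or.inr h6
    · exact Or.inl h5

/-! ### the diamond -/

/-- the diamond of four corner walks -/
def dia (w1 w2 w3 w4 : List Pt) : List Pt :=
  ((w1.map (sg 1 (-1)) ++ [((1:ℤ), (0:ℤ))] ++ w2.map (sg 1 1)) ++ [((0:ℤ), (1:ℤ))]) ++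
    ((w3.map (sg (-1) 1) ++ [((-1:ℤ), (0:ℤ))] ++ w4.map (sg (-1) (-1))) ++ [((0:ℤ), (-1:ℤ))])

theorem CW_VW {a m : ℕ} {l : List Pt} (h : CW a m l) {σ τ : ℤ} {p q : Pt}
    (hq : VW p (l.map (sg σ τ)) q) : ∃ u v : ℤ, 0 ≤ u ∧ u ≤ a ∧ 0 ≤ v ∧ v ≤ a ∧
      q.1 = p.1 + σ * u ∧ q.2 = p.2 + τ * v := by
  obtain ⟨i, hi, rfl⟩ := hq
  rw [List.length_map, h.2.1] at hi
  have h1 := h.2.2.2 i hi
  refine ⟨(pos l i).1, (pos l i).2, h1.1, h1.2.1, h1.2.2.1, h1.2.2.2, ?_, ?_⟩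
  · rw [pos_sg]
    rfl
  · rw [pos_sg]
    rfl

theorem dia_PGB {a m : ℕ} {w1 w2 w3 w4 : List Pt} (h1 : CW a m w1) (h2 : CW a m w2)
    (h3 : CW a m w3) (h4 : CW a m w4) : PGB (2 * a + 1) (4 * m + 4) (dia w1 w2 w3 w4) := by
  have o1 : (1:ℤ) = 1 ∨ (1:ℤ) = -1 := Or.inl rfl
  have o2 : (-1:ℤ) = 1 ∨ (-1:ℤ) = -1 := Or.inr rfl
  have s1 := h1.2.2.1
  have s2 := h2.2.2.1
  have s3 := h3.2.2.1
  have s4 := h4.2.2.1
  set W1 := w1.map (sg 1 (-1)) with hW1
  set W2 := w2.map (sg 1 1) with hW2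
  set W3 := w3.map (sg (-1) 1) with hW3
  set W4 := w4.map (sg (-1) (-1)) with hW4
  have v1 : ∀ z, VW ((0:ℤ), (a:ℤ)) W1 z → 0 ≤ z.1 ∧ z.1 ≤ a ∧ 0 ≤ z.2 ∧ z.2 ≤ a := by
    intro z hz
    obtain ⟨u, v, b1, b2, b3, b4, b5, b6⟩ := CW_VW h1 hz
    simp only at b5 b6
    omega
  have v2 : ∀ z, VW ((a:ℤ) + 1, (0:ℤ)) W2 z →
      a + 1 ≤ z.1 ∧ z.1 ≤ 2 * a + 1 ∧ 0 ≤ z.2 ∧ z.2 ≤ a := by
    intro z hz
    obtain ⟨u, v, b1, b2, b3, b4, b5, b6⟩ := CW_VW h2 hz
    simp only at b5 b6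
    omega
  have v3 : ∀ z, VW (2 * (a:ℤ) + 1, (a:ℤ) + 1) W3 z →
      a + 1 ≤ z.1 ∧ z.1 ≤ 2 * a + 1 ∧ a + 1 ≤ z.2 ∧ z.2 ≤ 2 * a + 1 := by
    intro z hz
    obtain ⟨u, v, b1, b2, b3, b4, b5, b6⟩ := CW_VW h3 hz
    simp only at b5 b6
    omega
  have v4 : ∀ z, VW ((a:ℤ), 2 * (a:ℤ) + 1) W4 z →
      0 ≤ z.1 ∧ z.1 ≤ a ∧ a + 1 ≤ z.2 ∧ z.2 ≤ 2 * a + 1 := by
    intro z hz
    obtain ⟨u, v, b1, b2, b3, b4, b5, b6⟩ := CW_VW h4 hz
    simp only at b5 b6
    omega
  have u1 : Un ((1:ℤ), (0:ℤ)) := by simp [Un]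
  have u2 : Un ((0:ℤ), (1:ℤ)) := by simp [Un]
  have u3 : Un ((-1:ℤ), (0:ℤ)) := by simp [Un]
  have u4 : Un ((0:ℤ), (-1:ℤ)) := by simp [Un]
  have e1 : ((0:ℤ), (a:ℤ)) + W1.sum + ((1:ℤ), (0:ℤ)) = ((a:ℤ) + 1, (0:ℤ)) := by
    rw [hW1, sum_sg, s1]
    simp [sg]
  have e3 : (2 * (a:ℤ) + 1, (a:ℤ) + 1) + W3.sum + ((-1:ℤ), (0:ℤ)) = ((a:ℤ), 2 * (a:ℤ) + 1) := by
    rw [hW3, sum_sg, s3]
    simp only [sg, Prod.mk_add_mk, Prod.mk.injEq]
    constructor <;> ring
  have wA : Walk (W1 ++ [((1:ℤ), (0:ℤ))] ++ W2) :=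
    walk_join (Walk.sg o1 o2 h1.1) (Walk.sg o1 o1 h2.1) u1 e1 (by
      intro z hz hz'
      have c1 := v1 z hz
      have c2 := v2 z hz'
      omega)
  have wB : Walk (W3 ++ [((-1:ℤ), (0:ℤ))] ++ W4) :=
    walk_join (Walk.sg o2 o1 h3.1) (Walk.sg o2 o2 h4.1) u3 e3 (by
      intro z hz hz'
      have c1 := v3 z hz
      have c2 := v4 z hz'
      omega)
  have e2 : ((0:ℤ), (a:ℤ)) + (W1 ++ [((1:ℤ), (0:ℤ))] ++ W2).sum + ((0:ℤ), (1:ℤ)) =
      (2 * (a:ℤ) + 1, (a:ℤ) + 1) := by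
    rw [List.sum_append, List.sum_append, List.sum_singleton, hW1, hW2, sum_sg, sum_sg, s1, s2]
    simp only [sg, Prod.mk_add_mk, Prod.mk.injEq]
    constructor <;> ring
  have e4 : (2 * (a:ℤ) + 1, (a:ℤ) + 1) + (W3 ++ [((-1:ℤ), (0:ℤ))] ++ W4).sum +
      ((0:ℤ), (-1:ℤ)) = ((0:ℤ), (a:ℤ)) := by
    rw [List.sum_append, List.sum_append, List.sum_singleton, hW3, hW4, sum_sg, sum_sg, s3, s4]
    simp only [sg, Prod.mk_add_mk, Prod.mk.injEq]
    constructor <;> ring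
  have vA : ∀ z, VW ((0:ℤ), (a:ℤ)) (W1 ++ [((1:ℤ), (0:ℤ))] ++ W2) z →
      0 ≤ z.1 ∧ z.1 ≤ 2 * a + 1 ∧ 0 ≤ z.2 ∧ z.2 ≤ a := by
    intro z hz
    rcases (VW_join e1).1 hz with h | h
    · have := v1 z h
      omega
    · have := v2 z h
      omega
  have vB : ∀ z, VW (2 * (a:ℤ) + 1, (a:ℤ) + 1) (W3 ++ [((-1:ℤ), (0:ℤ))] ++ W4) z →
      0 ≤ z.1 ∧ z.1 ≤ 2 * a + 1 ∧ a + 1 ≤ z.2 ∧ z.2 ≤ 2 * a + 1 := by
    intro z hz
    rcases (VW_join e3).1 hz with h | h
    · have := v3 z h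
      omega
    · have := v4 z h
      omega
  have hpg : PG (dia w1 w2 w3 w4) := by
    unfold dia
    refine pg_join wA wB u2 u4 e2 e4 ?_ ?_
    · intro z hz hz'
      have c1 := vA z hz
      have c2 := vB z hz'
      omega
    · simp only [List.length_append, List.length_singleton]
      omega
  refine ⟨hpg, ?_, ((0:ℤ), -(a:ℤ)), ?_⟩
  · unfold dia
    simp only [List.length_append, List.length_singleton, List.length_map, h1.2.1, h2.2.1,
      h3.2.1, h4.2.1]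
    omega
  · rintro q ⟨i, hi, rfl⟩
    have e0 : (0:Pt) + pos (dia w1 w2 w3 w4) i = pos (dia w1 w2 w3 w4) i := zero_add _
    rw [e0]
    have hv : VW ((0:ℤ), (a:ℤ)) (dia w1 w2 w3 w4) (((0:ℤ), (a:ℤ)) + pos (dia w1 w2 w3 w4) i) :=
      ⟨i, hi.le, rfl⟩
    unfold dia at hv
    have e5 : ((0:ℤ), (a:ℤ)) + ((W1 ++ [((1:ℤ), (0:ℤ))] ++ W2) ++ [((0:ℤ), (1:ℤ))]).sum =
        (2 * (a:ℤ) + 1, (a:ℤ) + 1) := by
      rw [List.sum_append, List.sum_singleton, ← add_assoc, e2]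
    have hz : 0 ≤ (((0:ℤ), (a:ℤ)) + pos (dia w1 w2 w3 w4) i).1 ∧
        (((0:ℤ), (a:ℤ)) + pos (dia w1 w2 w3 w4) i).1 ≤ 2 * a + 1 ∧
        0 ≤ (((0:ℤ), (a:ℤ)) + pos (dia w1 w2 w3 w4) i).2 ∧
        (((0:ℤ), (a:ℤ)) + pos (dia w1 w2 w3 w4) i).2 ≤ 2 * a + 1 := by
      rcases VW.append.1 hv with h | h
      · rcases (VW_snoc e2).1 h with h | h
        · have := vA _ h
          unfold dia
          omega
        · unfold dia
          rw [h]
          simp only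
          omega
      · rw [e5] at h
        rcases (VW_snoc e4).1 h with h | h
        · have := vB _ h
          unfold dia
          omega
        · unfold dia
          rw [h]
          simp only
          omega
    unfold InR
    simp only [Prod.fst_add, Prod.snd_add] at hz
    simp only
    push_cast
    omega

theorem dia_inj {a m : ℕ} {w1 w2 w3 w4 w1' w2' w3' w4' : List Pt} (h1 : CW a m w1)
    (h2 : CW a m w2) (h3 : CW a m w3) (h4 : CW a m w4) (h1' : CW a m w1') (h2' : CW a m w2')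
    (h3' : CW a m w3') (h4' : CW a m w4') (h : dia w1 w2 w3 w4 = dia w1' w2' w3' w4') :
    w1 = w1' ∧ w2 = w2' ∧ w3 = w3' ∧ w4 = w4' := by
  have o1 : (1:ℤ) = 1 ∨ (1:ℤ) = -1 := Or.inl rfl
  have o2 : (-1:ℤ) = 1 ∨ (-1:ℤ) = -1 := Or.inr rfl
  have l1 : w1.length = w1'.length := h1.2.1.trans h1'.2.1.symm
  have l2 : w2.length = w2'.length := h2.2.1.trans h2'.2.1.symm
  have l3 : w3.length = w3'.length := h3.2.1.trans h3'.2.1.symm
  unfold dia at h
  obtain ⟨hA, hB⟩ := List.append_inj h (by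
    simp only [List.length_append, List.length_singleton, List.length_map, l1, l2])
  have hA' := List.append_cancel_right hA
  have hB' := List.append_cancel_right hB
  obtain ⟨hA1, hA2⟩ := List.append_inj hA' (by
    simp only [List.length_append, List.length_singleton, List.length_map, l1])
  obtain ⟨hB1, hB2⟩ := List.append_inj hB' (by
    simp only [List.length_append, List.length_singleton, List.length_map, l3])
  exact ⟨map_sg_inj o1 o2 (List.append_cancel_right hA1), map_sg_inj o1 o1 hA2,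
    map_sg_inj o2 o1 (List.append_cancel_right hB1), map_sg_inj o2 o2 hB2⟩

theorem diamond (a m : ℕ) :
    (Nat.card {l : List Pt // CW a m l}) ^ 4 ≤ cPG (2 * a + 1) (4 * m + 4) := by
  have hfin := finite_PGB (2 * a + 1) (4 * m + 4)
  have h1 : (Nat.card {l : List Pt // CW a m l}) ^ 4 =
      Nat.card (({l : List Pt // CW a m l} × {l : List Pt // CW a m l}) ×
        ({l : List Pt // CW a m l} × {l : List Pt // CW a m l})) := by
    rw [Nat.card_prod, Nat.card_prod]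
    ring
  rw [h1]
  unfold cPG
  refine Nat.card_le_card_of_injective
    (fun w => ⟨dia w.1.1.1 w.1.2.1 w.2.1.1 w.2.2.1,
      dia_PGB w.1.1.2 w.1.2.2 w.2.1.2 w.2.2.2⟩) ?_
  rintro ⟨⟨⟨w1, h1⟩, ⟨w2, h2⟩⟩, ⟨⟨w3, h3⟩, ⟨w4, h4⟩⟩⟩ ⟨⟨⟨w1', h1'⟩, ⟨w2', h2'⟩⟩,
    ⟨⟨w3', h3'⟩, ⟨w4', h4'⟩⟩⟩ e
  have e1 : dia w1 w2 w3 w4 = dia w1' w2' w3' w4' := congrArg Subtype.val e
  obtain ⟨rfl, rfl, rfl, rfl⟩ := dia_inj h1 h2 h3 h4 h1' h2' h3' h4' e1
  rfl

end Pool.Agent.Work.MP_376faf_co_gap
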