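import Pool.Agent.Work.MP_376faf_co_gap.Flat0
import Pool.Agent.Work.MP_376faf_co_win.Mass

/-! A length at which the bridges with span in `[S, 3S)` have polynomially large mass. -/

set_option autoImplicit false

namespace Pool.Agent.Work.MP_376faf_co_gap

open Filter Topology
open Pool.Agent.Work.MP_376faf_co_lower Pool.Agent.Work.MP_376faf_co_hw
open Pool.Agent.Work.MP_376faf_co_win
open scoped ENNReal

theorem num_flat3 {T C : ℝ} (hC : 1 ≤ C) (hT : 8 * C ≤ T)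
    (h : 1 / (C * T ^ 2) ≤ (T ^ 6 + 1) * (1 / T ^ 40)) : False := by
  have hT0 : 0 < T := by linarith
  have hT1 : 1 ≤ T := by linarith
  have hC0 : 0 < C := by linarith
  have h1 : 1 / (C * T ^ 2) * (C * T ^ 40) = T ^ 38 := by
    field_simp
  have h2 : (T ^ 6 + 1) * (1 / T ^ 40) * (C * T ^ 40) = C * (T ^ 6 + 1) := by
    field_simp
  have h3 : T ^ 38 ≤ C * (T ^ 6 + 1) := by
    rw [← h1, ← h2]
    exact mul_le_mul_of_nonneg_right h (by positivity)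
  have h4 : 1 ≤ T ^ 6 := one_le_pow₀ hT1
  have h5 : C * (T ^ 6 + 1) ≤ C * (2 * T ^ 6) := mul_le_mul_of_nonneg_left (by linarith) hC0.le
  have h6 : C * (2 * T ^ 6) < T ^ 7 := by
    have : 2 * C * T ^ 6 < T * T ^ 6 := mul_lt_mul_of_pos_right (by linarith) (by positivity)
    calc C * (2 * T ^ 6) = 2 * C * T ^ 6 := by ring
      _ < T * T ^ 6 := this
      _ = T ^ 7 := by ring
  have h7 : T ^ 7 ≤ T ^ 38 := pow_le_pow_right₀ hT1 (by norm_num)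
  linarith

/-- typical length of scale S is polynomial -/
theorem flat3 {μ : ℝ} (hμ : 1 ≤ μ)
    (hT : Tendsto (fun n : ℕ => (Nat.card (WalkFun n) : ℝ) ^ (1 / (n : ℝ))) atTop (𝓝 μ))
    (hc : ∀ n : ℕ, μ ^ n ≤ (Nat.card (WalkFun n) : ℝ)) : ∃ S0 : ℕ, ∀ S ≥ S0, ∃ n ≤ S ^ 6,
    ENNReal.ofReal (1 / (S:ℝ) ^ 40) ≤ mass (ENNReal.ofReal μ)⁻¹ (fun l => Bridge l ∧
      l.length = n ∧ (S : ℤ) ≤ l.sum.1 ∧ l.sum.1 < 3 * S) := by
  obtain ⟨C, hC1, hC⟩ := flat0 hμ hT hc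
  set x : ℝ≥0∞ := (ENNReal.ofReal μ)⁻¹ with hx
  refine ⟨8 * C, fun S hS => ?_⟩
  by_contra hcon
  push Not at hcon
  have hS1 : 1 ≤ S := by omega
  have hL : 3 * S * (C * S ^ 3 + 1) ≤ S ^ 6 + 1 := by
    have h1 : 3 * S * (C * S ^ 3 + 1) ≤ 6 * C * S ^ 4 := by
      have h2 : 1 ≤ C * S ^ 3 := Nat.mul_pos hC1 (Nat.pow_pos hS1)
      calc 3 * S * (C * S ^ 3 + 1) ≤ 3 * S * (C * S ^ 3 + C * S ^ 3) :=
            Nat.mul_le_mul_left _ (by omega)
        _ = 6 * C * S ^ 4 := by ring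
    have h3 : 6 * C * S ^ 4 ≤ S ^ 5 := by
      calc 6 * C * S ^ 4 ≤ S * S ^ 4 := Nat.mul_le_mul_right _ (by omega)
        _ = S ^ 5 := by ring
    have h4 : S ^ 5 ≤ S ^ 6 := Nat.pow_le_pow_right hS1 (by norm_num)
    omega
  have h1 : FB x S (3 * S) (C * S ^ 3) ≤ ∑' i : Fin (S ^ 6 + 1),
      mass x (fun l => Bridge l ∧ l.length = i.val ∧ (S : ℤ) ≤ l.sum.1 ∧ l.sum.1 < 3 * S) := by
    unfold FB mass
    refine sigma_ge (fun i : Fin (S ^ 6 + 1) => fun l => Bridge l ∧ l.length = i.val ∧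
      (S : ℤ) ≤ l.sum.1 ∧ l.sum.1 < 3 * S) _ ?_ (fun l => x ^ l.length)
    rintro l ⟨h1, h2, h3, h4⟩
    have h5 := FlS.len (L := S ^ 6) hL ⟨h1, h2, h3, h4⟩
    push_cast at h3
    exact ⟨⟨l.length, by omega⟩, h1, rfl, h2, h3⟩
  have h2 : FB x S (3 * S) (C * S ^ 3) ≤
      ENNReal.ofReal (((S:ℝ) ^ 6 + 1) * (1 / (S:ℝ) ^ 40)) := by
    refine h1.trans ?_
    rw [tsum_fintype]
    refine (Finset.sum_le_sum fun i _ => (hcon i.val (by have := i.2; omega)).le).trans ?_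
    rw [Finset.sum_const, Finset.card_univ, Fintype.card_fin, nsmul_eq_mul,
      ← ENNReal.ofReal_natCast, ← ENNReal.ofReal_mul (by positivity)]
    push_cast
    exact le_rfl
  have h3 := (hC S hS1).trans h2
  rw [ENNReal.ofReal_le_ofReal_iff (by positivity)] at h3
  refine num_flat3 (T := (S:ℝ)) (C := (C:ℝ)) (by exact_mod_cast hC1) ?_ h3
  exact_mod_cast hS

end Pool.Agent.Work.MP_376faf_co_gap
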