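import Pool.Agent.Work.MP_376faf_co_gap.ExCore
import Pool.Agent.Work.MP_376faf_co_gap.Flat3

/-! The family of corner walks at all scales. -/

set_option autoImplicit false

namespace Pool.Agent.Work.MP_376faf_co_gap

open Filter Topology
open Pool.Agent.Work.MP_376faf_co_lower Pool.Agent.Work.MP_376faf_co_hw
open Pool.Agent.Work.MP_376faf_co_win
open scoped ENNReal

/-- one large scale -/
theorem corner_large {μ : ℝ} (hμ : 1 ≤ μ) (hu : ∀ t, uu (ENNReal.ofReal μ)⁻¹ t ≤ 1) {S : ℕ}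
    (hS80 : 80 < S) (hSμ : 276352 * μ ^ 3 ≤ S)
    (hex : ∃ n, n ≤ S ^ 6 ∧ ENNReal.ofReal (1 / (S:ℝ) ^ 40) ≤ BS (ENNReal.ofReal μ)⁻¹ S n) :
    ∃ a m : ℕ, S ≤ a ∧ a ≤ 600 * S ∧ m ≤ 102 * S ^ 6 ∧
      1 ≤ μ ^ 6 * (S:ℝ) ^ 4704 * ((Nat.card {l : List Pt // CW a m l} : ℝ) * μ⁻¹ ^ m) := by
  obtain ⟨e, h, n, h1, h2, h3, h4, h5⟩ := fam_core hμ hu hS80 hSμ hex
  have hμ0 : 0 < μ := by linarith
  have hT0 : (0:ℝ) < S := by
    have : 0 < S := by omega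
    exact_mod_cast this
  have hS6 : 1 ≤ S ^ 6 := Nat.one_le_pow _ _ (by omega)
  refine ⟨48 * (e + h) + 3, 96 * n + 6, by omega, by omega, by omega, ?_⟩
  have h6 := corner_of_fam (e := e) (h := h) (W := 9 * S) (n := n) (by omega)
  rw [mass_card (n := n) (fun l hl => ⟨hl.1, hl.2.1⟩)] at h5
  set A := Nat.card {l : List Pt // CF e h (9 * S) n l} with hA
  set B := Nat.card {l : List Pt // CW (48 * (e + h) + 3) (96 * n + 6) l} with hB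
  have hx : (ENNReal.ofReal μ)⁻¹ = ENNReal.ofReal μ⁻¹ := (ENNReal.ofReal_inv_of_pos hμ0).symm
  rw [hx, ← ENNReal.ofReal_pow (by positivity), ← ENNReal.ofReal_natCast,
    ← ENNReal.ofReal_mul (by positivity)] at h5
  have h7 : 1 / (S:ℝ) ^ 49 ≤ A * μ⁻¹ ^ n := (ENNReal.ofReal_lt_ofReal_iff_of_nonneg
    (by positivity)).1 h5 |>.le
  have h8 : (A:ℝ) ^ 96 ≤ B := by exact_mod_cast h6
  have h9 : 1 ≤ (S:ℝ) ^ 49 * (A * μ⁻¹ ^ n) := by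
    rw [div_le_iff₀ (by positivity)] at h7
    linarith
  have h10 := one_le_pow₀ h9 (n := 96)
  have h11 : μ⁻¹ ^ (96 * n + 6) = (μ⁻¹ ^ n) ^ 96 * μ⁻¹ ^ 6 := by
    rw [pow_add, mul_comm 96 n, pow_mul]
  have h12 : μ ^ 6 * μ⁻¹ ^ 6 = 1 := by
    rw [← mul_pow, mul_inv_cancel₀ hμ0.ne', one_pow]
  calc (1:ℝ) ≤ ((S:ℝ) ^ 49 * (A * μ⁻¹ ^ n)) ^ 96 := h10
    _ = (S:ℝ) ^ 4704 * ((A:ℝ) ^ 96 * (μ⁻¹ ^ n) ^ 96) * (μ ^ 6 * μ⁻¹ ^ 6) := by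
        rw [h12, mul_pow, mul_pow, ← pow_mul]
        ring
    _ ≤ (S:ℝ) ^ 4704 * ((B:ℝ) * (μ⁻¹ ^ n) ^ 96) * (μ ^ 6 * μ⁻¹ ^ 6) := by gcongr
    _ = μ ^ 6 * (S:ℝ) ^ 4704 * ((B:ℝ) * μ⁻¹ ^ (96 * n + 6)) := by
        rw [h11]
        ring

/-- (b) the family of corner walks -/
theorem exists_fam {μ : ℝ} (hμ : 1 ≤ μ)
    (hT : Tendsto (fun n : ℕ => (Nat.card (WalkFun n) : ℝ) ^ (1 / (n : ℝ))) atTop (𝓝 μ))
    (hc : ∀ n : ℕ, μ ^ n ≤ (Nat.card (WalkFun n) : ℝ)) :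
    ∃ (C : ℕ) (a m : ℕ → ℕ), Fam μ⁻¹ C a m := by
  have hμ0 : 0 < μ := by linarith
  have hu := uu_le_one hμ hT
  obtain ⟨S0, hS0⟩ := flat3 hμ hT hc
  set S1 : ℕ := S0 + 81 + ⌈276352 * μ ^ 3⌉₊ with hS1
  have hlarge : ∀ S : ℕ, S1 ≤ S → ∃ a m : ℕ, S ≤ a ∧ a ≤ 600 * S ∧ m ≤ 102 * S ^ 6 ∧
      1 ≤ μ ^ 6 * (S:ℝ) ^ 4704 * ((Nat.card {l : List Pt // CW a m l} : ℝ) * μ⁻¹ ^ m) := by
    intro S hS
    refine corner_large hμ hu (by omega) ?_ ?_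
    · refine (Nat.le_ceil _).trans ?_
      exact_mod_cast (by omega : ⌈276352 * μ ^ 3⌉₊ ≤ S)
    · obtain ⟨n, hn, h⟩ := hS0 S (by omega)
      exact ⟨n, hn, h⟩
  choose! a m ha1 ha2 hm hmass using hlarge
  have hS11 : 1 ≤ S1 := by omega
  set C : ℕ := 600 * S1 + 102 * S1 ^ 6 + 4704 + ⌈μ ^ 6 * (S1:ℝ) ^ 4704⌉₊ with hC
  have hmx : ∀ S, 1 ≤ S → max S S1 ≤ S1 * S := by
    intro S hS
    refine max_le ?_ ?_
    · exact Nat.le_mul_of_pos_left S (by omega)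
    · exact Nat.le_mul_of_pos_right S1 (by omega)
  have hmx2 : ∀ S, S1 ≤ max S S1 := fun S => le_max_right _ _
  refine ⟨C, fun S => a (max S S1), fun S => m (max S S1), ?_, ?_, ?_, ?_⟩
  · intro S hS
    exact (le_max_left S S1).trans (ha1 _ (hmx2 S))
  · intro S hS
    refine (ha2 _ (hmx2 S)).trans ?_
    calc 600 * max S S1 ≤ 600 * (S1 * S) := Nat.mul_le_mul_left _ (hmx S hS)
      _ = 600 * S1 * S := by ring
      _ ≤ C * S := Nat.mul_le_mul_right _ (by omega)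
  · intro S hS
    refine (hm _ (hmx2 S)).trans ?_
    calc 102 * max S S1 ^ 6 ≤ 102 * (S1 * S) ^ 6 :=
          Nat.mul_le_mul_left _ (Nat.pow_le_pow_left (hmx S hS) 6)
      _ = 102 * S1 ^ 6 * S ^ 6 := by ring
      _ ≤ C * S ^ C := Nat.mul_le_mul (by omega) (Nat.pow_le_pow_right hS (by omega))
  · intro S hS
    refine (hmass _ (hmx2 S)).trans ?_
    refine mul_le_mul_of_nonneg_right ?_ (by positivity)
    have h1 : ((max S S1 : ℕ) : ℝ) ≤ S1 * S := by exact_mod_cast hmx S hS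
    have hSr : (1:ℝ) ≤ S := by exact_mod_cast hS
    calc μ ^ 6 * ((max S S1 : ℕ) : ℝ) ^ 4704 ≤ μ ^ 6 * (S1 * S) ^ 4704 := by gcongr
      _ = μ ^ 6 * (S1:ℝ) ^ 4704 * (S:ℝ) ^ 4704 := by rw [mul_pow]; ring
      _ ≤ (C:ℝ) * (S:ℝ) ^ C := by
          refine mul_le_mul ?_ (pow_le_pow_right₀ hSr (by omega)) (by positivity) (by positivity)
          refine (Nat.le_ceil _).trans ?_
          exact_mod_cast (by omega : ⌈μ ^ 6 * (S1:ℝ) ^ 4704⌉₊ ≤ C)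

end Pool.Agent.Work.MP_376faf_co_gap
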