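import Pool.Agent.Work.MP_376faf_co_gap.BrGap

/-! Polygons of nearly every length. -/

set_option autoImplicit false

namespace Pool.Agent.Work.MP_376faf_co_gap

open Filter Topology
open Pool.Agent.Work.MP_376faf_co_lower
open Pool.Agent.Work.MP_376faf_co_hw

/-- from bridges to polygons -/
theorem pp_ge {μ : ℝ} (hμ : 1 ≤ μ) {m n : ℕ} (hm : 1 ≤ m) (hmn : m + 1 ≤ n) {E : ℝ}
    (hE : FF μ m ≤ E) :
    μ ^ (2 * (m + 1)) * Real.exp (-(2 * E + 2 * Real.log μ + 6 * Real.log n + 3)) ≤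
      (Nat.card (PolyFun (m + 1)) : ℝ) / (4 * ((m + 1 : ℕ) : ℝ)) := by
  have hμ0 : 0 < μ := by linarith
  have h1 := poly_ge hm
  set p : ℝ := (Nat.card (PolyFun (m + 1)) : ℝ) / (4 * ((m + 1 : ℕ) : ℝ)) with hp
  have hp0 : 0 ≤ p := by positivity
  have hn0 : (0:ℝ) < n := by exact_mod_cast (by omega : 0 < n)
  have hmn' : (m:ℝ) ≤ n := by exact_mod_cast (by omega : m ≤ n)
  have h2m : 2 * (m:ℝ) + 1 ≤ 2 * n := by exact_mod_cast (by omega : 2 * m + 1 ≤ 2 * n)
  have h2 : (m:ℝ) ^ 2 * (2 * m + 1) ^ 4 ≤ 16 * (n:ℝ) ^ 6 := by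
    calc (m:ℝ) ^ 2 * (2 * m + 1) ^ 4 ≤ (n:ℝ) ^ 2 * (2 * n) ^ 4 :=
          mul_le_mul (pow_le_pow_left₀ (by positivity) hmn' 2)
            (pow_le_pow_left₀ (by positivity) h2m 4) (by positivity) (by positivity)
      _ = _ := by ring
  have h3 : (bn m : ℝ) ^ 2 ≤ 16 * (n:ℝ) ^ 6 * p :=
    h1.trans (mul_le_mul_of_nonneg_right h2 hp0)
  rw [exp_FF hμ m, mul_pow, ← pow_mul, ← Real.exp_nat_mul] at h3
  have h4 : μ ^ (m * 2) * Real.exp (-(2 * E)) ≤ 16 * (n:ℝ) ^ 6 * p := by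
    refine le_trans (mul_le_mul_of_nonneg_left (Real.exp_le_exp.2 ?_) (by positivity)) h3
    push_cast
    linarith
  have h5 : Real.exp (-(2 * E + 2 * Real.log μ + 6 * Real.log n + 3)) =
      Real.exp (-(2 * E)) * ((μ ^ 2)⁻¹ * (((n:ℝ) ^ 6)⁻¹ * Real.exp (-3))) := by
    rw [show -(2 * E + 2 * Real.log μ + 6 * Real.log n + 3) =
      -(2 * E) + (-(2 * Real.log μ) + (-(6 * Real.log n) + -3)) by ring, Real.exp_add,
      Real.exp_add, Real.exp_add, Real.exp_neg (2 * Real.log μ), Real.exp_neg (6 * Real.log n)]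
    have e1 : Real.exp (2 * Real.log μ) = μ ^ 2 := by
      rw [show (2:ℝ) * Real.log μ = ((2:ℕ):ℝ) * Real.log μ by norm_num, Real.exp_nat_mul,
        Real.exp_log hμ0]
    have e2 : Real.exp (6 * Real.log n) = (n:ℝ) ^ 6 := by
      rw [show (6:ℝ) * Real.log n = ((6:ℕ):ℝ) * Real.log n by norm_num, Real.exp_nat_mul,
        Real.exp_log hn0]
    rw [e1, e2]
  have h6 : Real.exp (-3) ≤ 1 / 16 := by
    rw [Real.exp_neg, ← one_div]
    refine one_div_le_one_div_of_le (by norm_num) ?_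
    have h7 : (2.7:ℝ) ≤ Real.exp 1 := by
      have := Real.exp_one_gt_d9
      linarith
    calc (16:ℝ) ≤ 2.7 ^ 3 := by norm_num
      _ ≤ Real.exp 1 ^ 3 := pow_le_pow_left₀ (by norm_num) h7 3
      _ = Real.exp 3 := by rw [← Real.exp_nat_mul]; norm_num
  rw [h5]
  calc μ ^ (2 * (m + 1)) * (Real.exp (-(2 * E)) * ((μ ^ 2)⁻¹ * (((n:ℝ) ^ 6)⁻¹ * Real.exp (-3))))
      = (μ ^ (m * 2) * Real.exp (-(2 * E))) * (((n:ℝ) ^ 6)⁻¹ * Real.exp (-3)) := by
        rw [show 2 * (m + 1) = m * 2 + 2 by ring, pow_add]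
        field_simp
    _ ≤ (16 * (n:ℝ) ^ 6 * p) * (((n:ℝ) ^ 6)⁻¹ * (1 / 16)) :=
        mul_le_mul h4 (mul_le_mul_of_nonneg_left h6 (by positivity)) (by positivity)
          (by positivity)
    _ = p := by
        field_simp

theorem pow_small {K : ℕ} (hK : 1 ≤ K) {δ : ℝ} (hδ : 0 < δ) {j : ℕ}
    (hj : (K:ℝ) * Real.log (1 / δ) ≤ j) : (1 - 1 / (K:ℝ)) ^ j ≤ δ := by
  have hK0 : (1:ℝ) ≤ K := by exact_mod_cast hK
  have hθ0 : 0 ≤ 1 - 1 / (K:ℝ) := by
    rw [sub_nonneg, div_le_one (by linarith)]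
    exact hK0
  calc (1 - 1 / (K:ℝ)) ^ j ≤ (Real.exp (-(1 / (K:ℝ)))) ^ j := by
        refine pow_le_pow_left₀ hθ0 ?_ j
        have := Real.add_one_le_exp (-(1 / (K:ℝ)))
        linarith
    _ = Real.exp (-(j / (K:ℝ))) := by
        rw [← Real.exp_nat_mul]
        congr 1
        ring
    _ ≤ Real.exp (Real.log δ) := by
        refine Real.exp_le_exp.2 ?_
        rw [one_div, Real.log_inv] at hj
        have h1 : -Real.log δ ≤ j / (K:ℝ) := by
          rw [le_div_iff₀ (by linarith)]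
          linarith
        linarith
    _ = δ := Real.exp_log hδ

theorem poly_near {μ : ℝ} (hμ : 1 ≤ μ)
    (h : ∃ (K : ℕ) (c : ℝ), 1 ≤ K ∧ 0 ≤ c ∧ ∀ j n : ℕ, 1 ≤ n → ∃ m ≤ n,
      ((n - m : ℕ) : ℝ) ≤ K + (1 - 1 / (K:ℝ)) ^ j * n ∧ FF μ m ≤ j * (c * (Real.log n + 1))) :
    ∃ B : ℝ, 0 < B ∧ ∀ n : ℕ, 2 ≤ n → ∀ δ : ℝ, 0 < δ → δ ≤ 1 / 2 →
      ∃ m : ℕ, 2 ≤ m ∧ m ≤ n ∧ (n:ℝ) - m ≤ δ * n ∧
        μ ^ (2 * m) * Real.exp (-(B * (Real.log n * Real.log (1 / δ)))) ≤
          (Nat.card (PolyFun m) : ℝ) / (4 * (m:ℝ)) := by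
  obtain ⟨K, c, hK, hc, h⟩ := h
  have hK0 : (1:ℝ) ≤ K := by exact_mod_cast hK
  have hμ0 : 0 < μ := by linarith
  have hlμ : 0 ≤ Real.log μ := Real.log_nonneg hμ
  have hlK : 0 ≤ Real.log (2 * K) := Real.log_nonneg (by linarith)
  have hl2 : (0.69:ℝ) < Real.log 2 := by
    have := Real.log_two_gt_d9
    linarith
  set B : ℝ := 6 * (4 * K + 10) * c * (2 + 2 * Real.log (2 * K)) + (4 * K + 10) * Real.log μ * 3
    + 30 with hB
  have hB0 : 0 < B := by
    rw [hB]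
    positivity
  refine ⟨B, hB0, fun n hn δ hδ hδ2 => ?_⟩
  have hn0 : (2:ℝ) ≤ n := by exact_mod_cast hn
  have hln : (0.69:ℝ) < Real.log n := hl2.trans_le (Real.log_le_log (by norm_num) hn0)
  have hlδ : Real.log 2 ≤ Real.log (1 / δ) := by
    refine Real.log_le_log (by norm_num) ?_
    rw [le_div_iff₀ hδ]
    linarith
  set l := Real.log n with hl
  set d := Real.log (1 / δ) with hd
  have hd0 : (0.69:ℝ) < d := hl2.trans_le hlδ
  have hld : 0.4 ≤ l * d := by nlinarith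
  -- the common conclusion
  have fin : ∀ m0 : ℕ, 1 ≤ m0 → m0 + 1 ≤ n → (n:ℝ) - ((m0 + 1 : ℕ) : ℝ) ≤ δ * n →
      FF μ m0 ≤ 3 * (4 * K + 10) * c * (2 + 2 * Real.log (2 * K)) * (l * d) + (K + 1) * Real.log μ →
      ∃ m : ℕ, 2 ≤ m ∧ m ≤ n ∧ (n:ℝ) - m ≤ δ * n ∧
        μ ^ (2 * m) * Real.exp (-(B * (l * d))) ≤ (Nat.card (PolyFun m) : ℝ) / (4 * (m:ℝ)) := by
    intro m0 h1 h2 h3 h4
    refine ⟨m0 + 1, by omega, h2, h3, le_trans ?_ (pp_ge hμ h1 h2 h4)⟩
    refine mul_le_mul_of_nonneg_left (Real.exp_le_exp.2 ?_) (by positivity)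
    rw [neg_le_neg_iff, hB, ← hl]
    have e1 : Real.log μ * (2 * K + 4) ≤ (4 * K + 10) * Real.log μ * 3 * (l * d) := by
      have e3 : 0 ≤ (4 * (K:ℝ) + 10) * Real.log μ := by positivity
      nlinarith [mul_nonneg e3 (sub_nonneg.2 hld), mul_nonneg (Nat.cast_nonneg (α := ℝ) K) hlμ]
    have e2 : 6 * l + 3 ≤ 30 * (l * d) := by nlinarith
    nlinarith
  have hc3 : 0 ≤ 3 * (4 * K + 10) * c := by positivity
  by_cases hcase : 2 * (K:ℝ) ≤ δ * n
  · -- approximation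
    set j := ⌈(K:ℝ) * Real.log (1 / (δ / 2))⌉₊ with hj
    have hj1 : (K:ℝ) * Real.log (1 / (δ / 2)) ≤ j := Nat.le_ceil _
    have hlδ2 : Real.log (1 / (δ / 2)) = Real.log 2 + d := by
      rw [show 1 / (δ / 2) = 2 * (1 / δ) by field_simp, Real.log_mul (by norm_num) (by positivity)]
    have hl2' : Real.log 2 < 0.7 := by
      have := Real.log_two_lt_d9
      linarith
    have hj2 : (j:ℝ) < (K:ℝ) * Real.log (1 / (δ / 2)) + 1 := by
      refine Nat.ceil_lt_add_one ?_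
      rw [hlδ2]
      positivity
    have hj3 : (j:ℝ) ≤ (4 * K + 10) * d := by
      rw [hlδ2] at hj2
      nlinarith
    obtain ⟨m0, h1, h2, h3⟩ := h j (n - 1) (by omega)
    have hpow := pow_small hK (δ := δ / 2) (by positivity) hj1
    have e0 : (((n - 1 : ℕ)) : ℝ) ≤ n := by exact_mod_cast Nat.sub_le n 1
    have e1 : ((n - 1 - m0 : ℕ) : ℝ) ≤ δ * n := by
      have e2 : (1 - 1 / (K:ℝ)) ^ j * ((n - 1 : ℕ) : ℝ) ≤ δ / 2 * n :=
        mul_le_mul hpow e0 (by positivity) (by positivity)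
      linarith
    have e3 : ((n - 1 - m0 : ℕ) : ℝ) = (n:ℝ) - ((m0 + 1 : ℕ) : ℝ) := by
      rw [← Nat.cast_sub (by omega : m0 + 1 ≤ n)]
      congr 1
      omega
    have e4 : (4:ℝ) ≤ n := by nlinarith
    refine fin m0 ?_ (by omega) (by rw [← e3]; exact e1) ?_
    · by_contra hm0
      have : m0 = 0 := by omega
      subst this
      rw [e3] at e1
      push_cast at e1
      nlinarith
    · have e5 : Real.log ((n - 1 : ℕ) : ℝ) ≤ l := by
        rcases Nat.eq_zero_or_pos (n - 1) with h0 | h0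
        · omega
        · exact Real.log_le_log (by exact_mod_cast h0) e0
      have e6 : Real.log ((n - 1 : ℕ) : ℝ) + 1 ≤ 3 * l := by linarith
      have e7 : 0 ≤ Real.log ((n - 1 : ℕ) : ℝ) := Real.log_natCast_nonneg _
      calc FF μ m0 ≤ j * (c * (Real.log ((n - 1 : ℕ) : ℝ) + 1)) := h3
        _ ≤ ((4 * K + 10) * d) * (c * (3 * l)) :=
            mul_le_mul hj3 (mul_le_mul_of_nonneg_left e6 hc) (by positivity) (by positivity)
        _ = 3 * (4 * K + 10) * c * (l * d) := by ring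
        _ ≤ 3 * (4 * K + 10) * c * (2 + 2 * Real.log (2 * K)) * (l * d) + (K + 1) * Real.log μ := by
            have e8 : 3 * (4 * K + 10) * c * (l * d) * 1 ≤
                3 * (4 * K + 10) * c * (l * d) * (2 + 2 * Real.log (2 * K)) :=
              mul_le_mul_of_nonneg_left (by linarith) (by positivity)
            have e9 : 0 ≤ ((K:ℝ) + 1) * Real.log μ := by positivity
            linarith
  · -- the exact length
    rw [not_le] at hcase
    set j := ⌈(K:ℝ) * Real.log n⌉₊ with hj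
    have hj1 : (K:ℝ) * Real.log n ≤ j := Nat.le_ceil _
    have hj2 : (j:ℝ) < (K:ℝ) * Real.log n + 1 := Nat.ceil_lt_add_one (by positivity)
    rw [← hl] at hj1 hj2
    obtain ⟨m0, h1, h2, h3⟩ := h j (n - 1) (by omega)
    have hpow := pow_small hK (δ := 1 / n) (by positivity) (j := j) (by
      rw [one_div_one_div]
      exact hj1)
    have e0 : (((n - 1 : ℕ)) : ℝ) ≤ n := by exact_mod_cast Nat.sub_le n 1
    have e1 : ((n - 1 - m0 : ℕ) : ℝ) ≤ K + 1 := by
      have e2 : (1 - 1 / (K:ℝ)) ^ j * ((n - 1 : ℕ) : ℝ) ≤ 1 / n * n :=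
        mul_le_mul hpow e0 (by positivity) (by positivity)
      rw [one_div_mul_cancel (by positivity)] at e2
      linarith
    have hdl : l ≤ (1 + 2 * Real.log (2 * K)) * d := by
      have e2 : l ≤ Real.log (2 * K) + d := by
        rw [hl, hd, ← Real.log_mul (by positivity) (by positivity)]
        refine Real.log_le_log (by positivity) ?_
        rw [mul_one_div, le_div_iff₀ hδ]
        linarith
      have e3 : Real.log (2 * K) * 1 ≤ Real.log (2 * K) * (2 * d) :=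
        mul_le_mul_of_nonneg_left (by linarith) hlK
      linarith
    refine fin (n - 1) (by omega) (by omega) ?_ ?_
    · have : n - 1 + 1 = n := by omega
      rw [this, sub_self]
      positivity
    · have e4 : FF μ (n - 1) ≤ FF μ m0 + FF μ (n - 1 - m0) := by
        have := FF_sub μ m0 (n - 1 - m0)
        rwa [show m0 + (n - 1 - m0) = n - 1 by omega] at this
      have e5 : FF μ (n - 1 - m0) ≤ (K + 1) * Real.log μ := by
        unfold FF
        have e6 : 0 ≤ Real.log (bn (n - 1 - m0)) := Real.log_natCast_nonneg _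
        have e7 : ((n - 1 - m0 : ℕ) : ℝ) * Real.log μ ≤ (K + 1) * Real.log μ :=
          mul_le_mul_of_nonneg_right e1 hlμ
        linarith
      have e6 : Real.log ((n - 1 : ℕ) : ℝ) ≤ l := by
        rcases Nat.eq_zero_or_pos (n - 1) with h0 | h0
        · omega
        · exact Real.log_le_log (by exact_mod_cast h0) e0
      have e7 : Real.log ((n - 1 : ℕ) : ℝ) + 1 ≤ 3 * l := by linarith
      have e8 : (j:ℝ) ≤ (4 * K + 10) * l := by nlinarith
      have e9 : 0 ≤ Real.log ((n - 1 : ℕ) : ℝ) := Real.log_natCast_nonneg _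
      have e10 : FF μ m0 ≤ 3 * (4 * K + 10) * c * (2 + 2 * Real.log (2 * K)) * (l * d) := by
        calc FF μ m0 ≤ j * (c * (Real.log ((n - 1 : ℕ) : ℝ) + 1)) := h3
          _ ≤ ((4 * K + 10) * l) * (c * (3 * l)) :=
              mul_le_mul e8 (mul_le_mul_of_nonneg_left e7 hc) (by positivity) (by positivity)
          _ = 3 * (4 * K + 10) * c * l * l := by ring
          _ ≤ 3 * (4 * K + 10) * c * l * ((1 + 2 * Real.log (2 * K)) * d) :=
              mul_le_mul_of_nonneg_left hdl (by positivity)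
          _ = 3 * (4 * K + 10) * c * (l * d) * (1 + 2 * Real.log (2 * K)) := by ring
          _ ≤ 3 * (4 * K + 10) * c * (l * d) * (2 + 2 * Real.log (2 * K)) :=
              mul_le_mul_of_nonneg_left (by linarith) (by positivity)
          _ = _ := by ring
      linarith

end Pool.Agent.Work.MP_376faf_co_gap
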