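import Pool.Agent.Work.MP_376faf_co_gap.BlockGd

set_option autoImplicit false

/-!
Two point bound: walks between two given points of a rectangle, inside the rectangle.
-/

namespace Pool.Agent.Work.MP_376faf_co_gap

open Pool.Agent.Work.MP_376faf_co_lower
open Pool.Agent.Work.MP_376faf_co_hw
open Pool.Agent.Work.MP_376faf_co_hw.HP (Nb)

/-- **Core.** From the left side to the right side of a rectangle, with prescribed ends. -/
theorem core {x : ℝ} (hx : 0 < x) (hx1 : x ≤ 1) {C : ℕ} {a m : ℕ → ℕ} (hF : Fam x C a m)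
    (KK : ℕ) : ∃ c : ℕ, ∀ s : ℕ, 1 ≤ s → ∀ X Y σ τ : ℤ, 104 * (a s : ℤ) ≤ X →
      X ≤ (KK : ℤ) * a s → 72 * (a s : ℤ) ≤ Y → 0 ≤ σ → σ ≤ Y → 0 ≤ τ → τ ≤ Y → |τ - σ| ≤ X →
      Good x (m s) s c X (τ - σ) (-σ) (Y - σ) := by
  obtain ⟨c1, hc1⟩ := legs_good hx hF 16
  obtain ⟨c2, hc2⟩ := legs_good hx hF 24
  obtain ⟨c3, hc3⟩ := block_good hx hx1 hF (KK + 40)
  refine ⟨c1 + c3 + (c1 + c2), fun s hs X Y σ τ h1 h2 h3 h4 h5 h6 h7 h8 => ?_⟩
  have ha : 1 ≤ a s := hs.trans (hF.lo s hs)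
  set A : ℤ := (a s : ℤ) with hA
  have hA1 : 1 ≤ A := by omega
  have l1 : Good x (m s) s c1 (16 * (A + 1)) (16 * A) 0 (16 * A) := hc1 s hs
  have l2 : Good x (m s) s c2 (24 * (A + 1)) (24 * A) 0 (24 * A) := hc2 s hs
  have l1' := l1.neg hx
  have l2' := l2.neg hx
  have k1 : c1 ≤ c1 + c2 := by omega
  have k2 : c2 ≤ c1 + c2 := by omega
  -- the first legs
  have st : ∃ V1 : ℤ, |V1| ≤ 16 * A ∧ Good x (m s) s c1 (16 * (A + 1)) V1 (-σ) (Y - σ) ∧
      4 * A ≤ σ + V1 ∧ σ + V1 ≤ Y - 4 * A := by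
    rcases le_or_gt (2 * σ) Y with h | h
    · refine ⟨16 * A, ?_, l1.mono hx (by omega) (by omega), by omega, by omega⟩
      rw [abs_of_nonneg (by omega)]
    · refine ⟨-(16 * A), ?_, l1'.mono hx (by omega) (by omega), by omega, by omega⟩
      rw [abs_neg, abs_of_nonneg (by omega)]
  obtain ⟨V1, v1, gd1, b1, b2⟩ := st
  -- the last legs
  have en : ∃ V3 p : ℤ, 0 ≤ p ∧ p ≤ 24 ∧ |V3| ≤ 24 * A ∧
      Good x (m s) s (c1 + c2) (p * (A + 1)) V3 (-(τ - V3)) (Y - (τ - V3)) ∧
      12 * A ≤ τ - V3 ∧ τ - V3 ≤ Y - 12 * A ∧ 2 * A + 2 ≤ |τ - V3 - (σ + V1)| := by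
    rcases le_or_gt (2 * τ) Y with h | h
    · rcases le_or_gt (2 * A + 2) |τ + 16 * A - (σ + V1)| with h9 | h9
      · refine ⟨-(16 * A), 16, by omega, by omega, ?_,
          (l1'.mono hx (by omega) (by omega)).mono_c hs k1, by omega, by omega, ?_⟩
        · rw [abs_neg, abs_of_nonneg (by omega)]
          omega
        · rw [sub_neg_eq_add]
          exact h9
      · refine ⟨-(24 * A), 24, by omega, by omega, ?_,
          (l2'.mono hx (by omega) (by omega)).mono_c hs k2, by omega, by omega, ?_⟩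
        · rw [abs_neg, abs_of_nonneg (by omega)]
        · rw [sub_neg_eq_add]
          rw [abs_lt] at h9
          rw [le_abs]
          left
          omega
    · rcases le_or_gt (2 * A + 2) |τ - 16 * A - (σ + V1)| with h9 | h9
      · refine ⟨16 * A, 16, by omega, by omega, ?_,
          (l1.mono hx (by omega) (by omega)).mono_c hs k1, by omega, by omega, h9⟩
        rw [abs_of_nonneg (by omega)]
        omega
      · refine ⟨24 * A, 24, by omega, by omega, ?_,
          (l2.mono hx (by omega) (by omega)).mono_c hs k2, by omega, by omega, ?_⟩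
        · rw [abs_of_nonneg (by omega)]
        · rw [abs_lt] at h9
          rw [le_abs]
          right
          omega
  obtain ⟨V3, p, p0, p24, v3, gd3, b3, b4, b5⟩ := en
  -- the block
  have hpA : 0 ≤ p * (A + 1) ∧ p * (A + 1) ≤ 24 * (A + 1) := by
    constructor
    · positivity
    · nlinarith
  set U2 : ℤ := X - 16 * (A + 1) - p * (A + 1) with hU2
  set V2 : ℤ := τ - V3 - (σ + V1) with hV2
  rw [abs_le] at v1 v3 h8
  have hU : 6 * (2 * A + 2) ≤ U2 := by omega
  have hK1 : (KK : ℤ) * A ≤ ((KK + 40 : ℕ) : ℤ) * (2 * A + 2) - 40 * A := by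
    push_cast
    have : 0 ≤ (KK : ℤ) := by positivity
    nlinarith
  have hU' : U2 ≤ ((KK + 40 : ℕ) : ℤ) * (2 * A + 2) := by omega
  have bl : Good x (m s) s c3 U2 V2 (-(σ + V1)) (Y - (σ + V1)) := by
    have hb := hc3 s hs
    simp only [← hA] at hb
    rcases le_abs.1 b5 with h9 | h9
    · exact (hb U2 V2 hU hU' h9 (by omega)).mono hx (by omega) (by omega)
    · have h10 := (hb U2 (-V2) hU hU' h9 (by omega)).neg hx
      rw [neg_neg] at h10
      exact h10.mono hx (by omega) (by omega)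
  have g1 := gd1.app hx (c' := c3) (U' := U2) (V' := V2) (by
    rw [show -σ - V1 = -(σ + V1) by ring, show Y - σ - V1 = Y - (σ + V1) by ring]
    exact bl)
  have g2 := g1.app hx (c' := c1 + c2) (U' := p * (A + 1)) (V' := V3) (by
    rw [show -σ - (V1 + V2) = -(τ - V3) by rw [hV2]; ring,
      show Y - σ - (V1 + V2) = Y - (τ - V3) by rw [hV2]; ring]
    exact gd3)
  rw [show 16 * (A + 1) + U2 + p * (A + 1) = X by rw [hU2]; ring,
    show V1 + V2 + V3 = τ - σ by rw [hV2]; ring] at g2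
  exact g2

/-! ### rectangles -/

theorem fin_RW (x0 x1 y0 y1 : ℤ) (s t : Pt) (n : ℕ) : Finite {w // RW x0 x1 y0 y1 s t n w} :=
  finite_of n fun _ h => ⟨h.1.1, h.2.1⟩

/-- number of walks in a rectangle -/
noncomputable def nRW (x0 x1 y0 y1 : ℤ) (s t : Pt) (n : ℕ) : ℕ :=
  Nat.card {w : List Pt // RW x0 x1 y0 y1 s t n w}

theorem nRW_hom (σ : Pt →+ Pt) (hi : Function.Injective σ) (hu : ∀ s, Un s → Un (σ s))
    {x0 x1 y0 y1 x0' x1' y0' y1' : ℤ}
    (hR : ∀ q, InR x0 x1 y0 y1 q → InR x0' x1' y0' y1' (σ q)) (s t : Pt) (n : ℕ) :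
    nRW x0 x1 y0 y1 s t n ≤ nRW x0' x1' y0' y1' (σ s) (σ t) n := by
  have := fin_RW x0' x1' y0' y1' (σ s) (σ t) n
  unfold nRW
  refine Nat.card_le_card_of_injective (fun z => ⟨z.1.map σ, walk_hom z.2.1 σ hi hu, by
    rw [List.length_map, z.2.2.1], by
    rw [← map_list_sum, ← map_add, z.2.2.2.1], ?_⟩) ?_
  · intro q hq
    obtain ⟨i, hi', rfl⟩ := hq
    rw [List.length_map] at hi'
    rw [pos_hom, ← map_add]
    exact hR _ (z.2.2.2.2 _ ⟨i, hi', rfl⟩)
  · rintro ⟨c, hc⟩ ⟨d, hd⟩ e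
    simp only [Subtype.mk.injEq] at e
    have := List.map_injective_iff.2 hi e
    subst this
    rfl

theorem nSP_le_nRW {x0 x1 y0 y1 : ℤ} {s t : Pt} (h1 : x0 ≤ s.1) (h2 : t.1 ≤ x1) (n : ℕ) :
    nSP (t.1 - s.1) ((t.2 - y0) - (s.2 - y0)) (-(s.2 - y0)) (y1 - y0 - (s.2 - y0)) n ≤
      nRW x0 x1 y0 y1 s t n := by
  have := fin_RW x0 x1 y0 y1 s t n
  unfold nSP nRW
  refine Nat.card_le_card_of_injective (fun z => ⟨z.1, z.2.1.1, z.2.2, ?_, ?_⟩) ?_
  · rw [z.2.1.2.1]
    ext
    · simp only [Prod.fst_add]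
      ring
    · simp only [Prod.snd_add]
      ring
  · intro q hq
    obtain ⟨q', h3, rfl⟩ := VW_shift hq
    have h4 := z.2.1.box h3
    unfold InR
    simp only [Prod.fst_add, Prod.snd_add]
    omega
  · rintro ⟨c, hc⟩ ⟨d, hd⟩ e
    simp only [Subtype.mk.injEq] at e
    subst e
    rfl

/-! ### straight walks -/

theorem pos_rep (v : Pt) (p i : ℕ) (h : i ≤ p) : pos (List.replicate p v) i = i • v := by
  unfold pos
  rw [List.take_replicate, min_eq_left h, List.sum_replicate]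

theorem walk_rep {v : Pt} (hv : Un v) (p : ℕ) : Walk (List.replicate p v) := by
  refine ⟨fun s hs => by rw [List.eq_of_mem_replicate hs]; exact hv, ?_⟩
  intro i hi j hj hij
  simp only [Set.mem_Iic, List.length_replicate] at hi hj
  rw [pos_rep v p i hi, pos_rep v p j hj] at hij
  have h1 := congrArg Prod.fst hij
  have h2 := congrArg Prod.snd hij
  rw [Prod.smul_fst, Prod.smul_fst, nsmul_eq_mul, nsmul_eq_mul] at h1
  rw [Prod.smul_snd, Prod.smul_snd, nsmul_eq_mul, nsmul_eq_mul] at h2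
  unfold Un at hv
  by_cases h0 : v.1 = 0
  · rw [h0, abs_zero, zero_add] at hv
    have h3 : v.2 ≠ 0 := by
      intro h
      rw [h, abs_zero] at hv
      omega
    have := mul_right_cancel₀ h3 h2
    exact_mod_cast this
  · have := mul_right_cancel₀ h0 h1
    exact_mod_cast this

theorem one_le_nRW {x0 x1 y0 y1 : ℤ} {s t : Pt} (hs : InR x0 x1 y0 y1 s)
    (ht : InR x0 x1 y0 y1 t) (hst : s.1 ≤ t.1) :
    1 ≤ nRW x0 x1 y0 y1 s t ((t.1 - s.1).toNat + (t.2 - s.2).natAbs) := by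
  have := fin_RW x0 x1 y0 y1 s t ((t.1 - s.1).toNat + (t.2 - s.2).natAbs)
  set p : ℕ := (t.1 - s.1).toNat with hp
  set q : ℕ := (t.2 - s.2).natAbs with hq
  have hp' : (p : ℤ) = t.1 - s.1 := by omega
  obtain ⟨e, he, he1⟩ : ∃ e : ℤ, (e = 1 ∨ e = -1) ∧ (q : ℤ) * e = t.2 - s.2 := by
    rcases le_total s.2 t.2 with h | h
    · exact ⟨1, Or.inl rfl, by omega⟩
    · exact ⟨-1, Or.inr rfl, by omega⟩
  have hun : Un (0, e) := by
    rcases he with rfl | rfl
    · exact un01
    · exact un01'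
  unfold InR at hs ht
  have sum1 : (List.replicate p ((1, 0) : Pt)).sum = ((p : ℤ), 0) := by
    rw [List.sum_replicate]
    ext <;> simp
  have sum2 : (List.replicate q ((0, e) : Pt)).sum = (0, (q : ℤ) * e) := by
    rw [List.sum_replicate]
    ext <;> simp
  have V1 : ∀ r, VW s (List.replicate p ((1, 0) : Pt)) r →
      ∃ i : ℕ, i ≤ p ∧ r = (s.1 + i, s.2) := by
    rintro r ⟨i, hi, rfl⟩
    rw [List.length_replicate] at hi
    refine ⟨i, hi, ?_⟩
    rw [pos_rep _ _ _ hi]
    ext <;> simp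
  have V2 : ∀ r, VW (s + ((p : ℤ), 0)) (List.replicate q ((0, e) : Pt)) r →
      ∃ i : ℕ, i ≤ q ∧ r = (t.1, s.2 + i * e) := by
    rintro r ⟨i, hi, rfl⟩
    rw [List.length_replicate] at hi
    refine ⟨i, hi, ?_⟩
    rw [pos_rep _ _ _ hi]
    ext
    · simp only [Prod.fst_add, Prod.smul_fst, smul_zero, add_zero]
      omega
    · simp
  have hW : Walk (List.replicate p ((1, 0) : Pt) ++ List.replicate q ((0, e) : Pt)) := by
    refine walk_append (p := s) (walk_rep un10 p) (walk_rep hun q) ?_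
    intro r h1 h2
    rw [sum1] at h2 ⊢
    obtain ⟨i, hi, rfl⟩ := V1 r h1
    obtain ⟨j, hj, h3⟩ := V2 _ h2
    have h4 := congrArg Prod.fst h3
    simp only at h4
    ext
    · simp only [Prod.fst_add]
      omega
    · simp
  refine Nat.card_pos_iff.2 ⟨⟨⟨List.replicate p (1, 0) ++ List.replicate q (0, e), hW, ?_, ?_,
    ?_⟩⟩, this⟩
  · rw [List.length_append, List.length_replicate, List.length_replicate]
  · rw [List.sum_append, sum1, sum2, he1]
    ext
    · simp only [Prod.fst_add]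
      omega
    · simp only [Prod.snd_add]
      omega
  · intro r hr
    rw [VW.append, sum1] at hr
    unfold InR
    rcases hr with hr | hr
    · obtain ⟨i, hi, rfl⟩ := V1 r hr
      simp only
      omega
    · obtain ⟨i, hi, rfl⟩ := V2 r hr
      simp only
      rcases he with rfl | rfl
      · omega
      · omega

/-- **Two point bound in a rectangle.** -/
theorem rect_two_point {x : ℝ} (hx : 0 < x) (hx1 : x ≤ 1) {C : ℕ} {a m : ℕ → ℕ}
    (hF : Fam x C a m) (K : ℕ) :
    ∃ C' : ℕ, ∀ S : ℕ, 1 ≤ S → ∀ M : ℕ, (∀ s, 1 ≤ s → s ≤ S → m s ≤ M) →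
      ∀ (x0 x1 y0 y1 : ℤ) (s t : Pt), InR x0 x1 y0 y1 s → InR x0 x1 y0 y1 t → s ≠ t →
        sd s t ≤ K * S → sd s t ≤ 4 * (x1 - x0) + 4 → sd s t ≤ 4 * (y1 - y0) + 4 →
        ∃ n ≤ C' * (M + 1), 1 ≤ (C':ℝ) * (S:ℝ) ^ C' *
          ((Nat.card {w : List Pt // RW x0 x1 y0 y1 s t n w} : ℝ) * x ^ n) := by
  set E : ℕ := 292 * C + K with hE
  have hC := hF.C_pos
  have hE1 : 0 < E := by omega
  obtain ⟨c, hc⟩ := core hx hx1 hF (2 * E)
  obtain ⟨r, hr⟩ := exists_nat_ge (x⁻¹ ^ (2 * E))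
  set C' : ℕ := c ^ c + c + 2 * E + r with hC'
  have hC'1 : 1 ≤ C' := by omega
  refine ⟨C', fun S hS M hM => ?_⟩
  have hxi : 1 ≤ x⁻¹ := (one_le_inv₀ hx).2 hx1
  have hS' : (1 : ℝ) ≤ S := by exact_mod_cast hS
  have main : ∀ (x0 x1 y0 y1 : ℤ) (s t : Pt), InR x0 x1 y0 y1 s → InR x0 x1 y0 y1 t →
      s.1 < t.1 → |t.2 - s.2| ≤ t.1 - s.1 → t.1 - s.1 ≤ K * S → t.1 - s.1 ≤ 4 * (y1 - y0) + 4 →
      ∃ n ≤ C' * (M + 1), 1 ≤ (C':ℝ) * (S:ℝ) ^ C' * ((nRW x0 x1 y0 y1 s t n : ℝ) * x ^ n) := by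
    intro x0 x1 y0 y1 s t hs ht h1 h2 h3 h4
    obtain ⟨D, hD⟩ : ∃ D : ℕ, (D : ℤ) = t.1 - s.1 := ⟨(t.1 - s.1).toNat, by omega⟩
    rcases Nat.lt_or_ge D E with hDE | hDE
    · -- short distances
      have h5 := one_le_nRW hs ht h1.le
      set n : ℕ := (t.1 - s.1).toNat + (t.2 - s.2).natAbs with hn
      have hn1 : n ≤ 2 * E := by
        rw [abs_le] at h2
        omega
      refine ⟨n, ?_, ?_⟩
      · calc n ≤ 2 * E := hn1
          _ ≤ C' := by omega
          _ ≤ C' * (M + 1) := Nat.le_mul_of_pos_right _ (Nat.succ_pos _)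
      · have h6 : (1 : ℝ) ≤ (nRW x0 x1 y0 y1 s t n : ℝ) := by exact_mod_cast h5
        have h7 : x⁻¹ ^ n ≤ C' := by
          calc x⁻¹ ^ n ≤ x⁻¹ ^ (2 * E) := pow_le_pow_right₀ hxi hn1
            _ ≤ r := hr
            _ ≤ C' := by
              have : r ≤ C' := by omega
              exact_mod_cast this
        have h8 : (1 : ℝ) ≤ (S : ℝ) ^ C' := one_le_pow₀ hS'
        have h9 : x⁻¹ ^ n * x ^ n = 1 := by
          rw [← mul_pow, inv_mul_cancel₀ hx.ne', one_pow]
        have h10 : (0 : ℝ) ≤ C' := by positivity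
        calc (1 : ℝ) = x⁻¹ ^ n * x ^ n := h9.symm
          _ ≤ C' * x ^ n := mul_le_mul_of_nonneg_right h7 (by positivity)
          _ = (C' * 1) * (1 * x ^ n) := by ring
          _ ≤ (C' * (S : ℝ) ^ C') * ((nRW x0 x1 y0 y1 s t n : ℝ) * x ^ n) := by
            refine mul_le_mul (mul_le_mul_of_nonneg_left h8 h10)
              (mul_le_mul_of_nonneg_right h6 (by positivity)) (by positivity) (by positivity)
    · -- long distances
      set s' : ℕ := D / E with hs'
      have hs1 : 1 ≤ s' := (Nat.one_le_div_iff hE1).2 hDE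
      have e1 : E * s' ≤ D := Nat.mul_div_le D E
      have e2 : D < E * (s' + 1) := by
        have := Nat.lt_mul_div_succ D hE1
        exact this
      have hDK : D ≤ K * S := by
        have h5 : (D : ℤ) ≤ ((K * S : ℕ) : ℤ) := by
          push_cast
          omega
        exact_mod_cast h5
      have hsS : s' ≤ S := by
        by_contra hcon
        push Not at hcon
        have h5 : E * (S + 1) ≤ E * s' := Nat.mul_le_mul_left _ hcon
        have h6 : K * (S + 1) ≤ E * (S + 1) := Nat.mul_le_mul_right _ (by omega)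
        have h7 : K * S ≤ K * (S + 1) := Nat.mul_le_mul_left _ (by omega)
        have h8 : K * S < E * (S + 1) := by
          have h9 : K * (S + 1) < E * (S + 1) := Nat.mul_lt_mul_of_pos_right (by omega) (by omega)
          omega
        omega
      have ha1 := hF.lo s' hs1
      have ha2 := hF.hi s' hs1
      have hm := hM s' hs1 hsS
      have e3 : 292 * a s' ≤ D := by
        calc 292 * a s' ≤ 292 * (C * s') := Nat.mul_le_mul_left _ ha2
          _ = (292 * C) * s' := by ring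
          _ ≤ E * s' := Nat.mul_le_mul_right _ (by omega)
          _ ≤ D := e1
      have e4 : D ≤ 2 * E * a s' := by
        have h5 : E * (s' + 1) ≤ E * (2 * a s') := Nat.mul_le_mul_left _ (by omega)
        have h6 : E * (2 * a s') = 2 * E * a s' := by ring
        omega
      have e4' : (D : ℤ) ≤ ((2 * E : ℕ) : ℤ) * (a s' : ℤ) := by exact_mod_cast e4
      unfold InR at hs ht
      have haz : (1 : ℤ) ≤ (a s' : ℤ) := by omega
      obtain ⟨n, hn, hg⟩ := hc s' hs1 (t.1 - s.1) (y1 - y0) (s.2 - y0) (t.2 - y0) (by omega)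
        (by rw [← hD]; exact e4') (by omega) (by omega) (by omega) (by omega) (by omega) (by
          rw [show t.2 - y0 - (s.2 - y0) = t.2 - s.2 by ring]
          exact h2)
      refine ⟨n, ?_, ?_⟩
      · refine hn.trans (Nat.mul_le_mul (by omega) (by omega))
      · have h5 : ((nSP (t.1 - s.1) ((t.2 - y0) - (s.2 - y0)) (-(s.2 - y0))
            (y1 - y0 - (s.2 - y0)) n : ℕ) : ℝ) ≤ (nRW x0 x1 y0 y1 s t n : ℝ) := by
          exact_mod_cast nSP_le_nRW hs.1 ht.2.1 n
        have h6 : Gd s' c ((nRW x0 x1 y0 y1 s t n : ℝ) * x ^ n) :=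
          hg.le (mul_le_mul_of_nonneg_right h5 (by positivity))
        refine le_trans h6 (mul_le_mul_of_nonneg_right ?_ (by positivity))
        unfold pw
        rw [mul_pow]
        have h7 : (s' : ℝ) ^ c ≤ (S : ℝ) ^ C' := by
          calc (s' : ℝ) ^ c ≤ (S : ℝ) ^ c := by
                have : (s' : ℝ) ≤ S := by exact_mod_cast hsS
                gcongr
            _ ≤ (S : ℝ) ^ C' := pow_le_pow_right₀ hS' (by omega)
        have h8 : (c : ℝ) ^ c ≤ C' := by
          have : c ^ c ≤ C' := by omega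
          exact_mod_cast this
        exact mul_le_mul h8 h7 (by positivity) (by positivity)
  have main2 : ∀ (x0 x1 y0 y1 : ℤ) (s t : Pt), InR x0 x1 y0 y1 s → InR x0 x1 y0 y1 t → s ≠ t →
      |t.2 - s.2| ≤ |t.1 - s.1| → |t.1 - s.1| ≤ K * S → |t.1 - s.1| ≤ 4 * (y1 - y0) + 4 →
      ∃ n ≤ C' * (M + 1), 1 ≤ (C':ℝ) * (S:ℝ) ^ C' * ((nRW x0 x1 y0 y1 s t n : ℝ) * x ^ n) := by
    intro x0 x1 y0 y1 s t hs ht hst h1 h2 h3
    rcases lt_trichotomy s.1 t.1 with h | h | h
    · rw [abs_of_nonneg (show 0 ≤ t.1 - s.1 by omega)] at h1 h2 h3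
      exact main x0 x1 y0 y1 s t hs ht h h1 h2 h3
    · exfalso
      rw [h, sub_self, abs_zero] at h1
      have h4 : t.2 - s.2 = 0 := abs_eq_zero.1 (le_antisymm h1 (abs_nonneg _))
      exact hst (Prod.ext h (by omega))
    · rw [abs_of_neg (show t.1 - s.1 < 0 by omega)] at h1 h2 h3
      unfold InR at hs ht
      obtain ⟨n, h4, h5⟩ := main (-x1) (-x0) y0 y1 (fx s) (fx t)
        (by unfold InR; rw [fx_app]; simp only; omega)
        (by unfold InR; rw [fx_app]; simp only; omega) (by rw [fx_app, fx_app]; simp only; omega)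
        (by
          rw [fx_app, fx_app]
          simp only
          rw [show -t.1 - -s.1 = -(t.1 - s.1) by ring]
          exact h1) (by
          rw [fx_app, fx_app]
          simp only
          omega) (by
          rw [fx_app, fx_app]
          simp only
          omega)
      refine ⟨n, h4, h5.trans (mul_le_mul_of_nonneg_left (mul_le_mul_of_nonneg_right ?_
        (by positivity)) (by positivity))⟩
      have h6 := nRW_hom (x0 := -x1) (x1 := -x0) (y0 := y0) (y1 := y1) (x0' := x0) (x1' := x1)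
        (y0' := y0) (y1' := y1) fx fx_inj fx_un (by
          intro q hq
          unfold InR at hq ⊢
          rw [fx_app]
          simp only
          omega) (fx s) (fx t) n
      have h7 : ∀ q : Pt, fx (fx q) = q := fun q => by
        rw [fx_app, fx_app]
        simp
      rw [h7, h7] at h6
      exact_mod_cast h6
  intro x0 x1 y0 y1 s t hs ht hst h1 h2 h3
  unfold sd at h1 h2 h3
  rcases le_total |s.2 - t.2| |s.1 - t.1| with h | h
  · rw [max_eq_left h, abs_sub_comm] at h1 h2 h3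
    rw [abs_sub_comm, abs_sub_comm s.1] at h
    exact main2 x0 x1 y0 y1 s t hs ht hst h h1 h3
  · rw [max_eq_right h, abs_sub_comm] at h1 h2 h3
    rw [abs_sub_comm, abs_sub_comm s.2] at h
    obtain ⟨n, h4, h5⟩ := main2 y0 y1 x0 x1 (tr s) (tr t)
      (by unfold InR at hs ⊢; rw [tr_app]; simp only; omega)
      (by unfold InR at ht ⊢; rw [tr_app]; simp only; omega) (fun h => hst (tr_inj h))
      (by rw [tr_app, tr_app]; exact h) (by rw [tr_app, tr_app]; exact h1)
      (by rw [tr_app, tr_app]; exact h2)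
    refine ⟨n, h4, h5.trans (mul_le_mul_of_nonneg_left (mul_le_mul_of_nonneg_right ?_
      (by positivity)) (by positivity))⟩
    have h6 := nRW_hom (x0 := y0) (x1 := y1) (y0 := x0) (y1 := x1) (x0' := x0) (x1' := x1)
      (y0' := y0) (y1' := y1) tr tr_inj tr_un (by
        intro q hq
        unfold InR at hq ⊢
        rw [tr_app]
        simp only
        omega) (tr s) (tr t) n
    have h7 : ∀ q : Pt, tr (tr q) = q := fun q => by
      rw [tr_app, tr_app]
    rw [h7, h7] at h6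
    exact_mod_cast h6

end Pool.Agent.Work.MP_376faf_co_gap
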