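import Mathlib

/-! Windows around good lengths from the ratio theorem. -/

set_option autoImplicit false

namespace Pool.Agent.Work.MP_376faf_co_gap

open Filter Topology

theorem steps_le {f : ℕ → ℝ} {a b : ℕ} {e : ℝ} (hab : a ≤ b)
    (h : ∀ i, a ≤ i → i < b → |f (i + 1) - f i| ≤ e) : |f b - f a| ≤ ((b:ℝ) - a) * e := by
  obtain ⟨c, rfl⟩ := Nat.exists_eq_add_of_le hab
  induction c with
  | zero => simp
  | succ c ih =>
    have h1 := ih (by omega) (fun i h1 h2 => h i h1 (by omega))
    have h2 := h (a + c) (by omega) (by omega)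
    have h3 : f (a + (c + 1)) - f a = (f (a + c + 1) - f (a + c)) + (f (a + c) - f a) := by
      rw [show a + (c + 1) = a + c + 1 by ring]
      ring
    rw [h3]
    refine (abs_add_le _ _).trans ?_
    push_cast at h1 ⊢
    linarith

theorem abs_log_le {t η : ℝ} (h : |t - 1| ≤ η) (hη : η ≤ 1 / 2) : |Real.log t| ≤ 2 * η := by
  rw [abs_le] at h
  have ht : 1 / 2 ≤ t := by linarith
  have ht0 : 0 < t := by linarith
  have h1 := Real.log_le_sub_one_of_pos ht0
  have h2 := Real.one_sub_inv_le_log_of_pos ht0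
  have h3 : -(2 * η) ≤ 1 - t⁻¹ := by
    have h4 : t⁻¹ ≤ 1 + 2 * η := by
      rw [inv_le_iff_one_le_mul₀ ht0]
      nlinarith
    linarith
  rw [abs_le]
  constructor <;> linarith

theorem near_window {μ : ℝ} (hμ : 1 ≤ μ) {p : ℕ → ℝ} (hp : ∀ n, 2 ≤ n → 0 < p n) {A B : ℝ}
    (hr : ∀ n : ℕ, 2 ≤ n → |p (n + 1) / p n - μ ^ 2| ≤ A * √((Real.log n) ^ 2 / n)) (hB : 0 < B)
    (hnear : ∀ n : ℕ, 2 ≤ n → ∀ δ : ℝ, 0 < δ → δ ≤ 1 / 2 → ∃ m : ℕ, 2 ≤ m ∧ m ≤ n ∧
      (n:ℝ) - m ≤ δ * n ∧ μ ^ (2 * m) * Real.exp (-(B * (Real.log n * Real.log (1 / δ)))) ≤ p m) :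
    ∃ B' : ℝ, 0 < B' ∧ ∀ n : ℕ, 2 ≤ n → ∀ δ : ℝ, 0 < δ → δ ≤ 1 / 2 → ∃ m : ℕ, m ≤ n ∧
      (n:ℝ) - m ≤ δ * n ∧ ∀ k : ℕ, 2 ≤ k → |(k:ℝ) - m| ≤ √n →
        μ ^ (2 * k) * Real.exp (-(B' * (Real.log n * Real.log (1 / δ)))) ≤ p k := by
  have hμ0 : 0 < μ := by linarith
  set A1 : ℝ := max A 0 with hA1
  have hA10 : 0 ≤ A1 := le_max_right _ _
  set f : ℕ → ℝ := fun i => Real.log (p i) - 2 * i * Real.log μ with hf
  have hfp : ∀ i, 2 ≤ i → p i = μ ^ (2 * i) * Real.exp (f i) := by
    intro i hi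
    have e1 : μ ^ (2 * i) = Real.exp (2 * i * Real.log μ) := by
      rw [show (2:ℝ) * i * Real.log μ = ((2 * i : ℕ) : ℝ) * Real.log μ by push_cast; ring,
        Real.exp_nat_mul, Real.exp_log hμ0]
    rw [e1, ← Real.exp_add, hf]
    simp only [add_sub_cancel]
    rw [Real.exp_log (hp i hi)]
  -- large lengths
  have hη : ∀ᶠ n : ℕ in atTop, 4 * A1 * (Real.log n / √n) ≤ 1 / 2 ∧ 16 ≤ n := by
    have h1 : Tendsto (fun n : ℕ => Real.log n / √n) atTop (𝓝 0) := by
      have h2 : Tendsto (fun x : ℝ => Real.log x / x ^ (1 / 2 : ℝ)) atTop (𝓝 0) :=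
        (isLittleO_log_rpow_atTop (by norm_num : (0:ℝ) < 1 / 2)).tendsto_div_nhds_zero
      refine (h2.comp tendsto_natCast_atTop_atTop).congr fun n => ?_
      simp only [Function.comp_apply]
      rw [Real.sqrt_eq_rpow]
    have h3 := h1.const_mul (4 * A1)
    rw [mul_zero] at h3
    exact (h3.eventually_le_const (by norm_num : (0:ℝ) < 1 / 2)).and (eventually_ge_atTop 16)
  obtain ⟨n0, hn0⟩ := eventually_atTop.1 hη
  have hl2 : 0 < Real.log 2 := Real.log_pos (by norm_num)
  obtain ⟨M, hM0, hM⟩ : ∃ M : ℝ, 0 ≤ M ∧ ∀ k, 2 ≤ k → k ≤ 3 * n0 → -M ≤ f k := by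
    refine ⟨∑ k ∈ Finset.range (3 * n0 + 1), |f k|, by positivity, fun k _ hk => ?_⟩
    have h1 := Finset.single_le_sum (f := fun k => |f k|) (fun i _ => abs_nonneg (f i))
      (Finset.mem_range.2 (by omega : k < 3 * n0 + 1))
    have h2 := neg_abs_le (f k)
    linarith
  set B' : ℝ := B + 8 * A1 / Real.log 2 + M / (Real.log 2 * Real.log 2) with hB'
  have hB'0 : 0 < B' := by positivity
  refine ⟨B', hB'0, fun n hn δ hδ hδ2 => ?_⟩
  obtain ⟨m, h1, h2, h3, h4⟩ := hnear n hn δ hδ hδ2
  refine ⟨m, h2, h3, fun k hk hkm => ?_⟩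
  have hnr : (2:ℝ) ≤ n := by exact_mod_cast hn
  have hln : Real.log 2 ≤ Real.log n := Real.log_le_log (by norm_num) hnr
  have hlδ : Real.log 2 ≤ Real.log (1 / δ) := by
    refine Real.log_le_log (by norm_num) ?_
    rw [le_div_iff₀ hδ]
    linarith
  rw [hfp k hk]
  refine mul_le_mul_of_nonneg_left (Real.exp_le_exp.2 ?_) (by positivity)
  have e0 : Real.log 2 * Real.log 2 ≤ Real.log n * Real.log (1 / δ) :=
    mul_le_mul hln hlδ hl2.le (hl2.le.trans hln)
  have eM : M ≤ M / (Real.log 2 * Real.log 2) * (Real.log n * Real.log (1 / δ)) := by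
    rw [div_mul_eq_mul_div, le_div_iff₀ (by positivity)]
    exact mul_le_mul_of_nonneg_left e0 hM0
  have hfm : -(B * (Real.log n * Real.log (1 / δ))) ≤ f m := by
    rw [hfp m h1] at h4
    exact Real.exp_le_exp.1 (le_of_mul_le_mul_left h4 (by positivity))
  have eP : 0 ≤ Real.log n * Real.log (1 / δ) :=
    mul_nonneg (hl2.le.trans hln) (hl2.le.trans hlδ)
  rcases Nat.lt_or_ge n n0 with hnn | hnn
  · have hk3 : k ≤ 3 * n0 := by
      have e1 : (k:ℝ) ≤ m + √n := by
        have := (abs_le.1 hkm).2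
        linarith
      have e2 : √(n:ℝ) ≤ n := by
        rw [Real.sqrt_le_left (by positivity)]
        nlinarith
      have e3 : (m:ℝ) ≤ n := by exact_mod_cast h2
      have e4 : (k:ℝ) ≤ ((2 * n : ℕ) : ℝ) := by
        push_cast
        linarith
      have e5 : k ≤ 2 * n := by exact_mod_cast e4
      omega
    have := hM k hk hk3
    have e5 : 0 ≤ B * (Real.log n * Real.log (1 / δ)) := by positivity
    have e6 : 0 ≤ 8 * A1 / Real.log 2 * (Real.log n * Real.log (1 / δ)) := by positivity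
    rw [hB']
    linarith
  · obtain ⟨hη1, hn16⟩ := hn0 n hnn
    have hn16' : (16:ℝ) ≤ n := by exact_mod_cast hn16
    have hs : √(n:ℝ) ≤ n / 4 := by
      rw [Real.sqrt_le_left (by positivity)]
      nlinarith
    have hs0 : 0 < √(n:ℝ) := Real.sqrt_pos.2 (by positivity)
    have hm2 : (n:ℝ) / 2 ≤ m := by nlinarith
    have hmn : (m:ℝ) ≤ n := by exact_mod_cast h2
    set η : ℝ := 4 * A1 * (Real.log n / √n) with hηd
    have hη0 : 0 ≤ η := by
      have : 0 ≤ Real.log n := hl2.le.trans hln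
      positivity
    -- one step
    have step : ∀ i : ℕ, (n:ℝ) / 4 ≤ i → (i:ℝ) ≤ 2 * n → |f (i + 1) - f i| ≤ 2 * η := by
      intro i hi1 hi2
      have hi4 : (4:ℝ) ≤ i := by linarith
      have hi : 2 ≤ i := by
        have : 4 ≤ i := by exact_mod_cast hi4
        omega
      have e1 : f (i + 1) - f i = Real.log (p (i + 1) / p i / μ ^ 2) := by
        rw [Real.log_div (div_pos (hp _ (by omega)) (hp i hi)).ne' (by positivity),
          Real.log_div (hp _ (by omega)).ne' (hp i hi).ne', Real.log_pow]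
        simp only [hf]
        push_cast
        ring
      rw [e1]
      refine abs_log_le ?_ hη1
      have e2 : p (i + 1) / p i / μ ^ 2 - 1 = (p (i + 1) / p i - μ ^ 2) / μ ^ 2 := by
        field_simp
      have hμ2 : 1 ≤ μ ^ 2 := one_le_pow₀ hμ
      rw [e2, abs_div, abs_of_pos (by positivity : 0 < μ ^ 2)]
      refine (div_le_self (abs_nonneg _) hμ2).trans ((hr i hi).trans ?_)
      have hli : 0 ≤ Real.log i := Real.log_natCast_nonneg i
      have e3 : √((Real.log i) ^ 2 / i) = Real.log i / √i := by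
        rw [Real.sqrt_div' _ (by positivity), Real.sqrt_sq hli]
      rw [e3]
      have e4 : Real.log i ≤ 2 * Real.log n := by
        have : Real.log i ≤ Real.log (2 * n) := Real.log_le_log (by linarith) hi2
        rw [Real.log_mul (by norm_num) (by positivity)] at this
        linarith
      have e5 : √(n:ℝ) / 2 ≤ √(i:ℝ) := by
        refine Real.le_sqrt_of_sq_le ?_
        rw [div_pow, Real.sq_sqrt (by positivity)]
        linarith
      calc A * (Real.log i / √i) ≤ A1 * (Real.log i / √i) :=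
            mul_le_mul_of_nonneg_right (le_max_left _ _) (by positivity)
        _ ≤ A1 * (2 * Real.log n / (√n / 2)) := by
            refine mul_le_mul_of_nonneg_left ?_ hA10
            exact div_le_div₀ (by positivity) e4 (by positivity) e5
        _ = η := by
            rw [hηd]
            field_simp
            ring
    have hdist : |f k - f m| ≤ √n * (2 * η) := by
      rcases le_total m k with hmk | hmk
      · have e1 : (k:ℝ) - m ≤ √n := (le_abs_self _).trans hkm
        have e2 := steps_le (f := f) (e := 2 * η) hmk fun i hi1 hi2 => by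
          have c1 : (m:ℝ) ≤ i := by exact_mod_cast hi1
          have c2 : (i:ℝ) ≤ k := by exact_mod_cast hi2.le
          exact step i (by linarith) (by linarith)
        exact e2.trans (mul_le_mul_of_nonneg_right e1 (by positivity))
      · have e1 : (m:ℝ) - k ≤ √n := by
          have := (abs_le.1 hkm).1
          linarith
        have e2 := steps_le (f := f) (e := 2 * η) hmk fun i hi1 hi2 => by
          have c1 : (k:ℝ) ≤ i := by exact_mod_cast hi1
          have c2 : (i:ℝ) ≤ m := by exact_mod_cast hi2.le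
          exact step i (by linarith) (by linarith)
        rw [abs_sub_comm]
        exact e2.trans (mul_le_mul_of_nonneg_right e1 (by positivity))
    have e7 : √n * (2 * η) = 8 * A1 * Real.log n := by
      rw [hηd]
      field_simp
      ring
    rw [e7] at hdist
    have e8 := (abs_le.1 hdist).1
    have e9 : 8 * A1 * Real.log n ≤ 8 * A1 / Real.log 2 * (Real.log n * Real.log (1 / δ)) := by
      rw [div_mul_eq_mul_div, le_div_iff₀ hl2]
      have : 8 * A1 * Real.log n * Real.log 2 ≤ 8 * A1 * Real.log n * Real.log (1 / δ) :=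
        mul_le_mul_of_nonneg_left hlδ (by
          have : 0 ≤ Real.log n := hl2.le.trans hln
          positivity)
      linarith
    have e10 : 0 ≤ M / (Real.log 2 * Real.log 2) * (Real.log n * Real.log (1 / δ)) := by positivity
    rw [hB']
    linarith

end Pool.Agent.Work.MP_376faf_co_gap
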