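import Pool.Agent.Work.MP_376faf_co_gap.GapMain
import Pool.Agent.Work.MP_376faf_co_gap.Dia
import Pool.Agent.Work.MP_376faf_co_gap.CountX
import Pool.Agent.Work.MP_376faf_co_gap.TwoPoint
import Pool.Agent.Work.MP_376faf_co_gap.ExFam
import Pool.Agent.Work.MP_376faf_co_gap.Near
import Pool.Agent.Work.MP_376faf_co_gap.WinNear
import Pool.Agent.Work.MP_376faf_co_ratio.Final

/-! The final theorems about polygons. -/

set_option autoImplicit false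

namespace Pool.Agent.Work.MP_376faf_co_gap

open Filter Topology
open Pool.Agent.Work.MP_376faf_co_lower
open Pool.Agent.Work.MP_376faf_co_hw

/-- number of polygons of perimeter `2n` up to translation -/
noncomputable def pq (n : ℕ) : ℝ := (Nat.card (PolyFun n) : ℝ) / (4 * (n:ℝ))

theorem gap_main {x : ℝ} (hx : 0 < x) (hx1 : x ≤ 1) {C : ℕ} {a m : ℕ → ℕ} (hF : Fam x C a m) :
    ∃ K : ℕ, ∀ n : ℕ, 1 ≤ n → ∃ N L : ℕ, n ≤ N ∧ N ≤ K * n ∧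
      1 ≤ (K:ℝ) * (n:ℝ) ^ K * ((cPG L N : ℝ) * x ^ N) :=
  gap_main_of hx hx1 hF (rect_two_point hx hx1 hF) (fun hN hg hG => count_step hN hx hg hG)
    diamond CW_len cPG_zero

theorem near_main {μ : ℝ} (hμ : 1 ≤ μ)
    (hT : Tendsto (fun n : ℕ => (Nat.card (WalkFun n) : ℝ) ^ (1 / (n : ℝ))) atTop (𝓝 μ))
    (hc : ∀ n : ℕ, μ ^ n ≤ (Nat.card (WalkFun n) : ℝ)) :
    ∃ B : ℝ, 0 < B ∧ ∀ n : ℕ, 2 ≤ n → ∀ δ : ℝ, 0 < δ → δ ≤ 1 / 2 →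
      ∃ m : ℕ, 2 ≤ m ∧ m ≤ n ∧ (n:ℝ) - m ≤ δ * n ∧
        μ ^ (2 * m) * Real.exp (-(B * (Real.log n * Real.log (1 / δ)))) ≤ pq m := by
  obtain ⟨C, a, m, hF⟩ := exists_fam hμ hT hc
  have hμ0 : 0 < μ := by linarith
  exact poly_near hμ (bridge_greedy hμ (bridge_gap hμ (gap_main (inv_pos.2 hμ0)
    (inv_le_one_of_one_le₀ hμ) hF)))

theorem all_log {μ : ℝ} (hμ : 1 ≤ μ)
    (hT : Tendsto (fun n : ℕ => (Nat.card (WalkFun n) : ℝ) ^ (1 / (n : ℝ))) atTop (𝓝 μ))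
    (hc : ∀ n : ℕ, μ ^ n ≤ (Nat.card (WalkFun n) : ℝ)) :
    ∃ B : ℝ, 0 < B ∧ ∀ n : ℕ, 2 ≤ n →
      μ ^ (2 * n) * Real.exp (-(B * (Real.log n) ^ 2)) ≤ pq n := by
  obtain ⟨B, hB, h⟩ := near_main hμ hT hc
  refine ⟨2 * B, by positivity, fun n hn => ?_⟩
  have hn2 : (2:ℝ) ≤ n := by exact_mod_cast hn
  obtain ⟨m, h1, h2, h3, h4⟩ := h n hn (1 / (2 * n)) (by positivity) (by
    rw [div_le_div_iff₀ (by positivity) (by norm_num)]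
    linarith)
  have hmn : m = n := by
    have e1 : 1 / (2 * (n:ℝ)) * n = 1 / 2 := by
      field_simp
    rw [e1] at h3
    have e2 : (n:ℝ) < m + 1 := by linarith
    have e3 : n < m + 1 := by exact_mod_cast e2
    omega
  subst hmn
  refine le_trans ?_ h4
  refine mul_le_mul_of_nonneg_left (Real.exp_le_exp.2 ?_) (by positivity)
  rw [one_div_one_div, Real.log_mul (by norm_num) (by positivity)]
  have e1 : Real.log 2 ≤ Real.log m := Real.log_le_log (by norm_num) hn2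
  have e2 : 0 ≤ Real.log (m:ℝ) := Real.log_natCast_nonneg m
  nlinarith [mul_nonneg hB.le e2]

theorem ratio_log {μ : ℝ} (hμ : 1 ≤ μ)
    (hT : Tendsto (fun n : ℕ => (Nat.card (WalkFun n) : ℝ) ^ (1 / (n : ℝ))) atTop (𝓝 μ))
    (hc : ∀ n : ℕ, μ ^ n ≤ (Nat.card (WalkFun n) : ℝ)) :
    ∃ A : ℝ, ∀ n : ℕ, 2 ≤ n → |pq (n + 1) / pq n - μ ^ 2| ≤ A * √((Real.log n) ^ 2 / n) := by
  obtain ⟨B, hB, h⟩ := all_log hμ hT hc
  exact Pool.Agent.Work.MP_376faf_co_ratio.poly_ratio (k := 2) (by norm_num) hμ hT h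

theorem main {μ : ℝ} (hμ : 1 ≤ μ)
    (hT : Tendsto (fun n : ℕ => (Nat.card (WalkFun n) : ℝ) ^ (1 / (n : ℝ))) atTop (𝓝 μ))
    (hc : ∀ n : ℕ, μ ^ n ≤ (Nat.card (WalkFun n) : ℝ)) :
    ∃ B : ℝ, 0 < B ∧ ∀ n : ℕ, 2 ≤ n → ∀ δ : ℝ, 0 < δ → δ ≤ 1 / 2 → ∃ m : ℕ, m ≤ n ∧
      (n:ℝ) - m ≤ δ * n ∧ ∀ k : ℕ, 2 ≤ k → |(k:ℝ) - m| ≤ √n →
        μ ^ (2 * k) * Real.exp (-(B * (Real.log n * Real.log (1 / δ)))) ≤ pq k := by
  obtain ⟨B0, hB0, h0⟩ := all_log hμ hT hc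
  obtain ⟨B, hB, h⟩ := near_main hμ hT hc
  obtain ⟨A, hA⟩ := ratio_log hμ hT hc
  have hμ0 : 0 < μ := by linarith
  exact near_window hμ (fun n hn => lt_of_lt_of_le (by positivity) (h0 n hn)) hA hB h

end Pool.Agent.Work.MP_376faf_co_gap
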