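import Pool.Agent.Work.MP_376faf_co_gap.Chain

set_option autoImplicit false

/-!
The exact block: two horizontal chains of diamonds and one vertical chain which touches both.
-/

namespace Pool.Agent.Work.MP_376faf_co_gap

open Pool.Agent.Work.MP_376faf_co_lower
open Pool.Agent.Work.MP_376faf_co_hw.HP (Nb)

/-- walks in a strip: the end is the only vertex in the last column -/
def SP (U V lo hi : ℤ) (l : List Pt) : Prop :=
  Walk l ∧ l.sum = (U, V) ∧ (∀ i < l.length, 0 ≤ (pos l i).1 ∧ (pos l i).1 < U) ∧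
    ∀ i ≤ l.length, lo ≤ (pos l i).2 ∧ (pos l i).2 ≤ hi

theorem SP_of {U V lo hi : ℤ} {l : List Pt} (hW : Walk l) (hs : l.sum = (U, V))
    (h : ∀ q, VW 0 l q → q = (U, V) ∨ (0 ≤ q.1 ∧ q.1 < U))
    (h' : ∀ q, VW 0 l q → lo ≤ q.2 ∧ q.2 ≤ hi) : SP U V lo hi l := by
  refine ⟨hW, hs, ?_, fun i hi => h' _ ⟨i, hi, by rw [zero_add]⟩⟩
  intro i hi
  rcases h (pos l i) ⟨i, hi.le, by rw [zero_add]⟩ with h1 | h1
  · have := hW.2 (Set.mem_Iic.2 hi.le) (Set.mem_Iic.2 le_rfl) (by rw [h1, pos_len, hs])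
    omega
  · exact h1

/-- double contact of the vertical chain with the two horizontal chains -/
theorem contact3 {a M k kc : ℕ} {u : Pt}
    (hu1 : (k : ℤ) * (2 * a + 2) + (2 * a + 2) + 2 ≤ u.1)
    (hu1' : u.1 + (2 * a + 2) ≤ 2 * ((k : ℤ) * (2 * a + 2))) (hu2 : 2 * (a : ℤ) + 2 ≤ u.2)
    (hc : u.2 + (2 * a + 2) + 1 ≤ (kc : ℤ) * (2 * a + 2))
    {YA YB : Fin k → List Pt} {YC : Fin kc → List Pt} (hA : ∀ l, DM a M (YA l))
    (hB : ∀ l, DM a M (YB l)) (hC : ∀ l, DM a M (YC l)) :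
    ∃ z : Pt, 2 ≤ z.1 ∧ z.1 ≤ u.1 - (2 * a + 2) - 1 ∧ 0 ≤ z.2 ∧ z.2 ≤ 2 * a + 3 ∧
      (∀ q, Un' (fun i : Fin kc => ov a z i) YC q →
        ¬ Un' (fun i : Fin k => oh a (1, 0) i) YA q ∧
        ¬ Un' (fun i : Fin k => oh a (u.1 - (k : ℤ) * (2 * a + 2), u.2) i) YB q) ∧
      (∃ c a', Un' (fun i : Fin kc => ov a z i) YC c ∧
        Un' (fun i : Fin k => oh a (1, 0) i) YA a' ∧ d1 c a' ≤ 2) ∧
      (∃ c b, Un' (fun i : Fin kc => ov a z i) YC c ∧
        Un' (fun i : Fin k => oh a (u.1 - (k : ℤ) * (2 * a + 2), u.2) i) YB b ∧ d1 c b ≤ 2) := by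
  have hk : 0 < k := by
    rcases Nat.eq_zero_or_pos k with h | h
    · rw [h] at hu1 hu1'
      push_cast at hu1 hu1'
      omega
    · exact h
  have hkc : 0 < kc := by
    rcases Nat.eq_zero_or_pos kc with h | h
    · rw [h] at hc
      push_cast at hc
      omega
    · exact h
  set A : Pt → Prop := Un' (fun i : Fin k => oh a (1, 0) i) YA with hAd
  set B : Pt → Prop := Un' (fun i : Fin k => oh a (u.1 - (k : ℤ) * (2 * a + 2), u.2) i) YB with hBd
  set C : Pt → Prop := Un' (fun i : Fin kc => ov a 0 i) YC with hCd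
  have bA : ∀ q, A q → 1 ≤ q.1 ∧ q.1 ≤ (k : ℤ) * (2 * a + 2) ∧ -(a : ℤ) - 1 ≤ q.2 ∧ q.2 ≤ a := by
    intro q hq
    have := oh_box hA hq
    simp only at this
    omega
  have bB : ∀ q, B q → u.1 - (k : ℤ) * (2 * a + 2) ≤ q.1 ∧ q.1 ≤ u.1 - 1 ∧
      u.2 - (a : ℤ) - 1 ≤ q.2 ∧ q.2 ≤ u.2 + a := by
    intro q hq
    have := oh_box hB hq
    simp only at this
    omega
  have bC : ∀ q, C q → 0 ≤ q.1 ∧ q.1 ≤ 2 * (a : ℤ) + 1 ∧ -(a : ℤ) - 1 ≤ q.2 ∧
      q.2 ≤ (kc : ℤ) * (2 * a + 2) - a - 2 := by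
    intro q hq
    have := ov_box hC hq
    simp only [Prod.fst_zero, Prod.snd_zero] at this
    omega
  have sC : C (0 + ((a : ℤ), -(a : ℤ) - 1)) := ov_bot hkc hC 0
  have tC : C (0 + ((a : ℤ), (kc : ℤ) * (2 * a + 2) - a - 2)) := ov_top hkc hC 0
  have jC : Jn C (0 + ((a : ℤ), -(a : ℤ) - 1)) (0 + ((a : ℤ), (kc : ℤ) * (2 * a + 2) - a - 2)) :=
    ov_jn hC tC
  have sA : A (1, 0) := oh_start hk hA _
  have tA : A ((1, 0) + ((k : ℤ) * (2 * a + 2) - 1, 0)) := oh_end hk hA _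
  have jA : Jn A (1, 0) ((1, 0) + ((k : ℤ) * (2 * a + 2) - 1, 0)) := oh_jn hA tA
  have sB : B (u.1 - (k : ℤ) * (2 * a + 2), u.2) := oh_start hk hB _
  have tB : B ((u.1 - (k : ℤ) * (2 * a + 2), u.2) + ((k : ℤ) * (2 * a + 2) - 1, 0)) :=
    oh_end hk hB _
  have jB : Jn B (u.1 - (k : ℤ) * (2 * a + 2), u.2)
      ((u.1 - (k : ℤ) * (2 * a + 2), u.2) + ((k : ℤ) * (2 * a + 2) - 1, 0)) := oh_jn hB tB
  obtain ⟨z, z1, z2, z3, z4, z5, ⟨c, hc1, a', ha', hd⟩, ⟨c', hc1', b', hb', hd'⟩⟩ :=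
    double_contact (A := A) (B := B) (C := C) (g := 1) (x0 := 2) (x1 := u.1 - (2 * a + 2) - 1)
      (y0 := 0) (y1 := u.2 + (2 * a + 2)) (by omega) (by omega)
      (by
        intro x _ _ c hcc q hq
        have h1 := bC c hcc
        have h2 : q.2 ≤ u.2 + a := by
          rcases hq with hq | hq
          · have := bA q hq
            omega
          · exact (bB q hq).2.2.2
        unfold d1
        simp only [Prod.fst_add, Prod.snd_add]
        have h3 := abs_nonneg (c.1 + x - q.1)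
        have h4 := le_abs_self (c.2 + (u.2 + (2 * (a : ℤ) + 2)) - q.2)
        omega)
      (by
        intro x hx1 hx2
        rcases le_or_gt (x + (2 * a + 2)) ((k : ℤ) * (2 * a + 2)) with hx | hx
        · obtain ⟨q, hq, c, hcc, e⟩ := hits_arm (z := ((-x, 0) : ℤ × ℤ)) jA sA jC sC (α := 0)
            (β := 2 * (a : ℤ) + 1) (fun p hp => ⟨(bC p hp).1, (bC p hp).2.1⟩)
            (by simp only; omega) (by simp only [Prod.fst_add]; omega)
            (fun q hq => by
              have := bA q hq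
              simp only [Prod.snd_add, Prod.snd_zero]
              omega)
            (fun q hq => by
              have := bA q hq
              simp only [Prod.snd_add, Prod.snd_zero]
              omega)
          refine ⟨c, hcc, q, Or.inl hq, ?_⟩
          have : c + (x, 0) = q := by
            rw [← e, add_assoc]
            simp
          rw [this, d1_self]
          exact one_pos
        · obtain ⟨q, hq, c, hcc, e⟩ := hits_arm (z := ((-x, 0) : ℤ × ℤ)) jB sB jC sC (α := 0)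
            (β := 2 * (a : ℤ) + 1) (fun p hp => ⟨(bC p hp).1, (bC p hp).2.1⟩)
            (by simp only; omega) (by simp only [Prod.fst_add]; omega)
            (fun q hq => by
              have := bB q hq
              simp only [Prod.snd_add, Prod.snd_zero]
              omega)
            (fun q hq => by
              have := bB q hq
              simp only [Prod.snd_add, Prod.snd_zero]
              omega)
          refine ⟨c, hcc, q, Or.inr hq, ?_⟩
          have : c + (x, 0) = q := by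
            rw [← e, add_assoc]
            simp
          rw [this, d1_self]
          exact one_pos)
      (by
        intro y _ _ c hcc q hq
        have h1 := bC c hcc
        have h2 := bB q hq
        unfold d1
        simp only [Prod.fst_add, Prod.snd_add]
        have h3 := abs_nonneg (c.2 + y - q.2)
        have h4 := neg_abs_le (c.1 + 2 - q.1)
        omega)
      (by
        intro y _ _ c hcc q hq
        have h1 := bC c hcc
        have h2 := bA q hq
        unfold d1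
        simp only [Prod.fst_add, Prod.snd_add]
        have h3 := abs_nonneg (c.2 + y - q.2)
        have h4 := le_abs_self (c.1 + (u.1 - (2 * (a : ℤ) + 2) - 1) - q.1)
        omega)
  have sh : ∀ q, Un' (fun i : Fin kc => ov a z i) YC (q + z) ↔ C q := by
    intro q
    have := ov_shift (a := a) (Y := YC) (p := 0) (z := z) (q := q)
    rwa [zero_add] at this
  refine ⟨z, z1, z2, z3, ?_, ?_, ⟨c + z, a', (sh c).2 hc1, ha', hd⟩,
    ⟨c' + z, b', (sh c').2 hc1', hb', hd'⟩⟩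
  · have h1 := bC c hc1
    have h2 := bA a' ha'
    unfold d1 at hd
    simp only [Prod.fst_add, Prod.snd_add] at hd
    have h3 := abs_nonneg (c.1 + z.1 - a'.1)
    have h4 := le_abs_self (c.2 + z.2 - a'.2)
    omega
  · intro q hq
    have h1 : C (q - z) := by
      rw [← sh, sub_add_cancel]
      exact hq
    constructor
    · intro h2
      have := z5 _ h1 q (Or.inl h2)
      rw [sub_add_cancel, d1_self] at this
      omega
    · intro h2
      have := z5 _ h1 q (Or.inr h2)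
      rw [sub_add_cancel, d1_self] at this
      omega

/-- **The exact block** for one choice of the diamonds. -/
theorem block_aux {a M k kc : ℕ} {u : Pt}
    (hu1 : (k : ℤ) * (2 * a + 2) + (2 * a + 2) + 2 ≤ u.1)
    (hu1' : u.1 + (2 * a + 2) ≤ 2 * ((k : ℤ) * (2 * a + 2))) (hu2 : 2 * (a : ℤ) + 2 ≤ u.2)
    (hc : u.2 + (2 * a + 2) + 1 ≤ (kc : ℤ) * (2 * a + 2))
    (hc' : (kc : ℤ) * (2 * a + 2) ≤ u.2 + 2 * (2 * a + 2))
    {Y : Fin k ⊕ Fin k ⊕ Fin kc → List Pt} (hY : ∀ l, DM a M (Y l)) :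
    ∃ (cs : List (Cd (Fin k ⊕ Fin k ⊕ Fin kc))) (cf : List Pt),
      SP u.1 u.2 (-(2 * a + 2)) (u.2 + 3 * (2 * a + 2)) (W1 Y cs cf) ∧
      SP u.1 u.2 (-(2 * a + 2)) (u.2 + 3 * (2 * a + 2)) (rv (W2 Y cs cf)) ∧
      (∀ c ∈ cs, c.2.2.1 < M ∧ c.2.2.2 < M ∧ (∀ s ∈ c.1, Un s) ∧
        c.1.length ≤ Fintype.card (Fin k ⊕ Fin k ⊕ Fin kc) + 3) ∧
      (cs.map fun c => c.2.1).Nodup ∧ (∀ s ∈ cf, Un s) ∧
      cf.length ≤ Fintype.card (Fin k ⊕ Fin k ⊕ Fin kc) + 3 := by
  classical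
  have hk : 0 < k := by
    rcases Nat.eq_zero_or_pos k with h | h
    · rw [h] at hu1 hu1'
      push_cast at hu1 hu1'
      omega
    · exact h
  set YA : Fin k → List Pt := fun i => Y (Sum.inl i) with hYA
  set YB : Fin k → List Pt := fun i => Y (Sum.inr (Sum.inl i)) with hYB
  set YC : Fin kc → List Pt := fun i => Y (Sum.inr (Sum.inr i)) with hYC
  have dA : ∀ i, DM a M (YA i) := fun i => hY _
  have dB : ∀ i, DM a M (YB i) := fun i => hY _
  have dC : ∀ i, DM a M (YC i) := fun i => hY _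
  obtain ⟨z, z1, z2, z3, z4, z5, ⟨c, a', cC, aA, cd⟩, ⟨c', b', cC', bB', cd'⟩⟩ :=
    contact3 hu1 hu1' hu2 hc dA dB dC
  set A : Pt → Prop := Un' (fun i : Fin k => oh a (1, 0) i) YA with hAd
  set B : Pt → Prop := Un' (fun i : Fin k => oh a (u.1 - (k : ℤ) * (2 * a + 2), u.2) i) YB with hBd
  set C : Pt → Prop := Un' (fun i : Fin kc => ov a z i) YC with hCd
  have bA : ∀ q, A q → 1 ≤ q.1 ∧ q.1 ≤ (k : ℤ) * (2 * a + 2) ∧ -(a : ℤ) - 1 ≤ q.2 ∧ q.2 ≤ a := by
    intro q hq
    have := oh_box dA hq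
    simp only at this
    omega
  have bB : ∀ q, B q → u.1 - (k : ℤ) * (2 * a + 2) ≤ q.1 ∧ q.1 ≤ u.1 - 1 ∧
      u.2 - (a : ℤ) - 1 ≤ q.2 ∧ q.2 ≤ u.2 + a := by
    intro q hq
    have := oh_box dB hq
    simp only at this
    omega
  have bC : ∀ q, C q → 2 ≤ q.1 ∧ q.1 ≤ u.1 - 2 ∧ -(a : ℤ) - 1 ≤ q.2 ∧
      q.2 ≤ u.2 + 3 * (2 * a + 2) - a - 1 := by
    intro q hq
    have := ov_box dC hq
    omega
  obtain ⟨r, r1, r2⟩ := d1_two cd
  obtain ⟨r', r1', r2'⟩ := d1_two cd'
  set o : Fin k ⊕ Fin k ⊕ Fin kc → Pt := Sum.elim (fun i => oh a (1, 0) i)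
    (Sum.elim (fun i => oh a (u.1 - (k : ℤ) * (2 * a + 2), u.2) i) fun i => ov a z i) with ho
  have cases : ∀ q, (∃ l, VS (o l) (Y l) q) → A q ∨ B q ∨ C q := by
    rintro q ⟨i | i | i, h⟩
    · exact Or.inl ⟨i, h⟩
    · exact Or.inr (Or.inl ⟨i, h⟩)
    · exact Or.inr (Or.inr ⟨i, h⟩)
  have inA : ∀ q, A q → ∃ l, VS (o l) (Y l) q := by
    rintro q ⟨i, h⟩
    exact ⟨Sum.inl i, h⟩
  have inB : ∀ q, B q → ∃ l, VS (o l) (Y l) q := by
    rintro q ⟨i, h⟩
    exact ⟨Sum.inr (Sum.inl i), h⟩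
  have inC : ∀ q, C q → ∃ l, VS (o l) (Y l) q := by
    rintro q ⟨i, h⟩
    exact ⟨Sum.inr (Sum.inr i), h⟩
  have hdis : ∀ l l', l ≠ l' → ∀ q, VS (o l) (Y l) q → ¬ VS (o l') (Y l') q := by
    have AB : ∀ q, A q → ¬ B q := by
      intro q h1 h2
      have := bA q h1
      have := bB q h2
      omega
    rintro (i | i | i) (j | j | j) hij q h1 h2
    · exact oh_dis dA (fun h => hij (by rw [h])) h1 h2
    · exact AB q ⟨i, h1⟩ ⟨j, h2⟩
    · exact (z5 q ⟨j, h2⟩).1 ⟨i, h1⟩
    · exact AB q ⟨j, h2⟩ ⟨i, h1⟩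
    · exact oh_dis dB (fun h => hij (by rw [h])) h1 h2
    · exact (z5 q ⟨j, h2⟩).2 ⟨i, h1⟩
    · exact (z5 q ⟨i, h1⟩).1 ⟨j, h2⟩
    · exact (z5 q ⟨i, h1⟩).2 ⟨j, h2⟩
    · exact ov_dis dC (fun h => hij (by rw [h])) h1 h2
  have h0 : ∀ l, ¬ VS (o l) (Y l) 0 := by
    intro l hl
    rcases cases 0 ⟨l, hl⟩ with h | h | h
    · have := bA _ h
      simp only [Prod.fst_zero, Prod.snd_zero] at this
      omega
    · have := bB _ h
      simp only [Prod.fst_zero, Prod.snd_zero] at this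
      omega
    · have := bC _ h
      simp only [Prod.fst_zero, Prod.snd_zero] at this
      omega
  set S : Pt → Prop := fun q => q = 0 ∨ q = u ∨ q ∈ ({r, r'} : Finset Pt) ∨
    ∃ l, VS (o l) (Y l) q with hS
  have sA : A (1, 0) := oh_start hk dA _
  have tB : B ((u.1 - (k : ℤ) * (2 * a + 2), u.2) + ((k : ℤ) * (2 * a + 2) - 1, 0)) :=
    oh_end hk dB _
  have SA : ∀ q, A q → S q := fun q hq => Or.inr (Or.inr (Or.inr (inA q hq)))
  have SB : ∀ q, B q → S q := fun q hq => Or.inr (Or.inr (Or.inr (inB q hq)))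
  have SC : ∀ q, C q → S q := fun q hq => Or.inr (Or.inr (Or.inr (inC q hq)))
  have Sr : S r := Or.inr (Or.inr (Or.inl (by simp)))
  have Sr' : S r' := Or.inr (Or.inr (Or.inl (by simp)))
  have S0 : S 0 := Or.inl rfl
  have Su : S u := Or.inr (Or.inl rfl)
  have j1 : Jn S 0 (1, 0) := Jn.step (by
    rw [nb_iff_un, sub_zero]
    exact un10) S0 (SA _ sA)
  have j2 : Jn S (1, 0) a' := (oh_jn dA aA).mono SA
  have j3 : Jn S a' c := ((Jn.step' r1 (SC c cC) Sr).trans (Jn.step' r2 Sr (SA _ aA))).symm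
  have j4 : Jn S c c' := ((ov_jn dC cC).symm.trans (ov_jn dC cC')).mono SC
  have j5 : Jn S c' b' := (Jn.step' r1' (SC c' cC') Sr').trans (Jn.step' r2' Sr' (SB _ bB'))
  have j6 : Jn S b' ((u.1 - (k : ℤ) * (2 * a + 2), u.2) + ((k : ℤ) * (2 * a + 2) - 1, 0)) :=
    ((oh_jn dB bB').symm.trans (oh_jn dB tB)).mono SB
  have j7 : Jn S ((u.1 - (k : ℤ) * (2 * a + 2), u.2) + ((k : ℤ) * (2 * a + 2) - 1, 0)) u := by
    refine Jn.step ?_ (SB _ tB) Su
    rw [nb_iff_un]
    have : u - ((u.1 - (k : ℤ) * (2 * a + 2), u.2) + ((k : ℤ) * (2 * a + 2) - 1, 0)) =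
        (1, 0) := by
      ext
      · simp only [Prod.fst_sub, Prod.fst_add]
        ring
      · simp only [Prod.snd_sub, Prod.snd_add]
        ring
    rw [this]
    exact un10
  obtain ⟨cs, cf, k1, k2, k3, k4, k5, k6, k7, k8, k9, k10⟩ := walls (fun l => (hY l).1) hdis h0
    (j1.trans (j2.trans (j3.trans (j4.trans (j5.trans (j6.trans j7))))))
  have hcard : ({r, r'} : Finset Pt).card ≤ 2 := Finset.card_le_two
  have col : ∀ q, S q → q = u ∨ (0 ≤ q.1 ∧ q.1 < u.1) := by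
    rintro q (rfl | rfl | hq | hq)
    · right
      simp only [Prod.fst_zero]
      omega
    · exact Or.inl rfl
    · right
      rw [Finset.mem_insert, Finset.mem_singleton] at hq
      rcases hq with rfl | rfl
      · have := bC _ cC
        have h2 := abs_le.1 (near_of r1).1
        omega
      · have := bC _ cC'
        have h2 := abs_le.1 (near_of r1').1
        omega
    · right
      rcases cases q hq with h | h | h
      · have := bA _ h
        omega
      · have := bB _ h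
        omega
      · have := bC _ h
        omega
  have row : ∀ q, S q → -(2 * (a : ℤ) + 2) ≤ q.2 ∧ q.2 ≤ u.2 + 3 * (2 * a + 2) := by
    rintro q (rfl | rfl | hq | hq)
    · simp only [Prod.snd_zero]
      omega
    · omega
    · rw [Finset.mem_insert, Finset.mem_singleton] at hq
      rcases hq with rfl | rfl
      · have := bC _ cC
        have h2 := abs_le.1 (near_of r1).2
        omega
      · have := bC _ cC'
        have h2 := abs_le.1 (near_of r1').2
        omega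
    · rcases cases q hq with h | h | h
      · have := bA _ h
        omega
      · have := bB _ h
        omega
      · have := bC _ h
        omega
  have eu : u = (u.1, u.2) := rfl
  have rvV : ∀ q, VW 0 (rv (W2 Y cs cf)) q → VW u (W2 Y cs cf) q := by
    intro q hq
    have h1 := VW_rv (l := W2 Y cs cf) (p := u) (q := q)
    rw [k4, add_neg_cancel] at h1
    exact h1.1 hq
  refine ⟨cs, cf, SP_of k1 (k3.trans eu) (fun q hq => ?_) (fun q hq => row q (k5 q hq)),
    SP_of k2.rv (by rw [rv_sum, k4, neg_neg]) (fun q hq => ?_)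
      (fun q hq => row q (k6 q (rvV q hq))), fun c hc => ?_, k8, k9, by omega⟩
  · exact col q (k5 q hq)
  · exact col q (k6 q (rvV q hq))
  · obtain ⟨m1, m2, m3, m4⟩ := k7 c hc
    have h1 : (Y c.2.1).length = M := (hY _).2.1
    rw [h1] at m1 m2
    exact ⟨m1, m2, m3, by omega⟩

end Pool.Agent.Work.MP_376faf_co_gap
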