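import Pool.Agent.Work.MP_376faf_co_gap.Poly

set_option autoImplicit false

/-!
The legs and the exact block have polynomial mass.
-/

namespace Pool.Agent.Work.MP_376faf_co_gap

open Pool.Agent.Work.MP_376faf_co_lower

/-- many strip walks at the scale `s` -/
def Good (x : ℝ) (m s c : ℕ) (U V lo hi : ℤ) : Prop :=
  ∃ n ≤ c * (m + 1), Gd s c ((nSP U V lo hi n : ℝ) * x ^ n)

theorem Good.mono_c {x : ℝ} {m s c c' : ℕ} {U V lo hi : ℤ} (hs : 1 ≤ s) (hc : c ≤ c')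
    (h : Good x m s c U V lo hi) : Good x m s c' U V lo hi := by
  obtain ⟨n, h1, h2⟩ := h
  exact ⟨n, h1.trans (Nat.mul_le_mul_right _ hc), h2.mono hs hc⟩

theorem Good.mono {x : ℝ} (hx : 0 < x) {m s c : ℕ} {U V lo hi lo' hi' : ℤ} (h1 : lo' ≤ lo)
    (h2 : hi ≤ hi') (h : Good x m s c U V lo hi) : Good x m s c U V lo' hi' := by
  obtain ⟨n, h3, h4⟩ := h
  refine ⟨n, h3, h4.le (mul_le_mul_of_nonneg_right ?_ (by positivity))⟩
  exact_mod_cast nSP_mono h1 h2 n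

theorem Good.neg {x : ℝ} (hx : 0 < x) {m s c : ℕ} {U V lo hi : ℤ} (h : Good x m s c U V lo hi) :
    Good x m s c U (-V) (-hi) (-lo) := by
  obtain ⟨n, h3, h4⟩ := h
  refine ⟨n, h3, h4.le (mul_le_mul_of_nonneg_right ?_ (by positivity))⟩
  exact_mod_cast nSP_neg U V lo hi n

theorem Good.app {x : ℝ} (hx : 0 < x) {m s c c' : ℕ} {U V U' V' lo hi : ℤ}
    (h : Good x m s c U V lo hi) (h' : Good x m s c' U' V' (lo - V) (hi - V)) :
    Good x m s (c + c') (U + U') (V + V') lo hi := by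
  obtain ⟨n, h3, h4⟩ := h
  obtain ⟨n', h3', h4'⟩ := h'
  refine ⟨n + n', by rw [add_mul]; omega, (h4.mul h4').le ?_⟩
  have h5 : ((nSP U V lo hi n : ℝ) * nSP U' V' (lo - V) (hi - V) n') ≤
      nSP (U + U') (V + V') lo hi (n + n') := by
    exact_mod_cast nSP_mul U V U' V' lo hi n n'
  rw [pow_add]
  calc _ = ((nSP U V lo hi n : ℝ) * nSP U' V' (lo - V) (hi - V) n') * (x ^ n * x ^ n') := by ring
    _ ≤ _ := mul_le_mul_of_nonneg_right h5 (by positivity)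

theorem Fam.C_pos {x : ℝ} {C : ℕ} {a m : ℕ → ℕ} (hF : Fam x C a m) : 1 ≤ C := by
  have h1 := hF.lo 1 le_rfl
  have h2 := hF.hi 1 le_rfl
  omega

theorem legs_good {x : ℝ} (hx : 0 < x) {C : ℕ} {a m : ℕ → ℕ} (hF : Fam x C a m) (p : ℕ) :
    ∃ c : ℕ, ∀ s : ℕ, 1 ≤ s → Good x (m s) s c ((p : ℤ) * (a s + 1)) ((p : ℤ) * a s) 0
      ((p : ℤ) * a s) := by
  have h1 : PB fun s => (((C : ℝ) * (s : ℝ) ^ C) * x⁻¹) ^ p :=
    ((((PB.const C).mul (PB.id.pow (fun s => by positivity) C) fun s => by positivity).mul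
      (PB.const x⁻¹) fun s => by positivity).pow (fun s => by positivity) p)
  obtain ⟨c, hc⟩ := h1
  refine ⟨c + p, fun s hs => ⟨p * (m s + 1), Nat.mul_le_mul_right _ (by omega), ?_⟩⟩
  refine Gd.mono hs (show c ≤ c + p by omega) ?_
  unfold Gd
  have h2 := hF.mass s hs
  set f : ℕ := Nat.card {l : List Pt // CW (a s) (m s) l} with hf
  have h3 : (f : ℝ) ^ p ≤ (nSP ((p : ℤ) * (a s + 1)) ((p : ℤ) * a s) 0 ((p : ℤ) * a s)
      (p * (m s + 1)) : ℝ) := by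
    exact_mod_cast legs_card (a s) (m s) p
  have h4 : (1 : ℝ) ≤ (((C : ℝ) * (s : ℝ) ^ C) * x⁻¹) ^ p * ((f : ℝ) ^ p * x ^ (p * (m s + 1))) := by
    have h5 : (((C : ℝ) * (s : ℝ) ^ C) * x⁻¹) ^ p * ((f : ℝ) ^ p * x ^ (p * (m s + 1))) =
        ((C : ℝ) * (s : ℝ) ^ C * ((f : ℝ) * x ^ m s)) ^ p := by
      rw [mul_comm p, pow_mul, ← mul_pow, ← mul_pow]
      congr 1
      rw [pow_succ]
      field_simp
    rw [h5]
    exact one_le_pow₀ h2
  refine h4.trans ?_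
  refine mul_le_mul (hc s hs) (mul_le_mul_of_nonneg_right h3 (by positivity)) (by positivity) ?_
  exact le_trans zero_le_one (pw_one hs)

theorem Nc_mono {k k' M K K' : ℕ} (hk : k ≤ k') (hK : K ≤ K') : Nc k M K ≤ Nc k' M K' := by
  unfold Nc
  have h1 : 5 ^ K ≤ 5 ^ K' := Nat.pow_le_pow_right (by norm_num) hK
  have h2 : 5 ^ K * (k * (M * M)) + 1 ≤ 5 ^ K' * (k' * (M * M)) + 1 :=
    Nat.add_le_add_right (Nat.mul_le_mul h1 (Nat.mul_le_mul_right _ hk)) 1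
  exact Nat.mul_le_mul ((Nat.pow_le_pow_left h2 k).trans
    (Nat.pow_le_pow_right (Nat.succ_pos _) hk)) h1

/-- arithmetic of the block -/
theorem block_arith {w U V KK : ℤ} (hw : 4 ≤ w) (h1 : 6 * w ≤ U) (h2 : U ≤ KK * w) (h3 : w ≤ V)
    (h4 : V ≤ KK * w) : ∃ k kc : ℕ, (k : ℤ) * w + w + 2 ≤ U ∧ U + w ≤ 2 * ((k : ℤ) * w) ∧
      V + w + 1 ≤ (kc : ℤ) * w ∧ (kc : ℤ) * w ≤ V + 2 * w ∧ 2 * (k : ℤ) ≤ KK + 3 ∧
      (kc : ℤ) ≤ KK + 2 := by
  have hw2 : 0 < 2 * w := by omega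
  have hw1 : 0 < w := by omega
  have e1 := Int.mul_ediv_self_le (x := U + 3 * w - 1) (k := 2 * w) (by omega)
  have e2 := Int.lt_mul_ediv_self_add (x := U + 3 * w - 1) hw2
  have e3 := Int.mul_ediv_self_le (x := V + 2 * w) (k := w) (by omega)
  have e4 := Int.lt_mul_ediv_self_add (x := V + 2 * w) hw1
  have p1 : 0 ≤ (U + 3 * w - 1) / (2 * w) := Int.ediv_nonneg (by omega) hw2.le
  have p2 : 0 ≤ (V + 2 * w) / w := Int.ediv_nonneg (by omega) hw1.le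
  obtain ⟨k, hk⟩ := Int.eq_ofNat_of_zero_le p1
  obtain ⟨kc, hkc⟩ := Int.eq_ofNat_of_zero_le p2
  rw [hk] at e1 e2
  rw [hkc] at e3 e4
  have r1 : 2 * w * (k : ℤ) = 2 * ((k : ℤ) * w) := by ring
  have r2 : w * (kc : ℤ) = (kc : ℤ) * w := by ring
  rw [r1] at e1 e2
  rw [r2] at e3 e4
  refine ⟨k, kc, by omega, by omega, by omega, e3, ?_, ?_⟩
  · by_contra hcon
    push Not at hcon
    nlinarith
  · by_contra hcon
    push Not at hcon
    nlinarith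

theorem block_good {x : ℝ} (hx : 0 < x) (hx1 : x ≤ 1) {C : ℕ} {a m : ℕ → ℕ} (hF : Fam x C a m)
    (KK : ℕ) : ∃ c : ℕ, ∀ s : ℕ, 1 ≤ s → ∀ U V : ℤ, 6 * (2 * (a s : ℤ) + 2) ≤ U →
      U ≤ (KK : ℤ) * (2 * (a s : ℤ) + 2) → 2 * (a s : ℤ) + 2 ≤ V →
      V ≤ (KK : ℤ) * (2 * (a s : ℤ) + 2) →
      Good x (m s) s c U V (-(2 * (a s : ℤ) + 2)) (V + 3 * (2 * (a s : ℤ) + 2)) := by
  set KX : ℕ := 2 * KK + 5 with hKX
  set L0 : ℕ := (KX + 1) * (KX + 3) with hL0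
  set A : ℕ → ℝ := fun s => (C : ℝ) * (s : ℝ) ^ C with hA
  have A0 : ∀ s, 0 ≤ A s := fun s => by
    rw [hA]
    positivity
  have pA : PB A := (PB.const C).mul (PB.id.pow (fun s => by positivity) C) fun s => by positivity
  have pm : PB fun s => (m s : ℝ) := pA.le fun s hs => by
    have h5 := hF.len s hs
    have h6 : (m s : ℝ) ≤ (C : ℝ) * (s : ℝ) ^ C := by exact_mod_cast h5
    exact h6
  have pM : PB fun s => (4 * (m s : ℝ) + 4) := ((PB.const 4).mul pm fun s => by positivity).add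
    (PB.const 4)
  have pN : PB fun s => ((Nc KX (4 * m s + 4) (KX + 3) : ℕ) : ℝ) := by
    have h1 : PB fun s => ((5 : ℝ) ^ (KX + 3) * ((KX : ℝ) * ((4 * (m s : ℝ) + 4) *
        (4 * (m s : ℝ) + 4))) + 1) ^ KX * (5 : ℝ) ^ (KX + 3) := by
      refine PB.mul (PB.pow (((PB.const _).mul ((PB.const _).mul (pM.mul pM ?_) ?_) ?_).add
        (PB.const 1)) ?_ _) (PB.const _) ?_
      all_goals
        intro s
        positivity
    refine h1.le fun s _ => le_of_eq ?_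
    unfold Nc
    push_cast
    rfl
  have pQ : PB fun s => ((A s ^ 4 * x⁻¹ ^ 4) ^ KX * ((Nc KX (4 * m s + 4) (KX + 3) : ℕ) : ℝ)) *
      x⁻¹ ^ (2 * L0) := by
    refine ((PB.pow ((pA.pow A0 4).mul (PB.const _) ?_) ?_ KX).mul pN ?_).mul (PB.const _) ?_
    · intro s
      positivity
    · intro s
      have := A0 s
      positivity
    · intro s
      positivity
    · intro s
      positivity
  obtain ⟨c, hc⟩ := pQ
  refine ⟨c + (4 * KX + 2 * L0), fun s hs U V h1 h2 h3 h4 => ?_⟩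
  have ha : 1 ≤ a s := hs.trans (hF.lo s hs)
  obtain ⟨k, kc, g1, g2, g3, g4, g5, g6⟩ := block_arith (w := 2 * (a s : ℤ) + 2)
    (KK := (KK : ℤ)) (by omega) h1 h2 h3 h4
  set M : ℕ := 4 * m s + 4 with hM
  have hfin : Set.Finite {l | DM (a s) M l} :=
    Set.finite_coe_iff.1 (DM.fin (a s) M)
  set P : Finset (List Pt) := hfin.toFinset with hP
  have hPm : ∀ l, l ∈ P ↔ DM (a s) M l := fun l => by
    rw [hP, Set.Finite.mem_toFinset]
    rfl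
  have hPc : P.card = Nat.card {l // DM (a s) M l} := by
    rw [hP, ← Set.ncard_eq_toFinset_card _ hfin]
    rfl
  set f : ℕ := Nat.card {l : List Pt // CW (a s) (m s) l} with hf
  have hmass := hF.mass s hs
  rw [← hf] at hmass
  have hfF : (f : ℝ) ^ 4 ≤ (P.card : ℝ) := by
    rw [hPc]
    exact_mod_cast card_DM (a s) (m s)
  have hf0 : 0 < f := by
    rcases Nat.eq_zero_or_pos f with h | h
    · rw [h] at hmass
      norm_num at hmass
    · exact h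
  have hPpos : 0 < P.card := by
    have h5 : (0 : ℝ) < (P.card : ℝ) := lt_of_lt_of_le (by positivity) hfF
    exact_mod_cast h5
  obtain ⟨q, k1, k2, L, q1, q2, q3, q4⟩ := count (ι := Fin k ⊕ Fin k ⊕ Fin kc) (M := M) (P := P)
    (fun l hl => ((hPm l).1 hl).2.1) (Finset.card_pos.1 hPpos)
    (G := SP U V (-(2 * (a s : ℤ) + 2)) (V + 3 * (2 * (a s : ℤ) + 2)))
    (fun w hw => hw.1.1) (K := Fintype.card (Fin k ⊕ Fin k ⊕ Fin kc) + 3)
    (fun Y hY => block_aux (u := (U, V)) g1 g2 h3 g3 g4 fun l => (hPm _).1 (hY l))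
  have hcard : Fintype.card (Fin k ⊕ Fin k ⊕ Fin kc) ≤ KX := by
    rw [Fintype.card_sum, Fintype.card_sum, Fintype.card_fin, Fintype.card_fin]
    omega
  have hq : q ≤ KX := q1.trans hcard
  have hL : L ≤ L0 := q3.trans (Nat.mul_le_mul (by omega) (by omega))
  have hNc : Nc (Fintype.card (Fin k ⊕ Fin k ⊕ Fin kc)) M
      (Fintype.card (Fin k ⊕ Fin k ⊕ Fin kc) + 3) ≤ Nc KX M (KX + 3) :=
    Nc_mono hcard (by omega)
  set N1 : ℕ := nSP U V (-(2 * (a s : ℤ) + 2)) (V + 3 * (2 * (a s : ℤ) + 2)) k1 with hN1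
  set N2 : ℕ := nSP U V (-(2 * (a s : ℤ) + 2)) (V + 3 * (2 * (a s : ℤ) + 2)) k2 with hN2
  have q5 : P.card ^ q ≤ Nc KX M (KX + 3) * (N1 * N2) := q4.trans (Nat.mul_le_mul_right _ hNc)
  have q6 : (P.card : ℝ) ^ q ≤ (Nc KX M (KX + 3) : ℕ) * ((N1 : ℝ) * N2) := by exact_mod_cast q5
  have hxi : 1 ≤ x⁻¹ := (one_le_inv₀ hx).2 hx1
  have hA1 : 1 ≤ A s := by
    rw [hA]
    have h5 : (1 : ℝ) ≤ C := by exact_mod_cast hF.C_pos
    have h6 : (1 : ℝ) ≤ (s : ℝ) ^ C := one_le_pow₀ (by exact_mod_cast hs)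
    simp only
    nlinarith
  set T : ℝ := A s ^ 4 * x⁻¹ ^ 4 with hT
  have hT1 : 1 ≤ T := by
    rw [hT]
    have h5 : (1 : ℝ) ≤ A s ^ 4 := one_le_pow₀ hA1
    have h6 : (1 : ℝ) ≤ x⁻¹ ^ 4 := one_le_pow₀ hxi
    nlinarith
  have hφ : 1 ≤ T * ((P.card : ℝ) * x ^ M) := by
    have h5 : 1 ≤ (A s * ((f : ℝ) * x ^ m s)) ^ 4 := one_le_pow₀ hmass
    have h6 : T * ((f : ℝ) ^ 4 * x ^ M) = (A s * ((f : ℝ) * x ^ m s)) ^ 4 := by
      rw [hT, hM, pow_add, mul_comm 4 (m s), pow_mul]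
      field_simp
    rw [← h6] at h5
    refine h5.trans (mul_le_mul_of_nonneg_left (mul_le_mul_of_nonneg_right hfF (by positivity))
      (by linarith))
  have hxx : x ^ (q * M) ≤ x ^ k1 * x ^ k2 * x⁻¹ ^ (2 * L0) := by
    have h5 : x ^ k1 * x ^ k2 = x ^ (q * M) * x ^ (2 * L) := by
      rw [← pow_add, q2, pow_add]
    rw [h5]
    have h6 : x⁻¹ ^ (2 * L) ≤ x⁻¹ ^ (2 * L0) := pow_le_pow_right₀ hxi (by omega)
    have h7 : x ^ (2 * L) * x⁻¹ ^ (2 * L) = 1 := by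
      rw [← mul_pow, mul_inv_cancel₀ hx.ne', one_pow]
    calc x ^ (q * M) = x ^ (q * M) * (x ^ (2 * L) * x⁻¹ ^ (2 * L)) := by rw [h7, mul_one]
      _ = x ^ (q * M) * x ^ (2 * L) * x⁻¹ ^ (2 * L) := by ring
      _ ≤ _ := mul_le_mul_of_nonneg_left h6 (by positivity)
  have key : 1 ≤ ((T ^ KX * ((Nc KX M (KX + 3) : ℕ) : ℝ)) * x⁻¹ ^ (2 * L0)) *
      (((N1 : ℝ) * x ^ k1) * ((N2 : ℝ) * x ^ k2)) := by
    calc (1 : ℝ) ≤ (T * ((P.card : ℝ) * x ^ M)) ^ q := one_le_pow₀ hφ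
      _ = T ^ q * ((P.card : ℝ) ^ q * x ^ (q * M)) := by
        rw [mul_pow T, mul_pow (P.card : ℝ) (x ^ M), ← pow_mul x M q, mul_comm M q]
      _ ≤ T ^ KX * (((Nc KX M (KX + 3) : ℕ) * ((N1 : ℝ) * N2)) *
          (x ^ k1 * x ^ k2 * x⁻¹ ^ (2 * L0))) := by
        refine mul_le_mul (pow_le_pow_right₀ hT1 hq) ?_ (by positivity) (by positivity)
        exact mul_le_mul q6 hxx (by positivity) (by positivity)
      _ = _ := by ring
  have hgd : Gd s c (((N1 : ℝ) * x ^ k1) * ((N2 : ℝ) * x ^ k2)) := by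
    unfold Gd
    refine key.trans (mul_le_mul_of_nonneg_right (hc s hs) (by positivity))
  have hlen : k1 + k2 ≤ (4 * KX + 2 * L0) * (m s + 1) := by
    rw [q2, hM]
    have h5 : q * (4 * m s + 4) ≤ KX * (4 * m s + 4) := Nat.mul_le_mul_right _ hq
    have h6 : (4 * KX + 2 * L0) * (m s + 1) = KX * (4 * m s + 4) + 2 * L0 * (m s + 1) := by ring
    have h7 : 2 * L ≤ 2 * L0 * (m s + 1) := by
      have : 2 * L0 * 1 ≤ 2 * L0 * (m s + 1) := Nat.mul_le_mul_left _ (by omega)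
      omega
    omega
  have hlen' : (4 * KX + 2 * L0) * (m s + 1) ≤ (c + (4 * KX + 2 * L0)) * (m s + 1) :=
    Nat.mul_le_mul_right _ (by omega)
  rcases hgd.split hs (by positivity) with h5 | h5
  · exact ⟨k1, by omega, h5.mono hs (by omega)⟩
  · exact ⟨k2, by omega, h5.mono hs (by omega)⟩

end Pool.Agent.Work.MP_376faf_co_gap
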