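import Pool.Agent.Work.MP_376faf_co_gap.CornerFam
import Pool.Agent.Work.MP_376faf_co_hw.BrCount

/-! Polygons in a box against bridges. -/

set_option autoImplicit false

namespace Pool.Agent.Work.MP_376faf_co_gap

open Pool.Agent.Work.MP_376faf_co_lower
open Pool.Agent.Work.MP_376faf_co_hw

/-- positions of a polygon after rotation to a leftmost vertex -/
theorem PG.left {l : List Pt} (h : PG l) : ∃ i ≤ l.length,
    ∀ k ≤ l.length, 0 ≤ (pos (l.rotate i) k).1 := by
  obtain ⟨h1, h2, h3, h4⟩ := h
  obtain ⟨i, hi, h5, -⟩ := last_min (fun k => (pos l k).1) l.length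
  refine ⟨i, hi, fun k hk => ?_⟩
  rcases le_total k (l.length - i) with h6 | h6
  · rw [pos_rot_le l hi h6, Prod.fst_sub]
    have := h5 (i + k) (by omega)
    omega
  · have := pos_rot_ge h2 hi (i := k - (l.length - i)) (by omega)
    rw [show l.length - i + (k - (l.length - i)) = k by omega] at this
    rw [this, Prod.fst_sub]
    have := h5 (k - (l.length - i)) (by omega)
    omega

/-- a walk in the right half plane which ends in its last column, with a first step in front -/
theorem bridge_front {A : List Pt} (hA : Walk A) (h0 : ∀ k ≤ A.length, 0 ≤ (pos A k).1)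
    (h1 : ∀ k ≤ A.length, (pos A k).1 ≤ (pos A A.length).1) : Bridge ((1, 0) :: A) := by
  refine ⟨walk_cons (by simp [Un]) hA ?_, ?_⟩
  · intro j hj heq
    have e1 := congrArg Prod.fst heq
    have e2 := h0 j hj
    simp only [Prod.fst_add, Prod.fst_zero] at e1
    omega
  · intro i hi0 hi
    obtain ⟨i, rfl⟩ : ∃ k, i = k + 1 := ⟨i - 1, by omega⟩
    rw [List.length_cons] at hi ⊢
    rw [pos_cons, pos_cons, Prod.fst_add, Prod.fst_add]
    have e1 := h1 i (by omega)
    have e2 := h0 i (by omega)
    simp only
    omega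

/-- the bridge of a polygon -/
def brg (i j : ℕ) (l : List Pt) : List Pt :=
  ((1, 0) :: (l.rotate i).take j) ++ ((1, 0) :: rv ((l.rotate i).drop j))

theorem PG.brg {l : List Pt} (h : PG l) : ∃ i j, i ≤ l.length ∧ j ≤ l.length ∧
    Bridge (brg i j l) ∧ (brg i j l).length = l.length + 2 := by
  obtain ⟨i, hi, h0⟩ := h.left
  have h' := h.rot hi
  have hlen : (l.rotate i).length = l.length := List.length_rotate _ _
  have h3 := h.2.2.2
  set l' := l.rotate i with hl'
  obtain ⟨j', hj', h5, -⟩ := last_max (fun k => (pos l' (k + 1)).1) (l.length - 2)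
  set j := j' + 1 with hj
  have hend : pos l' l.length = 0 := by
    rw [← hlen, pos_len]
    exact h'.2.1
  have hmax : ∀ k ≤ l.length, (pos l' k).1 ≤ (pos l' j).1 := by
    intro k hk
    rcases Nat.eq_zero_or_pos k with h6 | h6
    · rw [h6, pos_zero]
      exact h0 j (by omega)
    · rcases Nat.eq_or_lt_of_le hk with h7 | h7
      · rw [h7, hend]
        exact h0 j (by omega)
      · have := h5 (k - 1) (by omega)
        rw [show k - 1 + 1 = k by omega] at this
        exact this
  obtain ⟨c1, c2, c3⟩ := h'.cut (a := j) (by omega) (by omega)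
  have hlt : (l'.take j).length = j := by rw [List.length_take]; omega
  have hld : (l'.drop j).length = l.length - j := by rw [List.length_drop, hlen]
  have hp : ∀ k ≤ l.length - j, pos (rv (l'.drop j)) k = pos l' (l.length - k) := by
    intro k hk
    rw [pos_rv _ (by omega), hld, pos_drop _ (by omega), pos_drop _ (by omega),
      show j + (l.length - j) = l.length by omega, hend,
      show j + (l.length - j - k) = l.length - k by omega]
    abel
  refine ⟨i, j, hi, by omega, bridge_append (bridge_front c1 ?_ ?_) (bridge_front c2.rv ?_ ?_), ?_⟩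
  · intro k hk
    rw [hlt] at hk
    rw [pos_take _ hk]
    exact h0 k (by omega)
  · intro k hk
    rw [hlt] at hk ⊢
    rw [pos_take _ hk, pos_take _ le_rfl]
    exact hmax k (by omega)
  · intro k hk
    rw [rv_length, hld] at hk
    rw [hp k hk]
    exact h0 _ (by omega)
  · intro k hk
    rw [rv_length, hld] at hk ⊢
    rw [hp k hk, hp _ le_rfl, show l.length - (l.length - j) = j by omega]
    exact hmax _ (by omega)
  · unfold MP_376faf_co_gap.brg
    rw [List.length_append, List.length_cons, List.length_cons, rv_length, ← hl', hlt, hld]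
    omega

theorem brg_inj {i j : ℕ} {l m : List Pt} (hl : l.length = m.length)
    (h : brg i j l = brg i j m) : l = m := by
  unfold brg at h
  have h1 : ((1, 0) :: (l.rotate i).take j : List Pt).length =
      ((1, 0) :: (m.rotate i).take j : List Pt).length := by
    simp only [List.length_cons, List.length_take, List.length_rotate, hl]
  obtain ⟨h2, h3⟩ := List.append_inj h h1
  have h4 := (List.cons.inj h2).2
  have h5 := rv_inj (List.cons.inj h3).2
  have h6 : l.rotate i = m.rotate i := by
    rw [← List.take_append_drop j (l.rotate i), ← List.take_append_drop j (m.rotate i), h4, h5]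
  exact List.rotate_injective i h6

/-- two arcs of a polygon between a leftmost and a rightmost vertex, one after the other, form a
bridge -/
theorem bridge_of_pg (L N : ℕ) : cPG L N ≤ (N + 1) ^ 2 * bn (N + 2) := by
  have hex : ∀ l : {l : List Pt // PGB L N l}, ∃ i j, i ≤ N ∧ j ≤ N ∧ Bridge (brg i j l.1) ∧
      (brg i j l.1).length = N + 2 := by
    intro l
    obtain ⟨i, j, h1, h2, h3, h4⟩ := l.2.1.brg
    rw [l.2.2.1] at h1 h2 h4
    exact ⟨i, j, h1, h2, h3, h4⟩
  choose i j hi hj hb hlen using hex
  have h1 : cPG L N ≤ Nat.card (Fin (N + 1) × Fin (N + 1) ×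
      {l : List Pt // Bridge l ∧ l.length = N + 2}) := by
    unfold cPG
    refine Nat.card_le_card_of_injective (fun l : {l : List Pt // PGB L N l} =>
      ((⟨i l, Nat.lt_succ_of_le (hi l)⟩, ⟨j l, Nat.lt_succ_of_le (hj l)⟩,
        ⟨brg (i l) (j l) l.1, hb l, hlen l⟩) : Fin (N + 1) × Fin (N + 1) ×
          {l : List Pt // Bridge l ∧ l.length = N + 2})) ?_
    intro a b hab
    simp only [Prod.mk.injEq, Fin.mk.injEq, Subtype.mk.injEq] at hab
    obtain ⟨e1, e2, e3⟩ := hab
    rw [e1, e2] at e3
    exact Subtype.ext (brg_inj (by rw [a.2.2.1, b.2.2.1]) e3)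
  refine h1.trans (le_of_eq ?_)
  rw [Nat.card_prod, Nat.card_prod, Nat.card_eq_fintype_card, Fintype.card_fin]
  unfold bn
  ring

end Pool.Agent.Work.MP_376faf_co_gap
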