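import Pool.Agent.Work.MP_376faf_co_gap.Induct
import Pool.Agent.Work.MP_376faf_co_gap.BrPG

/-! From polygons with bounded gaps to bridges, and to all lengths. -/

set_option autoImplicit false

namespace Pool.Agent.Work.MP_376faf_co_gap

open Filter Topology
open Pool.Agent.Work.MP_376faf_co_lower
open Pool.Agent.Work.MP_376faf_co_hw

theorem bridge_gap {μ : ℝ} (hμ : 1 ≤ μ)
    (h : ∃ K : ℕ, ∀ n : ℕ, 1 ≤ n → ∃ N L : ℕ, n ≤ N ∧ N ≤ K * n ∧
      1 ≤ (K:ℝ) * (n:ℝ) ^ K * ((cPG L N : ℝ) * μ⁻¹ ^ N)) :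
    ∃ K : ℕ, 1 ≤ K ∧ ∀ n : ℕ, K ≤ n → ∃ m : ℕ, m ≤ n ∧ n ≤ K * m ∧
      μ ^ m ≤ (K:ℝ) * (n:ℝ) ^ K * bn m := by
  obtain ⟨K0, h⟩ := h
  obtain ⟨K1, hK1⟩ := exists_nat_ge (μ ^ 2 * K0)
  have hμ0 : 0 < μ := by linarith
  obtain ⟨K, k1, k2⟩ : ∃ K : ℕ, K1 ≤ K ∧ 2 * K0 + 10 ≤ K := ⟨max K1 (2 * K0 + 10), by omega, by omega⟩
  refine ⟨K, by omega, fun n hn => ?_⟩
  have hn1 : (1:ℝ) ≤ n := by exact_mod_cast (by omega : 1 ≤ n)
  set n' := (n - 2) / (K0 + 1) with hn'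
  have h1 : 1 ≤ n' := by
    rw [hn', Nat.le_div_iff_mul_le (by omega)]
    omega
  have h2 : n' * (K0 + 1) ≤ n - 2 := Nat.div_mul_le_self _ _
  have h3 : n - 2 < (n' + 1) * (K0 + 1) := by
    have := Nat.lt_div_mul_add (a := n - 2) (b := K0 + 1) (by omega)
    rw [← hn'] at this
    calc n - 2 < n' * (K0 + 1) + (K0 + 1) := this
      _ = _ := by ring
  obtain ⟨N, L, h4, h5, h6⟩ := h n' h1
  have h7 : N + 2 ≤ n := by
    have : K0 * n' ≤ n' * (K0 + 1) := by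
      calc K0 * n' = n' * K0 := Nat.mul_comm _ _
        _ ≤ _ := Nat.mul_le_mul_left _ (by omega)
    omega
  refine ⟨N + 2, h7, ?_, ?_⟩
  · have h8 : (n' + 1) * (K0 + 1) ≤ (N + 2) * (K0 + 1) := Nat.mul_le_mul_right _ (by omega)
    have h9 : (N + 2) * (K0 + 3) ≤ K * (N + 2) := by
      rw [Nat.mul_comm K]
      exact Nat.mul_le_mul_left _ (by omega)
    have h10 : (N + 2) * (K0 + 3) = (N + 2) * (K0 + 1) + 2 * (N + 2) := by ring
    omega
  · have hb := bridge_of_pg L N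
    have hb' : (cPG L N : ℝ) ≤ ((N:ℝ) + 1) ^ 2 * bn (N + 2) := by exact_mod_cast hb
    have e1 : μ ^ N ≤ (K0:ℝ) * (n':ℝ) ^ K0 * (cPG L N : ℝ) := by
      rw [inv_pow, ← mul_assoc, ← div_eq_mul_inv, one_le_div (by positivity)] at h6
      exact h6
    have e2 : (n':ℝ) ^ K0 ≤ (n:ℝ) ^ K0 := by
      refine pow_le_pow_left₀ (by positivity) ?_ _
      exact_mod_cast (Nat.div_le_self _ _).trans (Nat.sub_le n 2)
    have e3 : ((N:ℝ) + 1) ^ 2 ≤ (n:ℝ) ^ 2 := by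
      refine pow_le_pow_left₀ (by positivity) ?_ _
      exact_mod_cast (by omega : N + 1 ≤ n)
    calc μ ^ (N + 2) = μ ^ 2 * μ ^ N := by ring
      _ ≤ μ ^ 2 * ((K0:ℝ) * (n:ℝ) ^ K0 * ((n:ℝ) ^ 2 * bn (N + 2))) := by
          refine mul_le_mul_of_nonneg_left (e1.trans ?_) (by positivity)
          refine mul_le_mul (mul_le_mul_of_nonneg_left e2 (by positivity)) (hb'.trans ?_)
            (by positivity) (by positivity)
          exact mul_le_mul_of_nonneg_right e3 (by positivity)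
      _ = (μ ^ 2 * K0) * (n:ℝ) ^ (K0 + 2) * bn (N + 2) := by ring
      _ ≤ (K:ℝ) * (n:ℝ) ^ K * bn (N + 2) := by
          refine mul_le_mul_of_nonneg_right ?_ (by positivity)
          refine mul_le_mul (hK1.trans (by exact_mod_cast k1)) (pow_le_pow_right₀ hn1 (by omega))
            (by positivity) (by positivity)

/-- deficit of the bridges -/
noncomputable def FF (μ : ℝ) (n : ℕ) : ℝ := n * Real.log μ - Real.log (bn n)

theorem bn_pos' (n : ℕ) : (0:ℝ) < bn n := by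
  have := bn_pos n
  exact_mod_cast this

theorem FF_sub (μ : ℝ) (a b : ℕ) : FF μ (a + b) ≤ FF μ a + FF μ b := by
  have h1 : Real.log (bn a) + Real.log (bn b) ≤ Real.log (bn (a + b)) := by
    rw [← Real.log_mul (bn_pos' a).ne' (bn_pos' b).ne']
    refine Real.log_le_log (mul_pos (bn_pos' a) (bn_pos' b)) ?_
    exact_mod_cast bn_mul a b
  unfold FF
  push_cast
  linarith

theorem FF_zero (μ : ℝ) : FF μ 0 = 0 := by simp [FF, bn_zero]

theorem exp_FF {μ : ℝ} (hμ : 1 ≤ μ) (n : ℕ) : (bn n : ℝ) = μ ^ n * Real.exp (-FF μ n) := by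
  have hμ0 : 0 < μ := by linarith
  unfold FF
  rw [neg_sub, Real.exp_sub, Real.exp_log (bn_pos' n), Real.exp_nat_mul, Real.exp_log hμ0]
  field_simp

/-- bridges: sums of `j` good pieces -/
theorem bridge_greedy {μ : ℝ} (hμ : 1 ≤ μ)
    (h : ∃ K : ℕ, 1 ≤ K ∧ ∀ n : ℕ, K ≤ n → ∃ m : ℕ, m ≤ n ∧ n ≤ K * m ∧
      μ ^ m ≤ (K:ℝ) * (n:ℝ) ^ K * bn m) :
    ∃ (K : ℕ) (c : ℝ), 1 ≤ K ∧ 0 ≤ c ∧ ∀ j n : ℕ, 1 ≤ n → ∃ m ≤ n,
      ((n - m : ℕ) : ℝ) ≤ K + (1 - 1 / (K:ℝ)) ^ j * n ∧ FF μ m ≤ j * (c * (Real.log n + 1)) := by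
  obtain ⟨K, hK, h⟩ := h
  have hK0 : (1:ℝ) ≤ K := by exact_mod_cast hK
  have hlK : 0 ≤ Real.log K := Real.log_natCast_nonneg K
  have hμ0 : 0 < μ := by linarith
  refine ⟨K, K + Real.log K, hK, by positivity, fun j n hn => ?_⟩
  refine greedy (FF_sub μ) (FF_zero μ).le hK (by positivity) ?_ j n hn
  intro n hn
  obtain ⟨m, h1, h2, h3⟩ := h n hn
  refine ⟨m, h1, h2, ?_⟩
  have hn0 : (0:ℝ) < n := by exact_mod_cast (by omega : 0 < n)
  have hln : 0 ≤ Real.log n := Real.log_natCast_nonneg n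
  have h4 := Real.log_le_log (by positivity) h3
  rw [Real.log_mul (by positivity) (bn_pos' m).ne', Real.log_mul (by positivity) (by positivity),
    Real.log_pow, Real.log_pow] at h4
  unfold FF
  nlinarith [mul_nonneg hlK hln]

end Pool.Agent.Work.MP_376faf_co_gap
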