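import Pool.Agent.Work.MP_376faf_co_gap.Cross

set_option autoImplicit false

/-!
Contact of rigid bodies: first contact along a path of translations, double contact in a window.
-/

namespace Pool.Agent.Work.MP_376faf_co_gap

open Pool.Agent.Work.MP_376faf_co_hw.HP

/-- distance -/
def d1 (p q : ℤ × ℤ) : ℤ := |p.1 - q.1| + |p.2 - q.2|

theorem d1_nonneg (p q : ℤ × ℤ) : 0 ≤ d1 p q := by unfold d1; positivity

theorem d1_comm (p q : ℤ × ℤ) : d1 p q = d1 q p := by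
  unfold d1
  rw [abs_sub_comm p.1, abs_sub_comm p.2]

theorem d1_self (p : ℤ × ℤ) : d1 p p = 0 := by simp [d1]

theorem d1_triangle (p q r : ℤ × ℤ) : d1 p r ≤ d1 p q + d1 q r := by
  unfold d1
  have h1 := abs_sub_le p.1 q.1 r.1
  have h2 := abs_sub_le p.2 q.2 r.2
  linarith

theorem d1_eq_zero {p q : ℤ × ℤ} (h : d1 p q = 0) : p = q := by
  unfold d1 at h
  have h1 := abs_nonneg (p.1 - q.1)
  have h2 := abs_nonneg (p.2 - q.2)
  have h3 : |p.1 - q.1| = 0 := by omega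
  have h4 : |p.2 - q.2| = 0 := by omega
  rw [abs_eq_zero] at h3 h4
  exact Prod.ext (by omega) (by omega)

theorem d1_add (p q z : ℤ × ℤ) : d1 (p + z) (q + z) = d1 p q := by
  unfold d1
  simp only [Prod.fst_add, Prod.snd_add]
  congr 2 <;> ring_nf

theorem nb_iff_d1 {p q : ℤ × ℤ} : Nb p q ↔ d1 p q = 1 := by
  unfold Nb d1
  rw [abs_sub_comm p.1, abs_sub_comm p.2]

/-- translating by a neighbour changes distances by at most one -/
theorem d1_move {z z' : ℤ × ℤ} (h : Nb z z') (b p : ℤ × ℤ) : d1 (b + z) p ≤ d1 (b + z') p + 1 := by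
  have h1 := d1_triangle (b + z) (b + z') p
  have h2 : d1 (b + z) (b + z') = 1 := by
    rw [add_comm b z, add_comm b z', d1_add]
    exact nb_iff_d1.1 h
  linarith

/-- **First contact** of the body `B`, translated along `z 0, …, z d`, with the set `P`. -/
theorem first_contact {B P : ℤ × ℤ → Prop} {g : ℤ} {z : ℕ → ℤ × ℤ} {d : ℕ}
    (hz : ∀ i < d, Nb (z i) (z (i + 1)))
    (h0 : ∀ b, B b → ∀ p, P p → g ≤ d1 (b + z 0) p)
    (hend : ∃ b, B b ∧ ∃ p, P p ∧ d1 (b + z d) p ≤ g) :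
    ∃ i ≤ d, (∀ j ≤ i, ∀ b, B b → ∀ p, P p → g ≤ d1 (b + z j) p) ∧
      ∃ b, B b ∧ ∃ p, P p ∧ d1 (b + z i) p = g := by
  classical
  have hex : ∃ i, ∃ b, B b ∧ ∃ p, P p ∧ d1 (b + z i) p ≤ g := ⟨d, hend⟩
  set i := Nat.find hex with hi
  obtain ⟨b, hb, p, hp, hd⟩ := Nat.find_spec hex
  rw [← hi] at hd
  have hid : i ≤ d := Nat.find_le hend
  have hlt : ∀ j < i, ∀ b, B b → ∀ p, P p → g < d1 (b + z j) p := by
    intro j hj b hb p hp
    by_contra hcon
    push Not at hcon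
    exact Nat.find_min hex hj ⟨b, hb, p, hp, hcon⟩
  have hle : ∀ b, B b → ∀ p, P p → g ≤ d1 (b + z i) p := by
    intro b hb p hp
    rcases Nat.eq_zero_or_pos i with h | h
    · rw [h]
      exact h0 b hb p hp
    · have h1 := hlt (i - 1) (by omega) b hb p hp
      have h2 := hz (i - 1) (by omega)
      rw [show i - 1 + 1 = i by omega] at h2
      have h3 := d1_move h2 b p
      linarith
  refine ⟨i, hid, ?_, b, hb, p, hp, le_antisymm hd (hle b hb p hp)⟩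
  intro j hj b hb p hp
  rcases Nat.lt_or_ge j i with h | h
  · exact (hlt j h b hb p hp).le
  · rw [show j = i by omega]
    exact hle b hb p hp

/-- **Double contact** of the body `C` with `A` and `B`, in a window of translations. -/
theorem double_contact {A B C : ℤ × ℤ → Prop} {g : ℤ} {x0 x1 y0 y1 : ℤ} (hx : x0 ≤ x1)
    (hy : y0 ≤ y1)
    (top : ∀ x, x0 ≤ x → x ≤ x1 → ∀ c, C c → ∀ a, A a ∨ B a → g ≤ d1 (c + (x, y1)) a)
    (bot : ∀ x, x0 ≤ x → x ≤ x1 → ∃ c, C c ∧ ∃ a, (A a ∨ B a) ∧ d1 (c + (x, y0)) a < g)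
    (left : ∀ y, y0 ≤ y → y ≤ y1 → ∀ c, C c → ∀ b, B b → g ≤ d1 (c + (x0, y)) b)
    (right : ∀ y, y0 ≤ y → y ≤ y1 → ∀ c, C c → ∀ a, A a → g ≤ d1 (c + (x1, y)) a) :
    ∃ z : ℤ × ℤ, x0 ≤ z.1 ∧ z.1 ≤ x1 ∧ y0 ≤ z.2 ∧ z.2 ≤ y1 ∧
      (∀ c, C c → ∀ a, A a ∨ B a → g ≤ d1 (c + z) a) ∧
      (∃ c, C c ∧ ∃ a, A a ∧ d1 (c + z) a ≤ g + 1) ∧
      ∃ c, C c ∧ ∃ b, B b ∧ d1 (c + z) b ≤ g + 1 := by
  set bad : ℤ × ℤ → Prop := fun z => ∃ c, C c ∧ ∃ a, (A a ∨ B a) ∧ d1 (c + z) a < g with hbad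
  set red : ℤ × ℤ → Prop := fun z => ∃ c, C c ∧ ∃ a, A a ∧ d1 (c + z) a < g with hred
  obtain ⟨w, b, b', -, w1, wf, bb, br, bb', br', e1, e2, e3, e4, -, -⟩ := double (bad := bad)
    (red := red) hx hy (fun x h1 h2 => bot x h1 h2)
    (fun x h1 h2 => by
      rintro ⟨c, hc, a, ha, h⟩
      exact absurd (top x h1 h2 c hc a ha) (not_le.2 h))
    (fun y h1 h2 => by
      rintro ⟨c, hc, a, ha, h⟩
      rcases ha with ha | ha
      · exact ⟨c, hc, a, ha, h⟩
      · exact absurd (left y h1 h2 c hc a ha) (not_le.2 h))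
    (fun y h1 h2 _ => by
      rintro ⟨c, hc, a, ha, h⟩
      exact absurd (right y h1 h2 c hc a ha) (not_le.2 h))
  have mv : ∀ z' c a : ℤ × ℤ, |w.1 - z'.1| ≤ 1 → |w.2 - z'.2| ≤ 1 →
      d1 (c + w) a ≤ d1 (c + z') a + 2 := by
    intro z' c a h1 h2
    have h3 := d1_triangle (c + w) (c + z') a
    have h4 : d1 (c + w) (c + z') ≤ 2 := by
      rw [add_comm c w, add_comm c z', d1_add]
      unfold d1
      linarith
    linarith
  refine ⟨w, w1.1, w1.2.1, w1.2.2.1, w1.2.2.2, ?_, ?_, ?_⟩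
  · intro c hc a ha
    by_contra hcon
    exact wf ⟨c, hc, a, ha, not_le.1 hcon⟩
  · obtain ⟨c, hc, a, ha, h⟩ := br
    have := mv b c a e1 e2
    exact ⟨c, hc, a, ha, by linarith⟩
  · obtain ⟨c, hc, a, ha, h⟩ := bb'
    have h1 := mv b' c a e3 e4
    rcases ha with ha | ha
    · exact absurd ⟨c, hc, a, ha, h⟩ br'
    · exact ⟨c, hc, a, ha, by linarith⟩

/-- a translated connected body crosses an arm -/
theorem hits_arm {C V : ℤ × ℤ → Prop} {cl cr vb vt z : ℤ × ℤ} (hC : Jn C cl cr) (hcl : C cl)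
    (hV : Jn V vb vt) (hvb : V vb) {α β : ℤ} (hcol : ∀ p, V p → α ≤ p.1 ∧ p.1 ≤ β)
    (h1 : cl.1 + z.1 < α) (h2 : β < cr.1 + z.1) (h3 : ∀ c, C c → vb.2 ≤ c.2 + z.2)
    (h4 : ∀ c, C c → c.2 + z.2 < vt.2) : ∃ c, C c ∧ ∃ a, V a ∧ c + z = a := by
  have tr : ∀ a b, Jn C a b → Jn (fun p => C (p - z)) (a + z) (b + z) := by
    intro a b h
    induction h with
    | refl => exact Jn.refl' _ _
    | @tail u v _ k ih =>
      refine ih.tail ⟨?_, (show C (u + z - z) by rw [add_sub_cancel_right]; exact k.2.1),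
        (show C (v + z - z) by rw [add_sub_cancel_right]; exact k.2.2)⟩
      have := k.1
      unfold Nb at this ⊢
      simpa only [Prod.fst_add, Prod.snd_add, add_sub_add_right_eq_sub] using this
  obtain ⟨p, hp, hpV⟩ := cross_sets (tr cl cr hC) (by rw [add_sub_cancel_right]; exact hcl) hV hvb
    hcol h1 h2 (fun p hp => by
      have := h3 _ hp
      simp only [Prod.snd_sub] at this
      linarith) (fun p hp => by
      have := h4 _ hp
      simp only [Prod.snd_sub] at this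
      linarith)
  exact ⟨p - z, hp, p, hpV, by rw [sub_add_cancel]⟩

end Pool.Agent.Work.MP_376faf_co_gap
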