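import Pool.Agent.Work.MP_376faf_co_gap.Diamonds
import Pool.Agent.Work.MP_376faf_co_gap.Contact

set_option autoImplicit false

/-!
Horizontal and vertical chains of diamonds.
-/

namespace Pool.Agent.Work.MP_376faf_co_gap

open Pool.Agent.Work.MP_376faf_co_lower
open Pool.Agent.Work.MP_376faf_co_hw.HP (Nb)

/-- the vertices of a family of polygons -/
def Un' {ι : Type} (o : ι → Pt) (Y : ι → List Pt) (q : Pt) : Prop := ∃ i, VS (o i) (Y i) q

theorem chain_jn {k : ℕ} {Y : Fin k → List Pt} (hY : ∀ i, PG (Y i)) {o : ℕ → Pt} {e f : Pt}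
    (he : ∀ i, VS 0 (Y i) e) (hf : ∀ i, VS 0 (Y i) f)
    (hn : ∀ i, Nb (o i + f) (o (i + 1) + e)) {q : Pt}
    (hq : Un' (fun i : Fin k => o i) Y q) : Jn (Un' (fun i : Fin k => o i) Y) (o 0 + e) q := by
  have he' : ∀ i : Fin k, VS (o i) (Y i) (o i + e) := fun i => by
    rw [VS_zero, add_sub_cancel_left]
    exact he i
  have hf' : ∀ i : Fin k, VS (o i) (Y i) (o i + f) := fun i => by
    rw [VS_zero, add_sub_cancel_left]
    exact hf i
  have h1 : ∀ i (hi : i < k), Jn (Un' (fun i : Fin k => o i) Y) (o 0 + e) (o i + e) := by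
    intro i
    induction i with
    | zero => exact fun _ => Jn.refl' _ _
    | succ i ih =>
      intro hi
      have h2 : Jn (VS (o i) (Y ⟨i, by omega⟩)) (o i + e) (o i + f) :=
        (hY _).jn (he' ⟨i, by omega⟩) (hf' ⟨i, by omega⟩)
      refine (ih (by omega)).trans ((h2.mono fun p hp => ⟨⟨i, by omega⟩, hp⟩).trans
        (Jn.step (hn i) ⟨⟨i, by omega⟩, hf' ⟨i, by omega⟩⟩ ⟨⟨i + 1, hi⟩, he' ⟨i + 1, hi⟩⟩))
  obtain ⟨i, hi⟩ := hq
  exact (h1 i i.2).trans (((hY i).jn (he' i) hi).mono fun p hp => ⟨i, hp⟩)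

/-! ### horizontal chains -/

/-- offsets of a horizontal chain -/
def oh (a : ℕ) (p : Pt) (i : ℕ) : Pt := p + ((i : ℤ) * (2 * a + 2), 0)

/-- offsets of a vertical chain -/
def ov (a : ℕ) (p : Pt) (i : ℕ) : Pt := p + (0, (i : ℤ) * (2 * a + 2))

theorem DM.box {a M : ℕ} {l : List Pt} (h : DM a M l) {o q : Pt} (hq : VS o l q) :
    o.1 ≤ q.1 ∧ q.1 ≤ o.1 + 2 * (a : ℤ) + 1 ∧ o.2 - (a : ℤ) - 1 ≤ q.2 ∧ q.2 ≤ o.2 + a := by
  have := h.2.2.1 _ (VS_zero.1 hq)
  simp only [Prod.fst_sub, Prod.snd_sub] at this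
  omega

theorem DM.start {a M : ℕ} {l : List Pt} (h : DM a M l) : VS 0 l 0 :=
  ⟨0, by have := h.1.2.2.2; omega, by simp⟩

theorem mul_bounds {i k : ℕ} (h : i < k) (a : ℕ) :
    0 ≤ (i : ℤ) * (2 * a + 2) ∧ (i : ℤ) * (2 * a + 2) + (2 * a + 2) ≤ (k : ℤ) * (2 * a + 2) := by
  constructor
  · positivity
  · have h1 : ((i : ℤ) + 1) * (2 * a + 2) ≤ (k : ℤ) * (2 * a + 2) :=
      mul_le_mul_of_nonneg_right (by omega) (by positivity)
    linarith

theorem oh_box {a M k : ℕ} {Y : Fin k → List Pt} (hY : ∀ i, DM a M (Y i)) {p q : Pt}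
    (hq : Un' (fun i : Fin k => oh a p i) Y q) :
    p.1 ≤ q.1 ∧ q.1 ≤ p.1 + (k : ℤ) * (2 * a + 2) - 1 ∧ p.2 - (a : ℤ) - 1 ≤ q.2 ∧
      q.2 ≤ p.2 + a := by
  obtain ⟨i, hi⟩ := hq
  have h1 := (hY i).box hi
  have h2 := mul_bounds i.2 a
  unfold oh at h1
  simp only [Prod.fst_add, Prod.snd_add] at h1
  omega

theorem ov_box {a M k : ℕ} {Y : Fin k → List Pt} (hY : ∀ i, DM a M (Y i)) {p q : Pt}
    (hq : Un' (fun i : Fin k => ov a p i) Y q) :
    p.1 ≤ q.1 ∧ q.1 ≤ p.1 + 2 * (a : ℤ) + 1 ∧ p.2 - (a : ℤ) - 1 ≤ q.2 ∧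
      q.2 ≤ p.2 + (k : ℤ) * (2 * a + 2) - a - 2 := by
  obtain ⟨i, hi⟩ := hq
  have h1 := (hY i).box hi
  have h2 := mul_bounds i.2 a
  unfold ov at h1
  simp only [Prod.fst_add, Prod.snd_add] at h1
  omega

theorem oh_start {a M k : ℕ} (hk : 0 < k) {Y : Fin k → List Pt} (hY : ∀ i, DM a M (Y i))
    (p : Pt) : Un' (fun i : Fin k => oh a p i) Y p := by
  refine ⟨⟨0, hk⟩, ?_⟩
  have : oh a p 0 = p := by
    unfold oh
    ext <;> simp
  simp only [this]
  rw [VS_zero, sub_self]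
  exact (hY _).start

theorem oh_end {a M k : ℕ} (hk : 0 < k) {Y : Fin k → List Pt} (hY : ∀ i, DM a M (Y i))
    (p : Pt) : Un' (fun i : Fin k => oh a p i) Y (p + ((k : ℤ) * (2 * a + 2) - 1, 0)) := by
  refine ⟨⟨k - 1, by omega⟩, ?_⟩
  rw [VS_zero]
  have : p + ((k : ℤ) * (2 * a + 2) - 1, 0) - oh a p (k - 1 : ℕ) = (2 * (a : ℤ) + 1, 0) := by
    unfold oh
    have h1 : ((k - 1 : ℕ) : ℤ) = (k : ℤ) - 1 := by omega
    rw [h1]
    ext
    · simp only [Prod.fst_add, Prod.fst_sub]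
      ring
    · simp only [Prod.snd_add, Prod.snd_sub]
      ring
  simp only [this]
  exact (hY _).2.2.2.1

theorem oh_jn {a M k : ℕ} {Y : Fin k → List Pt} (hY : ∀ i, DM a M (Y i)) {p q : Pt}
    (hq : Un' (fun i : Fin k => oh a p i) Y q) : Jn (Un' (fun i : Fin k => oh a p i) Y) p q := by
  have h := chain_jn (o := oh a p) (e := 0) (f := (2 * (a : ℤ) + 1, 0)) (fun i => (hY i).1)
    (fun i => (hY i).start) (fun i => (hY i).2.2.2.1) (fun i => by
      rw [nb_iff_un]
      have : oh a p (i + 1) + 0 - (oh a p i + (2 * (a : ℤ) + 1, 0)) = (1, 0) := by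
        unfold oh
        push_cast
        ext
        · simp only [Prod.fst_add, Prod.fst_sub, Prod.fst_zero]
          ring
        · simp only [Prod.snd_add, Prod.snd_sub, Prod.snd_zero]
          ring
      rw [this]
      exact un10) hq
  have : oh a p 0 + 0 = p := by
    unfold oh
    ext <;> simp
  rwa [this] at h

theorem oh_dis {a M k : ℕ} {Y : Fin k → List Pt} (hY : ∀ i, DM a M (Y i)) {p q : Pt}
    {i j : Fin k} (hij : i ≠ j) (hi : VS (oh a p i) (Y i) q) : ¬ VS (oh a p j) (Y j) q := by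
  intro hj
  have h1 := (hY i).box hi
  have h2 := (hY j).box hj
  unfold oh at h1 h2
  simp only [Prod.fst_add, Prod.snd_add] at h1 h2
  rcases lt_or_gt_of_ne hij with h | h
  · have h3 := (mul_bounds (show (i : ℕ) < (j : ℕ) from h) a).2
    omega
  · have h3 := (mul_bounds (show (j : ℕ) < (i : ℕ) from h) a).2
    omega

/-! ### vertical chains -/

theorem ov_bot {a M k : ℕ} (hk : 0 < k) {Y : Fin k → List Pt} (hY : ∀ i, DM a M (Y i))
    (p : Pt) : Un' (fun i : Fin k => ov a p i) Y (p + ((a : ℤ), -(a : ℤ) - 1)) := by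
  refine ⟨⟨0, hk⟩, ?_⟩
  rw [VS_zero]
  have : p + ((a : ℤ), -(a : ℤ) - 1) - ov a p (0 : ℕ) = ((a : ℤ), -(a : ℤ) - 1) := by
    unfold ov
    ext
    · simp only [Prod.fst_add, Prod.fst_sub]
      ring
    · simp only [Prod.snd_add, Prod.snd_sub]
      push_cast
      ring
  simp only [this]
  exact (hY _).2.2.2.2.2

theorem ov_top {a M k : ℕ} (hk : 0 < k) {Y : Fin k → List Pt} (hY : ∀ i, DM a M (Y i))
    (p : Pt) :
    Un' (fun i : Fin k => ov a p i) Y (p + ((a : ℤ), (k : ℤ) * (2 * a + 2) - a - 2)) := by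
  refine ⟨⟨k - 1, by omega⟩, ?_⟩
  rw [VS_zero]
  have : p + ((a : ℤ), (k : ℤ) * (2 * a + 2) - a - 2) - ov a p (k - 1 : ℕ) =
      ((a : ℤ), (a : ℤ)) := by
    unfold ov
    have h1 : ((k - 1 : ℕ) : ℤ) = (k : ℤ) - 1 := by omega
    rw [h1]
    ext
    · simp only [Prod.fst_add, Prod.fst_sub]
      ring
    · simp only [Prod.snd_add, Prod.snd_sub]
      ring
  simp only [this]
  exact (hY _).2.2.2.2.1

theorem ov_jn {a M k : ℕ} {Y : Fin k → List Pt} (hY : ∀ i, DM a M (Y i)) {p q : Pt}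
    (hq : Un' (fun i : Fin k => ov a p i) Y q) :
    Jn (Un' (fun i : Fin k => ov a p i) Y) (p + ((a : ℤ), -(a : ℤ) - 1)) q := by
  have h := chain_jn (o := ov a p) (e := ((a : ℤ), -(a : ℤ) - 1)) (f := ((a : ℤ), (a : ℤ)))
    (fun i => (hY i).1) (fun i => (hY i).2.2.2.2.2) (fun i => (hY i).2.2.2.2.1) (fun i => by
      rw [nb_iff_un]
      have : ov a p (i + 1) + ((a : ℤ), -(a : ℤ) - 1) - (ov a p i + ((a : ℤ), (a : ℤ))) =
          (0, 1) := by
        unfold ov
        push_cast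
        ext
        · simp only [Prod.fst_add, Prod.fst_sub]
          ring
        · simp only [Prod.snd_add, Prod.snd_sub]
          ring
      rw [this]
      exact un01) hq
  have : ov a p 0 = p := by
    unfold ov
    ext <;> simp
  rwa [this] at h

theorem ov_dis {a M k : ℕ} {Y : Fin k → List Pt} (hY : ∀ i, DM a M (Y i)) {p q : Pt}
    {i j : Fin k} (hij : i ≠ j) (hi : VS (ov a p i) (Y i) q) : ¬ VS (ov a p j) (Y j) q := by
  intro hj
  have h1 := (hY i).box hi
  have h2 := (hY j).box hj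
  unfold ov at h1 h2
  simp only [Prod.fst_add, Prod.snd_add] at h1 h2
  rcases lt_or_gt_of_ne hij with h | h
  · have h3 := (mul_bounds (show (i : ℕ) < (j : ℕ) from h) a).2
    omega
  · have h3 := (mul_bounds (show (j : ℕ) < (i : ℕ) from h) a).2
    omega

/-- translation of a vertical chain -/
theorem ov_shift {a k : ℕ} {Y : Fin k → List Pt} {p z q : Pt} :
    Un' (fun i : Fin k => ov a (p + z) i) Y (q + z) ↔ Un' (fun i : Fin k => ov a p i) Y q := by
  have h : ∀ i : ℕ, ov a (p + z) i = ov a p i + z := fun i => by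
    unfold ov
    abel
  unfold Un'
  simp only [h, VS_add]

/-! ### connectors -/

theorem d1_two {p q : Pt} (h : d1 p q ≤ 2) : ∃ r : Pt, (p = r ∨ Nb p r) ∧ (r = q ∨ Nb r q) := by
  obtain ⟨x, y⟩ := p
  obtain ⟨x', y'⟩ := q
  unfold d1 at h
  simp only at h
  have hn1 := abs_nonneg (x - x')
  have hn2 := abs_nonneg (y - y')
  have key : ∀ a b c d : ℤ, |c - a| + |d - b| ≤ 1 → ((a, b) : Pt) = (c, d) ∨ Nb (a, b) (c, d) := by
    intro a b c d h1
    have h2 := abs_nonneg (c - a)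
    have h3 := abs_nonneg (d - b)
    rcases lt_or_eq_of_le h1 with h4 | h4
    · left
      have h5 : |c - a| = 0 := by omega
      have h6 : |d - b| = 0 := by omega
      rw [abs_eq_zero] at h5 h6
      ext
      · simp only
        omega
      · simp only
        omega
    · right
      rw [nb_iff_un]
      unfold Un
      simpa using h4
  rcases le_or_gt |x - x'| 1 with h1 | h1 <;> rcases le_or_gt |y - y'| 1 with h2 | h2
  · refine ⟨(x', y), key _ _ _ _ ?_, key _ _ _ _ ?_⟩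
    · rw [sub_self, abs_zero, add_zero, abs_sub_comm]
      exact h1
    · rw [sub_self, abs_zero, zero_add, abs_sub_comm]
      exact h2
  · rcases abs_cases (y - y') with ⟨h3, h4⟩ | ⟨h3, h4⟩
    · refine ⟨(x, y - 1), key _ _ _ _ ?_, key _ _ _ _ ?_⟩
      · rw [sub_self, abs_zero, zero_add, show y - 1 - y = -1 by ring]
        norm_num
      · have h5 : |x' - x| = 0 := by
          rw [abs_sub_comm]
          have := abs_nonneg (x - x')
          omega
        rw [h5, zero_add, abs_le]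
        constructor <;> omega
    · refine ⟨(x, y + 1), key _ _ _ _ ?_, key _ _ _ _ ?_⟩
      · rw [sub_self, abs_zero, zero_add, show y + 1 - y = 1 by ring]
        norm_num
      · have h5 : |x' - x| = 0 := by
          rw [abs_sub_comm]
          have := abs_nonneg (x - x')
          omega
        rw [h5, zero_add, abs_le]
        constructor <;> omega
  · rcases abs_cases (x - x') with ⟨h3, h4⟩ | ⟨h3, h4⟩
    · refine ⟨(x - 1, y), key _ _ _ _ ?_, key _ _ _ _ ?_⟩
      · rw [sub_self, abs_zero, add_zero, show x - 1 - x = -1 by ring]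
        norm_num
      · have h5 : |y' - y| = 0 := by
          rw [abs_sub_comm]
          have := abs_nonneg (y - y')
          omega
        rw [h5, add_zero, abs_le]
        constructor <;> omega
    · refine ⟨(x + 1, y), key _ _ _ _ ?_, key _ _ _ _ ?_⟩
      · rw [sub_self, abs_zero, add_zero, show x + 1 - x = 1 by ring]
        norm_num
      · have h5 : |y' - y| = 0 := by
          rw [abs_sub_comm]
          have := abs_nonneg (y - y')
          omega
        rw [h5, add_zero, abs_le]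
        constructor <;> omega
  · omega

/-- a step or no step -/
theorem Jn.step' {S : Pt → Prop} {p r : Pt} (h : p = r ∨ Nb p r) (hp : S p) (hr : S r) :
    Jn S p r := by
  rcases h with rfl | h
  · exact Jn.refl' _ _
  · exact Jn.step h hp hr

theorem near_of {p r : Pt} (h : p = r ∨ Nb p r) : |r.1 - p.1| ≤ 1 ∧ |r.2 - p.2| ≤ 1 := by
  rcases h with rfl | h
  · simp
  · rw [nb_iff_un] at h
    unfold Un at h
    simp only [Prod.fst_sub, Prod.snd_sub] at h
    have h2 := abs_nonneg (r.1 - p.1)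
    have h3 := abs_nonneg (r.2 - p.2)
    omega

end Pool.Agent.Work.MP_376faf_co_gap
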