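import Pool.Agent.Work.MP_376faf_co_gap.GDefs

/-! Chords of a polygon from the label lemma and a two point bound in rectangles. -/

set_option autoImplicit false

namespace Pool.Agent.Work.MP_376faf_co_gap

open Pool.Agent.Work.MP_376faf_co_lower
open Pool.Agent.Work.MP_376faf_co_hw
open Pool.Agent.Work.MP_376faf_co_hw.HP (Nb)

/-! ### finitely many walks of given length -/

theorem chord_finite (L : ℕ) (l : List Pt) (k n : ℕ) :
    Finite {D : List Pt // Chord L l k n D} := by
  refine Finite.of_injective (β := WalkFun n)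
    (fun D => ⟨fun i => pos D.1 i.val, by simp, ?_, ?_⟩) ?_
  · intro i j hij
    have h2 := D.2.1.2 (show i.val ∈ Set.Iic D.1.length by
        simp only [Set.mem_Iic, D.2.2.1]; omega)
      (show j.val ∈ Set.Iic D.1.length by simp only [Set.mem_Iic, D.2.2.1]; omega) hij
    exact Fin.ext h2
  · intro i
    have hi : i.val < D.1.length := by rw [D.2.2.1]; exact i.is_lt
    have h3 := D.2.1.1 _ (List.getElem_mem hi)
    simp only [Fin.val_succ, Fin.val_castSucc]
    rw [pos_succ _ hi]
    simpa [Un] using h3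
  · intro D E hDE
    have h2 := congrArg (fun f : WalkFun n => f.1) hDE
    simp only at h2
    apply Subtype.ext
    refine MP_376faf_co_hw.eq_of_pos (by rw [D.2.2.1, E.2.2.1]) ?_
    intro i hi
    exact congrFun h2 ⟨i, by rw [D.2.2.1] at hi; omega⟩

/-! ### polygons as functions -/

theorem PG.poly {l : List Pt} (h : PG l) : Poly (pos l) l.length where
  nb := by
    intro i hi
    rw [nb_iff_un, pos_succ l hi, add_sub_cancel_left]
    exact h.1 _ (List.getElem_mem hi)
  cl := by rw [pos_len, pos_zero, h.2.1]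
  inj := fun i hi j hj hij => h.2.2.1 (Set.mem_Iio.2 hi) (Set.mem_Iio.2 hj) hij

/-! ### walks from chains of neighbours -/

theorem walk_single {p q : Pt} (h : Nb p q) : Walk [q - p] := by
  have h1 := nb_iff_un.1 h
  refine ⟨fun s hs => by rwa [List.mem_singleton.1 hs], ?_⟩
  have h0 : q - p ≠ 0 := by
    intro e
    rw [e] at h1
    simp [Un] at h1
  intro i hi j hj hij
  simp only [Set.mem_Iic, List.length_singleton] at hi hj
  have hi' : i = 0 ∨ i = 1 := by omega
  have hj' : j = 0 ∨ j = 1 := by omega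
  have e1 : pos [q - p] 1 = q - p := by simp [pos]
  rcases hi' with rfl | rfl <;> rcases hj' with rfl | rfl
  · rfl
  · rw [pos_zero, e1] at hij
    exact absurd hij.symm h0
  · rw [pos_zero, e1] at hij
    exact absurd hij h0
  · rfl

theorem VW_single {p q r : Pt} : VW p [q - p] r ↔ r = p ∨ r = q := by
  have e1 : pos [q - p] 1 = q - p := by simp [pos]
  constructor
  · rintro ⟨i, hi, rfl⟩
    simp only [List.length_singleton] at hi
    have hi' : i = 0 ∨ i = 1 := by omega
    rcases hi' with rfl | rfl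
    · exact Or.inl (by rw [pos_zero, add_zero])
    · exact Or.inr (by rw [e1, add_sub_cancel])
  · rintro (rfl | rfl)
    · exact ⟨0, Nat.zero_le _, by rw [pos_zero, add_zero]⟩
    · exact ⟨1, le_rfl, by rw [e1, add_sub_cancel]⟩

theorem walk_of_chain (qs : List Pt) : ∀ (p z : Pt), List.IsChain Nb (p :: (qs ++ [z])) →
    (p :: (qs ++ [z])).Nodup → ∃ D : List Pt, Walk D ∧ D.length = qs.length + 1 ∧ p + D.sum = z ∧
      ∀ q, VW p D q → q = p ∨ q ∈ qs ∨ q = z := by
  induction qs with
  | nil =>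
    intro p z h _
    have h1 : Nb p z := by simpa using h
    refine ⟨[z - p], walk_single h1, by simp, by simp, fun q hq => ?_⟩
    rcases VW_single.1 hq with rfl | rfl <;> simp
  | cons r qs ih =>
    intro p z h hn
    rw [List.cons_append, List.isChain_cons_cons] at h
    rw [List.cons_append, List.nodup_cons] at hn
    obtain ⟨D, h1, h2, h3, h4⟩ := ih r z h.2 hn.2
    have hne : ∀ q, VW r D q → q ≠ p := by
      intro q hq e
      apply hn.1
      rw [← e]
      rcases h4 _ hq with e | e | e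
      · rw [e]
        exact List.mem_cons_self
      · exact List.mem_cons_of_mem _ (List.mem_append_left _ e)
      · rw [e]
        exact List.mem_cons_of_mem _ (List.mem_append_right _ (List.mem_singleton.2 rfl))
    have e : p + [r - p].sum = r := by simp
    refine ⟨[r - p] ++ D, walk_append (p := p) (walk_single h.1) h1 ?_, ?_, ?_, ?_⟩
    · intro q hq1 hq2
      rw [e] at hq2 ⊢
      rcases VW_single.1 hq1 with h5 | h5
      · exact absurd h5 (hne _ hq2)
      · exact h5
    · rw [List.length_append, h2, List.length_singleton, List.length_cons]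
      omega
    · rw [List.sum_append, ← add_assoc, e, h3]
    · intro q hq
      rcases VW.append.1 hq with h5 | h5
      · rcases VW_single.1 h5 with rfl | rfl <;> simp
      · rw [e] at h5
        rcases h4 _ h5 with e | e | e
        · exact Or.inr (Or.inl (e ▸ List.mem_cons_self))
        · exact Or.inr (Or.inl (List.mem_cons_of_mem _ e))
        · exact Or.inr (Or.inr e)

theorem Tch.walk {P : ℕ → ℤ × ℤ} {N : ℕ} {x0 x1 y0 y1 : ℤ} {p s : ℤ × ℤ} {a : List (ℤ × ℤ)}
    (h : Tch P N x0 x1 y0 y1 p s a) (hp : ¬ Off P N p)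
    (hR : ∀ z, InR x0 x1 y0 y1 z → Off P N z) :
    ∃ A : List Pt, Walk A ∧ A.length ≤ 2 ∧ p + A.sum = s ∧
      ∀ q, VW p A q → q = p ∨ q ∈ a ∨ q = s := by
  obtain ⟨h1, -, h2⟩ := h
  have hps : p ≠ s := fun e => hp (e ▸ hR s h1)
  rcases h2 with ⟨rfl, h3⟩ | ⟨c, rfl, h3, h4, h5, h6⟩
  · obtain ⟨A, a1, a2, a3, a4⟩ := walk_of_chain [] p s (by simpa using h3) (by simpa using hps)
    exact ⟨A, a1, by rw [a2]; simp, a3, a4⟩
  · have hpc : p ≠ c := fun e => hp (e ▸ h5)
    have hcs : c ≠ s := fun e => h6 (e ▸ h1)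
    obtain ⟨A, a1, a2, a3, a4⟩ := walk_of_chain [c] p s (by simpa using ⟨h3, h4⟩)
      (by simpa using ⟨⟨hpc, hps⟩, hcs⟩)
    exact ⟨A, a1, by rw [a2]; simp, a3, a4⟩

/-! ### chords -/

theorem chord_of {L : ℕ} {l : List Pt} (h : PG l) {i k : ℕ} (hik : i + k < l.length)
    {b : Pt} (hb : ∀ m < l.length, InR b.1 (b.1 + L) b.2 (b.2 + L) (pos l m)) {D : List Pt}
    (hD : Walk D) (hsum : pos l i + D.sum = pos l (i + k))
    (hfree : ∀ q, VW (pos l i) D q → Off (pos l) l.length q ∨ q = pos l i ∨ q = pos l (i + k))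
    (hbox : ∀ q, VW (pos l i) D q → InR b.1 (b.1 + L) b.2 (b.2 + L) q) :
    Chord L (l.rotate i) k D.length D := by
  have hi : i ≤ l.length := by omega
  have hpk : pos (l.rotate i) k = pos l (i + k) - pos l i := pos_rot_le l hi (by omega)
  have hvs : ∀ q, VS 0 (l.rotate i) q → ∃ m < l.length, q + pos l i = pos l m := by
    intro q hq
    have h1 := (VS_rot h hi (-pos l i) q).1 (by rwa [neg_add_cancel])
    obtain ⟨m, hm, rfl⟩ := h1
    exact ⟨m, hm, by abel⟩
  have hvw : ∀ q, VW 0 D q → VW (pos l i) D (q + pos l i) := by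
    rintro q ⟨m, hm, rfl⟩
    exact ⟨m, hm, by abel⟩
  refine ⟨hD, rfl, ?_, ?_, ?_⟩
  · rw [hpk, ← hsum, add_sub_cancel_left]
  · intro q hq1 hq2
    obtain ⟨m, hm, e⟩ := hvs q hq2
    rcases hfree _ (hvw q hq1) with h1 | h1 | h1
    · exact absurd e.symm (h1 m hm)
    · exact Or.inl (add_eq_right.1 h1)
    · exact Or.inr (by rw [hpk, ← h1, add_sub_cancel_right])
  · refine ⟨b - pos l i, ?_⟩
    intro q hq
    have h1 : InR b.1 (b.1 + L) b.2 (b.2 + L) (q + pos l i) := by
      rcases hq with hq | hq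
      · obtain ⟨m, hm, e⟩ := hvs q hq
        rw [e]
        exact hb m hm
      · exact hbox _ (hvw q hq)
    unfold InR at h1 ⊢
    simp only [Prod.fst_add, Prod.snd_add, Prod.fst_sub, Prod.snd_sub] at h1 ⊢
    omega

/-- the alternatives of the label lemma -/
def Alt (L : ℕ) (b : Pt) (P : ℕ → ℤ × ℤ) (N i j : ℕ) : Prop :=
  (∃ l : List (ℤ × ℤ), l.length ≤ 3 ∧ List.IsChain Nb (P i :: (l ++ [P j])) ∧ l.Nodup ∧
    ∀ z ∈ l, Off P N z ∧ InR b.1 (b.1 + L) b.2 (b.2 + L) z) ∨
  ∃ x0 x1 y0 y1 : ℤ, x0 ≤ x1 ∧ y0 ≤ y1 ∧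
    (∀ z, InR x0 x1 y0 y1 z → Off P N z ∧ InR b.1 (b.1 + L) b.2 (b.2 + L) z) ∧
    ∃ s s' a a', s ≠ s' ∧ sd s s' ≤ 4 * (x1 - x0) + 4 ∧ sd s s' ≤ 4 * (y1 - y0) + 4 ∧
      Tch P N x0 x1 y0 y1 (P i) s a ∧ Tch P N x0 x1 y0 y1 (P j) s' a' ∧
      (∀ c ∈ a, c ∉ a' ∧ InR b.1 (b.1 + L) b.2 (b.2 + L) c) ∧
      ∀ c ∈ a', InR b.1 (b.1 + L) b.2 (b.2 + L) c

theorem sd_comm (p q : ℤ × ℤ) : sd p q = sd q p := by
  unfold sd
  rw [abs_sub_comm p.1, abs_sub_comm p.2]

theorem Alt.symm {L : ℕ} {b : Pt} {P : ℕ → ℤ × ℤ} {N i j : ℕ} (h : Alt L b P N i j) :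
    Alt L b P N j i := by
  rcases h with ⟨l, h1, h2, h3, h4⟩ | ⟨x0, x1, y0, y1, hx, hy, hR, s, s', a, a', h1, h2, h3, h4,
    h5, h6, h7⟩
  · refine Or.inl ⟨l.reverse, by rwa [List.length_reverse], ?_, List.nodup_reverse.2 h3,
      fun z hz => h4 z (List.mem_reverse.1 hz)⟩
    have e : P j :: (l.reverse ++ [P i]) = (P i :: (l ++ [P j])).reverse := by simp
    rw [e, List.isChain_reverse]
    exact h2.imp fun a b hab => nb_symm hab
  · refine Or.inr ⟨x0, x1, y0, y1, hx, hy, hR, s', s, a', a, h1.symm, ?_, ?_, h5, h4, ?_, ?_⟩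
    · rwa [sd_comm]
    · rwa [sd_comm]
    · intro c hc
      exact ⟨fun hc' => (h6 c hc').1 hc, h7 c hc⟩
    · intro c hc
      exact (h6 c hc).2

theorem chords_lt {L n0 : ℕ} {x g : ℝ} (hx : 0 < x) (hx1 : x ≤ 1)
    (hg1 : g ≤ 1)
    (hR : ∀ (x0 x1 y0 y1 : ℤ) (s t : Pt), InR x0 x1 y0 y1 s → InR x0 x1 y0 y1 t → s ≠ t →
      sd s t ≤ L → sd s t ≤ 4 * (x1 - x0) + 4 → sd s t ≤ 4 * (y1 - y0) + 4 →
      ∃ n ≤ n0, g ≤ (Nat.card {w : List Pt // RW x0 x1 y0 y1 s t n w} : ℝ) * x ^ n)
    {l : List Pt} (h : PG l) {b : Pt}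
    (hb : ∀ m < l.length, InR b.1 (b.1 + L) b.2 (b.2 + L) (pos l m)) {i k : ℕ} (hk : 0 < k)
    (hik : i + k < l.length) (halt : Alt L b (pos l) l.length i (i + k)) :
    ∃ n ≤ n0 + 4,
      g * x ^ 4 ≤ (Nat.card {D : List Pt // Chord L (l.rotate i) k n D} : ℝ) * x ^ n := by
  have hnei : ¬ Off (pos l) l.length (pos l i) := fun h1 => h1 i (by omega) rfl
  have hnej : ¬ Off (pos l) l.length (pos l (i + k)) := fun h1 => h1 (i + k) hik rfl
  have hij : pos l i ≠ pos l (i + k) := by
    intro e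
    have := h.2.2.1 (Set.mem_Iio.2 (show i < l.length by omega)) (Set.mem_Iio.2 hik) e
    omega
  rcases halt with ⟨ls, h1, h2, h3, h4⟩ | ⟨x0, x1, y0, y1, hx0, hy0, hRR, s, s', a, a', h1, h2,
    h3, h4, h5, h6, h7⟩
  · -- at most three free vertices
    have hnd : (pos l i :: (ls ++ [pos l (i + k)])).Nodup := by
      rw [List.nodup_cons]
      refine ⟨?_, ?_⟩
      · intro hm
        rcases List.mem_append.1 hm with hm | hm
        · exact hnei (h4 _ hm).1
        · exact hij (List.mem_singleton.1 hm)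
      · rw [List.nodup_append]
        refine ⟨h3, List.nodup_singleton _, ?_⟩
        intro c hc d hd e
        rw [List.mem_singleton.1 hd] at e
        exact hnej (e ▸ (h4 c hc).1)
    obtain ⟨D, d1, d2, d3, d4⟩ := walk_of_chain ls _ _ h2 hnd
    have hch : Chord L (l.rotate i) k D.length D := by
      refine chord_of h hik hb d1 d3 ?_ ?_
      · intro q hq
        rcases d4 q hq with e | e | e
        · exact Or.inr (Or.inl e)
        · exact Or.inl (h4 q e).1
        · exact Or.inr (Or.inr e)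
      · intro q hq
        rcases d4 q hq with e | e | e
        · rw [e]
          exact hb i (by omega)
        · exact (h4 q e).2
        · rw [e]
          exact hb _ hik
    refine ⟨D.length, by omega, ?_⟩
    have hfin := chord_finite L (l.rotate i) k D.length
    have hcard : 1 ≤ Nat.card {E : List Pt // Chord L (l.rotate i) k D.length E} := by
      have : Nonempty {E : List Pt // Chord L (l.rotate i) k D.length E} := ⟨⟨D, hch⟩⟩
      exact Nat.card_pos
    have e1 : g * x ^ 4 ≤ 1 * x ^ 4 := mul_le_mul_of_nonneg_right hg1 (pow_nonneg hx.le _)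
    have e2 : x ^ 4 ≤ x ^ D.length := pow_le_pow_of_le_one hx.le hx1 (by omega)
    have e3 : (1:ℝ) ≤ (Nat.card {E : List Pt // Chord L (l.rotate i) k D.length E} : ℝ) := by
      exact_mod_cast hcard
    calc g * x ^ 4 ≤ 1 * x ^ 4 := e1
      _ ≤ 1 * x ^ D.length := by rw [one_mul, one_mul]; exact e2
      _ ≤ _ := mul_le_mul_of_nonneg_right e3 (pow_nonneg hx.le _)
  · -- a free rectangle
    have hRO : ∀ z, InR x0 x1 y0 y1 z → Off (pos l) l.length z := fun z hz => (hRR z hz).1
    obtain ⟨A, a1, a2, a3, a4⟩ := h4.walk hnei hRO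
    obtain ⟨B, b1, b2, b3, b4⟩ := h5.walk hnej hRO
    have hs := h4.1
    have hs' := h5.1
    have hsd : sd s s' ≤ L := by
      have e1 := (hRR s hs).2
      have e2 := (hRR s' hs').2
      unfold InR at e1 e2
      rw [sd_le]
      omega
    obtain ⟨n, hn, hgn⟩ := hR x0 x1 y0 y1 s s' hs hs' h1 hsd h2 h3
    have haO : ∀ c ∈ a, Off (pos l) l.length c ∧ ¬ InR x0 x1 y0 y1 c := by
      intro c hc
      rcases h4.2.2 with ⟨rfl, -⟩ | ⟨c1, rfl, -, -, c2, c3⟩
      · simp at hc
      · rw [List.mem_singleton.1 hc]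
        exact ⟨c2, c3⟩
    have haO' : ∀ c ∈ a', Off (pos l) l.length c ∧ ¬ InR x0 x1 y0 y1 c := by
      intro c hc
      rcases h5.2.2 with ⟨rfl, -⟩ | ⟨c1, rfl, -, -, c2, c3⟩
      · simp at hc
      · rw [List.mem_singleton.1 hc]
        exact ⟨c2, c3⟩
    have hrB : ∀ q, VW s' (rv B) q → q = pos l (i + k) ∨ q ∈ a' ∨ q = s' := by
      intro q hq
      rw [← b3] at hq
      exact b4 q (VW_rv.1 hq)
    have key : ∀ w : List Pt, RW x0 x1 y0 y1 s s' n w →
        Chord L (l.rotate i) k (n + (A.length + B.length)) (A ++ (w ++ rv B)) := by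
      intro w hw
      obtain ⟨w1, w2, w3, w4⟩ := hw
      have hwB : Walk (w ++ rv B) := by
        refine walk_append (p := s) w1 b1.rv ?_
        intro q hq1 hq2
        rw [w3] at hq2 ⊢
        have hq := w4 q hq1
        rcases hrB q hq2 with e | e | e
        · exact absurd (hRO q hq) (e ▸ hnej)
        · exact absurd hq (haO' q e).2
        · exact e
      have hAwB : Walk (A ++ (w ++ rv B)) := by
        refine walk_append (p := pos l i) a1 hwB ?_
        intro q hq1 hq2
        rw [a3] at hq2 ⊢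
        rcases VW.append.1 hq2 with hq3 | hq3
        · have hq := w4 q hq3
          rcases a4 q hq1 with e | e | e
          · exact absurd (hRO q hq) (e ▸ hnei)
          · exact absurd hq (haO q e).2
          · exact e
        · rw [w3] at hq3
          rcases a4 q hq1 with e | e | e
          · rcases hrB q hq3 with e' | e' | e'
            · exact absurd (e.symm.trans e') hij
            · exact absurd (haO' q e').1 (e ▸ hnei)
            · exact absurd (hRO s' hs') (e' ▸ e ▸ hnei)
          · rcases hrB q hq3 with e' | e' | e'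
            · exact absurd (haO q e).1 (e' ▸ hnej)
            · exact absurd e' (h6 q e).1
            · exact absurd hs' (e' ▸ (haO q e).2)
          · exact e
      have hlen : (A ++ (w ++ rv B)).length = n + (A.length + B.length) := by
        rw [List.length_append, List.length_append, rv_length, w2]
        omega
      rw [← hlen]
      refine chord_of h hik hb hAwB ?_ ?_ ?_
      · rw [List.sum_append, List.sum_append, rv_sum, ← add_assoc, a3, ← add_assoc, w3, ← b3]
        abel
      · intro q hq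
        rcases VW.append.1 hq with hq1 | hq1
        · rcases a4 q hq1 with e | e | e
          · exact Or.inr (Or.inl e)
          · exact Or.inl (haO q e).1
          · exact Or.inl (e ▸ hRO s hs)
        · rw [a3] at hq1
          rcases VW.append.1 hq1 with hq2 | hq2
          · exact Or.inl (hRO q (w4 q hq2))
          · rw [w3] at hq2
            rcases hrB q hq2 with e | e | e
            · exact Or.inr (Or.inr e)
            · exact Or.inl (haO' q e).1
            · exact Or.inl (e ▸ hRO s' hs')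
      · intro q hq
        rcases VW.append.1 hq with hq1 | hq1
        · rcases a4 q hq1 with e | e | e
          · rw [e]
            exact hb i (by omega)
          · exact (h6 q e).2
          · rw [e]
            exact (hRR s hs).2
        · rw [a3] at hq1
          rcases VW.append.1 hq1 with hq2 | hq2
          · exact (hRR q (w4 q hq2)).2
          · rw [w3] at hq2
            rcases hrB q hq2 with e | e | e
            · rw [e]
              exact hb _ hik
            · exact h7 q e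
            · rw [e]
              exact (hRR s' hs').2
    refine ⟨n + (A.length + B.length), by omega, ?_⟩
    have hfin := chord_finite L (l.rotate i) k (n + (A.length + B.length))
    have hcard : Nat.card {w : List Pt // RW x0 x1 y0 y1 s s' n w} ≤
        Nat.card {D : List Pt // Chord L (l.rotate i) k (n + (A.length + B.length)) D} := by
      refine Nat.card_le_card_of_injective (fun w => ⟨A ++ (w.1 ++ rv B), key w.1 w.2⟩) ?_
      intro w w' e
      have e1 : A ++ (w.1 ++ rv B) = A ++ (w'.1 ++ rv B) := congrArg Subtype.val e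
      exact Subtype.ext (List.append_cancel_right (List.append_cancel_left e1))
    have e1 : (Nat.card {w : List Pt // RW x0 x1 y0 y1 s s' n w} : ℝ) ≤
        (Nat.card {D : List Pt // Chord L (l.rotate i) k (n + (A.length + B.length)) D} : ℝ) := by
      exact_mod_cast hcard
    have e2 : x ^ 4 ≤ x ^ (A.length + B.length) := pow_le_pow_of_le_one hx.le hx1 (by omega)
    calc g * x ^ 4 ≤ ((Nat.card {w : List Pt // RW x0 x1 y0 y1 s s' n w} : ℝ) * x ^ n) * x ^ 4 :=
          mul_le_mul_of_nonneg_right hgn (pow_nonneg hx.le _)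
      _ ≤ ((Nat.card {w : List Pt // RW x0 x1 y0 y1 s s' n w} : ℝ) * x ^ n) *
            x ^ (A.length + B.length) :=
          mul_le_mul_of_nonneg_left e2 (mul_nonneg (Nat.cast_nonneg _) (pow_nonneg hx.le _))
      _ = (Nat.card {w : List Pt // RW x0 x1 y0 y1 s s' n w} : ℝ) *
            x ^ (n + (A.length + B.length)) := by rw [pow_add x n, mul_assoc]
      _ ≤ _ := mul_le_mul_of_nonneg_right e1 (pow_nonneg hx.le _)

/-- chords from the label lemma -/
theorem chords_of_alt {L N n0 : ℕ} {x g : ℝ} (hN : 32 ≤ N) (hx : 0 < x) (hx1 : x ≤ 1)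
    (hg1 : g ≤ 1)
    (hR : ∀ (x0 x1 y0 y1 : ℤ) (s t : Pt), InR x0 x1 y0 y1 s → InR x0 x1 y0 y1 t → s ≠ t →
      sd s t ≤ L → sd s t ≤ 4 * (x1 - x0) + 4 → sd s t ≤ 4 * (y1 - y0) + 4 →
      ∃ n ≤ n0, g ≤ (Nat.card {w : List Pt // RW x0 x1 y0 y1 s t n w} : ℝ) * x ^ n)
    {l : List Pt} (h : PG l) (hlen : l.length = N) {b : Pt}
    (hb : ∀ m < l.length, InR b.1 (b.1 + L) b.2 (b.2 + L) (pos l m))
    (halt : ∃ i j, Far N 16 i j ∧ Alt L b (pos l) N i j) :
    ∃ i < N, ∃ k, N ≤ 16 * k ∧ 16 * k ≤ 15 * N ∧ ∃ n ≤ n0 + 4,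
      g * x ^ 4 ≤ (Nat.card {D : List Pt // Chord L (l.rotate i) k n D} : ℝ) * x ^ n := by
  subst hlen
  have main : ∀ i j, i ≤ j → Far l.length 16 i j → Alt L b (pos l) l.length i j →
      ∃ i < l.length, ∃ k, l.length ≤ 16 * k ∧ 16 * k ≤ 15 * l.length ∧ ∃ n ≤ n0 + 4,
      g * x ^ 4 ≤ (Nat.card {D : List Pt // Chord L (l.rotate i) k n D} : ℝ) * x ^ n := by
    intro i j hij hfar ha
    obtain ⟨k, rfl⟩ : ∃ k, j = i + k := ⟨j - i, by omega⟩
    unfold Far at hfar
    refine ⟨i, hfar.1, k, by omega, by omega, ?_⟩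
    exact chords_lt hx hx1 hg1 hR h hb (by omega) (by omega) ha
  obtain ⟨i, j, hfar, ha⟩ := halt
  rcases le_total i j with hij | hij
  · exact main i j hij hfar ha
  · exact main j i hij hfar.symm ha.symm

end Pool.Agent.Work.MP_376faf_co_gap
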