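import Pool.Agent.Work.MP_376faf_co_gap.GDefs

set_option autoImplicit false

/-!
The label lemma inside a box: all the vertices which are used lie in a given box which contains the
polygon, the sides of the free rectangle may differ by a bounded factor.
-/

namespace Pool.Agent.Work.MP_376faf_co_gap

open Pool.Agent.Work.MP_376faf_co_lower
open Pool.Agent.Work.MP_376faf_co_hw
open Pool.Agent.Work.MP_376faf_co_hw.HP (Nb)

/-- the nearest point of the interval -/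
def clp (u v t : ℤ) : ℤ := max u (min t v)

/-- the nearest point of the rectangle -/
def clp2 (x0 x1 y0 y1 : ℤ) (z : ℤ × ℤ) : ℤ × ℤ := (clp x0 x1 z.1, clp y0 y1 z.2)

theorem clp2_mem {x0 x1 y0 y1 : ℤ} (hx : x0 ≤ x1) (hy : y0 ≤ y1) (z : ℤ × ℤ) :
    InR x0 x1 y0 y1 (clp2 x0 x1 y0 y1 z) := by
  unfold InR clp2 clp
  simp only
  omega

theorem clp2_of_mem {x0 x1 y0 y1 : ℤ} {z : ℤ × ℤ} (h : InR x0 x1 y0 y1 z) :
    clp2 x0 x1 y0 y1 z = z := by
  unfold InR at h
  unfold clp2 clp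
  refine Prod.ext ?_ ?_
  · simp only
    omega
  · simp only
    omega

theorem clp2_nb {x0 x1 y0 y1 : ℤ} {p q : ℤ × ℤ} (h : Nb p q) :
    clp2 x0 x1 y0 y1 p = clp2 x0 x1 y0 y1 q ∨ Nb (clp2 x0 x1 y0 y1 p) (clp2 x0 x1 y0 y1 q) := by
  have key : ∀ u v s t : ℤ, |t - s| = 1 → clp u v s = clp u v t ∨ |clp u v t - clp u v s| = 1 := by
    intro u v s t hst
    unfold clp
    rcases abs_eq (by norm_num : (0:ℤ) ≤ 1) |>.1 hst with h1 | h1
    · by_cases h2 : max u (min s v) = max u (min t v)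
      · exact Or.inl h2
      · right
        have h3 : max u (min t v) - max u (min s v) = 1 := by omega
        rw [h3, abs_one]
    · by_cases h2 : max u (min s v) = max u (min t v)
      · exact Or.inl h2
      · right
        have h3 : max u (min t v) - max u (min s v) = -1 := by omega
        rw [h3, abs_neg, abs_one]
  have h1 := h
  unfold Nb at h1
  have h2 := abs_nonneg (q.1 - p.1)
  have h3 := abs_nonneg (q.2 - p.2)
  have h4 : (|q.1 - p.1| = 1 ∧ |q.2 - p.2| = 0) ∨ (|q.1 - p.1| = 0 ∧ |q.2 - p.2| = 1) := by omega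
  rcases h4 with ⟨h5, h6⟩ | ⟨h5, h6⟩
  · have h7 : q.2 = p.2 := by
      have := abs_eq_zero.1 h6
      omega
    rcases key x0 x1 p.1 q.1 h5 with h8 | h8
    · left
      unfold clp2
      rw [h7, h8]
    · right
      unfold clp2 Nb
      simp only
      rw [h7, h8, sub_self, abs_zero, add_zero]
  · have h7 : q.1 = p.1 := by
      have := abs_eq_zero.1 h5
      omega
    rcases key y0 y1 p.2 q.2 h6 with h8 | h8
    · left
      unfold clp2
      rw [h7, h8]
    · right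
      unfold clp2 Nb
      simp only
      rw [h7, h8, sub_self, abs_zero, zero_add]

/-- the free rectangle inside the box -/
theorem exists_ring_box {P : ℕ → ℤ × ℤ} {N L : ℕ} {b : Pt} (hP : Poly P N) (hN : 4 < N)
    (hb : ∀ k < N, InR b.1 (b.1 + L) b.2 (b.2 + L) (P k)) :
    ∃ i j, Far N 4 i j ∧ (Nb (P i) (P j) ∨ ∃ x0 x1 y0 y1 : ℤ, x0 ≤ x1 ∧ y0 ≤ y1 ∧
      x1 - x0 ≤ 4 * (y1 - y0) + 4 ∧ y1 - y0 ≤ 4 * (x1 - x0) + 4 ∧
      (∀ z, InR x0 x1 y0 y1 z → Off P N z ∧ InR b.1 (b.1 + L) b.2 (b.2 + L) z) ∧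
      InR (x0 - 1) (x1 + 1) (y0 - 1) (y1 + 1) (P i) ∧
      InR (x0 - 1) (x1 + 1) (y0 - 1) (y1 + 1) (P j)) := by
  choose L0 hL0 hmin using exists_nearest P (N := N) (by omega)
  have hLP0 : ∀ i < N, L0 (P i) = i := by
    intro i hi
    refine hP.inj _ (hL0 _) _ hi ?_
    have h := hmin (P i) i hi
    refine (sd_zero (h.trans ?_)).symm
    rw [sd_le]
    omega
  have hL' : (0 : ℤ) ≤ L := Int.natCast_nonneg L
  obtain ⟨p', q', hpq', hfar'⟩ := exists_far_nb hP hN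
    (L := fun z => L0 (clp2 b.1 (b.1 + L) b.2 (b.2 + L) z)) (fun z => hL0 _)
    (fun i hi => by
      show L0 _ = i
      rw [clp2_of_mem (hb i hi)]
      exact hLP0 i hi)
  -- two neighbours in the box with far labels
  obtain ⟨p, q, hpB, hqB, hpq, hfar⟩ : ∃ p q, InR b.1 (b.1 + L) b.2 (b.2 + L) p ∧
      InR b.1 (b.1 + L) b.2 (b.2 + L) q ∧ Nb p q ∧ Far N 4 (L0 p) (L0 q) := by
    refine ⟨clp2 b.1 (b.1 + L) b.2 (b.2 + L) p', clp2 b.1 (b.1 + L) b.2 (b.2 + L) q',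
      clp2_mem (by omega) (by omega) _, clp2_mem (by omega) (by omega) _, ?_, hfar'⟩
    rcases clp2_nb (x0 := b.1) (x1 := b.1 + L) (y0 := b.2) (y1 := b.2 + L) hpq' with h | h
    · exfalso
      simp only [h] at hfar'
      unfold Far at hfar'
      omega
    · exact h
  refine ⟨L0 p, L0 q, hfar, ?_⟩
  -- the case of a ball around `q`
  have ball : ∀ p q : ℤ × ℤ, InR b.1 (b.1 + L) b.2 (b.2 + L) p →
      InR b.1 (b.1 + L) b.2 (b.2 + L) q → Nb p q →
      sd q (P (L0 q)) = sd p (P (L0 p)) + 1 →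
      ∃ x0 x1 y0 y1 : ℤ, x0 ≤ x1 ∧ y0 ≤ y1 ∧
      x1 - x0 ≤ 4 * (y1 - y0) + 4 ∧ y1 - y0 ≤ 4 * (x1 - x0) + 4 ∧
      (∀ z, InR x0 x1 y0 y1 z → Off P N z ∧ InR b.1 (b.1 + L) b.2 (b.2 + L) z) ∧
      InR (x0 - 1) (x1 + 1) (y0 - 1) (y1 + 1) (P (L0 p)) ∧
      InR (x0 - 1) (x1 + 1) (y0 - 1) (y1 + 1) (P (L0 q)) := by
    intro p q hpB hqB hpq hd
    set r := sd p (P (L0 p)) with hr
    have hr0 : 0 ≤ r := sd_nonneg _ _
    have h1 : sd q (P (L0 p)) ≤ r + 1 := sd_nb hpq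
    have h2 : sd q (P (L0 q)) ≤ r + 1 := hd.le
    have hi := hb _ (hL0 p)
    have hj := hb _ (hL0 q)
    have hrL : r + 1 ≤ L := by
      rw [← hd]
      rw [sd_le]
      unfold InR at hqB hj
      omega
    rw [sd_le] at h1 h2
    unfold InR at hpB hqB hi hj
    refine ⟨max b.1 (q.1 - r), min (b.1 + L) (q.1 + r), max b.2 (q.2 - r), min (b.2 + L) (q.2 + r),
      by omega, by omega, by omega, by omega, ?_, ?_, ?_⟩
    · intro z hz
      unfold InR at hz
      refine ⟨?_, by unfold InR; omega⟩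
      intro k hk hkz
      have h3 := hmin q k hk
      rw [hkz, hd] at h3
      have h4 : sd q z ≤ r := by
        rw [sd_le]
        omega
      omega
    · unfold InR
      omega
    · unfold InR
      omega
  have hd1 : sd q (P (L0 q)) ≤ sd p (P (L0 p)) + 1 :=
    (hmin q _ (hL0 p)).trans (sd_nb hpq)
  have hd2 : sd p (P (L0 p)) ≤ sd q (P (L0 q)) + 1 :=
    (hmin p _ (hL0 q)).trans (sd_nb (nb_symm hpq))
  -- the case of two balls with the same radius
  have two : ∀ p q : ℤ × ℤ, InR b.1 (b.1 + L) b.2 (b.2 + L) p →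
      InR b.1 (b.1 + L) b.2 (b.2 + L) q →
      ((q.1 = p.1 + 1 ∧ q.2 = p.2) ∨ (q.1 = p.1 ∧ q.2 = p.2 + 1)) →
      sd q (P (L0 q)) = sd p (P (L0 p)) → 0 < sd p (P (L0 p)) →
      ∃ x0 x1 y0 y1 : ℤ, x0 ≤ x1 ∧ y0 ≤ y1 ∧
      x1 - x0 ≤ 4 * (y1 - y0) + 4 ∧ y1 - y0 ≤ 4 * (x1 - x0) + 4 ∧
      (∀ z, InR x0 x1 y0 y1 z → Off P N z ∧ InR b.1 (b.1 + L) b.2 (b.2 + L) z) ∧
      InR (x0 - 1) (x1 + 1) (y0 - 1) (y1 + 1) (P (L0 p)) ∧
      InR (x0 - 1) (x1 + 1) (y0 - 1) (y1 + 1) (P (L0 q)) := by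
    intro p q hpB hqB hpq h h0
    set r := sd p (P (L0 p)) with hr
    have h1 : sd p (P (L0 p)) ≤ r := le_rfl
    have h2 : sd q (P (L0 q)) ≤ r := h.le
    have hi := hb _ (hL0 p)
    have hj := hb _ (hL0 q)
    have hrL : r ≤ L := by
      rw [hr, sd_le]
      unfold InR at hpB hi
      omega
    rw [sd_le] at h1 h2
    unfold InR at hpB hqB hi hj
    have hz : ∀ z : ℤ × ℤ, p.1 - (r - 1) ≤ z.1 → z.1 ≤ q.1 + (r - 1) → p.2 - (r - 1) ≤ z.2 →
        z.2 ≤ q.2 + (r - 1) → Off P N z := by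
      intro z z1 z2 z3 z4 k hk hkz
      have h3 := hmin p k hk
      have h4 := hmin q k hk
      rw [hkz, ← hr] at h3
      rw [hkz, h] at h4
      have h6 : sd p z ≤ r - 1 ∨ sd q z ≤ r - 1 := by
        by_cases hz : z.1 ≤ p.1 + (r - 1) ∧ z.2 ≤ p.2 + (r - 1)
        · left
          rw [sd_le]
          omega
        · right
          rw [sd_le]
          rcases hpq with h7 | h7
          · omega
          · omega
      omega
    refine ⟨max b.1 (p.1 - (r - 1)), min (b.1 + L) (q.1 + (r - 1)),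
      max b.2 (p.2 - (r - 1)), min (b.2 + L) (q.2 + (r - 1)), ?_, ?_, ?_, ?_, ?_, ?_, ?_⟩
    · omega
    · omega
    · omega
    · omega
    · intro z hz'
      unfold InR at hz'
      exact ⟨hz z (by omega) (by omega) (by omega) (by omega), by unfold InR; omega⟩
    · unfold InR
      omega
    · unfold InR
      omega
  rcases lt_trichotomy (sd q (P (L0 q))) (sd p (P (L0 p))) with h | h | h
  · right
    obtain ⟨x0, x1, y0, y1, a1, a2, a3, a3', a4, a5, a6⟩ :=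
      ball q p hqB hpB (nb_symm hpq) (by omega)
    exact ⟨x0, x1, y0, y1, a1, a2, a3, a3', a4, a6, a5⟩
  · rcases eq_or_lt_of_le (sd_nonneg p (P (L0 p))) with h0 | h0
    · left
      have e1 := sd_zero h0.symm.le
      have e2 : q = P (L0 q) := sd_zero (by omega)
      rw [← e1, ← e2]
      exact hpq
    · right
      have h5 := hpq.cases
      by_cases h6 : ((q.1 = p.1 + 1 ∧ q.2 = p.2) ∨ (q.1 = p.1 ∧ q.2 = p.2 + 1))
      · exact two p q hpB hqB h6 h h0
      · obtain ⟨x0, x1, y0, y1, a1, a2, a3, a3', a4, a5, a6⟩ :=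
          two q p hqB hpB (by omega) h.symm (by omega)
        exact ⟨x0, x1, y0, y1, a1, a2, a3, a3', a4, a6, a5⟩
  · right
    exact ball p q hpB hqB hpq (by omega)

/-- `ring_cases` with the position of the extra vertex -/
theorem ring_cases_box {x0 x1 y0 y1 : ℤ} (hx : x0 ≤ x1) (hy : y0 ≤ y1) {z : ℤ × ℤ}
    (hz : InR (x0 - 1) (x1 + 1) (y0 - 1) (y1 + 1) z) (hzR : ¬ InR x0 x1 y0 y1 z) :
    ∃ s, InR x0 x1 y0 y1 s ∧ (s.1 = x0 ∨ s.1 = x1 ∨ s.2 = y0 ∨ s.2 = y1) ∧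
      (Nb z s ∨ ∃ c, Nb z c ∧ Nb c s ∧ ¬ InR x0 x1 y0 y1 c ∧ c = (s.1, z.2)) := by
  obtain ⟨x, y⟩ := z
  unfold InR at hz hzR
  simp only at hz hzR
  by_cases h : (x0 ≤ x ∧ x ≤ x1) ∨ (y0 ≤ y ∧ y ≤ y1)
  · refine ⟨(max x0 (min x x1), max y0 (min y y1)), ?_, ?_, Or.inl ?_⟩
    · unfold InR
      simp only
      omega
    · simp only
      omega
    · unfold Nb
      simp only
      rcases h with h | h
      · have e1 : max x0 (min x x1) = x := by omega
        rw [e1, sub_self, abs_zero, zero_add]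
        rcases le_total y y0 with h1 | h1
        · have e2 : max y0 (min y y1) - y = 1 := by omega
          rw [e2, abs_one]
        · have e2 : max y0 (min y y1) - y = -1 := by omega
          rw [e2, abs_neg, abs_one]
      · have e1 : max y0 (min y y1) = y := by omega
        rw [e1, sub_self, abs_zero, add_zero]
        rcases le_total x x0 with h1 | h1
        · have e2 : max x0 (min x x1) - x = 1 := by omega
          rw [e2, abs_one]
        · have e2 : max x0 (min x x1) - x = -1 := by omega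
          rw [e2, abs_neg, abs_one]
  · refine ⟨(max x0 (min x x1), max y0 (min y y1)), ?_, ?_,
      Or.inr ⟨(max x0 (min x x1), y), ?_, ?_, ?_, rfl⟩⟩
    · unfold InR
      simp only
      omega
    · simp only
      omega
    · unfold Nb
      simp only
      rw [sub_self, abs_zero, add_zero]
      rcases le_total x x0 with h1 | h1
      · have e2 : max x0 (min x x1) - x = 1 := by omega
        rw [e2, abs_one]
      · have e2 : max x0 (min x x1) - x = -1 := by omega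
        rw [e2, abs_neg, abs_one]
    · unfold Nb
      simp only
      rw [sub_self, abs_zero, zero_add]
      rcases le_total y y0 with h1 | h1
      · have e2 : max y0 (min y y1) - y = 1 := by omega
        rw [e2, abs_one]
      · have e2 : max y0 (min y y1) - y = -1 := by omega
        rw [e2, abs_neg, abs_one]
    · unfold InR
      simp only
      omega

/-- `touch` in a box -/
theorem touch_box {P : ℕ → ℤ × ℤ} {N : ℕ} {x0 x1 y0 y1 X0 X1 Y0 Y1 : ℤ} (hx : x0 ≤ x1)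
    (hy : y0 ≤ y1) (hR : ∀ z, InR x0 x1 y0 y1 z → Off P N z ∧ InR X0 X1 Y0 Y1 z)
    (hb : ∀ k < N, InR X0 X1 Y0 Y1 (P k)) {i : ℕ} (hi : i < N)
    (hz : InR (x0 - 1) (x1 + 1) (y0 - 1) (y1 + 1) (P i)) :
    (∃ s a, Tch P N x0 x1 y0 y1 (P i) s a ∧ ∀ c ∈ a, InR X0 X1 Y0 Y1 c) ∨
      ∃ k < N, Nb (P i) (P k) ∧ ∃ s a, Tch P N x0 x1 y0 y1 (P k) s a ∧
        ∀ c ∈ a, InR X0 X1 Y0 Y1 c := by
  obtain ⟨s, h1, h2, h3 | ⟨c, h3, h4, h5, h7⟩⟩ :=
    ring_cases_box hx hy hz (fun h => (hR _ h).1 i hi rfl)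
  · exact Or.inl ⟨s, [], ⟨h1, h2, Or.inl ⟨rfl, h3⟩⟩, by simp⟩
  · by_cases h6 : Off P N c
    · refine Or.inl ⟨s, [c], ⟨h1, h2, Or.inr ⟨c, rfl, h3, h4, h6, h5⟩⟩, ?_⟩
      intro c' hc'
      rw [List.mem_singleton] at hc'
      rw [hc', h7]
      have h8 := (hR _ h1).2
      have h9 := hb i hi
      unfold InR at h8 h9 ⊢
      simp only
      omega
    · unfold Off at h6
      push Not at h6
      obtain ⟨k, hk, rfl⟩ := h6
      exact Or.inr ⟨k, hk, h3, s, [], ⟨h1, h2, Or.inl ⟨rfl, h4⟩⟩, by simp⟩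

/-- **Label lemma in a box.** Two vertices far apart along the polygon are joined by at most three
free vertices of the box, or they both touch one free rectangle in the box. -/
theorem label_box {P : ℕ → ℤ × ℤ} {N L : ℕ} {b : Pt} (hP : Poly P N) (hN : 4 < N)
    (hb : ∀ k < N, InR b.1 (b.1 + L) b.2 (b.2 + L) (P k)) :
    ∃ i j, Far N 16 i j ∧
      ((∃ l : List (ℤ × ℤ), l.length ≤ 3 ∧ List.IsChain Nb (P i :: (l ++ [P j])) ∧ l.Nodup ∧
        ∀ z ∈ l, Off P N z ∧ InR b.1 (b.1 + L) b.2 (b.2 + L) z) ∨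
      ∃ x0 x1 y0 y1 : ℤ, x0 ≤ x1 ∧ y0 ≤ y1 ∧
        (∀ z, InR x0 x1 y0 y1 z → Off P N z ∧ InR b.1 (b.1 + L) b.2 (b.2 + L) z) ∧
        ∃ s s' a a', s ≠ s' ∧ sd s s' ≤ 4 * (x1 - x0) + 4 ∧ sd s s' ≤ 4 * (y1 - y0) + 4 ∧
          Tch P N x0 x1 y0 y1 (P i) s a ∧ Tch P N x0 x1 y0 y1 (P j) s' a' ∧
          (∀ c ∈ a, c ∉ a' ∧ InR b.1 (b.1 + L) b.2 (b.2 + L) c) ∧
          ∀ c ∈ a', InR b.1 (b.1 + L) b.2 (b.2 + L) c) := by
  obtain ⟨i, j, hfar, h | ⟨x0, x1, y0, y1, hx, hy, hxy, hyx, hR, hi, hj⟩⟩ :=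
    exists_ring_box hP hN hb
  · refine ⟨i, j, hfar.mono.mono', Or.inl ⟨[], by simp, ?_, List.nodup_nil, by simp⟩⟩
    simpa using h
  -- first vertex
  have step1 : (∃ i k, Far N 8 i k ∧ Nb (P i) (P k)) ∨
      ∃ i, Far N 8 i j ∧ ∃ s a, Tch P N x0 x1 y0 y1 (P i) s a ∧
        ∀ c ∈ a, InR b.1 (b.1 + L) b.2 (b.2 + L) c := by
    rcases touch_box hx hy hR hb hfar.1 hi with h | ⟨k, hk, h1, h2⟩
    · exact Or.inr ⟨i, hfar.mono, h⟩
    · rcases hfar.split hk with h3 | h3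
      · exact Or.inl ⟨i, k, h3, h1⟩
      · exact Or.inr ⟨k, h3, h2⟩
  rcases step1 with ⟨i, k, h1, h2⟩ | ⟨i, hfar, s, a, hs, haB⟩
  · refine ⟨i, k, h1.mono', Or.inl ⟨[], by simp, ?_, List.nodup_nil, by simp⟩⟩
    simpa using h2
  have step2 : (∃ i k, Far N 16 i k ∧ Nb (P i) (P k)) ∨
      ∃ j, Far N 16 i j ∧ ∃ s a, Tch P N x0 x1 y0 y1 (P j) s a ∧
        ∀ c ∈ a, InR b.1 (b.1 + L) b.2 (b.2 + L) c := by
    rcases touch_box hx hy hR hb hfar.2.1 hj with h | ⟨k, hk, h1, h2⟩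
    · exact Or.inr ⟨j, hfar.mono', h⟩
    · rcases hfar.split' hk with h3 | h3
      · exact Or.inr ⟨k, h3, h2⟩
      · exact Or.inl ⟨j, k, h3.symm, h1⟩
  rcases step2 with ⟨i, k, h1, h2⟩ | ⟨j, hfar, s', a', hs', haB'⟩
  · refine ⟨i, k, h1, Or.inl ⟨[], by simp, ?_, List.nodup_nil, by simp⟩⟩
    simpa using h2
  refine ⟨i, j, hfar, ?_⟩
  by_cases hcc : ∀ c ∈ a, c ∉ a'
  · by_cases hss : s = s'
    · left
      subst hss
      obtain ⟨hs1, hs2, hs3⟩ := hs
      obtain ⟨-, -, hs3'⟩ := hs'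
      refine ⟨a ++ [s] ++ a', ?_, ?_, ?_, ?_⟩
      · rcases hs3 with ⟨rfl, -⟩ | ⟨c, rfl, -⟩ <;> rcases hs3' with ⟨rfl, -⟩ | ⟨c', rfl, -⟩ <;> simp
      · rcases hs3 with ⟨rfl, h1⟩ | ⟨c, rfl, h1, h2, -⟩ <;>
          rcases hs3' with ⟨rfl, h3⟩ | ⟨c', rfl, h3, h4, -⟩ <;>
          simp only [List.nil_append, List.cons_append, List.isChain_cons_cons,
            List.isChain_singleton, and_true]
        · exact ⟨h1, nb_symm h3⟩
        · exact ⟨h1, nb_symm h4, nb_symm h3⟩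
        · exact ⟨h1, h2, nb_symm h3⟩
        · exact ⟨h1, h2, nb_symm h4, nb_symm h3⟩
      · rcases hs3 with ⟨rfl, h1⟩ | ⟨c, rfl, h1, h2, h5, h6⟩ <;>
          rcases hs3' with ⟨rfl, h3⟩ | ⟨c', rfl, h3, h4, h7, h8⟩
        · simp
        · have : s ≠ c' := fun e => h8 (e ▸ hs1)
          simp [this]
        · have : c ≠ s := fun e => h6 (e ▸ hs1)
          simp [this]
        · have e1 : c ≠ s := fun e => h6 (e ▸ hs1)
          have e2 : s ≠ c' := fun e => h8 (e ▸ hs1)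
          have e3 : c ≠ c' := by simpa using hcc
          simp [e1, e2, e3]
      · intro z hz
        simp only [List.mem_append, List.mem_singleton] at hz
        rcases hz with (hz | rfl) | hz
        · refine ⟨?_, haB z hz⟩
          rcases hs3 with ⟨rfl, h1⟩ | ⟨c, rfl, h1, h2, h5, h6⟩
          · simp at hz
          · rw [List.mem_singleton] at hz
            exact hz ▸ h5
        · exact hR _ hs1
        · refine ⟨?_, haB' z hz⟩
          rcases hs3' with ⟨rfl, h1⟩ | ⟨c, rfl, h1, h2, h5, h6⟩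
          · simp at hz
          · rw [List.mem_singleton] at hz
            exact hz ▸ h5
    · right
      refine ⟨x0, x1, y0, y1, hx, hy, hR, s, s', a, a', hss, ?_, ?_, hs, hs',
        fun c hc => ⟨hcc c hc, haB c hc⟩, haB'⟩
      · have h1 := hs.1
        have h2 := hs'.1
        unfold InR at h1 h2
        rw [sd_le]
        omega
      · have h1 := hs.1
        have h2 := hs'.1
        unfold InR at h1 h2
        rw [sd_le]
        omega
  · left
    push Not at hcc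
    obtain ⟨c, hc1, hc2⟩ := hcc
    have hcB := haB c hc1
    obtain ⟨-, -, hs3⟩ := hs
    obtain ⟨-, -, hs3'⟩ := hs'
    rcases hs3 with ⟨rfl, h1⟩ | ⟨c1, rfl, h1, h2, h5, h6⟩
    · simp at hc1
    · rcases hs3' with ⟨rfl, h3⟩ | ⟨c', rfl, h3, h4, h7, h8⟩
      · simp at hc2
      · rw [List.mem_singleton] at hc1 hc2
        subst hc1
        subst hc2
        refine ⟨[c], by simp, ?_, by simp, ?_⟩
        · simp only [List.cons_append, List.nil_append, List.isChain_cons_cons,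
            List.isChain_singleton, and_true]
          exact ⟨h1, nb_symm h3⟩
        · intro z hz
          rw [List.mem_singleton] at hz
          exact hz ▸ ⟨h5, hcB⟩

end Pool.Agent.Work.MP_376faf_co_gap
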