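import Pool.Agent.Work.MP_376faf_co_gap.Chords
import Pool.Agent.Work.MP_376faf_co_gap.LabelBox

/-! Every polygon in a box has many chords. -/

set_option autoImplicit false

namespace Pool.Agent.Work.MP_376faf_co_gap

open Pool.Agent.Work.MP_376faf_co_lower
open Pool.Agent.Work.MP_376faf_co_hw
open Pool.Agent.Work.MP_376faf_co_hw.HP (Nb)

theorem exists_chords {L N n0 : ℕ} {x g : ℝ} (hN : 32 ≤ N) (hx : 0 < x) (hx1 : x ≤ 1)
    (_hg : 0 < g) (hg1 : g ≤ 1)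
    (hR : ∀ (x0 x1 y0 y1 : ℤ) (s t : Pt), InR x0 x1 y0 y1 s → InR x0 x1 y0 y1 t → s ≠ t →
      sd s t ≤ L → sd s t ≤ 4 * (x1 - x0) + 4 → sd s t ≤ 4 * (y1 - y0) + 4 →
      ∃ n ≤ n0, g ≤ (Nat.card {w : List Pt // RW x0 x1 y0 y1 s t n w} : ℝ) * x ^ n)
    {l : List Pt} (hl : PGB L N l) :
    ∃ i < N, ∃ k, N ≤ 16 * k ∧ 16 * k ≤ 15 * N ∧ ∃ n ≤ n0 + 4,
      g * x ^ 4 ≤ (Nat.card {D : List Pt // Chord L (l.rotate i) k n D} : ℝ) * x ^ n := by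
  obtain ⟨h, hlen, b, hb⟩ := hl
  have hb' : ∀ m < l.length, InR b.1 (b.1 + L) b.2 (b.2 + L) (pos l m) := by
    intro m hm
    exact hb _ ⟨m, hm, (zero_add _).symm⟩
  refine chords_of_alt hN hx hx1 hg1 hR h hlen hb' ?_
  have hP := h.poly
  rw [hlen] at hP hb'
  exact label_box hP (by omega) hb'

end Pool.Agent.Work.MP_376faf_co_gap
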