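import Pool.Agent.Work.MP_376faf_co_gap.GDefs
import Pool.Agent.Work.MP_376faf_co_poly.FM

/-! Corner walks from bridges with corner start. -/

set_option autoImplicit false

namespace Pool.Agent.Work.MP_376faf_co_gap

open Pool.Agent.Work.MP_376faf_co_lower

/-- y-bridges with `n` steps and displacement `(e, h)` which start at the lower left corner of
their box, overshoot at most `W` on the right side -/
def CF (e h W n : ℕ) (l : List Pt) : Prop := Walk l ∧ l.length = n ∧
  l.sum = ((e : ℤ), (h : ℤ)) ∧ ∀ k ≤ n, 0 ≤ (pos l k).1 ∧ (pos l k).1 ≤ e + W ∧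
    (0 < k → 0 < (pos l k).2) ∧ (pos l k).2 ≤ h

/-- start in the lower left corner, end in the last column -/
def UC (E F W n : ℕ) (l : List Pt) : Prop := Walk l ∧ l.length = n ∧
  l.sum = ((E : ℤ), (F : ℤ)) ∧ ∀ k ≤ n, 0 ≤ (pos l k).1 ∧ (pos l k).1 ≤ E ∧
    0 ≤ (pos l k).2 ∧ (pos l k).2 ≤ F + W

/-- corner to corner in a rectangle -/
def TC (X Y n : ℕ) (l : List Pt) : Prop := Walk l ∧ l.length = n ∧
  l.sum = ((X : ℤ), (Y : ℤ)) ∧ ∀ k ≤ n, 0 ≤ (pos l k).1 ∧ (pos l k).1 ≤ X ∧
    0 ≤ (pos l k).2 ∧ (pos l k).2 ≤ Y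

theorem walk_app {a b : List Pt} (ha : Walk a) (hb : Walk b)
    (h : ∀ i ≤ a.length, ∀ j ≤ b.length, 0 < j → pos a i ≠ a.sum + pos b j) : Walk (a ++ b) := by
  refine walk_append (p := 0) ha hb ?_
  rintro q ⟨i, hi, rfl⟩ ⟨j, hj, h1⟩
  rcases Nat.eq_zero_or_pos j with h2 | h2
  · rw [h1, h2, pos_zero, add_zero]
  · rw [zero_add, zero_add] at h1
    exact absurd h1 (h i hi j hj h2)

/-- positions on a concatenation -/
theorem pos_app {a b : List Pt} {n m : ℕ} (ha : a.length = n) (_hb : b.length = m) {k : ℕ}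
    (hk : k ≤ n + m) : (k ≤ n ∧ pos (a ++ b) k = pos a k) ∨
      ∃ j ≤ m, k = n + j ∧ pos (a ++ b) k = a.sum + pos b j := by
  rcases le_total k n with h | h
  · exact Or.inl ⟨h, pos_append_left _ _ (by omega)⟩
  · refine Or.inr ⟨k - n, by omega, by omega, ?_⟩
    have := pos_append_right a b (k - n)
    rw [ha, show n + (k - n) = k by omega] at this
    exact this

theorem CF.app {e h W n e' h' n' : ℕ} {a b : List Pt} (ha : CF e h W n a)
    (hb : CF e' h' W n' b) : CF (e + e') (h + h') W (n + n') (a ++ b) := by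
  obtain ⟨a1, a2, a3, a4⟩ := ha
  obtain ⟨b1, b2, b3, b4⟩ := hb
  refine ⟨walk_app a1 b1 ?_, by rw [List.length_append, a2, b2], ?_, ?_⟩
  · intro i hi j hj hj0 heq
    have h1 := congrArg Prod.snd heq
    rw [a3, Prod.snd_add] at h1
    have h2 := (a4 i (by omega)).2.2.2
    have h3 := (b4 j (by omega)).2.2.1 hj0
    simp only at h1
    omega
  · rw [List.sum_append, a3, b3]
    ext <;> simp
  · intro k hk
    push_cast
    rcases pos_app a2 b2 hk with ⟨h1, h2⟩ | ⟨j, hj, h1, h2⟩
    · rw [h2]
      have := a4 k h1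
      omega
    · rw [h2, a3, Prod.fst_add, Prod.snd_add]
      have e1 := b4 j hj
      have e2 := a4 n le_rfl
      have e3 : pos a n = a.sum := by rw [← a2, pos_len]
      rw [e3, a3] at e2
      simp only at e2 ⊢
      refine ⟨by omega, by omega, fun h3 => ?_, by omega⟩
      rcases Nat.eq_zero_or_pos j with h4 | h4
      · rw [h4, pos_zero]
        have := e2.2.2.1 (by omega)
        simpa using this
      · have := e1.2.2.1 h4
        omega

theorem fin_len (n : ℕ) {P : List Pt → Prop} (h : ∀ l, P l → Walk l ∧ l.length = n) :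
    Finite {l : List Pt // P l} := by
  have h1 : {l : List Pt | P l}.Finite :=
    (Pool.Agent.Work.MP_376faf_co_poly.finite_walk n).subset fun l hl => h l hl
  exact h1.to_subtype

theorem card_pair {P Q R : List Pt → Prop} (f : List Pt → List Pt → List Pt)
    (hR : Finite {l : List Pt // R l}) (hf : ∀ a b, P a → Q b → R (f a b))
    (hinj : ∀ a b a' b', P a → P a' → Q b → Q b' → f a b = f a' b' → a = a' ∧ b = b') :
    Nat.card {l : List Pt // P l} * Nat.card {l : List Pt // Q l} ≤
      Nat.card {l : List Pt // R l} := by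
  rw [← Nat.card_prod]
  refine Nat.card_le_card_of_injective
    (fun p : {l : List Pt // P l} × {l : List Pt // Q l} =>
      (⟨f p.1.1 p.2.1, hf _ _ p.1.2 p.2.2⟩ : {l : List Pt // R l})) ?_
  rintro ⟨⟨a, ha⟩, ⟨b, hb⟩⟩ ⟨⟨a', ha'⟩, ⟨b', hb'⟩⟩ h
  obtain ⟨h1, h2⟩ := hinj a b a' b' ha ha' hb hb' (congrArg Subtype.val h)
  subst h1 h2
  rfl

theorem CF.fin (e h W n : ℕ) : Finite {l : List Pt // CF e h W n l} :=
  fin_len n fun _ hl => ⟨hl.1, hl.2.1⟩

theorem CF.pow (e h W n : ℕ) (j : ℕ) : (Nat.card {l : List Pt // CF e h W n l}) ^ j ≤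
    Nat.card {l : List Pt // CF (j * e) (j * h) W (j * n) l} := by
  induction j with
  | zero =>
    have := CF.fin (0 * e) (0 * h) W (0 * n)
    have hne : Nonempty {l : List Pt // CF (0 * e) (0 * h) W (0 * n) l} := by
      refine ⟨⟨[], ⟨by simp, ?_⟩, by simp, by ext <;> simp, ?_⟩⟩
      · intro a ha b hb _
        simp only [Set.mem_Iic, List.length_nil, Nat.le_zero] at ha hb
        rw [ha, hb]
      · intro k hk
        have : k = 0 := by omega
        subst this
        simp
    rw [pow_zero]
    exact Nat.card_pos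
  | succ j ih =>
    rw [pow_succ]
    have h1 : Nat.card {l : List Pt // CF (j * e) (j * h) W (j * n) l} *
        Nat.card {l : List Pt // CF e h W n l} ≤
        Nat.card {l : List Pt // CF ((j + 1) * e) ((j + 1) * h) W ((j + 1) * n) l} := by
      refine card_pair (fun a b => a ++ b) (CF.fin _ _ _ _) ?_ ?_
      · intro a b ha hb
        have := ha.app hb
        rwa [← Nat.succ_mul, ← Nat.succ_mul, ← Nat.succ_mul] at this
      · intro a b a' b' ha ha' hb hb' heq
        exact List.append_inj heq (by rw [ha.2.1, ha'.2.1])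
    exact (Nat.mul_le_mul_right _ ih).trans h1

/-- the swapped walk -/
theorem pos_sw (l : List Pt) (i : ℕ) : pos (l.map Prod.swap) i = (pos l i).swap := by
  unfold pos
  rw [← List.map_take]
  generalize l.take i = m
  induction m with
  | nil => rfl
  | cons a m ih => simp only [List.map_cons, List.sum_cons, ih]; rfl

theorem sum_sw (l : List Pt) : (l.map Prod.swap).sum = l.sum.swap := by
  have := pos_sw l l.length
  rw [pos_len] at this
  rw [← this, ← pos_len (l.map Prod.swap), List.length_map]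

theorem walk_sw {l : List Pt} (h : Walk l) : Walk (l.map Prod.swap) := by
  refine ⟨?_, ?_⟩
  · intro s hs
    obtain ⟨t, ht, rfl⟩ := List.mem_map.1 hs
    have := h.1 t ht
    unfold Un at this ⊢
    simp only [Prod.fst_swap, Prod.snd_swap]
    omega
  · intro a ha b hb hab
    simp only [Set.mem_Iic, List.length_map] at ha hb
    rw [pos_sw, pos_sw] at hab
    exact h.2 ha hb (Prod.swap_injective hab)

theorem walk_cons {s : Pt} {l : List Pt} (hs : Un s) (hl : Walk l)
    (h : ∀ j ≤ l.length, s + pos l j ≠ 0) : Walk (s :: l) := by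
  have hs0 : s ≠ 0 := by
    have := h 0 (Nat.zero_le _)
    rwa [pos_zero, add_zero] at this
  have h1 : Walk [s] := by
    refine ⟨by simpa using hs, ?_⟩
    intro a ha b hb hab
    simp only [Set.mem_Iic, List.length_singleton] at ha hb
    have e0 : pos [s] 0 = 0 := pos_zero _
    have e1 : pos [s] 1 = s := by simp [pos]
    interval_cases a <;> interval_cases b
    · rfl
    · rw [e0, e1] at hab; exact absurd hab.symm hs0
    · rw [e0, e1] at hab; exact absurd hab hs0
    · rfl
  have h2 := walk_app (a := [s]) (b := l) h1 hl ?_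
  · exact h2
  · intro i hi j hj hj0 heq
    simp only [List.length_singleton] at hi
    rw [List.sum_singleton] at heq
    interval_cases i
    · rw [pos_zero] at heq
      exact h j hj heq.symm
    · have e1 : pos [s] 1 = s := by simp [pos]
      rw [e1] at heq
      have h3 : pos l j = 0 := (add_eq_left.1 heq.symm)
      have := hl.2 (Set.mem_Iic.2 hj) (Set.mem_Iic.2 (Nat.zero_le _)) (by rw [h3, pos_zero])
      omega

theorem pos_cons (s : Pt) (l : List Pt) (j : ℕ) : pos (s :: l) (j + 1) = s + pos l j := by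
  simp [pos]

/-- first half -/
theorem UC.mk {e h W n e' h' n' : ℕ} {a b : List Pt} (hW : W ≤ h') (ha : CF e h W n a)
    (hb : CF e' h' W n' b) :
    UC (e + h') (h + 1 + e') W (n + (n' + 1)) (a ++ ((0, 1) :: b.map Prod.swap)) := by
  obtain ⟨a1, a2, a3, a4⟩ := ha
  obtain ⟨b1, b2, b3, b4⟩ := hb
  have hb' : Walk ((0, 1) :: b.map Prod.swap) := by
    refine walk_cons (by simp [Un]) (walk_sw b1) ?_
    intro j hj heq
    rw [List.length_map] at hj
    have h1 := congrArg Prod.snd heq
    rw [pos_sw, Prod.snd_add, Prod.snd_swap] at h1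
    have h2 := (b4 j (by omega)).1
    simp only [Prod.snd_zero] at h1
    omega
  have hlen : ((0, 1) :: b.map Prod.swap : List Pt).length = n' + 1 := by
    rw [List.length_cons, List.length_map, b2]
  have e2 := a4 n le_rfl
  have e3 : pos a n = a.sum := by rw [← a2, pos_len]
  rw [e3, a3] at e2
  simp only at e2
  refine ⟨walk_app a1 hb' ?_, by rw [List.length_append, a2, hlen], ?_, ?_⟩
  · intro i hi j hj hj0 heq
    obtain ⟨j, rfl⟩ : ∃ k, j = k + 1 := ⟨j - 1, by omega⟩
    rw [pos_cons, pos_sw] at heq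
    have h1 := congrArg Prod.snd heq
    rw [a3, Prod.snd_add, Prod.snd_add, Prod.snd_swap] at h1
    have h2 := (a4 i (by omega)).2.2.2
    have h3 := (b4 j (by omega)).1
    simp only at h1
    omega
  · rw [List.sum_append, List.sum_cons, sum_sw, a3, b3]
    ext
    · simp
    · simp only [Prod.snd_add, Prod.snd_swap]
      push_cast
      ring
  · intro k hk
    push_cast
    rcases pos_app a2 hlen hk with ⟨h1, h2⟩ | ⟨j, hj, h1, h2⟩
    · rw [h2]
      have h3 := a4 k h1
      refine ⟨h3.1, by omega, ?_, by omega⟩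
      rcases Nat.eq_zero_or_pos k with h4 | h4
      · rw [h4, pos_zero]
        simp
      · exact (h3.2.2.1 h4).le
    · rw [h2]
      rcases Nat.eq_zero_or_pos j with h4 | h4
      · rw [h4, pos_zero, add_zero, a3]
        simp only
        omega
      · obtain ⟨j, rfl⟩ : ∃ k, j = k + 1 := ⟨j - 1, by omega⟩
        rw [pos_cons, pos_sw, a3, Prod.fst_add, Prod.snd_add, Prod.fst_add, Prod.snd_add,
          Prod.fst_swap, Prod.snd_swap]
        have e1 := b4 j (by omega)
        simp only
        have h5 : 0 ≤ (pos b j).2 := by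
          rcases Nat.eq_zero_or_pos j with h6 | h6
          · rw [h6, pos_zero]
            simp
          · exact (e1.2.2.1 h6).le
        omega

theorem pos_rev (l : List Pt) {i : ℕ} (_hi : i ≤ l.length) :
    pos l.reverse i = l.sum - pos l (l.length - i) := by
  unfold pos
  rw [List.take_reverse, List.sum_reverse]
  have : l.sum = (l.take (l.length - i)).sum + (l.drop (l.length - i)).sum := by
    rw [← List.sum_append, List.take_append_drop]
  rw [this]
  abel

theorem walk_rev {l : List Pt} (h : Walk l) : Walk l.reverse := by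
  refine ⟨fun s hs => h.1 s (List.mem_reverse.1 hs), ?_⟩
  intro a ha b hb hab
  simp only [Set.mem_Iic, List.length_reverse] at ha hb
  rw [pos_rev l ha, pos_rev l hb] at hab
  have := h.2 (show l.length - a ∈ Set.Iic l.length by simp only [Set.mem_Iic]; omega)
    (show l.length - b ∈ Set.Iic l.length by simp only [Set.mem_Iic]; omega)
    (sub_right_inj.1 hab)
  omega

/-- rectangle -/
theorem TC.mk {E F W n : ℕ} {a b : List Pt} (hW : W ≤ F) (ha : UC E F W n a)
    (hb : UC E F W n b) : TC (2 * E + 1) (2 * F) (n + (n + 1)) (a ++ ((1, 0) :: b.reverse)) := by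
  obtain ⟨a1, a2, a3, a4⟩ := ha
  obtain ⟨b1, b2, b3, b4⟩ := hb
  have hp : ∀ j ≤ n, pos b.reverse j = ((E:ℤ) - (pos b (n - j)).1, (F:ℤ) - (pos b (n - j)).2) := by
    intro j hj
    rw [pos_rev b (by omega), b3, b2]
    rfl
  have hb' : Walk ((1, 0) :: b.reverse) := by
    refine walk_cons (by simp [Un]) (walk_rev b1) ?_
    intro j hj heq
    rw [List.length_reverse] at hj
    have h1 := congrArg Prod.fst heq
    rw [hp j (by omega), Prod.fst_add] at h1
    have h2 := (b4 (n - j) (by omega)).2.1
    simp only [Prod.fst_zero] at h1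
    omega
  have hlen : ((1, 0) :: b.reverse : List Pt).length = n + 1 := by
    rw [List.length_cons, List.length_reverse, b2]
  have e2 := a4 n le_rfl
  have e3 : pos a n = a.sum := by rw [← a2, pos_len]
  rw [e3, a3] at e2
  simp only at e2
  refine ⟨walk_app a1 hb' ?_, by rw [List.length_append, a2, hlen], ?_, ?_⟩
  · intro i hi j hj hj0 heq
    obtain ⟨j, rfl⟩ : ∃ k, j = k + 1 := ⟨j - 1, by omega⟩
    rw [pos_cons, hp j (by omega)] at heq
    have h1 := congrArg Prod.fst heq
    rw [a3, Prod.fst_add, Prod.fst_add] at h1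
    have h2 := (a4 i (by omega)).2.1
    have h3 := (b4 (n - j) (by omega)).2.1
    simp only at h1
    omega
  · rw [List.sum_append, List.sum_cons, List.sum_reverse, a3, b3]
    ext
    · simp only [Prod.fst_add]
      push_cast
      ring
    · simp only [Prod.snd_add]
      push_cast
      ring
  · intro k hk
    push_cast
    rcases pos_app a2 hlen hk with ⟨h1, h2⟩ | ⟨j, hj, h1, h2⟩
    · rw [h2]
      have h3 := a4 k h1
      omega
    · rw [h2]
      rcases Nat.eq_zero_or_pos j with h4 | h4
      · rw [h4, pos_zero, add_zero, a3]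
        simp only
        omega
      · obtain ⟨j, rfl⟩ : ∃ k, j = k + 1 := ⟨j - 1, by omega⟩
        rw [pos_cons, hp j (by omega), a3, Prod.fst_add, Prod.snd_add, Prod.fst_add,
          Prod.snd_add]
        have e1 := b4 (n - j) (by omega)
        simp only
        omega

/-- square -/
theorem CW.mk {X Y n : ℕ} {a b : List Pt} (ha : TC X Y n a) (hb : TC X Y n b) :
    CW (X + Y) (n + n) (a ++ b.map Prod.swap) := by
  obtain ⟨a1, a2, a3, a4⟩ := ha
  obtain ⟨b1, b2, b3, b4⟩ := hb
  have hlen : (b.map Prod.swap : List Pt).length = n := by rw [List.length_map, b2]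
  have e2 := a4 n le_rfl
  have e3 : pos a n = a.sum := by rw [← a2, pos_len]
  rw [e3, a3] at e2
  simp only at e2
  refine ⟨walk_app a1 (walk_sw b1) ?_, by rw [List.length_append, a2, hlen], ?_, ?_⟩
  · intro i hi j hj hj0 heq
    rw [List.length_map] at hj
    rw [pos_sw] at heq
    have h1 := congrArg Prod.fst heq
    have h2 := congrArg Prod.snd heq
    rw [a3, Prod.fst_add, Prod.fst_swap] at h1
    rw [a3, Prod.snd_add, Prod.snd_swap] at h2
    have h3 := a4 i (by omega)
    have h4 := b4 j (by omega)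
    simp only at h1 h2
    have h5 : pos b j = 0 := by
      ext
      · simp only [Prod.fst_zero]; omega
      · simp only [Prod.snd_zero]; omega
    have := b1.2 (Set.mem_Iic.2 hj) (Set.mem_Iic.2 (Nat.zero_le _)) (by rw [h5, pos_zero])
    omega
  · rw [List.sum_append, sum_sw, a3, b3]
    ext
    · simp
    · simp only [Prod.snd_add, Prod.snd_swap]
      push_cast
      ring
  · intro k hk
    push_cast
    rcases pos_app a2 hlen hk with ⟨h1, h2⟩ | ⟨j, hj, h1, h2⟩
    · rw [h2]
      have h3 := a4 k h1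
      omega
    · rw [h2, pos_sw, a3, Prod.fst_add, Prod.snd_add, Prod.fst_swap, Prod.snd_swap]
      have e1 := b4 j hj
      simp only
      omega

theorem map_swap_inj {a b : List Pt} (h : a.map Prod.swap = b.map Prod.swap) : a = b :=
  List.map_injective_iff.2 Prod.swap_injective h

/-- Corner walks from a family of bridges with corner start. -/
theorem corner_of_fam {e h W n : ℕ} (hW : W ≤ 12 * h) :
    (Nat.card {l : List Pt // CF e h W n l}) ^ 96 ≤
      Nat.card {l : List Pt // CW (48 * (e + h) + 3) (96 * n + 6) l} := by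
  have h1 := CF.pow e h W n 12
  set A := Nat.card {l : List Pt // CF e h W n l} with hA
  set B := Nat.card {l : List Pt // CF (12 * e) (12 * h) W (12 * n) l} with hB
  set E := 12 * e + 12 * h with hE
  set F := 12 * h + 1 + 12 * e with hF
  set n1 := 12 * n + (12 * n + 1) with hn1
  have h2 : B * B ≤ Nat.card {l : List Pt // UC E F W n1 l} := by
    refine card_pair (fun a b => a ++ ((0, 1) :: b.map Prod.swap))
      (fin_len n1 fun _ hl => ⟨hl.1, hl.2.1⟩) (fun a b ha hb => UC.mk hW ha hb) ?_
    intro a b a' b' ha ha' hb hb' heq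
    obtain ⟨h3, h4⟩ := List.append_inj heq (by rw [ha.2.1, ha'.2.1])
    exact ⟨h3, map_swap_inj (List.cons.inj h4).2⟩
  set D := Nat.card {l : List Pt // UC E F W n1 l} with hD
  have h3 : D * D ≤ Nat.card {l : List Pt // TC (2 * E + 1) (2 * F) (n1 + (n1 + 1)) l} := by
    refine card_pair (fun a b => a ++ ((1, 0) :: b.reverse))
      (fin_len (n1 + (n1 + 1)) fun _ hl => ⟨hl.1, hl.2.1⟩)
      (fun a b ha hb => TC.mk (by omega) ha hb) ?_
    intro a b a' b' ha ha' hb hb' heq
    obtain ⟨h3, h4⟩ := List.append_inj heq (by rw [ha.2.1, ha'.2.1])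
    exact ⟨h3, List.reverse_injective (List.cons.inj h4).2⟩
  set T := Nat.card {l : List Pt // TC (2 * E + 1) (2 * F) (n1 + (n1 + 1)) l} with hT
  have h4 : T * T ≤ Nat.card {l : List Pt // CW (48 * (e + h) + 3) (96 * n + 6) l} := by
    refine card_pair (fun a b => a ++ b.map Prod.swap)
      (fin_len (96 * n + 6) fun _ hl => ⟨hl.1, hl.2.1⟩) ?_ ?_
    · intro a b ha hb
      have h5 := CW.mk ha hb
      have e1 : 2 * E + 1 + 2 * F = 48 * (e + h) + 3 := by omega
      have e2 : n1 + (n1 + 1) + (n1 + (n1 + 1)) = 96 * n + 6 := by omega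
      rwa [e1, e2] at h5
    · intro a b a' b' ha ha' hb hb' heq
      obtain ⟨h3, h4⟩ := List.append_inj heq (by rw [ha.2.1, ha'.2.1])
      exact ⟨h3, map_swap_inj h4⟩
  calc A ^ 96 = (((A ^ 12) ^ 2) ^ 2) ^ 2 := by rw [← pow_mul, ← pow_mul, ← pow_mul]
    _ ≤ ((B ^ 2) ^ 2) ^ 2 := by gcongr
    _ ≤ (D ^ 2) ^ 2 := by
        have : B ^ 2 ≤ D := by rw [pow_two]; exact h2
        gcongr
    _ ≤ T ^ 2 := by
        have : D ^ 2 ≤ T := by rw [pow_two]; exact h3
        gcongr
    _ ≤ _ := by rw [pow_two]; exact h4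

end Pool.Agent.Work.MP_376faf_co_gap
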