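import Pool.Agent.Work.MP_376faf_co_gap.GDefs
import Pool.Agent.Work.MP_376faf_co_gap.Chords
import Pool.Agent.Work.MP_376faf_co_gap.Dia

/-! The counting step: a polygon with two chords of one length is cut into two polygons. -/

set_option autoImplicit false

namespace Pool.Agent.Work.MP_376faf_co_gap

open Pool.Agent.Work.MP_376faf_co_lower
open Pool.Agent.Work.MP_376faf_co_hw
open Pool.Agent.Work.MP_376faf_co_hw.HP (Nb)

/-- the first polygon: first part of the polygon, chord backwards -/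
theorem count_q1 {L N k n : ℕ} {l D : List Pt} (hl : PG l) (hN : l.length = N) (hk : 2 ≤ k)
    (hkN : k < N) (hn : 0 < n) (hD : Chord L l k n D) : PGB L (k + n) (l.take k ++ rv D) := by
  obtain ⟨h1, h2, h3, h4, b, h5⟩ := hD
  have hkl : k < l.length := by omega
  have hc := hl.cut (by omega) hkl
  have es : (l.take k).sum = pos l k := rfl
  have hlen : (l.take k).length = k := by rw [List.length_take]; omega
  have hvr : ∀ q, VW (0 + (l.take k).sum) (rv D) q ↔ VW 0 D q := by
    intro q
    rw [es, ← h3]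
    exact VW_rv
  refine ⟨pg_append (p := 0) hc.1 h1.rv ?_ ?_ ?_, ?_, b, ?_⟩
  · rw [rv_sum, es, h3, add_neg_cancel]
  · rw [hlen, rv_length, h2]; omega
  · intro q hq1 hq2
    rw [hvr] at hq2
    rw [es, zero_add]
    exact (h4 q hq2 (VW_take hkl hq1)).symm
  · rw [List.length_append, hlen, rv_length, h2]
  · rintro q ⟨i, hi, rfl⟩
    have hv : VW 0 (l.take k ++ rv D) (0 + pos (l.take k ++ rv D) i) := ⟨i, hi.le, rfl⟩
    rcases VW.append.1 hv with h | h
    · exact h5 _ (Or.inl (VW_take hkl h))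
    · exact h5 _ (Or.inr ((hvr _).1 h))

/-- the second polygon: second part of the polygon, chord -/
theorem count_q2 {L N k n : ℕ} {l D : List Pt} (hl : PG l) (hN : l.length = N) (hk : 0 < k)
    (hkN : k + 2 ≤ N) (hn : 0 < n) (hD : Chord L l k n D) :
    PGB L (N - k + n) (l.drop k ++ D) := by
  obtain ⟨h1, h2, h3, h4, b, h5⟩ := hD
  have hkl : k < l.length := by omega
  have hc := hl.cut (by omega) hkl
  have es : (l.take k).sum = pos l k := rfl
  have hlen : (l.drop k).length = N - k := by rw [List.length_drop]; omega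
  have e0 : pos l k + (l.drop k).sum = 0 := by rw [← es]; exact hc.2.2
  have hvd : ∀ q, VW (pos l k) (l.drop k) q → VS 0 l q := by
    intro q hq
    refine VW_drop hl.2.1 hk hkl ?_
    rw [es, zero_add]
    exact hq
  refine ⟨pg_append (p := pos l k) hc.2.1 h1 ?_ ?_ ?_, ?_, b - pos l k, ?_⟩
  · rw [h3, add_comm, e0]
  · rw [hlen, h2]; omega
  · intro q hq1 hq2
    rw [e0] at hq2 ⊢
    exact h4 q hq2 (hvd q hq1)
  · rw [List.length_append, hlen, h2]
  · rintro q ⟨i, hi, rfl⟩
    have hv : VW (pos l k) (l.drop k ++ D) (pos l k + pos (l.drop k ++ D) i) := ⟨i, hi.le, rfl⟩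
    have hb : InR b.1 (b.1 + L) b.2 (b.2 + L) (pos l k + pos (l.drop k ++ D) i) := by
      rcases VW.append.1 hv with h | h
      · exact h5 _ (Or.inl (hvd _ h))
      · rw [e0] at h
        exact h5 _ (Or.inr h)
    unfold InR at hb ⊢
    simp only [Prod.fst_add, Prod.snd_add, Prod.fst_sub, Prod.snd_sub, zero_add] at hb ⊢
    omega

/-- a chord has at least one step -/
theorem chord_pos {L N k n : ℕ} {l D : List Pt} (hl : PG l) (hN : l.length = N) (hk : 0 < k)
    (hkN : k < N) (hD : Chord L l k n D) : 0 < n := by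
  obtain ⟨h1, h2, h3, h4, b, h5⟩ := hD
  rcases Nat.eq_zero_or_pos n with h | h
  · rw [h] at h2
    rw [List.length_eq_zero_iff] at h2
    rw [h2, List.sum_nil] at h3
    have := hl.2.2.1 (show k ∈ Set.Iio l.length by simp only [Set.mem_Iio]; omega)
      (show 0 ∈ Set.Iio l.length by simp only [Set.mem_Iio]; omega) (by rw [← h3, pos_zero])
    omega
  · exact h

theorem rotate_inj {l l' : List Pt} {i : ℕ} (h : l.rotate i = l'.rotate i) : l = l' :=
  List.rotate_injective i h

/-- the counting step, for fixed root, arc and chord length -/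
theorem count_core {L N k n i : ℕ} (hN : 32 ≤ N) (h1 : N ≤ 16 * k) (h2 : 16 * k ≤ 15 * N)
    (hi : i < N) (A : Set (List Pt)) (hA : ∀ l ∈ A, PGB L N l) :
    Nat.card (Σ l : A, {D : List Pt // Chord L (l.1.rotate i) k n D} ×
      {D : List Pt // Chord L (l.1.rotate i) k n D}) ≤ cPG L (k + n) * cPG L (N - k + n) := by
  have f1 := finite_PGB L (k + n)
  have f2 := finite_PGB L (N - k + n)
  unfold cPG
  rw [← Nat.card_prod]
  have hpg : ∀ l : A, PG (l.1.rotate i) := by
    intro l
    have h3 := hA l.1 l.2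
    exact h3.1.rot (by rw [h3.2.1]; omega)
  have hlen : ∀ l : A, (l.1.rotate i).length = N := by
    intro l
    rw [List.length_rotate]
    exact (hA l.1 l.2).2.1
  have hpos : ∀ (l : A) (D : {D : List Pt // Chord L (l.1.rotate i) k n D}), 0 < n := by
    intro l D
    exact chord_pos (hpg l) (hlen l) (by omega) (by omega) D.2
  refine Nat.card_le_card_of_injective (fun w =>
    (⟨(w.1.1.rotate i).take k ++ rv w.2.1.1,
        count_q1 (hpg w.1) (hlen w.1) (by omega) (by omega) (hpos w.1 w.2.1) w.2.1.2⟩,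
      ⟨(w.1.1.rotate i).drop k ++ w.2.2.1,
        count_q2 (hpg w.1) (hlen w.1) (by omega) (by omega) (hpos w.1 w.2.1) w.2.2.2⟩)) ?_
  rintro ⟨l, D1, D2⟩ ⟨l', D1', D2'⟩ e
  rw [Prod.mk.injEq] at e
  have e1 : (l.1.rotate i).take k ++ rv D1.1 = (l'.1.rotate i).take k ++ rv D1'.1 :=
    congrArg Subtype.val e.1
  have e2 : (l.1.rotate i).drop k ++ D2.1 = (l'.1.rotate i).drop k ++ D2'.1 :=
    congrArg Subtype.val e.2
  obtain ⟨a1, a2⟩ := List.append_inj e1 (by
    rw [List.length_take, List.length_take, hlen, hlen])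
  obtain ⟨a3, a4⟩ := List.append_inj e2 (by
    rw [List.length_drop, List.length_drop, hlen, hlen])
  have a5 : l.1.rotate i = l'.1.rotate i := by
    rw [← List.take_append_drop k (l.1.rotate i), a1, a3, List.take_append_drop]
  have a6 : l = l' := Subtype.ext (rotate_inj a5)
  subst a6
  have a7 : D1 = D1' := Subtype.ext (rv_inj a2)
  have a8 : D2 = D2' := Subtype.ext a4
  rw [a7, a8]

theorem count_step {L N n0 : ℕ} {x g : ℝ} (hN : 32 ≤ N) (hx : 0 < x) (hg : 0 < g)
    (hG : ∀ l, PGB L N l → ∃ i < N, ∃ k, N ≤ 16 * k ∧ 16 * k ≤ 15 * N ∧ ∃ n ≤ n0,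
      g ≤ (Nat.card {D : List Pt // Chord L (l.rotate i) k n D} : ℝ) * x ^ n) :
    ∃ k n, N ≤ 16 * k ∧ 16 * k ≤ 15 * N ∧ n ≤ n0 ∧
      (cPG L N : ℝ) * x ^ N * g ^ 2 ≤ (N:ℝ) ^ 2 * (n0 + 1) *
        (((cPG L (k + n) : ℝ) * x ^ (k + n)) * ((cPG L (N - k + n) : ℝ) * x ^ (N - k + n))) := by
  classical
  have hfin := finite_PGB L N
  rcases Nat.eq_zero_or_pos (cPG L N) with h0 | h0
  · refine ⟨N / 2, 0, by omega, by omega, Nat.zero_le _, ?_⟩
    rw [h0, Nat.cast_zero, zero_mul, zero_mul]
    positivity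
  · choose! I hI K hK1 hK2 M hM hgM using hG
    -- pigeonhole
    have : Fintype {l : List Pt // PGB L N l} := Fintype.ofFinite _
    let T : {l : List Pt // PGB L N l} → (Fin N × Fin N) × Fin (n0 + 1) := fun l =>
      ((⟨I l.1, hI l.1 l.2⟩, ⟨K l.1, by have := hK2 l.1 l.2; omega⟩),
        ⟨M l.1, by have := hM l.1 l.2; omega⟩)
    have hcard : (cPG L N) = Fintype.card {l : List Pt // PGB L N l} := by
      unfold cPG
      rw [Nat.card_eq_fintype_card]
    have hne : Nonempty {l : List Pt // PGB L N l} := by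
      rw [hcard] at h0
      exact Fintype.card_pos_iff.1 h0
    -- the largest fibre
    obtain ⟨t, ht⟩ : ∃ t : (Fin N × Fin N) × Fin (n0 + 1),
        Fintype.card {l : List Pt // PGB L N l} ≤
          N * N * (n0 + 1) * (Finset.univ.filter fun l => T l = t).card := by
      by_contra hcon
      push Not at hcon
      have h1 : Fintype.card {l : List Pt // PGB L N l} =
          ∑ t : (Fin N × Fin N) × Fin (n0 + 1), (Finset.univ.filter fun l => T l = t).card := by
        rw [← Finset.card_univ]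
        exact Finset.card_eq_sum_card_fiberwise fun l _ => Finset.mem_coe.2 (Finset.mem_univ _)
      have h2 : N * N * (n0 + 1) * Fintype.card {l : List Pt // PGB L N l} =
          ∑ t : (Fin N × Fin N) × Fin (n0 + 1),
            N * N * (n0 + 1) * (Finset.univ.filter fun l => T l = t).card := by
        conv_lhs => rw [h1]
        rw [Finset.mul_sum]
      have h3 : ∑ t : (Fin N × Fin N) × Fin (n0 + 1),
            N * N * (n0 + 1) * (Finset.univ.filter fun l => T l = t).card <
          ∑ t : (Fin N × Fin N) × Fin (n0 + 1), Fintype.card {l : List Pt // PGB L N l} := by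
        have : Nonempty ((Fin N × Fin N) × Fin (n0 + 1)) := ⟨T (Classical.choice hne)⟩
        exact Finset.sum_lt_sum_of_nonempty Finset.univ_nonempty fun t _ => hcon t
      rw [Finset.sum_const, Finset.card_univ, Fintype.card_prod, Fintype.card_prod,
        Fintype.card_fin, Fintype.card_fin, smul_eq_mul, ← h2] at h3
      exact lt_irrefl _ h3
    -- the fibre
    obtain ⟨⟨i, k⟩, n⟩ := t
    set F := (Finset.univ.filter fun l : {l : List Pt // PGB L N l} => T l = ((i, k), n)) with hF
    have hFne : 0 < F.card := by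
      rcases Nat.eq_zero_or_pos F.card with h | h
      · rw [h, mul_zero, ← hcard] at ht
        omega
      · exact h
    have hT : ∀ l ∈ F, I l.1 = i.1 ∧ K l.1 = k.1 ∧ M l.1 = n.1 := by
      intro l hl
      rw [hF, Finset.mem_filter] at hl
      have h1 := hl.2
      simp only [T, Prod.mk.injEq] at h1
      exact ⟨congrArg Fin.val h1.1.1, congrArg Fin.val h1.1.2, congrArg Fin.val h1.2⟩
    obtain ⟨l0, hl0⟩ := Finset.card_pos.1 hFne
    have hk1 : N ≤ 16 * k.1 := by
      rw [← (hT l0 hl0).2.1]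
      exact hK1 l0.1 l0.2
    have hk2 : 16 * k.1 ≤ 15 * N := by
      rw [← (hT l0 hl0).2.1]
      exact hK2 l0.1 l0.2
    refine ⟨k.1, n.1, hk1, hk2, by omega, ?_⟩
    -- the set of polygons
    let A : Set (List Pt) := (fun l : {l : List Pt // PGB L N l} => l.1) '' (F : Set _)
    have hAP : ∀ l ∈ A, PGB L N l := by
      rintro _ ⟨l, -, rfl⟩
      exact l.2
    have hcore := count_core (n := n.1) hN hk1 hk2 i.2 A hAP
    have hAfin : Finite A := (F.finite_toSet.image _).to_subtype
    have : Fintype A := Fintype.ofFinite _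
    have hAcard : Fintype.card A = F.card := by
      rw [← Nat.card_eq_fintype_card, Nat.card_coe_set_eq]
      rw [Set.ncard_image_of_injective _ Subtype.val_injective, Set.ncard_coe_finset]
    have hchord : ∀ l : A, g ≤
        (Nat.card {D : List Pt // Chord L (l.1.rotate i.1) k.1 n.1 D} : ℝ) * x ^ n.1 := by
      rintro ⟨_, l, hl, rfl⟩
      have h1 := hT l hl
      have h2 := hgM l.1 l.2
      rw [h1.1, h1.2.1, h1.2.2] at h2
      exact h2
    have hsum : Nat.card (Σ l : A, {D : List Pt // Chord L (l.1.rotate i.1) k.1 n.1 D} ×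
        {D : List Pt // Chord L (l.1.rotate i.1) k.1 n.1 D}) =
        ∑ l : A, (Nat.card {D : List Pt // Chord L (l.1.rotate i.1) k.1 n.1 D}) ^ 2 := by
      have : ∀ l : A, Finite {D : List Pt // Chord L (l.1.rotate i.1) k.1 n.1 D} :=
        fun l => chord_finite _ _ _ _
      rw [Nat.card_sigma]
      refine Finset.sum_congr rfl fun l _ => ?_
      rw [Nat.card_prod, sq]
    rw [hsum] at hcore
    have hcoreR : (∑ l : A, (Nat.card {D : List Pt // Chord L (l.1.rotate i.1) k.1 n.1 D} : ℝ) ^ 2) ≤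
        (cPG L (k.1 + n.1) : ℝ) * (cPG L (N - k.1 + n.1) : ℝ) := by
      exact_mod_cast hcore
    have hlow : (F.card : ℝ) * g ^ 2 ≤
        (∑ l : A, (Nat.card {D : List Pt // Chord L (l.1.rotate i.1) k.1 n.1 D} : ℝ) ^ 2) *
          (x ^ n.1) ^ 2 := by
      rw [Finset.sum_mul]
      have h1 : (F.card : ℝ) * g ^ 2 = ∑ l : A, g ^ 2 := by
        rw [Finset.sum_const, Finset.card_univ, hAcard, nsmul_eq_mul]
      rw [h1]
      refine Finset.sum_le_sum fun l _ => ?_
      rw [← mul_pow]
      exact pow_le_pow_left₀ hg.le (hchord l) 2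
    have htR : (cPG L N : ℝ) ≤ (N:ℝ) * N * (n0 + 1) * F.card := by
      rw [hcard]
      exact_mod_cast ht
    have hxN : x ^ (k.1 + n.1) * x ^ (N - k.1 + n.1) = x ^ N * (x ^ n.1) ^ 2 := by
      rw [← pow_mul, ← pow_add, ← pow_add]
      congr 1
      have := k.2
      omega
    calc (cPG L N : ℝ) * x ^ N * g ^ 2
        ≤ ((N:ℝ) * N * (n0 + 1) * F.card) * x ^ N * g ^ 2 := by gcongr
      _ = ((N:ℝ) ^ 2 * (n0 + 1) * x ^ N) * (F.card * g ^ 2) := by ring
      _ ≤ ((N:ℝ) ^ 2 * (n0 + 1) * x ^ N) * (((cPG L (k.1 + n.1) : ℝ) *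
          (cPG L (N - k.1 + n.1) : ℝ)) * (x ^ n.1) ^ 2) := by
        refine mul_le_mul_of_nonneg_left (hlow.trans ?_) (by positivity)
        exact mul_le_mul_of_nonneg_right hcoreR (by positivity)
      _ = (N:ℝ) ^ 2 * (n0 + 1) * (((cPG L (k.1 + n.1) : ℝ) * (cPG L (N - k.1 + n.1) : ℝ)) *
          (x ^ N * (x ^ n.1) ^ 2)) := by ring
      _ = (N:ℝ) ^ 2 * (n0 + 1) * (((cPG L (k.1 + n.1) : ℝ) * x ^ (k.1 + n.1)) *
          ((cPG L (N - k.1 + n.1) : ℝ) * x ^ (N - k.1 + n.1))) := by
        rw [← hxN]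
        ring

end Pool.Agent.Work.MP_376faf_co_gap
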