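import Pool.Agent.Work.MP_376faf_co_gap.Unico

set_option autoImplicit false

/-!
Crossing lemma: a left-right path and a bottom-top path meet.
-/

namespace Pool.Agent.Work.MP_376faf_co_gap

open Pool.Agent.Work.MP_376faf_co_hw.HP Finset

/-- a path as a function -/
theorem Jn.walk {S : ℤ × ℤ → Prop} {a b : ℤ × ℤ} (h : Jn S a b) (ha : S a) :
    ∃ (n : ℕ) (w : ℕ → ℤ × ℤ), w 0 = a ∧ w n = b ∧ (∀ i < n, Nb (w i) (w (i + 1))) ∧
      ∀ i ≤ n, S (w i) := by
  induction h with
  | refl => exact ⟨0, fun _ => a, rfl, rfl, fun i hi => absurd hi (Nat.not_lt_zero _), fun _ _ => ha⟩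
  | @tail b c _ h2 ih =>
    obtain ⟨n, w, h3, h4, h5, h6⟩ := ih
    refine ⟨n + 1, fun i => if i ≤ n then w i else c, ?_, ?_, ?_, ?_⟩
    · simp [h3]
    · simp
    · intro i hi
      simp only
      rcases Nat.lt_or_ge i n with h7 | h7
      · rw [if_pos h7.le, if_pos (show i + 1 ≤ n from h7)]
        exact h5 i h7
      · have : i = n := by omega
        subst this
        rw [if_pos le_rfl, if_neg (by omega), h4]
        exact h2.1
    · intro i hi
      simp only
      split_ifs with h7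
      · exact h6 i h7
      · exact h2.2.2

/-- the number of crossings of the line between the columns `c` and `c + 1` by a path from the left
to the right is odd -/
theorem nc_top {w : ℕ → ℤ × ℤ} {m : ℕ} (hw : ∀ i < m, Nb (w i) (w (i + 1))) {c t : ℤ}
    (h0 : (w 0).1 ≤ c) (hm : c < (w m).1) (ht : ∀ i ≤ m, (w i).2 < t) : nc w m c t = 1 := by
  have h1 : nc w m c t = ∑ i ∈ range m, ((if (w (i + 1)).1 ≤ c then (1 : ZMod 2) else 0) -
      (if (w i).1 ≤ c then (1 : ZMod 2) else 0)) := by
    unfold nc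
    refine sum_congr rfl fun i hi => ?_
    rw [mem_range] at hi
    have h2 := ht i hi.le
    have h3 := (hw i hi).cases
    unfold Cross
    split_ifs <;> first | (exfalso; omega) | decide
  rw [h1, sum_range_sub (fun i => if (w i).1 ≤ c then (1 : ZMod 2) else 0), if_neg (by omega),
    if_pos h0]
  decide

/-- **Crossing lemma.** -/
theorem cross_sets {S U : ℤ × ℤ → Prop} {a b c d : ℤ × ℤ} (h1 : Jn S a b) (hSa : S a)
    (h2 : Jn U c d) (hUc : U c) {A B : ℤ} (hU : ∀ p, U p → A ≤ p.1 ∧ p.1 ≤ B) (ha : a.1 < A)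
    (hb : B < b.1) (hc : ∀ p, S p → c.2 ≤ p.2) (hd : ∀ p, S p → p.2 < d.2) :
    ∃ p, S p ∧ U p := by
  by_contra hcon
  push Not at hcon
  obtain ⟨m, w, w0, wm, hw, hS⟩ := h1.walk hSa
  have inv : ∀ p, Jn U c p → nc w m p.1 p.2 = nc w m c.1 c.2 := by
    intro p hp
    induction hp with
    | refl => rfl
    | @tail p q _ k ih =>
      rw [← ih]
      obtain ⟨k1, k2, k3⟩ := k
      have n1 : ∀ i ≤ m, w i ≠ p := fun i hi e => hcon _ (hS i hi) (e ▸ k2)
      have n2 : ∀ i ≤ m, w i ≠ q := fun i hi e => hcon _ (hS i hi) (e ▸ k3)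
      have c1 := hU p k2
      have c2 := hU q k3
      obtain ⟨x, y⟩ := p
      obtain ⟨x', y'⟩ := q
      simp only at c1 c2 ⊢
      rcases k1.cases with ⟨e1, e2⟩ | ⟨e1, e2⟩ | ⟨e1, e2⟩ | ⟨e1, e2⟩ <;> simp only at e1 e2 <;>
        subst e1 e2
      · have := nc_hor hw (a := x + 1) (b := y') n2 (by rw [w0]; omega) (by rw [wm]; omega)
        rw [add_sub_cancel_right] at this
        exact this.symm
      · exact nc_hor hw (a := x) (b := y') n1 (by rw [w0]; omega) (by rw [wm]; omega)
      · exact nc_vert hw n1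
      · have := nc_vert hw (a := x') (b := y - 1) n2
        rw [sub_add_cancel] at this
        exact this.symm
  have e1 := inv d h2
  have hd' := hU d (h2.mem hUc)
  rw [nc_top hw (by rw [w0]; omega) (by rw [wm]; omega) (fun i hi => hd _ (hS i hi))] at e1
  have e2 : nc w m c.1 c.2 = 0 := by
    unfold nc
    refine sum_eq_zero fun i hi => ?_
    rw [mem_range] at hi
    have := hc _ (hS i hi.le)
    rw [if_neg]
    rintro ⟨_, h3⟩
    omega
  rw [e2] at e1
  exact one_ne_zero e1

end Pool.Agent.Work.MP_376faf_co_gap
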