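import Pool.Agent.Work.MP_376faf_co_gap.Unico

set_option autoImplicit false

/-!
The label lemma: for a long lattice polygon there are two vertices which are far apart along the
polygon and which both touch one free square (or rectangle with nearly equal sides).
-/

namespace Pool.Agent.Work.MP_376faf_co_gap

open Pool.Agent.Work.MP_376faf_co_hw.HP

/-- closed self-avoiding walk of length `N` -/
structure Poly (P : ℕ → ℤ × ℤ) (N : ℕ) : Prop where
  nb : ∀ i < N, Nb (P i) (P (i + 1))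
  cl : P N = P 0
  inj : ∀ i < N, ∀ j < N, P i = P j → i = j

/-- `z` is not a vertex of the polygon -/
def Off (P : ℕ → ℤ × ℤ) (N : ℕ) (z : ℤ × ℤ) : Prop := ∀ k < N, P k ≠ z

/-- the indices `i j` are at cyclic distance at least `N / c` -/
def Far (N c i j : ℕ) : Prop := i < N ∧ j < N ∧ N ≤ c * (max i j - min i j) ∧
  c * (max i j - min i j) ≤ (c - 1) * N

theorem Far.symm {N c i j : ℕ} (h : Far N c i j) : Far N c j i := by
  unfold Far at *
  rw [max_comm j i, min_comm j i]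
  exact ⟨h.2.1, h.1, h.2.2⟩

/-- one of two pairs is far if the third one is -/
theorem Far.split {N i j k : ℕ} (h : Far N 4 i j) (hk : k < N) : Far N 8 i k ∨ Far N 8 k j := by
  unfold Far at *
  omega

/-- differences of labels in `ZMod N` -/
theorem exists_far_nb {P : ℕ → ℤ × ℤ} {N : ℕ} (hP : Poly P N) (hN : 4 < N) {L : ℤ × ℤ → ℕ}
    (hL : ∀ z, L z < N) (hLP : ∀ i < N, L (P i) = i) :
    ∃ p q, Nb p q ∧ Far N 4 (L p) (L q) := by
  by_contra hcon
  push Not at hcon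
  -- the lifted difference
  set δ : ℕ → ℕ → ℤ := fun i j =>
    if 4 * |(j : ℤ) - i| < N then (j : ℤ) - i else
      if 3 * N < 4 * ((j : ℤ) - i) then (j : ℤ) - i - N else
        if 3 * N < 4 * ((i : ℤ) - j) then (j : ℤ) - i + N else 0 with hδ
  have anti : ∀ i j, δ j i = -δ i j := by
    intro i j
    simp only [hδ]
    rcases abs_cases ((j : ℤ) - i) with ⟨e1, e2⟩ | ⟨e1, e2⟩ <;>
      rcases abs_cases ((i : ℤ) - j) with ⟨e3, e4⟩ | ⟨e3, e4⟩ <;>
      rw [e1, e3] <;> split_ifs <;> omega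
  have small : ∀ i j, i < N → j < N → -(N : ℤ) < 4 * δ i j ∧ 4 * δ i j < N := by
    intro i j hi hj
    simp only [hδ]
    rcases abs_cases ((j : ℤ) - i) with ⟨e1, e2⟩ | ⟨e1, e2⟩ <;>
      rw [e1] <;> split_ifs <;> omega
  have cong : ∀ p q, Nb p q → ∃ t : ℤ, δ (L p) (L q) = (L q : ℤ) - L p + N * t := by
    intro p q hpq
    have h1 := hcon p q hpq
    have h2 := hL p
    have h3 := hL q
    unfold Far at h1
    simp only [hδ]
    rcases abs_cases ((L q : ℤ) - L p) with ⟨e1, e2⟩ | ⟨e1, e2⟩ <;>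
      rw [e1] <;> split_ifs
    · exact ⟨0, by ring⟩
    · exact ⟨-1, by ring⟩
    · exact ⟨1, by ring⟩
    · exfalso
      omega
    · exact ⟨0, by ring⟩
    · exact ⟨-1, by ring⟩
    · exact ⟨1, by ring⟩
    · exfalso
      omega
  have closed : ∀ x y : ℤ, δ (L (x, y)) (L (x + 1, y)) + δ (L (x + 1, y)) (L (x + 1, y + 1)) =
      δ (L (x, y)) (L (x, y + 1)) + δ (L (x, y + 1)) (L (x + 1, y + 1)) := by
    intro x y
    obtain ⟨t1, h1⟩ := cong _ _ (nb_right x y)
    obtain ⟨t2, h2⟩ := cong _ _ (nb_up (x + 1) y)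
    obtain ⟨t3, h3⟩ := cong _ _ (nb_up x y)
    obtain ⟨t4, h4⟩ := cong _ _ (nb_right x (y + 1))
    have b1 := small _ _ (hL (x, y)) (hL (x + 1, y))
    have b2 := small _ _ (hL (x + 1, y)) (hL (x + 1, y + 1))
    have b3 := small _ _ (hL (x, y)) (hL (x, y + 1))
    have b4 := small _ _ (hL (x, y + 1)) (hL (x + 1, y + 1))
    have e : δ (L (x, y)) (L (x + 1, y)) + δ (L (x + 1, y)) (L (x + 1, y + 1)) -
      (δ (L (x, y)) (L (x, y + 1)) + δ (L (x, y + 1)) (L (x + 1, y + 1))) =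
        N * (t1 + t2 - t3 - t4) := by
      rw [h1, h2, h3, h4]
      ring
    have hN0 : (0 : ℤ) < N := by omega
    have ht : t1 + t2 - t3 - t4 = 0 := by
      by_contra hne
      rcases lt_or_gt_of_ne hne with h | h
      · have : (N : ℤ) * (t1 + t2 - t3 - t4) ≤ N * (-1) :=
          mul_le_mul_of_nonneg_left (by omega) hN0.le
        omega
      · have : (N : ℤ) * 1 ≤ N * (t1 + t2 - t3 - t4) :=
          mul_le_mul_of_nonneg_left (by omega) hN0.le
        omega
    rw [ht, mul_zero] at e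
    omega
  obtain ⟨ψ, hψ⟩ := exact_nb (fun p q => δ (L p) (L q)) (fun p q => anti (L p) (L q)) closed
  have hPi : ∀ i ≤ N, ψ (P i) = ψ (P 0) + i := by
    intro i
    induction i with
    | zero => intro _; simp
    | succ i ih =>
      intro hi
      rw [hψ _ _ (hP.nb i hi), ih (by omega), hLP i hi]
      rcases Nat.lt_or_ge (i + 1) N with h | h
      · rw [hLP (i + 1) h]
        simp only [hδ]
        have e1 : ((i + 1 : ℕ) : ℤ) - i = 1 := by push_cast; ring
        rw [e1, abs_one, if_pos (by omega)]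
        push_cast
        ring
      · have hiN : i + 1 = N := by omega
        rw [hiN, hP.cl, hLP 0 (by omega)]
        simp only [hδ]
        have e1 : ((0 : ℕ) : ℤ) - i = -(N - 1) := by push_cast; omega
        rw [e1, abs_neg, abs_of_nonneg (by omega), if_neg (by omega), if_neg (by omega),
          if_pos (by omega)]
        omega
  have h1 := hPi N le_rfl
  rw [hP.cl] at h1
  omega

/-- sup distance -/
def sd (p q : ℤ × ℤ) : ℤ := max |p.1 - q.1| |p.2 - q.2|

theorem sd_nonneg (p q : ℤ × ℤ) : 0 ≤ sd p q := le_max_of_le_left (abs_nonneg _)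

theorem sd_le {p q : ℤ × ℤ} {r : ℤ} : sd p q ≤ r ↔
    (p.1 - q.1 ≤ r ∧ q.1 - p.1 ≤ r) ∧ (p.2 - q.2 ≤ r ∧ q.2 - p.2 ≤ r) := by
  unfold sd
  rw [max_le_iff, abs_le, abs_le]
  constructor <;> intro h <;> omega

theorem sd_zero {p q : ℤ × ℤ} (h : sd p q ≤ 0) : p = q := by
  rw [sd_le] at h
  exact Prod.ext (by omega) (by omega)

theorem sd_nb {p q z : ℤ × ℤ} (h : Nb p q) : sd q z ≤ sd p z + 1 := by
  have h1 := sd_le.1 (le_refl (sd p z))
  have h2 := h.cases
  rw [sd_le]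
  omega

/-- the nearest vertex -/
theorem exists_nearest (P : ℕ → ℤ × ℤ) {N : ℕ} (hN : 0 < N) (z : ℤ × ℤ) :
    ∃ i < N, ∀ k < N, sd z (P i) ≤ sd z (P k) := by
  obtain ⟨i, hi, h⟩ := Finset.exists_min_image (Finset.range N) (fun i => sd z (P i))
    ⟨0, Finset.mem_range.2 hN⟩
  exact ⟨i, Finset.mem_range.1 hi, fun k hk => h k (Finset.mem_range.2 hk)⟩

/-- `z` lies in the rectangle -/
def InR (x0 x1 y0 y1 : ℤ) (z : ℤ × ℤ) : Prop := x0 ≤ z.1 ∧ z.1 ≤ x1 ∧ y0 ≤ z.2 ∧ z.2 ≤ y1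

/-- a free rectangle with nearly equal sides such that two far vertices lie in its ring, or two far
vertices which are neighbours -/
theorem exists_ring {P : ℕ → ℤ × ℤ} {N : ℕ} (hP : Poly P N) (hN : 4 < N) :
    ∃ i j, Far N 4 i j ∧ (Nb (P i) (P j) ∨ ∃ x0 x1 y0 y1 : ℤ, x0 ≤ x1 ∧ y0 ≤ y1 ∧
      |(x1 - x0) - (y1 - y0)| ≤ 1 ∧ (∀ z, InR x0 x1 y0 y1 z → Off P N z) ∧
      InR (x0 - 1) (x1 + 1) (y0 - 1) (y1 + 1) (P i) ∧
      InR (x0 - 1) (x1 + 1) (y0 - 1) (y1 + 1) (P j)) := by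
  choose L hL hmin using exists_nearest P (N := N) (by omega)
  have hLP : ∀ i < N, L (P i) = i := by
    intro i hi
    refine hP.inj _ (hL _) _ hi ?_
    have h := hmin (P i) i hi
    refine (sd_zero (h.trans ?_)).symm
    rw [sd_le]
    omega
  obtain ⟨p, q, hpq, hfar⟩ := exists_far_nb hP hN hL hLP
  refine ⟨L p, L q, hfar, ?_⟩
  -- the case of a ball around `q`
  have ball : ∀ p q : ℤ × ℤ, Nb p q → Far N 4 (L p) (L q) →
      sd q (P (L q)) = sd p (P (L p)) + 1 →
      ∃ x0 x1 y0 y1 : ℤ, x0 ≤ x1 ∧ y0 ≤ y1 ∧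
      |(x1 - x0) - (y1 - y0)| ≤ 1 ∧ (∀ z, InR x0 x1 y0 y1 z → Off P N z) ∧
      InR (x0 - 1) (x1 + 1) (y0 - 1) (y1 + 1) (P (L p)) ∧
      InR (x0 - 1) (x1 + 1) (y0 - 1) (y1 + 1) (P (L q)) := by
    intro p q hpq hfar hd
    set r := sd p (P (L p)) with hr
    have hr0 : 0 ≤ r := sd_nonneg _ _
    have h1 : sd q (P (L p)) ≤ r + 1 := sd_nb hpq
    have h2 : sd q (P (L q)) ≤ r + 1 := hd.le
    rw [sd_le] at h1 h2
    refine ⟨q.1 - r, q.1 + r, q.2 - r, q.2 + r, by omega, by omega, ?_, ?_, ?_, ?_⟩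
    · rw [abs_le]
      omega
    · intro z hz k hk hkz
      have h3 := hmin q k hk
      rw [hkz, hd] at h3
      have h4 : sd q z ≤ r := by
        unfold InR at hz
        rw [sd_le]
        omega
      omega
    · unfold InR
      omega
    · unfold InR
      omega
  have hd1 : sd q (P (L q)) ≤ sd p (P (L p)) + 1 :=
    (hmin q _ (hL p)).trans (sd_nb hpq)
  have hd2 : sd p (P (L p)) ≤ sd q (P (L q)) + 1 :=
    (hmin p _ (hL q)).trans (sd_nb (nb_symm hpq))
  rcases lt_trichotomy (sd q (P (L q))) (sd p (P (L p))) with h | h | h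
  · right
    obtain ⟨x0, x1, y0, y1, a1, a2, a3, a4, a5, a6⟩ := ball q p (nb_symm hpq) hfar.symm (by omega)
    exact ⟨x0, x1, y0, y1, a1, a2, a3, a4, a6, a5⟩
  · rcases eq_or_lt_of_le (sd_nonneg p (P (L p))) with h0 | h0
    · left
      have e1 := sd_zero h0.symm.le
      have e2 : q = P (L q) := sd_zero (by omega)
      rw [← e1, ← e2]
      exact hpq
    · right
      set r := sd p (P (L p)) with hr
      have h1 : sd p (P (L p)) ≤ r := le_rfl
      have h2 : sd q (P (L q)) ≤ r := h.le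
      have h5 := hpq.cases
      rw [sd_le] at h1 h2
      refine ⟨min p.1 q.1 - (r - 1), max p.1 q.1 + (r - 1), min p.2 q.2 - (r - 1),
        max p.2 q.2 + (r - 1), by omega, by omega, ?_, ?_, ?_, ?_⟩
      · rw [abs_le]
        omega
      · intro z hz k hk hkz
        have h3 := hmin p k hk
        have h4 := hmin q k hk
        rw [hkz, ← hr] at h3
        rw [hkz, h] at h4
        unfold InR at hz
        have h6 : sd p z ≤ r - 1 ∨ sd q z ≤ r - 1 := by
          rw [sd_le, sd_le]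
          omega
        omega
      · unfold InR
        omega
      · unfold InR
        omega
  · right
    exact ball p q hpq hfar (by omega)

/-- `p` is joined to the boundary vertex `s` of the rectangle by an edge (`a = []`) or through one
free vertex outside the rectangle (`a = [c]`) -/
def Tch (P : ℕ → ℤ × ℤ) (N : ℕ) (x0 x1 y0 y1 : ℤ) (p s : ℤ × ℤ) (a : List (ℤ × ℤ)) : Prop :=
  InR x0 x1 y0 y1 s ∧ (s.1 = x0 ∨ s.1 = x1 ∨ s.2 = y0 ∨ s.2 = y1) ∧
    ((a = [] ∧ Nb p s) ∨ ∃ c, a = [c] ∧ Nb p c ∧ Nb c s ∧ Off P N c ∧ ¬ InR x0 x1 y0 y1 c)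

theorem ring_cases {x0 x1 y0 y1 : ℤ} (hx : x0 ≤ x1) (hy : y0 ≤ y1) {z : ℤ × ℤ}
    (hz : InR (x0 - 1) (x1 + 1) (y0 - 1) (y1 + 1) z) (hzR : ¬ InR x0 x1 y0 y1 z) :
    ∃ s, InR x0 x1 y0 y1 s ∧ (s.1 = x0 ∨ s.1 = x1 ∨ s.2 = y0 ∨ s.2 = y1) ∧
      (Nb z s ∨ ∃ c, Nb z c ∧ Nb c s ∧ ¬ InR x0 x1 y0 y1 c) := by
  obtain ⟨x, y⟩ := z
  unfold InR at hz hzR
  simp only at hz hzR
  by_cases h : (x0 ≤ x ∧ x ≤ x1) ∨ (y0 ≤ y ∧ y ≤ y1)
  · refine ⟨(max x0 (min x x1), max y0 (min y y1)), ?_, ?_, Or.inl ?_⟩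
    · unfold InR
      simp only
      omega
    · simp only
      omega
    · unfold Nb
      simp only
      rcases h with h | h
      · have e1 : max x0 (min x x1) = x := by omega
        rw [e1, sub_self, abs_zero, zero_add]
        rcases le_total y y0 with h1 | h1
        · have e2 : max y0 (min y y1) - y = 1 := by omega
          rw [e2, abs_one]
        · have e2 : max y0 (min y y1) - y = -1 := by omega
          rw [e2, abs_neg, abs_one]
      · have e1 : max y0 (min y y1) = y := by omega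
        rw [e1, sub_self, abs_zero, add_zero]
        rcases le_total x x0 with h1 | h1
        · have e2 : max x0 (min x x1) - x = 1 := by omega
          rw [e2, abs_one]
        · have e2 : max x0 (min x x1) - x = -1 := by omega
          rw [e2, abs_neg, abs_one]
  · refine ⟨(max x0 (min x x1), max y0 (min y y1)), ?_, ?_,
      Or.inr ⟨(max x0 (min x x1), y), ?_, ?_, ?_⟩⟩
    · unfold InR
      simp only
      omega
    · simp only
      omega
    · unfold Nb
      simp only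
      rw [sub_self, abs_zero, add_zero]
      rcases le_total x x0 with h1 | h1
      · have e2 : max x0 (min x x1) - x = 1 := by omega
        rw [e2, abs_one]
      · have e2 : max x0 (min x x1) - x = -1 := by omega
        rw [e2, abs_neg, abs_one]
    · unfold Nb
      simp only
      rw [sub_self, abs_zero, zero_add]
      rcases le_total y y0 with h1 | h1
      · have e2 : max y0 (min y y1) - y = 1 := by omega
        rw [e2, abs_one]
      · have e2 : max y0 (min y y1) - y = -1 := by omega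
        rw [e2, abs_neg, abs_one]
    · unfold InR
      simp only
      omega

theorem touch {P : ℕ → ℤ × ℤ} {N : ℕ} {x0 x1 y0 y1 : ℤ} (hx : x0 ≤ x1)
    (hy : y0 ≤ y1) (hR : ∀ z, InR x0 x1 y0 y1 z → Off P N z) {i : ℕ} (hi : i < N)
    (hz : InR (x0 - 1) (x1 + 1) (y0 - 1) (y1 + 1) (P i)) :
    (∃ s a, Tch P N x0 x1 y0 y1 (P i) s a) ∨
      ∃ k < N, Nb (P i) (P k) ∧ ∃ s a, Tch P N x0 x1 y0 y1 (P k) s a := by
  obtain ⟨s, h1, h2, h3 | ⟨c, h3, h4, h5⟩⟩ :=
    ring_cases hx hy hz (fun h => hR _ h i hi rfl)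
  · exact Or.inl ⟨s, [], h1, h2, Or.inl ⟨rfl, h3⟩⟩
  · by_cases h6 : Off P N c
    · exact Or.inl ⟨s, [c], h1, h2, Or.inr ⟨c, rfl, h3, h4, h6, h5⟩⟩
    · unfold Off at h6
      push Not at h6
      obtain ⟨k, hk, rfl⟩ := h6
      exact Or.inr ⟨k, hk, h3, s, [], h1, h2, Or.inl ⟨rfl, h4⟩⟩

theorem Far.mono {N i j : ℕ} (h : Far N 4 i j) : Far N 8 i j := by
  unfold Far at *
  omega

theorem Far.mono' {N i j : ℕ} (h : Far N 8 i j) : Far N 16 i j := by
  unfold Far at *
  omega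

theorem Far.split' {N i j k : ℕ} (h : Far N 8 i j) (hk : k < N) : Far N 16 i k ∨ Far N 16 k j := by
  unfold Far at *
  omega

/-- **Label lemma.** Two vertices far apart along the polygon are joined by at most three free
vertices, or they both touch one free rectangle with nearly equal sides. -/
theorem label_lemma {P : ℕ → ℤ × ℤ} {N : ℕ} (hP : Poly P N) (hN : 4 < N) :
    ∃ i j, Far N 16 i j ∧
      ((∃ l : List (ℤ × ℤ), l.length ≤ 3 ∧ List.IsChain Nb (P i :: (l ++ [P j])) ∧ l.Nodup ∧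
        ∀ z ∈ l, Off P N z) ∨
      ∃ x0 x1 y0 y1 : ℤ, x0 ≤ x1 ∧ y0 ≤ y1 ∧ |(x1 - x0) - (y1 - y0)| ≤ 1 ∧
        (∀ z, InR x0 x1 y0 y1 z → Off P N z) ∧ ∃ s s' a a', s ≠ s' ∧
          Tch P N x0 x1 y0 y1 (P i) s a ∧ Tch P N x0 x1 y0 y1 (P j) s' a' ∧
          ∀ c ∈ a, c ∉ a') := by
  obtain ⟨i, j, hfar, h | ⟨x0, x1, y0, y1, hx, hy, hxy, hR, hi, hj⟩⟩ := exists_ring hP hN
  · refine ⟨i, j, hfar.mono.mono', Or.inl ⟨[], by simp, ?_, List.nodup_nil, by simp⟩⟩
    simpa using h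
  -- first vertex
  have step1 : (∃ i k, Far N 8 i k ∧ Nb (P i) (P k)) ∨
      ∃ i, Far N 8 i j ∧ ∃ s a, Tch P N x0 x1 y0 y1 (P i) s a := by
    rcases touch hx hy hR hfar.1 hi with h | ⟨k, hk, h1, h2⟩
    · exact Or.inr ⟨i, hfar.mono, h⟩
    · rcases hfar.split hk with h3 | h3
      · exact Or.inl ⟨i, k, h3, h1⟩
      · exact Or.inr ⟨k, h3, h2⟩
  rcases step1 with ⟨i, k, h1, h2⟩ | ⟨i, hfar, s, a, hs⟩
  · refine ⟨i, k, h1.mono', Or.inl ⟨[], by simp, ?_, List.nodup_nil, by simp⟩⟩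
    simpa using h2
  have step2 : (∃ i k, Far N 16 i k ∧ Nb (P i) (P k)) ∨
      ∃ j, Far N 16 i j ∧ ∃ s a, Tch P N x0 x1 y0 y1 (P j) s a := by
    rcases touch hx hy hR hfar.2.1 hj with h | ⟨k, hk, h1, h2⟩
    · exact Or.inr ⟨j, hfar.mono', h⟩
    · rcases hfar.split' hk with h3 | h3
      · exact Or.inr ⟨k, h3, h2⟩
      · exact Or.inl ⟨j, k, h3.symm, h1⟩
  rcases step2 with ⟨i, k, h1, h2⟩ | ⟨j, hfar, s', a', hs'⟩
  · refine ⟨i, k, h1, Or.inl ⟨[], by simp, ?_, List.nodup_nil, by simp⟩⟩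
    simpa using h2
  refine ⟨i, j, hfar, ?_⟩
  by_cases hcc : ∀ c ∈ a, c ∉ a'
  · by_cases hss : s = s'
    · left
      subst hss
      obtain ⟨hs1, hs2, hs3⟩ := hs
      obtain ⟨-, -, hs3'⟩ := hs'
      refine ⟨a ++ [s] ++ a', ?_, ?_, ?_, ?_⟩
      · rcases hs3 with ⟨rfl, -⟩ | ⟨c, rfl, -⟩ <;> rcases hs3' with ⟨rfl, -⟩ | ⟨c', rfl, -⟩ <;> simp
      · rcases hs3 with ⟨rfl, h1⟩ | ⟨c, rfl, h1, h2, -⟩ <;>
          rcases hs3' with ⟨rfl, h3⟩ | ⟨c', rfl, h3, h4, -⟩ <;>
          simp only [List.nil_append, List.cons_append, List.isChain_cons_cons,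
            List.isChain_singleton, and_true]
        · exact ⟨h1, nb_symm h3⟩
        · exact ⟨h1, nb_symm h4, nb_symm h3⟩
        · exact ⟨h1, h2, nb_symm h3⟩
        · exact ⟨h1, h2, nb_symm h4, nb_symm h3⟩
      · rcases hs3 with ⟨rfl, h1⟩ | ⟨c, rfl, h1, h2, h5, h6⟩ <;>
          rcases hs3' with ⟨rfl, h3⟩ | ⟨c', rfl, h3, h4, h7, h8⟩
        · simp
        · have : s ≠ c' := fun e => h8 (e ▸ hs1)
          simp [this]
        · have : c ≠ s := fun e => h6 (e ▸ hs1)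
          simp [this]
        · have e1 : c ≠ s := fun e => h6 (e ▸ hs1)
          have e2 : s ≠ c' := fun e => h8 (e ▸ hs1)
          have e3 : c ≠ c' := by simpa using hcc
          simp [e1, e2, e3]
      · intro z hz
        simp only [List.mem_append, List.mem_singleton] at hz
        rcases hz with (hz | rfl) | hz
        · rcases hs3 with ⟨rfl, h1⟩ | ⟨c, rfl, h1, h2, h5, h6⟩
          · simp at hz
          · rw [List.mem_singleton] at hz
            exact hz ▸ h5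
        · exact hR _ hs1
        · rcases hs3' with ⟨rfl, h1⟩ | ⟨c, rfl, h1, h2, h5, h6⟩
          · simp at hz
          · rw [List.mem_singleton] at hz
            exact hz ▸ h5
    · exact Or.inr ⟨x0, x1, y0, y1, hx, hy, hxy, hR, s, s', a, a', hss, hs, hs', hcc⟩
  · left
    push Not at hcc
    obtain ⟨c, hc1, hc2⟩ := hcc
    obtain ⟨-, -, hs3⟩ := hs
    obtain ⟨-, -, hs3'⟩ := hs'
    rcases hs3 with ⟨rfl, h1⟩ | ⟨c1, rfl, h1, h2, h5, h6⟩
    · simp at hc1
    · rcases hs3' with ⟨rfl, h3⟩ | ⟨c', rfl, h3, h4, h7, h8⟩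
      · simp at hc2
      · rw [List.mem_singleton] at hc1 hc2
        subst hc1
        subst hc2
        refine ⟨[c], by simp, ?_, by simp, ?_⟩
        · simp only [List.cons_append, List.nil_append, List.isChain_cons_cons,
            List.isChain_singleton, and_true]
          exact ⟨h1, nb_symm h3⟩
        · intro z hz
          rw [List.mem_singleton] at hz
          exact hz ▸ h5

end Pool.Agent.Work.MP_376faf_co_gap
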