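import Pool.Agent.Work.MP_376faf_co_gap.PG
import Pool.Agent.Work.MP_376faf_co_gap.Label
import Pool.Agent.Work.MP_376faf_co_hw.PolyB

/-! Definitions for the bounded gap theorem for self-avoiding polygons. -/

set_option autoImplicit false

namespace Pool.Agent.Work.MP_376faf_co_gap

open Filter Topology
open Pool.Agent.Work.MP_376faf_co_lower
open Pool.Agent.Work.MP_376faf_co_hw
open Pool.Agent.Work.MP_376faf_co_hw.HP (Nb)

/-- polygon with `N` steps which fits into a square box of side `L` -/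
def PGB (L N : ℕ) (l : List Pt) : Prop :=
  PG l ∧ l.length = N ∧ ∃ b : Pt, ∀ q, VS 0 l q → InR b.1 (b.1 + L) b.2 (b.2 + L) q

/-- number of rooted oriented polygons with `N` steps in a box of side `L` -/
noncomputable def cPG (L N : ℕ) : ℕ := Nat.card {l : List Pt // PGB L N l}

/-- a chord with `n` steps of the polygon `l` from vertex 0 to vertex `k`, in the box of `l` -/
def Chord (L : ℕ) (l : List Pt) (k n : ℕ) (D : List Pt) : Prop :=
  Walk D ∧ D.length = n ∧ D.sum = pos l k ∧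
    (∀ q, VW 0 D q → VS 0 l q → q = 0 ∨ q = pos l k) ∧
    ∃ b : Pt, ∀ q, (VS 0 l q ∨ VW 0 D q) → InR b.1 (b.1 + L) b.2 (b.2 + L) q

/-- corner walks: from the corner `(0,0)` to the corner `(a,a)` inside the square, `m` steps -/
def CW (a m : ℕ) (l : List Pt) : Prop :=
  Walk l ∧ l.length = m ∧ l.sum = ((a:ℤ), (a:ℤ)) ∧
    ∀ i ≤ m, 0 ≤ (pos l i).1 ∧ (pos l i).1 ≤ a ∧ 0 ≤ (pos l i).2 ∧ (pos l i).2 ≤ a

/-- walks with `n` steps from `s` to `t` in the rectangle -/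
def RW (x0 x1 y0 y1 : ℤ) (s t : Pt) (n : ℕ) (w : List Pt) : Prop :=
  Walk w ∧ w.length = n ∧ s + w.sum = t ∧ ∀ q, VW s w q → InR x0 x1 y0 y1 q

/-- the family of corner walks: for every scale `S` one size `a S`, one length `m S` -/
structure Fam (x : ℝ) (C : ℕ) (a m : ℕ → ℕ) : Prop where
  lo : ∀ S : ℕ, 1 ≤ S → S ≤ a S
  hi : ∀ S : ℕ, 1 ≤ S → a S ≤ C * S
  len : ∀ S : ℕ, 1 ≤ S → m S ≤ C * S ^ C
  mass : ∀ S : ℕ, 1 ≤ S →
    1 ≤ (C:ℝ) * (S:ℝ) ^ C * ((Nat.card {l : List Pt // CW (a S) (m S) l} : ℝ) * x ^ m S)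

end Pool.Agent.Work.MP_376faf_co_gap
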