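import Pool.Agent.Work.MP_376faf_co_gap.Codes
import Pool.Agent.Work.MP_376faf_co_gap.GDefs

set_option autoImplicit false

/-!
Corner walks and the diamonds made of four corner walks.
-/

namespace Pool.Agent.Work.MP_376faf_co_gap

open Pool.Agent.Work.MP_376faf_co_lower
open Pool.Agent.Work.MP_376faf_co_hw.HP (Nb)

/-! ### symmetries -/

theorem pos_hom (σ : Pt →+ Pt) (l : List Pt) (i : ℕ) : pos (l.map σ) i = σ (pos l i) := by
  unfold pos
  rw [← List.map_take, map_list_sum]

theorem walk_hom {l : List Pt} (h : Walk l) (σ : Pt →+ Pt) (hi : Function.Injective σ)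
    (hu : ∀ s, Un s → Un (σ s)) : Walk (l.map σ) := by
  refine ⟨?_, ?_⟩
  · intro s hs
    obtain ⟨s, hs', rfl⟩ := List.mem_map.1 hs
    exact hu s (h.1 s hs')
  · intro i hi' j hj hij
    rw [List.length_map] at hi' hj
    rw [pos_hom, pos_hom] at hij
    exact h.2 hi' hj (hi hij)

/-- reflection of the rows -/
def fy : Pt →+ Pt where
  toFun s := (s.1, -s.2)
  map_zero' := by simp
  map_add' a b := by
    ext
    · simp
    · simp only [Prod.snd_add]
      ring

/-- reflection of the columns -/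
def fx : Pt →+ Pt where
  toFun s := (-s.1, s.2)
  map_zero' := by simp
  map_add' a b := by
    ext
    · simp only [Prod.fst_add]
      ring
    · simp

/-- transposition -/
def tr : Pt →+ Pt where
  toFun s := (s.2, s.1)
  map_zero' := by simp
  map_add' a b := by
    ext <;> simp

/-- point reflection -/
def ng : Pt →+ Pt where
  toFun s := (-s.1, -s.2)
  map_zero' := by simp
  map_add' a b := by
    ext
    · simp only [Prod.fst_add]
      ring
    · simp only [Prod.snd_add]
      ring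

theorem fy_app (s : Pt) : fy s = (s.1, -s.2) := rfl

theorem fx_app (s : Pt) : fx s = (-s.1, s.2) := rfl

theorem tr_app (s : Pt) : tr s = (s.2, s.1) := rfl

theorem ng_app (s : Pt) : ng s = (-s.1, -s.2) := rfl

theorem fy_inj : Function.Injective fy := fun a b h => by
  rw [fy_app, fy_app, Prod.mk.injEq, neg_inj] at h
  exact Prod.ext h.1 h.2

theorem fx_inj : Function.Injective fx := fun a b h => by
  rw [fx_app, fx_app, Prod.mk.injEq, neg_inj] at h
  exact Prod.ext h.1 h.2

theorem tr_inj : Function.Injective tr := fun a b h => by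
  rw [tr_app, tr_app, Prod.mk.injEq] at h
  exact Prod.ext h.2 h.1

theorem ng_inj : Function.Injective ng := fun a b h => by
  rw [ng_app, ng_app, Prod.mk.injEq, neg_inj, neg_inj] at h
  exact Prod.ext h.1 h.2

theorem fy_un (s : Pt) (h : Un s) : Un (fy s) := by
  unfold Un at h ⊢
  rw [fy_app, abs_neg]
  exact h

theorem fx_un (s : Pt) (h : Un s) : Un (fx s) := by
  unfold Un at h ⊢
  rw [fx_app, abs_neg]
  exact h

theorem tr_un (s : Pt) (h : Un s) : Un (tr s) := by
  unfold Un at h ⊢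
  rw [tr_app, add_comm]
  exact h

theorem ng_un (s : Pt) (h : Un s) : Un (ng s) := by
  unfold Un at h ⊢
  rw [ng_app, abs_neg, abs_neg]
  exact h

/-! ### one more step -/

theorem VW_nil {p q : Pt} : VW p [] q ↔ q = p := by
  constructor
  · rintro ⟨i, _, rfl⟩
    simp [pos]
  · rintro rfl
    exact VW.start _ _

theorem VW_cons {p s q : Pt} {l : List Pt} : VW p (s :: l) q ↔ q = p ∨ VW (p + s) l q := by
  have h1 : s :: l = [s] ++ l := rfl
  rw [h1, VW.append, List.sum_singleton]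
  constructor
  · rintro (⟨i, hi, rfl⟩ | h)
    · rw [List.length_singleton] at hi
      rcases Nat.eq_zero_or_pos i with h8 | h8
      · left
        rw [h8, pos_zero, add_zero]
      · right
        rw [show i = 1 by omega]
        have : pos [s] 1 = s := by simp [pos]
        rw [this]
        exact VW.start _ _
    · exact Or.inr h
  · rintro (rfl | h)
    · exact Or.inl (VW.start _ _)
    · exact Or.inr h

theorem walk_nil : Walk ([] : List Pt) := ⟨by simp, by
  intro a ha b hb _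
  simp only [List.length_nil, Set.mem_Iic] at ha hb
  omega⟩

theorem walk_one0 {s : Pt} (hs : Un s) : Walk [s] := by
  refine ⟨by simpa using hs, ?_⟩
  have h0 : s ≠ 0 := by
    rintro rfl
    simp [Un] at hs
  have h1 : pos [s] 1 = s := by simp [pos]
  intro i hi j hj hij
  simp only [List.length_singleton, Set.mem_Iic] at hi hj
  have hi' : i = 0 ∨ i = 1 := by omega
  have hj' : j = 0 ∨ j = 1 := by omega
  rcases hi' with rfl | rfl <;> rcases hj' with rfl | rfl
  · rfl
  · rw [pos_zero, h1] at hij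
    exact absurd hij.symm h0
  · rw [pos_zero, h1] at hij
    exact absurd hij h0
  · rfl

theorem walk_cons0 {s : Pt} {l : List Pt} (hs : Un s) (hl : Walk l) (h : ¬ VW s l 0) :
    Walk (s :: l) := by
  have h1 : s :: l = [s] ++ l := rfl
  rw [h1]
  refine walk_append (p := 0) (walk_one0 hs) hl ?_
  intro q h2 h3
  rw [List.sum_singleton, zero_add] at h3 ⊢
  rcases VW_cons.1 h2 with rfl | h2
  · exact absurd h3 h
  · rw [VW_nil, zero_add] at h2
    exact h2

theorem walk_snoc0 {s : Pt} {l : List Pt} (hl : Walk l) (hs : Un s) (h : ¬ VW 0 l (l.sum + s)) :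
    Walk (l ++ [s]) := by
  refine walk_append (p := 0) hl (walk_one0 hs) ?_
  intro q h2 h3
  rw [zero_add] at h3 ⊢
  rcases VW_cons.1 h3 with rfl | h3
  · rfl
  · rw [VW_nil] at h3
    rw [h3] at h2
    exact absurd h2 h

theorem VW_hom {p q : Pt} {l : List Pt} (σ : Pt →+ Pt) (h : VW p (l.map σ) q) :
    ∃ q', VW 0 l q' ∧ q = p + σ q' := by
  obtain ⟨i, hi, rfl⟩ := h
  rw [List.length_map] at hi
  exact ⟨pos l i, ⟨i, hi, by rw [zero_add]⟩, by rw [pos_hom]⟩

theorem VW_shift {p q : Pt} {l : List Pt} (h : VW p l q) : ∃ q', VW 0 l q' ∧ q = p + q' := by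
  obtain ⟨i, hi, rfl⟩ := h
  exact ⟨pos l i, ⟨i, hi, by rw [zero_add]⟩, rfl⟩

theorem CW.box {a m : ℕ} {l : List Pt} (h : CW a m l) {q : Pt} (hq : VW 0 l q) :
    0 ≤ q.1 ∧ q.1 ≤ a ∧ 0 ≤ q.2 ∧ q.2 ≤ a := by
  obtain ⟨i, hi, rfl⟩ := hq
  rw [zero_add]
  exact h.2.2.2 i (by rw [← h.2.1]; exact hi)

/-! ### the upper half of a diamond -/

/-- upper half of a diamond -/
def HD (l l' : List Pt) : List Pt := l ++ ((1, 0) :: l'.map fy)

theorem un10 : Un (1, 0) := by simp [Un]

theorem un01 : Un (0, 1) := by simp [Un]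

theorem un01' : Un (0, -1) := by simp [Un]

theorem un10' : Un (-1, 0) := by simp [Un]

theorem HD_box {a m : ℕ} {l l' : List Pt} (h : CW a m l) (h' : CW a m l') {q : Pt}
    (hq : VW 0 (HD l l') q) : 0 ≤ q.1 ∧ q.1 ≤ 2 * a + 1 ∧ 0 ≤ q.2 ∧ q.2 ≤ a := by
  unfold HD at hq
  rw [VW.append, VW_cons, zero_add, h.2.2.1] at hq
  rcases hq with hq | rfl | hq
  · have := h.box hq
    omega
  · simp only
    omega
  · obtain ⟨q', h1, rfl⟩ := VW_hom fy hq
    have := h'.box h1
    rw [fy_app]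
    simp only [Prod.fst_add, Prod.snd_add]
    omega

theorem HD_len {a m : ℕ} {l l' : List Pt} (h : CW a m l) (h' : CW a m l') :
    (HD l l').length = 2 * m + 1 := by
  unfold HD
  rw [List.length_append, List.length_cons, List.length_map, h.2.1, h'.2.1]
  omega

theorem HD_sum {a m : ℕ} {l l' : List Pt} (h : CW a m l) (h' : CW a m l') :
    (HD l l').sum = (2 * (a : ℤ) + 1, 0) := by
  unfold HD
  rw [List.sum_append, List.sum_cons, ← map_list_sum, h.2.2.1, h'.2.2.1, fy_app]
  ext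
  · simp only [Prod.fst_add]
    ring
  · simp only [Prod.snd_add]
    ring

theorem HD_walk {a m : ℕ} {l l' : List Pt} (h : CW a m l) (h' : CW a m l') : Walk (HD l l') := by
  unfold HD
  refine walk_append (p := 0) h.1 (walk_cons0 un10 (walk_hom h'.1 fy fy_inj fy_un) ?_) ?_
  · intro hq
    obtain ⟨q', h1, h2⟩ := VW_hom fy hq
    have := h'.box h1
    have h3 := congrArg Prod.fst h2
    rw [fy_app] at h3
    simp only [Prod.fst_add, Prod.fst_zero] at h3
    omega
  · intro q h1 h2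
    rw [zero_add] at h2 ⊢
    rcases VW_cons.1 h2 with rfl | h2
    · rfl
    · exfalso
      have h3 := h.box h1
      obtain ⟨q', h4, h5⟩ := VW_hom fy h2
      have h6 := h'.box h4
      rw [fy_app, h.2.2.1] at h5
      have h7 := congrArg Prod.fst h5
      simp only [Prod.fst_add] at h7
      omega

theorem HD_inj {a m : ℕ} {l l' k k' : List Pt} (h : CW a m l) (hk : CW a m k)
    (e : HD l l' = HD k k') : l = k ∧ l' = k' := by
  unfold HD at e
  obtain ⟨h1, h2⟩ := List.append_inj e (by rw [h.2.1, hk.2.1])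
  exact ⟨h1, List.map_injective_iff.2 fy_inj (List.cons_inj_right _ |>.1 h2)⟩

/-! ### diamonds -/

/-- a polygon in a square box, with the four extreme vertices which are used for chains -/
def DM (a M : ℕ) (l : List Pt) : Prop :=
  PG l ∧ l.length = M ∧
    (∀ q, VS 0 l q → 0 ≤ q.1 ∧ q.1 ≤ 2 * (a : ℤ) + 1 ∧ -(a : ℤ) - 1 ≤ q.2 ∧ q.2 ≤ a) ∧
    VS 0 l (2 * (a : ℤ) + 1, 0) ∧ VS 0 l ((a : ℤ), (a : ℤ)) ∧ VS 0 l ((a : ℤ), -(a : ℤ) - 1)

/-- the diamond of four corner walks -/
def diam0 (l1 l2 l3 l4 : List Pt) : List Pt :=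
  HD l1 l2 ++ ((0, -1) :: ((HD l3 l4).map ng ++ [(0, 1)]))

theorem VS_VW {p q : Pt} {l : List Pt} (h : VS p l q) : VW p l q := by
  obtain ⟨i, hi, rfl⟩ := h
  exact ⟨i, hi.le, rfl⟩

theorem diam0_cases {a m : ℕ} {l1 l2 l3 l4 : List Pt} (h1 : CW a m l1) (h2 : CW a m l2)
    {q : Pt} (hq : VW 0 (diam0 l1 l2 l3 l4) q) :
    VW 0 (HD l1 l2) q ∨ VW (2 * (a : ℤ) + 1, 0) ((0, -1) :: ((HD l3 l4).map ng ++ [(0, 1)])) q := by
  unfold diam0 at hq
  rw [VW.append, HD_sum h1 h2, zero_add] at hq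
  exact hq

theorem low_cases {a m : ℕ} {l3 l4 : List Pt} (h3 : CW a m l3) (h4 : CW a m l4)
    {q : Pt} (hq : VW (2 * (a : ℤ) + 1, 0) ((0, -1) :: ((HD l3 l4).map ng ++ [(0, 1)])) q) :
    q = (2 * (a : ℤ) + 1, 0) ∨ q = (0, 0) ∨
      (0 ≤ q.1 ∧ q.1 ≤ 2 * (a : ℤ) + 1 ∧ -(a : ℤ) - 1 ≤ q.2 ∧ q.2 ≤ -1) := by
  rw [VW_cons, VW.append] at hq
  rcases hq with hq | hq | hq
  · exact Or.inl hq
  · obtain ⟨q', h5, rfl⟩ := VW_hom ng hq
    have := HD_box h3 h4 h5
    rw [ng_app]
    simp only [Prod.mk_add_mk]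
    omega
  · rw [← map_list_sum, HD_sum h3 h4, ng_app, VW_cons, VW_nil] at hq
    simp only [Prod.mk_add_mk] at hq
    rcases hq with rfl | rfl
    · simp only
      omega
    · right
      left
      ext <;> simp

theorem diam0_DM {a m : ℕ} {l1 l2 l3 l4 : List Pt} (h1 : CW a m l1) (h2 : CW a m l2)
    (h3 : CW a m l3) (h4 : CW a m l4) : DM a (4 * m + 4) (diam0 l1 l2 l3 l4) := by
  have hlen : (diam0 l1 l2 l3 l4).length = 4 * m + 4 := by
    unfold diam0
    rw [List.length_append, List.length_cons, List.length_append, List.length_map,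
      List.length_singleton, HD_len h1 h2, HD_len h3 h4]
    omega
  have hlow : Walk ((0, -1) :: ((HD l3 l4).map ng ++ [(0, 1)])) := by
    refine walk_cons0 un01' (walk_snoc0 (walk_hom (HD_walk h3 h4) ng ng_inj ng_un) un01 ?_) ?_
    · intro hq
      obtain ⟨q', h5, h6⟩ := VW_hom ng hq
      have := HD_box h3 h4 h5
      rw [← map_list_sum, HD_sum h3 h4, ng_app, ng_app] at h6
      have h7 := congrArg Prod.snd h6
      simp only [Prod.snd_add, Prod.snd_zero] at h7
      omega
    · intro hq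
      rw [VW.append, ← map_list_sum, HD_sum h3 h4, ng_app, VW_cons, VW_nil] at hq
      rcases hq with hq | hq | hq
      · obtain ⟨q', h5, h6⟩ := VW_hom ng hq
        have := HD_box h3 h4 h5
        rw [ng_app] at h6
        have h7 := congrArg Prod.snd h6
        simp only [Prod.snd_add, Prod.snd_zero] at h7
        omega
      · have h7 := congrArg Prod.snd hq
        simp only [Prod.snd_add, Prod.snd_zero] at h7
        omega
      · have h7 := congrArg Prod.fst hq
        simp only [Prod.fst_add, Prod.fst_zero] at h7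
        omega
  have hls : ((0, -1) :: ((HD l3 l4).map ng ++ [(0, 1)]) : List Pt).sum =
      (-(2 * (a : ℤ) + 1), 0) := by
    rw [List.sum_cons, List.sum_append, ← map_list_sum, HD_sum h3 h4, ng_app,
      List.sum_singleton]
    ext
    · simp only [Prod.fst_add]
      ring
    · simp only [Prod.snd_add]
      ring
  have hPG : PG (diam0 l1 l2 l3 l4) := by
    refine pg_append (p := 0) (HD_walk h1 h2) hlow ?_ ?_ ?_
    · rw [HD_sum h1 h2, hls]
      ext
      · simp only [Prod.fst_add, Prod.fst_zero]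
        ring
      · simp only [Prod.snd_add, Prod.snd_zero]
        ring
    · unfold diam0 at hlen
      rw [List.length_append] at hlen
      omega
    · intro q h5 h6
      rw [HD_sum h1 h2, zero_add] at h6 ⊢
      have h7 := HD_box h1 h2 h5
      rcases low_cases h3 h4 h6 with h8 | h8 | h8
      · exact Or.inl h8
      · exact Or.inr h8
      · omega
  refine ⟨hPG, hlen, ?_, ?_, ?_, ?_⟩
  · intro q hq
    rcases diam0_cases h1 h2 (VS_VW hq) with h5 | h5
    · have := HD_box h1 h2 h5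
      omega
    · rcases low_cases h3 h4 h5 with rfl | rfl | h8
      · simp only
        omega
      · simp only
        omega
      · omega
  · refine ⟨2 * m + 1, by omega, ?_⟩
    unfold diam0
    rw [pos_append_left _ _ (by rw [HD_len h1 h2]), ← HD_len h1 h2, pos_len, HD_sum h1 h2,
      zero_add]
  · refine ⟨m, by omega, ?_⟩
    unfold diam0
    rw [pos_append_left _ _ (by rw [HD_len h1 h2]; omega)]
    unfold HD
    rw [pos_append_left _ _ (by rw [h1.2.1]), ← h1.2.1, pos_len, h1.2.2.1, zero_add]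
  · refine ⟨2 * m + 1 + (1 + (m + 1)), by omega, ?_⟩
    unfold diam0
    rw [← HD_len h1 h2, pos_append_right, HD_sum h1 h2]
    have e1 : ((0, -1) :: ((HD l3 l4).map ng ++ [(0, 1)]) : List Pt) =
        [(0, -1)] ++ ((HD l3 l4).map ng ++ [(0, 1)]) := rfl
    have e2 := pos_append_right ([(0, -1)] : List Pt) ((HD l3 l4).map ng ++ [(0, 1)]) (m + 1)
    rw [List.length_singleton, List.sum_singleton] at e2
    rw [e1, e2, pos_append_left _ _ (by rw [List.length_map, HD_len h3 h4]; omega), pos_hom]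
    unfold HD
    have e3 := pos_append_right l3 ((1, 0) :: l4.map fy) 1
    rw [h3.2.1, h3.2.2.1] at e3
    rw [e3]
    have e4 : pos ((1, 0) :: l4.map fy) 1 = (1, 0) := by simp [pos]
    rw [e4, ng_app]
    ext
    · simp only [Prod.fst_add, Prod.fst_zero]
      ring
    · simp only [Prod.snd_add, Prod.snd_zero]
      ring

theorem diam0_inj {a m : ℕ} {l1 l2 l3 l4 k1 k2 k3 k4 : List Pt} (h1 : CW a m l1) (h2 : CW a m l2)
    (h3 : CW a m l3) (g1 : CW a m k1) (g2 : CW a m k2)
    (g3 : CW a m k3)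
    (e : diam0 l1 l2 l3 l4 = diam0 k1 k2 k3 k4) : l1 = k1 ∧ l2 = k2 ∧ l3 = k3 ∧ l4 = k4 := by
  unfold diam0 at e
  obtain ⟨e1, e2⟩ := List.append_inj e (by rw [HD_len h1 h2, HD_len g1 g2])
  obtain ⟨e3, e4⟩ := HD_inj h1 g1 e1
  have e5 := List.append_cancel_right ((List.cons_inj_right _).1 e2)
  obtain ⟨e6, e7⟩ := HD_inj h3 g3 (List.map_injective_iff.2 ng_inj e5)
  exact ⟨e3, e4, e6, e7⟩

theorem CW.fin (a m : ℕ) : Finite {l // CW a m l} := finite_of m fun _ h => ⟨h.1.1, h.2.1⟩

theorem DM.fin (a M : ℕ) : Finite {l // DM a M l} := finite_of M fun _ h => ⟨h.1.1, h.2.1⟩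

theorem card_DM (a m : ℕ) : Nat.card {l // CW a m l} ^ 4 ≤ Nat.card {l // DM a (4 * m + 4) l} := by
  have := DM.fin a (4 * m + 4)
  have h1 : Nat.card ({l // CW a m l} × {l // CW a m l} × {l // CW a m l} × {l // CW a m l}) ≤
      Nat.card {l // DM a (4 * m + 4) l} := by
    refine Nat.card_le_card_of_injective
      (fun z => ⟨diam0 z.1.1 z.2.1.1 z.2.2.1.1 z.2.2.2.1,
        diam0_DM z.1.2 z.2.1.2 z.2.2.1.2 z.2.2.2.2⟩) ?_
    rintro ⟨⟨l1, h1⟩, ⟨l2, h2⟩, ⟨l3, h3⟩, ⟨l4, h4⟩⟩ ⟨⟨k1, g1⟩, ⟨k2, g2⟩, ⟨k3, g3⟩, ⟨k4, g4⟩⟩ e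
    simp only [Subtype.mk.injEq] at e
    obtain ⟨rfl, rfl, rfl, rfl⟩ := diam0_inj h1 h2 h3 g1 g2 g3 e
    rfl
  rw [Nat.card_prod, Nat.card_prod, Nat.card_prod] at h1
  refine le_trans (le_of_eq ?_) h1
  ring

/-! ### polygons are connected -/

theorem PG.jn0 {l : List Pt} (h : PG l) (o : Pt) {i : ℕ} (hi : i < l.length) :
    Jn (VS o l) o (o + pos l i) := by
  induction i with
  | zero =>
    rw [pos_zero, add_zero]
    exact Jn.refl' _ _
  | succ i ih =>
    refine (ih (by omega)).trans (Jn.step ?_ ⟨i, by omega, rfl⟩ ⟨i + 1, hi, rfl⟩)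
    rw [nb_iff_un, pos_succ l (by omega : i < l.length)]
    have : o + (pos l i + l[i]) - (o + pos l i) = l[i] := by abel
    rw [this]
    exact h.1 _ (List.getElem_mem _)

theorem PG.jn {l : List Pt} (h : PG l) {o p q : Pt} (hp : VS o l p) (hq : VS o l q) :
    Jn (VS o l) p q := by
  obtain ⟨i, hi, rfl⟩ := hp
  obtain ⟨j, hj, rfl⟩ := hq
  exact (h.jn0 o hi).symm.trans (h.jn0 o hj)

theorem VS_add {o p q : Pt} {l : List Pt} : VS (o + p) l (q + p) ↔ VS o l q := by
  constructor
  · rintro ⟨i, hi, h⟩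
    refine ⟨i, hi, add_right_cancel (b := p) ?_⟩
    rw [h]
    abel
  · rintro ⟨i, hi, rfl⟩
    exact ⟨i, hi, by abel⟩

theorem VS_zero {o q : Pt} {l : List Pt} : VS o l q ↔ VS 0 l (q - o) := by
  constructor
  · rintro ⟨i, hi, rfl⟩
    exact ⟨i, hi, by abel⟩
  · rintro ⟨i, hi, h⟩
    refine ⟨i, hi, ?_⟩
    rw [zero_add] at h
    rw [← h]
    abel

end Pool.Agent.Work.MP_376faf_co_gap
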