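import Pool.Agent.Work.MP_376faf_co_gap.Wide

/-! A family of narrow bridges with corner start at one scale. -/

set_option autoImplicit false

namespace Pool.Agent.Work.MP_376faf_co_gap

open Pool.Agent.Work.MP_376faf_co_lower Pool.Agent.Work.MP_376faf_co_hw
open Pool.Agent.Work.MP_376faf_co_win
open scoped ENNReal

theorem BS_zero (x : ℝ≥0∞) {S : ℕ} (hS : 0 < S) : BS x S 0 = 0 := by
  unfold BS mass
  have : IsEmpty {l : List Pt // Bridge l ∧ l.length = 0 ∧ (S : ℤ) ≤ l.sum.1 ∧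
      l.sum.1 < 3 * S} := by
    refine ⟨fun l => ?_⟩
    have h1 := List.length_eq_zero_iff.1 l.2.2.1
    have h2 := l.2.2.2.1
    rw [h1] at h2
    simp at h2
    omega
  exact tsum_empty

theorem nat_ofReal {n : ℕ} {r : ℝ} (h : (n:ℝ) ≤ r) : (n : ℝ≥0∞) ≤ ENNReal.ofReal r := by
  rw [← ENNReal.ofReal_natCast]
  exact ENNReal.ofReal_le_ofReal h

theorem num_core {μ T : ℝ} (_hμ : 1 ≤ μ) (hT : 80 < T) (hTμ : 276352 * μ ^ 3 ≤ T)
    (h : 1 / T ^ 40 ≤ 2 * T ^ 6 * (20 * T ^ 2 * (1 / T ^ 49) + 4 * μ * T ^ 12 *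
      (254 * T ^ 6 * (1 / T ^ 34) ^ 3 * (68 * μ ^ 2 * T ^ 24)))) : False := by
  have hT0 : 0 < T := by linarith
  have hT1 : 1 ≤ T := by linarith
  have h1 : 1 / T ^ 40 * T ^ 60 = T ^ 20 := by
    field_simp
  have h2 : 2 * T ^ 6 * (20 * T ^ 2 * (1 / T ^ 49) + 4 * μ * T ^ 12 *
      (254 * T ^ 6 * (1 / T ^ 34) ^ 3 * (68 * μ ^ 2 * T ^ 24))) * T ^ 60 =
      40 * T ^ 19 + 138176 * μ ^ 3 * T ^ 6 := by
    field_simp
    ring
  have h3 : T ^ 20 ≤ 40 * T ^ 19 + 138176 * μ ^ 3 * T ^ 6 := by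
    rw [← h1, ← h2]
    exact mul_le_mul_of_nonneg_right h (by positivity)
  have h4 : 80 * T ^ 19 < T ^ 20 := by
    have : 80 * T ^ 19 < T * T ^ 19 := mul_lt_mul_of_pos_right hT (by positivity)
    calc 80 * T ^ 19 < T * T ^ 19 := this
      _ = T ^ 20 := by ring
  have h5 : 276352 * μ ^ 3 * T ^ 6 ≤ T ^ 20 := by
    calc 276352 * μ ^ 3 * T ^ 6 ≤ T * T ^ 6 := mul_le_mul_of_nonneg_right hTμ (by positivity)
      _ = T ^ 7 := by ring
      _ ≤ T ^ 20 := pow_le_pow_right₀ hT1 (by norm_num)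
  linarith

theorem fam_core {μ : ℝ} (hμ : 1 ≤ μ) (hu : ∀ t, uu (ENNReal.ofReal μ)⁻¹ t ≤ 1) {S : ℕ}
    (hS80 : 80 < S) (hSμ : 276352 * μ ^ 3 ≤ S)
    (hex : ∃ n, n ≤ S ^ 6 ∧ ENNReal.ofReal (1 / (S:ℝ) ^ 40) ≤ BS (ENNReal.ofReal μ)⁻¹ S n) :
    ∃ e h n : ℕ, S ≤ h ∧ h < 3 * S ∧ e ≤ 9 * S ∧ n ≤ S ^ 6 ∧
      ENNReal.ofReal (1 / (S:ℝ) ^ 49) < mass (ENNReal.ofReal μ)⁻¹ (CF e h (9 * S) n) := by
  classical
  have hμ0 : 0 < μ := by linarith
  set x : ℝ≥0∞ := (ENNReal.ofReal μ)⁻¹ with hx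
  have hx0 : x ≠ 0 := by
    rw [hx]
    exact ENNReal.inv_ne_zero.2 ENNReal.ofReal_ne_top
  have hxt : x ≠ ⊤ := by
    rw [hx]
    simpa using hμ0
  have hxi : x⁻¹ = ENNReal.ofReal μ := by rw [hx, inv_inv]
  have hS0 : 0 < S := by omega
  have hT0 : (0:ℝ) < S := by exact_mod_cast hS0
  have hT1 : (1:ℝ) ≤ S := by exact_mod_cast hS0
  have hT80 : (80:ℝ) < S := by exact_mod_cast hS80
  obtain ⟨hn1, hn2⟩ := Nat.find_spec hex
  have hmin : ∀ n < Nat.find hex, BS x S n ≤ ENNReal.ofReal (1 / (S:ℝ) ^ 40) := by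
    intro n hn
    by_contra h3
    exact Nat.find_min hex hn ⟨by omega, (not_le.1 h3).le⟩
  generalize Nat.find hex = n1 at hn1 hn2 hmin
  have hn0 : n1 ≠ 0 := by
    rintro rfl
    rw [BS_zero x hS0, nonpos_iff_eq_zero, ENNReal.ofReal_eq_zero] at hn2
    have : 0 < 1 / (S:ℝ) ^ 40 := by positivity
    linarith
  obtain ⟨N, rfl⟩ : ∃ N, n1 = N + 1 := ⟨n1 - 1, by omega⟩
  by_contra hcon
  push Not at hcon
  set T : ℝ := (S:ℝ) with hT
  have hS6 : (2:ℕ) ≤ S ^ 6 := by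
    calc 2 ≤ S := by omega
      _ = S ^ 1 := (pow_one S).symm
      _ ≤ S ^ 6 := Nat.pow_le_pow_right hS0 (by norm_num)
  have hN6 : ((N + 1 : ℕ) : ℝ) ≤ T ^ 6 := by
    rw [hT]
    exact_mod_cast hn1
  have hT6 : (2:ℝ) ≤ T ^ 6 := by
    rw [hT]
    exact_mod_cast hS6
  -- short bridges
  have hε : wsum (w0 x N) (fun l => Bridge l ∧ (S : ℤ) ≤ l.sum.1 ∧ l.sum.1 < 3 * S) ≤
      ENNReal.ofReal (1 / T ^ 34) := by
    refine (short_le x S N _ fun n hn => hmin n (by omega)).trans ?_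
    refine (mul_le_mul' (nat_ofReal hN6) le_rfl).trans ?_
    rw [← ENNReal.ofReal_mul (by positivity)]
    refine ENNReal.ofReal_le_ofReal (le_of_eq ?_)
    field_simp
  have hε1 : 10 * (T ^ 2 * (1 / T ^ 34)) ≤ 1 := by
    have h1 : 10 * (T ^ 2 * (1 / T ^ 34)) = 10 / T ^ 32 := by field_simp
    rw [h1, div_le_one (by positivity)]
    calc (10:ℝ) ≤ T := by linarith
      _ = T ^ 1 := (pow_one T).symm
      _ ≤ T ^ 32 := pow_le_pow_right₀ hT1 (by norm_num)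
  have hW := wide_le (N := N) hxt hu hS0 (by positivity) hε1 hε
  -- exposed ends
  have hA0 : mass x (fun l => Walk l ∧ l.length ≤ N + 1 ∧ l.sum.1 = 0 ∧
      ∀ k ≤ l.length, 0 ≤ (pos l k).1) ≤ ENNReal.ofReal (4 * μ * T ^ 12) := by
    refine (expo0 hx0 hxt hu (N + 1)).trans ?_
    have h1 : ((N + 1 + 2 : ℕ) : ℝ≥0∞) ≤ ENNReal.ofReal (2 * T ^ 6) := by
      refine nat_ofReal ?_
      push_cast at hN6 ⊢
      linarith
    refine (mul_le_mul' hxi.le (mul_le_mul' h1 h1)).trans ?_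
    rw [← ENNReal.ofReal_mul (by positivity), ← ENNReal.ofReal_mul (by positivity)]
    refine ENNReal.ofReal_le_ofReal (le_of_eq ?_)
    ring
  have hA2 : mass x (fun l => Walk l ∧ l.length ≤ N + 1 ∧ (∀ k ≤ l.length, (pos l k).1 ≤ 0) ∧
      ∀ k ≤ l.length, (pos l k).2 ≤ l.sum.2) ≤ ENNReal.ofReal (68 * μ ^ 2 * T ^ 24) := by
    refine (expo2 hx0 hxt hu (N + 1)).trans ?_
    have h1 : (((N + 1 + 1) * (N + 1 + 1) : ℕ) : ℝ≥0∞) ≤ ENNReal.ofReal (4 * T ^ 12) := by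
      refine nat_ofReal ?_
      push_cast at hN6 ⊢
      have h2 : (N:ℝ) + 1 + 1 ≤ 2 * T ^ 6 := by linarith
      have h3 : (0:ℝ) ≤ (N:ℝ) + 1 + 1 := by positivity
      calc ((N:ℝ) + 1 + 1) * ((N:ℝ) + 1 + 1) ≤ (2 * T ^ 6) * (2 * T ^ 6) :=
            mul_le_mul h2 h2 h3 (by positivity)
        _ = _ := by ring
    have h2 : ((2 * (N + 1) + 3 : ℕ) : ℝ≥0∞) ≤ ENNReal.ofReal (4 * T ^ 6) := by
      refine nat_ofReal ?_
      push_cast at hN6 ⊢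
      linarith
    refine (mul_le_mul' h1 (add_le_add le_rfl (mul_le_mul' hxi.le (mul_le_mul' hxi.le
      (mul_le_mul' h2 h2))))).trans ?_
    rw [← ENNReal.ofReal_mul (by positivity), ← ENNReal.ofReal_mul (by positivity),
      ← ENNReal.ofReal_mul (by positivity), ← ENNReal.ofReal_one,
      ← ENNReal.ofReal_add (by norm_num) (by positivity), ← ENNReal.ofReal_mul (by positivity)]
    refine ENNReal.ofReal_le_ofReal ?_
    have h3 : 1 ≤ μ ^ 2 * T ^ 12 := by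
      have e1 : 1 ≤ μ ^ 2 := one_le_pow₀ hμ
      have e2 : 1 ≤ T ^ 12 := one_le_pow₀ hT1
      calc (1:ℝ) = 1 * 1 := by ring
        _ ≤ μ ^ 2 * T ^ 12 := mul_le_mul e1 e2 (by norm_num) (by positivity)
    calc 4 * T ^ 12 * (1 + μ * (μ * (4 * T ^ 6 * (4 * T ^ 6))))
        ≤ 4 * T ^ 12 * (μ ^ 2 * T ^ 12 + μ * (μ * (4 * T ^ 6 * (4 * T ^ 6)))) :=
          mul_le_mul_of_nonneg_left (by linarith) (by positivity)
      _ = 68 * μ ^ 2 * T ^ 24 := by ring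
  -- narrow and wide
  have hNar := nar_le x S (N + 1) _ fun e h h1 h2 h3 => hcon e h (N + 1) h1 h2 h3 hn1
  have hNar2 : (((9 * S + 1) * (2 * S) : ℕ) : ℝ≥0∞) * ENNReal.ofReal (1 / T ^ 49) ≤
      ENNReal.ofReal (20 * T ^ 2 * (1 / T ^ 49)) := by
    refine (mul_le_mul' (nat_ofReal (r := 20 * T ^ 2) ?_) le_rfl).trans ?_
    · push_cast
      rw [← hT]
      nlinarith
    · rw [← ENNReal.ofReal_mul (by positivity)]
  have hWid := wid_le x S N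
  have hNM : mass x (fun l => l ∈ NM (N + 1) (KS S (N + 1))) ≤
      ENNReal.ofReal (20 * T ^ 2 * (1 / T ^ 49)) + ENNReal.ofReal (4 * μ * T ^ 12) *
        (ENNReal.ofReal (254 * T ^ 6 * (1 / T ^ 34) ^ 3) *
          ENNReal.ofReal (68 * μ ^ 2 * T ^ 24)) := by
    refine le_trans ?_ (add_le_add (hNar.trans hNar2)
      (hWid.trans (mul_le_mul' hA0 (mul_le_mul' hW hA2))))
    rw [mass_eq, mass_eq, mass_eq]
    refine wsum_or _ fun l hl => ?_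
    by_cases h : ∃ k ≤ N + 1, 9 * (S : ℤ) < (pos l k).1
    · exact Or.inr ⟨hl, h⟩
    · push Not at h
      exact Or.inl ⟨hl, h⟩
  have hfin := hn2.trans ((BS_le_NM x S (N + 1)).trans (mul_le_mul' (nat_ofReal
    (r := 2 * T ^ 6) (by push_cast at hN6 ⊢; linarith)) hNM))
  rw [← ENNReal.ofReal_mul (by positivity), ← ENNReal.ofReal_mul (by positivity),
    ← ENNReal.ofReal_add (by positivity) (by positivity), ← ENNReal.ofReal_mul (by positivity),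
    ENNReal.ofReal_le_ofReal_iff (by positivity)] at hfin
  exact num_core hμ hT80 hSμ hfin

end Pool.Agent.Work.MP_376faf_co_gap
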