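import Pool.Agent.Work.MP_376faf_co_win.Flat

/-! Minimal typical length: long bridges all of whose bridges of span in `[S, 3S)` are rare have
cubically small mass. -/

set_option autoImplicit false

namespace Pool.Agent.Work.MP_376faf_co_gap

open Pool.Agent.Work.MP_376faf_co_lower Pool.Agent.Work.MP_376faf_co_hw
open Pool.Agent.Work.MP_376faf_co_win
open scoped ENNReal

theorem wsum_mul3 {w w1 w2 : List Pt → ℝ≥0∞} {P Q R : List Pt → Prop}
    (h : ∀ l, P l → ∃ a b, l = a ++ b ∧ Q a ∧ R b ∧ w l ≤ w1 a * w2 b) :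
    wsum w P ≤ wsum w1 Q * wsum w2 R := by
  choose a b hab hQ hR hw using fun l : {l // P l} => h l.1 l.2
  unfold wsum
  rw [← tsum_mul (fun l : {l // Q l} => w1 l.1) (fun l : {l // R l} => w2 l.1)]
  refine tsum_le_inj (fun l : {l // P l} =>
    ((⟨a l, hQ l⟩, ⟨b l, hR l⟩) : {l // Q l} × {l // R l})) ?_ ?_
  · intro l m hlm
    simp only [Prod.mk.injEq, Subtype.mk.injEq] at hlm
    apply Subtype.ext
    rw [hab l, hab m, hlm.1, hlm.2]
  · intro l
    exact hw l

theorem w0_two {x : ℝ≥0∞} {N : ℕ} {a b : List Pt} (ha : a ≠ []) (hb : b ≠ []) :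
    w0 x (N + 1) (a ++ b) ≤ w0 x N a * w0 x N b := by
  have h1 := List.length_pos_iff.2 ha
  have h2 := List.length_pos_iff.2 hb
  unfold w0
  by_cases h : (a ++ b).length ≤ N + 1
  · rw [List.length_append] at h
    rw [List.length_append, if_pos h, if_pos (by omega), if_pos (by omega), pow_add]
  · rw [if_neg h]
    exact zero_le

/-- S-monotone bridges of span at least 2S -/
theorem G_le {w : List Pt → ℝ≥0∞} (hw : SubM w) (hf : FlI w) {S : ℕ} (hS : 0 < S)
    (hfin : wsum w Walk ≠ ⊤) {ε : ℝ} (hε : 0 ≤ ε) (hεS : 2 * (S * ε) ≤ 1)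
    (h2 : wsum w (fun l => Bridge l ∧ 2 * (S : ℤ) ≤ l.sum.1 ∧ l.sum.1 < 3 * S) ≤ ENNReal.ofReal ε)
    (h3 : wsum w (fun l => Bridge l ∧ l.sum.1 < S) ≤ ENNReal.ofReal S)
    (h4 : wsum w (fun l => Bridge l ∧ l.sum.1 < 2 * S) ≤ ENNReal.ofReal (2 * S)) :
    wsum w (fun l => Bridge l ∧ Smono S l ∧ 2 * (S : ℤ) ≤ l.sum.1) ≤
      ENNReal.ofReal (4 * S ^ 2 * ε) := by
  set G := wsum w (fun l => Bridge l ∧ Smono S l ∧ 2 * (S : ℤ) ≤ l.sum.1) with hG
  have hGfin : G ≠ ⊤ := ne_top_of_le_ne_top hfin (wsum_mono w fun l hl => hl.1.1)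
  have hS0 : (0:ℝ) ≤ S := Nat.cast_nonneg _
  have h5 : G ≤ ENNReal.ofReal (2 * S ^ 2 * ε) + ENNReal.ofReal (S * ε) * G := by
    calc G ≤ _ := col_mass hw hf hS
      _ ≤ ENNReal.ofReal ε * (ENNReal.ofReal S * (ENNReal.ofReal (2 * S) + G)) :=
          mul_le_mul' h2 (mul_le_mul' h3 (add_le_add h4 le_rfl))
      _ = ENNReal.ofReal ε * ENNReal.ofReal S * ENNReal.ofReal (2 * S) +
          ENNReal.ofReal S * ENNReal.ofReal ε * G := by ring
      _ = _ := by
          rw [← ENNReal.ofReal_mul hε, ← ENNReal.ofReal_mul (by positivity),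
            ← ENNReal.ofReal_mul hS0]
          congr 2
          ring
  rw [← ENNReal.ofReal_toReal hGfin] at h5 ⊢
  have g0 : 0 ≤ G.toReal := ENNReal.toReal_nonneg
  rw [← ENNReal.ofReal_mul (by positivity), ← ENNReal.ofReal_add (by positivity) (by positivity),
    ENNReal.ofReal_le_ofReal_iff (by positivity)] at h5
  refine ENNReal.ofReal_le_ofReal ?_
  nlinarith

/-- walks which start with a fall and end at their maximum -/
theorem UD_le {w : List Pt → ℝ≥0∞} (hw : SubM w) (hf : FlI w) (hnil : w [] ≤ 1) {S : ℕ}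
    (hS : 0 < S) {τ : ℝ} (hτ0 : 0 ≤ τ) (hτ : 2 * τ ≤ 1) (hΦ : wsum w (SM S) ≤ ENNReal.ofReal τ)
    (hfin : wsum w Walk ≠ ⊤) :
    wsum w (fun l => Walk l ∧ DnS S l ∧ EndMax l) ≤ ENNReal.ofReal (2 * τ ^ 2) := by
  set U := wsum w (fun l => Walk l ∧ UpS S l ∧ EndMax l) with hU
  set D := wsum w (fun l => Walk l ∧ DnS S l ∧ EndMax l) with hD
  have hUfin : U ≠ ⊤ := ne_top_of_le_ne_top hfin (wsum_mono w fun l hl => hl.1)
  have hDfin : D ≠ ⊤ := ne_top_of_le_ne_top hfin (wsum_mono w fun l hl => hl.1)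
  have h1 : U ≤ ENNReal.ofReal τ * (1 + D) := by
    calc U ≤ wsum w (SM S) * wsum w (fun l => (l = []) ∨ (Walk l ∧ DnS S l ∧ EndMax l)) := by
          refine wsum_mul hw ?_
          rintro l ⟨hl, hu, he⟩
          obtain ⟨k, hk, h2, h3⟩ := up_split hS hl hu
          refine ⟨l.take k, l.drop k, (List.take_append_drop k l).symm, h2, ?_⟩
          rcases h3 with h3 | h3
          · exact Or.inr ⟨hl.drop hk, h3, he.drop hk⟩
          · left
            by_contra hne
            have hp : 0 < (l.drop k).length := List.length_pos_iff.2 hne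
            have e1 := h3 _ hp le_rfl
            have e2 := he.drop hk 0 (Nat.zero_le _)
            rw [pos_zero, Prod.fst_zero] at e2
            omega
      _ ≤ _ := by
          refine mul_le_mul' hΦ ?_
          refine (wsum_or w (Q := fun l => l = [])
            (R := fun l => Walk l ∧ DnS S l ∧ EndMax l) fun l hl => hl).trans ?_
          rw [wsum_nil]
          exact add_le_add hnil le_rfl
  have h2 : D ≤ ENNReal.ofReal τ * U := by
    have e1 : D ≤ wsum w (fun l => SM S (l.map fl)) *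
        wsum w (fun l => Walk l ∧ UpS S l ∧ EndMax l) := by
      refine wsum_mul hw ?_
      rintro l ⟨hl, hu, he⟩
      obtain ⟨k, hk, h2, h3⟩ := up_split hS hl.flip (dn_flip.1 hu)
      rw [List.length_map] at hk
      rw [← List.map_take] at h2
      rw [← List.map_drop] at h3
      refine ⟨l.take k, l.drop k, (List.take_append_drop k l).symm, h2, hl.drop hk, ?_,
        he.drop hk⟩
      rcases h3 with h3 | h3
      · exact up_flip.2 h3
      · exfalso
        have e1 := h2.2.2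
        rw [← pos_len, List.length_map, pos_flip, List.length_take, min_eq_left hk,
          pos_take _ le_rfl] at e1
        simp only [fl] at e1
        have e2 := he 0 (Nat.zero_le _)
        rw [pos_zero, Prod.fst_zero] at e2
        rcases Nat.lt_or_ge k l.length with h4 | h4
        · have e3 := h3 (l.drop k).length (by rw [List.length_drop]; omega)
            (by rw [List.length_map])
          rw [pos_flip, pos_drop _ hk, List.length_drop,
            show k + (l.length - k) = l.length by omega] at e3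
          simp only [fl, Prod.fst_sub] at e3
          omega
        · rw [show l.length = k by omega] at e2
          omega
    refine e1.trans (mul_le_mul' ?_ le_rfl)
    refine (flip_le hf (Q := SM S) fun l hl => ?_).trans hΦ
    exact hl
  rw [← ENNReal.ofReal_toReal hUfin] at h1 h2
  rw [← ENNReal.ofReal_toReal hDfin] at h1 h2 ⊢
  have u0 : 0 ≤ U.toReal := ENNReal.toReal_nonneg
  have d0 : 0 ≤ D.toReal := ENNReal.toReal_nonneg
  rw [← ENNReal.ofReal_one, ← ENNReal.ofReal_add zero_le_one d0,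
    ← ENNReal.ofReal_mul hτ0, ENNReal.ofReal_le_ofReal_iff (by positivity)] at h1
  rw [← ENNReal.ofReal_mul hτ0, ENNReal.ofReal_le_ofReal_iff (by positivity)] at h2
  refine ENNReal.ofReal_le_ofReal ?_
  have e1 : U.toReal ≤ 2 * τ := by
    have e2 : 0 ≤ U.toReal * (1 - 2 * τ) := mul_nonneg u0 (by linarith)
    have e3 := mul_le_mul_of_nonneg_left h2 hτ0
    have e4 : 0 ≤ (τ * U.toReal) * (1 - 2 * τ) := mul_nonneg (by positivity) (by linarith)
    nlinarith
  nlinarith [mul_le_mul_of_nonneg_left e1 hτ0]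

/-- THREE SMALL FACTORS: bridges of span at least 9S with at most N+1 steps, if the bridges with
span in [S,3S) and at most N steps are rare -/
theorem wide_le {x : ℝ≥0∞} (hx : x ≠ ⊤) (hu : ∀ t, uu x t ≤ 1) {S N : ℕ} (hS : 0 < S) {ε : ℝ}
    (hε : 0 ≤ ε) (hε1 : 10 * (S ^ 2 * ε) ≤ 1)
    (hs : wsum (w0 x N) (fun l => Bridge l ∧ (S : ℤ) ≤ l.sum.1 ∧ l.sum.1 < 3 * S) ≤
      ENNReal.ofReal ε) :
    wsum (w0 x (N + 1)) (fun l => Bridge l ∧ 9 * (S : ℤ) ≤ l.sum.1) ≤
      ENNReal.ofReal (254 * S ^ 6 * ε ^ 3) := by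
  have hS1 : (1:ℝ) ≤ S := by exact_mod_cast hS
  have hS2 : (S:ℝ) ≤ S ^ 2 := by nlinarith
  have hSε : 2 * ((S:ℝ) * ε) ≤ 1 := by nlinarith [mul_le_mul_of_nonneg_right hS2 hε]
  have hw := w0_sub x N
  have hf := w0_fl x N
  have hfin := w0_fin hx N
  have h2 : wsum (w0 x N) (fun l => Bridge l ∧ 2 * (S : ℤ) ≤ l.sum.1 ∧ l.sum.1 < 3 * S) ≤
      ENNReal.ofReal ε := (wsum_mono _ fun l hl => ⟨hl.1, by have := hl.2.1; omega, hl.2.2⟩).trans hs
  have h3 : wsum (w0 x N) (fun l => Bridge l ∧ l.sum.1 < (S : ℤ)) ≤ ENNReal.ofReal S := by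
    rw [ENNReal.ofReal_natCast]
    exact (w0_le x N _).trans (span_lt_mass hu S)
  have h4 : wsum (w0 x N) (fun l => Bridge l ∧ l.sum.1 < 2 * (S : ℤ)) ≤
      ENNReal.ofReal (2 * S) := by
    have h5 := (w0_le x N (fun l => Bridge l ∧ l.sum.1 < ((2 * S : ℕ) : ℤ))).trans
      (span_lt_mass hu (2 * S))
    push_cast at h5
    rw [ENNReal.ofReal_mul (by norm_num), ENNReal.ofReal_natCast]
    simpa using h5
  have hG := G_le hw hf hS hfin hε hSε h2 h3 h4
  set G := wsum (w0 x N) (fun l => Bridge l ∧ Smono S l ∧ 2 * (S : ℤ) ≤ l.sum.1) with hGdef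
  -- all monotone bridges
  have hΦ : wsum (w0 x N) (SM S) ≤ ENNReal.ofReal (5 * S ^ 2 * ε) := by
    calc wsum (w0 x N) (SM S) ≤ wsum (w0 x N) (fun l => Bridge l ∧ (S : ℤ) ≤ l.sum.1 ∧
          l.sum.1 < 3 * S) + G := by
          refine wsum_or _ fun l hl => ?_
          rcases lt_or_ge l.sum.1 (3 * (S : ℤ)) with h | h
          · exact Or.inl ⟨hl.1, hl.2.2, h⟩
          · exact Or.inr ⟨hl.1, hl.2.1, by omega⟩
      _ ≤ ENNReal.ofReal ε + ENNReal.ofReal (4 * S ^ 2 * ε) := add_le_add hs hG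
      _ = ENNReal.ofReal (ε + 4 * S ^ 2 * ε) := (ENNReal.ofReal_add hε (by positivity)).symm
      _ ≤ _ := by
          refine ENNReal.ofReal_le_ofReal ?_
          have : 1 * ε ≤ S ^ 2 * ε := mul_le_mul_of_nonneg_right (by nlinarith) hε
          linarith
  have hD := UD_le hw hf (w0_nil x N) hS (τ := 5 * S ^ 2 * ε) (by positivity) (by linarith) hΦ hfin
  -- not monotone
  have hA : wsum (w0 x (N + 1)) (fun l => (Bridge l ∧ 9 * (S : ℤ) ≤ l.sum.1) ∧ ¬ Smono S l) ≤
      ENNReal.ofReal (5 * S ^ 2 * ε) * ENNReal.ofReal (2 * (5 * S ^ 2 * ε) ^ 2) := by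
    refine le_trans ?_ (mul_le_mul' hΦ hD)
    refine wsum_mul3 ?_
    rintro l ⟨⟨hb, h9⟩, hm⟩
    have hup : UpS S l := ⟨l.length, le_rfl, by rw [pos_len]; omega,
      fun i h1 h2 => (hb.2 i h1 h2).1⟩
    have hem : EndMax l := fun i hi => hb.le_end hi
    obtain ⟨k, hk, h5, h6⟩ := up_split hS hb.1 hup
    have hne : l.take k ≠ [] := by
      intro h
      have := h5.2.2
      rw [h] at this
      simp at this
      omega
    rcases h6 with h6 | h6
    · have hne2 : l.drop k ≠ [] := by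
        intro h
        obtain ⟨τ, h7, h8, -⟩ := h6
        rw [h] at h7 h8
        simp only [List.length_nil, Nat.le_zero] at h7
        subst h7
        simp at h8
        omega
      refine ⟨l.take k, l.drop k, (List.take_append_drop k l).symm, h5,
        ⟨hb.1.drop hk, h6, hem.drop hk⟩, ?_⟩
      have := w0_two (x := x) (N := N) hne hne2
      rwa [List.take_append_drop] at this
    · exfalso
      have hnil : l.drop k = [] := by
        by_contra hne
        have hp : 0 < (l.drop k).length := List.length_pos_iff.2 hne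
        have e1 := h6 _ hp le_rfl
        have e2 := hem.drop hk 0 (Nat.zero_le _)
        rw [pos_zero, Prod.fst_zero] at e2
        omega
      have hlk : l.length ≤ k := List.drop_eq_nil_iff.1 hnil
      have : l.take k = l := List.take_of_length_le hlk
      rw [this] at h5
      exact hm h5.2.1
  -- monotone
  have hB : wsum (w0 x (N + 1)) (fun l => (Bridge l ∧ 9 * (S : ℤ) ≤ l.sum.1) ∧ Smono S l) ≤
      ENNReal.ofReal ε * (ENNReal.ofReal S * (ENNReal.ofReal ε * (ENNReal.ofReal S *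
        ENNReal.ofReal (4 * S ^ 2 * ε)))) := by
    set R2 : List Pt → Prop := fun m => ∃ b c, m = b ++ c ∧
      (Bridge (b.map fl) ∧ (b.map fl).sum.1 < (S : ℤ)) ∧
      (Bridge c ∧ Smono S c ∧ 3 * (((1 : ℕ) : ℤ) + 1) * S ≤ c.sum.1) with hR2
    have e1 : wsum (w0 x (N + 1)) (fun l => (Bridge l ∧ 9 * (S : ℤ) ≤ l.sum.1) ∧ Smono S l) ≤
        wsum (w0 x N) (fun l => Bridge l ∧ 2 * (S : ℤ) ≤ l.sum.1 ∧ l.sum.1 < 3 * S) *
          wsum (w0 x N) R2 := by
      refine wsum_mul3 ?_
      rintro l ⟨⟨hb, h9⟩, hm⟩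
      obtain ⟨a, b, c, e, h1, h2, h3⟩ := col_cut hS hb hm (by omega)
      have h4 := h2.1.nonneg le_rfl
      rw [List.length_map, pos_flip, pos_len] at h4
      simp only [fl] at h4
      have h5 : l.sum.1 = a.sum.1 + (b.sum.1 + c.sum.1) := by
        rw [e, List.sum_append, List.sum_append]
        rfl
      have h6 := h1.2.2
      refine ⟨a, b ++ c, e, h1, ⟨b, c, rfl, h2, h3.1, h3.2, by push_cast; omega⟩, ?_⟩
      rw [e]
      refine w0_two ?_ ?_
      · rintro rfl
        have := h1.2.1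
        simp at this
        omega
      · intro h
        rw [List.append_eq_nil_iff] at h
        rw [h.1, h.2] at h5
        simp at h5
        omega
    refine e1.trans (mul_le_mul' h2 ?_)
    have e2 : wsum (w0 x N) R2 ≤ wsum (w0 x N) (fun b => Bridge (b.map fl) ∧
        (b.map fl).sum.1 < (S : ℤ)) *
        wsum (w0 x N) (fun c => Bridge c ∧ Smono S c ∧ 3 * (((1 : ℕ) : ℤ) + 1) * S ≤ c.sum.1) := by
      refine wsum_mul hw ?_
      rintro l ⟨b, c, e, h1, h2⟩
      exact ⟨b, c, e, h1, h2⟩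
    refine e2.trans (mul_le_mul' ((flip_le hf fun l hl => hl).trans h3) ?_)
    refine (col_iter hw hf hS 1).trans (mul_le_mul' h2 (mul_le_mul' h3 ?_))
    refine le_trans (wsum_mono _ fun l hl => ⟨hl.1, hl.2.1, ?_⟩) hG
    have := hl.2.2
    push_cast at this
    omega
  calc wsum (w0 x (N + 1)) (fun l => Bridge l ∧ 9 * (S : ℤ) ≤ l.sum.1)
      ≤ ENNReal.ofReal (5 * S ^ 2 * ε) * ENNReal.ofReal (2 * (5 * S ^ 2 * ε) ^ 2) +
        ENNReal.ofReal ε * (ENNReal.ofReal S * (ENNReal.ofReal ε * (ENNReal.ofReal S *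
        ENNReal.ofReal (4 * S ^ 2 * ε)))) := by
        refine le_trans ?_ (add_le_add hA hB)
        refine wsum_or _ fun l hl => ?_
        by_cases h : Smono S l
        · exact Or.inr ⟨hl, h⟩
        · exact Or.inl ⟨hl, h⟩
    _ = ENNReal.ofReal (5 * S ^ 2 * ε * (2 * (5 * S ^ 2 * ε) ^ 2) +
        ε * (S * (ε * (S * (4 * S ^ 2 * ε))))) := by
        rw [← ENNReal.ofReal_mul (by positivity), ← ENNReal.ofReal_mul (by positivity),
          ← ENNReal.ofReal_mul (by positivity), ← ENNReal.ofReal_mul (by positivity),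
          ← ENNReal.ofReal_mul (by positivity), ← ENNReal.ofReal_add (by positivity)
            (by positivity)]
    _ ≤ _ := by
        refine ENNReal.ofReal_le_ofReal ?_
        have h5 : (S:ℝ) ^ 4 ≤ S ^ 6 := pow_le_pow_right₀ hS1 (by norm_num)
        have h6 : (S:ℝ) ^ 4 * ε ^ 3 ≤ S ^ 6 * ε ^ 3 :=
          mul_le_mul_of_nonneg_right h5 (by positivity)
        nlinarith

end Pool.Agent.Work.MP_376faf_co_gap
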