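import Pool.Agent.Work.MP_376faf_co_poly.FM

/-! The reflection inequality for y-bridges with a prescribed sequence of heights. -/

set_option autoImplicit false

namespace Pool.Agent.Work.MP_376faf_co_gap

open Pool.Agent.Work.MP_376faf_co_lower Pool.Agent.Work.MP_376faf_co_hw
open Pool.Agent.Work.MP_376faf_co_poly
open Pool.Agent.Work.MP_376faf_co_neps.Abs (US)

/-- heights -/
def ys (l : List Pt) (k : ℕ) : ℤ := (pos l k).2

theorem ys_fd {l : List Pt} {i : ℕ} (hi : i ≤ l.length) : ys (fd l i) = ys l := by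
  funext k
  unfold ys
  rcases Nat.le_total k i with h | h
  · rw [pos_fd_le hi h]
  · rw [pos_fd_ge hi h]

theorem ys_fd2 {l : List Pt} {i j : ℕ} (hij : i ≤ j) (hj : j ≤ l.length) :
    ys (fd2 l i j) = ys l := by
  funext k
  unfold ys
  rcases Nat.le_total k i with h | h
  · rw [pos_fd2_le hij hj h]
  · rcases Nat.le_total k j with h' | h'
    · rw [pos_fd2_mid hij hj h h']
    · rw [pos_fd2_ge hij hj h']

theorem ys_fl (l : List Pt) : ys (l.map fl) = ys l := by
  funext k
  unfold ys
  rw [pos_flip]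
  rfl

/-- walks with `n` steps whose heights satisfy `K` -/
def VK (n : ℕ) (K : (ℕ → ℤ) → Prop) (l : List Pt) : Prop := Walk l ∧ l.length = n ∧ K (ys l)

/-- `K` contains only heights of bridges in the second direction -/
def YB (n : ℕ) (K : (ℕ → ℤ) → Prop) : Prop :=
  ∀ y, K y → ∀ k, 0 < k → k ≤ n → y 0 < y k ∧ y k ≤ y n

/-- the walks to be folded -/
def HO (n : ℕ) (K : (ℕ → ℤ) → Prop) (e : ℕ) (h : List Pt) : Prop :=
  VK n K h ∧ (∃ k ≤ n, 1 ≤ (pos h k).1) ∧ (pos h n).1 ≤ -(e : ℤ)

/-- the images -/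
def HE (n : ℕ) (K : (ℕ → ℤ) → Prop) (e : ℕ) (h : List Pt) : Prop :=
  VK n K h ∧ (e : ℤ) + 2 ≤ (pos h n).1

theorem mem_fd {l : List Pt} {i : ℕ} (hl : ∀ s ∈ l, Un s) : ∀ s ∈ fd l i, Un s := by
  intro s hs
  unfold fd at hs
  rcases List.mem_append.1 hs with h | h
  · exact hl s (List.mem_of_mem_take h)
  · obtain ⟨t, ht, rfl⟩ := List.mem_map.1 h
    exact Un_fl (hl t (List.mem_of_mem_drop ht))

theorem inj_of_lt {l : List Pt} (h : ∀ a b, a < b → b ≤ l.length → pos l a ≠ pos l b) :
    Set.InjOn (pos l) (Set.Iic l.length) := by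
  intro a ha b hb hab
  rw [Set.mem_Iic] at ha hb
  rcases Nat.lt_trichotomy a b with h1 | h1 | h1
  · exact absurd hab (h a b h1 hb)
  · exact h1
  · exact absurd hab.symm (h b a h1 ha)

/-- unfolding at the last maximum -/
theorem unfold_walk {l : List Pt} (hl : Walk l) {t : ℕ} (ht : t ≤ l.length)
    (h1 : ∀ k ≤ t, (pos l k).1 ≤ (pos l t).1)
    (h2 : ∀ k, t < k → k ≤ l.length → (pos l k).1 < (pos l t).1) : Walk (fd l t) := by
  refine ⟨mem_fd hl.1, inj_of_lt ?_⟩
  rw [fd_length]
  intro a b hab hb heq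
  rcases Nat.le_total b t with h3 | h3
  · rw [pos_fd_le ht h3, pos_fd_le ht (by omega)] at heq
    have := hl.2 (Set.mem_Iic.2 (by omega)) (Set.mem_Iic.2 hb) heq
    omega
  · rcases Nat.le_total t a with h4 | h4
    · rw [pos_fd_ge ht h3, pos_fd_ge ht h4] at heq
      have e1 := congrArg Prod.fst heq
      have e2 := congrArg Prod.snd heq
      simp only at e1 e2
      have := hl.2 (Set.mem_Iic.2 (by omega)) (Set.mem_Iic.2 hb)
        (Prod.ext (by omega) e2 : pos l a = pos l b)
      omega
    · rcases Nat.eq_or_lt_of_le h3 with h5 | h5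
      · subst h5
        rw [pos_fd_le ht le_rfl, pos_fd_le ht h4] at heq
        have := hl.2 (Set.mem_Iic.2 (by omega)) (Set.mem_Iic.2 hb) heq
        omega
      · rw [pos_fd_ge ht h3, pos_fd_le ht h4] at heq
        have e1 := congrArg Prod.fst heq
        simp only at e1
        have e3 := h1 a h4
        have e4 := h2 b h5 hb
        omega

/-- the double fold is self-avoiding -/
theorem closureK {n : ℕ} {w : List Pt} (hw : Walk w) (hn : w.length = n)
    (hy : ∀ k, 0 < k → k ≤ n → (pos w 0).2 < (pos w k).2 ∧ (pos w k).2 ≤ (pos w n).2)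
    {i j : ℕ} (hij : i < j) (hjn : j < n)
    (himax : ∀ k ≤ i, (pos w k).1 ≤ (pos w i).1)
    (hjr : ∀ k, j < k → k ≤ n → (pos w j).1 < (pos w k).1)
    (hi : Walk (fd w i)) (hj : Walk (fd w j)) : Walk (fd2 w i j) := by
  have hjl : j ≤ w.length := by omega
  have hle : ∀ k ≤ i, pos (fd2 w i j) k = pos w k := fun k hk => pos_fd2_le hij.le hjl hk
  have hge : ∀ k, j ≤ k → pos (fd2 w i j) k =
      ((pos w k).1 - 2 * ((pos w j).1 - (pos w i).1), (pos w k).2) :=
    fun k h1 => pos_fd2_ge hij.le hjl h1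
  have hlen : (fd2 w i j).length = n := by rw [fd2_length hij.le hjl, hn]
  have hfi : ∀ a ≤ i, ∀ b ≤ n, i < b → (pos w a).1 = 2 * (pos w i).1 - (pos w b).1 →
      (pos w a).2 = (pos w b).2 → False := by
    intro a ha b hb hib h5 h6
    have h7 : pos (fd w i) a = pos (fd w i) b := by
      rw [pos_fd_le (by omega) ha, pos_fd_ge (by omega) hib.le]
      exact Prod.ext h5 h6
    have h8 := hi.2 (Set.mem_Iic.2 (by rw [fd_length]; omega))
      (Set.mem_Iic.2 (by rw [fd_length]; omega)) h7
    omega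
  have hfj : ∀ a ≤ j, ∀ b ≤ n, j < b → (pos w a).1 = 2 * (pos w j).1 - (pos w b).1 →
      (pos w a).2 = (pos w b).2 → False := by
    intro a ha b hb hjb h5 h6
    have h7 : pos (fd w j) a = pos (fd w j) b := by
      rw [pos_fd_le hjl ha, pos_fd_ge hjl hjb.le]
      exact Prod.ext h5 h6
    have h8 := hj.2 (Set.mem_Iic.2 (by rw [fd_length]; omega))
      (Set.mem_Iic.2 (by rw [fd_length]; omega)) h7
    omega
  -- `P` and `R'` are disjoint
  have hPR : ∀ k ≤ i, ∀ l ≤ n, j < l → pos (fd2 w i j) k = pos (fd2 w i j) l → False := by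
    intro k hk l hl hjl2 heq
    rw [hle k hk, hge l hjl2.le] at heq
    have h1 := congrArg Prod.fst heq
    have h2 := congrArg Prod.snd heq
    simp only at h1 h2
    have h3 := hjr l hjl2 hl
    have h4 := himax k hk
    rcases le_or_gt (pos w j).1 (pos w i).1 with hd | hd
    · omega
    · refine (ray_gen n (fun k => (pos w k).1) (fun k => (pos w k).2) ?_ i j hij hjn ?_
        himax (fun k hk hjk => hjr k hjk hk) hd hfi hfj ?_ ?_ ?_ ?_ ?_).1 k hk l hl hjl2 h1 h2
      · intro m hm
        have h5 := pos_succ w (i := m) (by omega)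
        have h6 := hw.1 w[m] (List.getElem_mem _)
        unfold US
        simp only
        rw [h5]
        simpa [Un] using h6
      · intro a ha b hb h5 h6
        exact hw.2 (Set.mem_Iic.2 (by omega)) (Set.mem_Iic.2 (by omega)) (Prod.ext h5 h6)
      · intro _
        rcases Nat.eq_zero_or_pos i with h5 | h5
        · rw [h5]
        · exact (hy i h5 (by omega)).1.le
      · intro b hb hib _
        exact (hy b (by omega) hb).1
      · intro b hb hjb _
        exact (hy b (by omega) hb).1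
      · intro a ha h5
        have h6 := hfi a ha n le_rfl (by omega) h5
        rcases Nat.eq_zero_or_pos a with h7 | h7
        · rw [h7]
          exact (hy n (by omega) le_rfl).1
        · exact lt_of_le_of_ne (hy a h7 (by omega)).2 h6
      · intro a ha h5
        have h6 := hfj a ha n le_rfl hjn h5
        rcases Nat.eq_zero_or_pos a with h7 | h7
        · rw [h7]
          exact (hy n (by omega) le_rfl).1
        · exact lt_of_le_of_ne (hy a h7 (by omega)).2 h6
  refine ⟨?_, inj_of_lt ?_⟩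
  · intro s hs
    unfold fd2 at hs
    rcases List.mem_append.1 hs with h1 | h1
    · exact hw.1 s (List.mem_of_mem_take h1)
    · rcases List.mem_append.1 h1 with h2 | h2
      · obtain ⟨s', hs', rfl⟩ := List.mem_map.1 h2
        exact Un_fl (hw.1 s' (List.mem_of_mem_drop (List.mem_of_mem_take hs')))
      · exact hw.1 s (List.mem_of_mem_drop h2)
  · rw [hlen]
    intro k l hkl hl heq
    rcases Nat.le_total l j with h1 | h1
    · have h2 : fd (fd2 w i j) j = fd w i := fd_fd2_right hij.le hjl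
      have h3 : pos (fd w i) k = pos (fd w i) l := by
        rw [← h2, pos_fd_le (by rw [hlen]; omega) (by omega), pos_fd_le (by rw [hlen]; omega) h1,
          heq]
      have h4 := hi.2 (Set.mem_Iic.2 (by rw [fd_length]; omega))
          (Set.mem_Iic.2 (by rw [fd_length]; omega)) h3
      omega
    · rcases Nat.le_total i k with h5 | h5
      · have h2 : fd (fd2 w i j) i = fd w j := fd_fd2_left hij.le hjl
        have h3 : pos (fd w j) k = pos (fd w j) l := by
          rw [← h2, pos_fd_ge (by rw [hlen]; omega) h5, pos_fd_ge (by rw [hlen]; omega) (by omega),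
            heq]
        have h4 := hj.2 (Set.mem_Iic.2 (by rw [fd_length]; omega))
            (Set.mem_Iic.2 (by rw [fd_length]; omega)) h3
        omega
      · rcases Nat.eq_or_lt_of_le h1 with h6 | h6
        · subst h6
          have h2 : fd (fd2 w i j) j = fd w i := fd_fd2_right hij.le hjl
          have h3 : pos (fd w i) k = pos (fd w i) j := by
            rw [← h2, pos_fd_le (by rw [hlen]; omega) (by omega),
              pos_fd_le (by rw [hlen]; omega) le_rfl, heq]
          have h4 := hi.2 (Set.mem_Iic.2 (by rw [fd_length]; omega))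
              (Set.mem_Iic.2 (by rw [fd_length]; omega)) h3
          omega
        · exact hPR k h5 l hl h6 heq

theorem finite_VK (n : ℕ) (K : (ℕ → ℤ) → Prop) (P : List Pt → Prop) :
    {l : List Pt | VK n K l ∧ P l}.Finite :=
  (finite_walk n).subset fun _ hl => ⟨hl.1.1, hl.1.2.1⟩

open Classical in
/-- marks of type R -/
noncomputable def RK (n : ℕ) (K : (ℕ → ℤ) → Prop) (e : ℕ) (w : List Pt) : Finset ℕ :=
  (Finset.range n).filter fun i =>
    (∀ k ≤ i, (pos w k).1 ≤ (pos w i).1) ∧ (pos w (i + 1)).1 ≠ (pos w i).1 ∧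
      1 ≤ (pos w i).1 ∧ HO n K e (fd w i)

open Classical in
/-- marks of type L -/
noncomputable def LK (n : ℕ) (K : (ℕ → ℤ) → Prop) (e : ℕ) (w : List Pt) : Finset ℕ :=
  (Finset.range (n + 1)).filter fun j =>
    (∀ k, j < k → k ≤ n → (pos w j).1 < (pos w k).1) ∧ HO n K e (fd w j)

open Classical in
/-- Reflection inequality, injection form. -/
theorem ri_inj (n : ℕ) {K : (ℕ → ℤ) → Prop} (hK : YB n K) (e : ℕ) : ∃ g : List Pt → List Pt,
    Set.InjOn g {h | HO n K e h} ∧ ∀ h, HO n K e h → HE n K e (g h) := by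
  have hO : ∀ h, h ∈ (finite_VK n K (fun h => (∃ k ≤ n, 1 ≤ (pos h k).1) ∧
      (pos h n).1 ≤ -(e : ℤ))).toFinset ↔ HO n K e h := fun h => by simp [HO]
  have hE : ∀ w, w ∈ (finite_VK n K (fun h => (e : ℤ) + 2 ≤ (pos h n).1)).toFinset ↔
      HE n K e w := fun w => by simp [HE]
  have hR : ∀ w i, i ∈ RK n K e w ↔ i < n ∧ (∀ k ≤ i, (pos w k).1 ≤ (pos w i).1) ∧
      (pos w (i + 1)).1 ≠ (pos w i).1 ∧ 1 ≤ (pos w i).1 ∧ HO n K e (fd w i) := by
    intro w i
    unfold RK
    rw [Finset.mem_filter, Finset.mem_range]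
  have hL : ∀ w j, j ∈ LK n K e w ↔ j ≤ n ∧ (∀ k, j < k → k ≤ n → (pos w j).1 < (pos w k).1) ∧
      HO n K e (fd w j) := by
    intro w j
    unfold LK
    rw [Finset.mem_filter, Finset.mem_range, Nat.lt_succ_iff]
  have hex : ∀ h : List Pt, ∃ t, t ≤ n ∧ (∀ k ≤ n, (pos h k).1 ≤ (pos h t).1) ∧
      ∀ k, t < k → k ≤ n → (pos h k).1 < (pos h t).1 := by
    intro h
    obtain ⟨t, h1, h2, h3⟩ := last_max (fun k => (pos h k).1) n
    exact ⟨t, h1, h2, h3⟩
  choose t ht using hex
  have hF : Pool.Agent.Work.MP_376faf_co_log.FSys (finite_VK n K (fun h =>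
      (∃ k ≤ n, 1 ≤ (pos h k).1) ∧ (pos h n).1 ≤ -(e : ℤ))).toFinset
      (finite_VK n K (fun h => (e : ℤ) + 2 ≤ (pos h n).1)).toFinset (RK n K e) (LK n K e)
      fd sgn fd2 (fun h => fd h (t h)) t := by
    refine ⟨?_, ?_, ?_, ?_, ?_⟩
    · intro w hw i hi j hj hij
      rw [hE] at hw
      rw [hR] at hi
      rw [hL] at hj
      obtain ⟨⟨hw1, hwn, hwK⟩, hwe⟩ := hw
      obtain ⟨hin, himax, hih, hiX, hiH⟩ := hi
      obtain ⟨hjn, hjr, hjH⟩ := hj
      have hjl : j ≤ w.length := by omega
      have hil : i ≤ w.length := by omega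
      have hei := hiH.2.2
      rw [pos_fd_ge hil (by omega)] at hei
      have hej := hjH.2.2
      rw [pos_fd_ge hjl (by omega)] at hej
      simp only at hei hej
      have hjn' : j < n := by
        rcases Nat.eq_or_lt_of_le hjn with h | h
        · rw [← h] at hej hwe
          omega
        · exact h
      have hcl := closureK hw1 hwn (hK _ hwK) hij hjn' himax hjr hiH.1.1 hjH.1.1
      have hlen : (fd2 w i j).length = n := by rw [fd2_length hij.le hjl, hwn]
      have e1 := fd_fd2_left hij.le hjl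
      have e2 := fd_fd2_right hij.le hjl
      refine ⟨(hE _).2 ⟨⟨hcl, hlen, ?_⟩, ?_⟩, (hR _ _).2 ⟨hin, ?_, ?_, ?_, ?_⟩,
        (hL _ _).2 ⟨hjn, ?_, ?_⟩, fd2_fd2 hij.le hjl, e1, e2, sgn_fd2 hij hjl hih⟩
      · rw [ys_fd2 hij.le hjl]
        exact hwK
      · rw [pos_fd2_ge hij.le hjl hjn]
        simp only
        omega
      · intro k hk
        rw [pos_fd2_le hij.le hjl hk, pos_fd2_le hij.le hjl le_rfl]
        exact himax k hk
      · rw [pos_fd2_mid hij.le hjl (by omega) (by omega), pos_fd2_le hij.le hjl le_rfl]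
        simp only
        omega
      · rw [pos_fd2_le hij.le hjl le_rfl]
        exact hiX
      · rw [e1]
        exact hjH
      · intro k hk hkn
        rw [pos_fd2_ge hij.le hjl hk.le, pos_fd2_ge hij.le hjl le_rfl]
        simp only
        have := hjr k hk hkn
        omega
      · rw [e2]
        exact hiH
    · intro w _ j _
      rcases sgn_cases w j with h | h <;> rw [h] <;> norm_num
    · intro w _ j _
      rcases sgn_cases w j with h | h <;> rw [h] <;> norm_num
    · intro w _ i hi _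
      rw [hR] at hi
      exact sgn_max w i hi.2.1
    · intro h hh
      rw [hO] at hh
      obtain ⟨h1, h2, h3⟩ := ht h
      obtain ⟨⟨g1, g2, g3⟩, ⟨k0, hk0, g4⟩, g5⟩ := hh
      have h4 := h2 k0 hk0
      have htn : t h < n := by
        rcases Nat.eq_or_lt_of_le h1 with h7 | h7
        · rw [← h7] at g5
          omega
        · exact h7
      have htl : t h ≤ h.length := by omega
      have hfw : Walk (fd h (t h)) := unfold_walk g1 htl (fun k hk => h2 k (by omega))
        (fun k hk hk2 => h3 k hk (by omega))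
      have hff := fd_fd htl
      have hHO : HO n K e (fd (fd h (t h)) (t h)) := by
        rw [hff]
        exact ⟨⟨g1, g2, g3⟩, ⟨k0, hk0, g4⟩, g5⟩
      refine ⟨(hE _).2 ⟨⟨hfw, by rw [fd_length, g2], by rw [ys_fd htl]; exact g3⟩, ?_⟩,
        (hR _ _).2 ⟨htn, ?_, ?_, ?_, hHO⟩, (hL _ _).2 ⟨h1, ?_, hHO⟩, hff⟩
      · rw [pos_fd_ge htl (by omega)]
        simp only
        omega
      · intro k hk
        rw [pos_fd_le htl hk, pos_fd_le htl le_rfl]
        exact h2 k (by omega)
      · rw [pos_fd_ge htl (by omega), pos_fd_le htl le_rfl]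
        have := h3 (t h + 1) (by omega) (by omega)
        simp only
        omega
      · rw [pos_fd_le htl le_rfl]
        omega
      · intro k hk hkn
        rw [pos_fd_ge htl hk.le, pos_fd_le htl le_rfl]
        have := h3 k hk hkn
        simp only
        omega
  obtain ⟨g, hg1, hg2⟩ := Pool.Agent.Work.MP_376faf_co_log.ferm_inj hF
  refine ⟨g, ?_, ?_⟩
  · intro a ha b hb hab
    exact hg1 ((hO a).2 ha) ((hO b).2 hb) hab
  · intro h hh
    exact (hE _).1 (hg2 h ((hO h).2 hh)).1

/-- end at least `e` -/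
def NE (n : ℕ) (K : (ℕ → ℤ) → Prop) (e : ℕ) : Set (List Pt) :=
  {l | VK n K l ∧ (e : ℤ) ≤ (pos l n).1}

/-- start in the first column -/
def NM (n : ℕ) (K : (ℕ → ℤ) → Prop) : Set (List Pt) :=
  {l | VK n K l ∧ ∀ k ≤ n, 0 ≤ (pos l k).1}

theorem ne_step (n : ℕ) {K : (ℕ → ℤ) → Prop} (hK : YB n K) (e : ℕ) :
    (NE n K e).ncard ≤ (NE n K (e + 2)).ncard + (NM n K).ncard := by
  have h1 : NE n K e ⊆ (NE n K e ∩ {l | ∃ k ≤ n, (pos l k).1 ≤ -1}) ∪ NM n K := by
    intro l hl
    by_cases h : ∃ k ≤ n, (pos l k).1 ≤ -1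
    · exact Or.inl ⟨hl, h⟩
    · right
      push Not at h
      exact ⟨hl.1, fun k hk => by have := h k hk; omega⟩
  have hf : (NE n K e ∩ {l | ∃ k ≤ n, (pos l k).1 ≤ -1}).Finite :=
    (finite_VK n K (fun l => (e : ℤ) ≤ (pos l n).1)).subset fun l hl => hl.1
  have h2 : (NE n K e ∩ {l | ∃ k ≤ n, (pos l k).1 ≤ -1}).ncard ≤ (NE n K (e + 2)).ncard := by
    obtain ⟨g, hg1, hg2⟩ := ri_inj n hK e
    have key : ∀ l ∈ NE n K e ∩ {l | ∃ k ≤ n, (pos l k).1 ≤ -1}, HO n K e (l.map fl) := by
      rintro l ⟨⟨⟨h1, h2, h3⟩, h4⟩, ⟨k, hk, h5⟩⟩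
      refine ⟨⟨h1.flip, by rw [List.length_map, h2], by rw [ys_fl]; exact h3⟩, ⟨k, hk, ?_⟩, ?_⟩
      · rw [pos_flip]
        simp only [fl]
        omega
      · rw [pos_flip]
        simp only [fl]
        omega
    refine Set.ncard_le_ncard_of_injOn (fun l => g (l.map fl)) ?_ ?_
      (finite_VK n K (fun l => ((e + 2 : ℕ) : ℤ) ≤ (pos l n).1))
    · intro l hl
      have h3 := hg2 _ (key l hl)
      refine ⟨h3.1, ?_⟩
      have h4 := h3.2
      push_cast
      exact h4
    · intro a ha b hb hab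
      have h3 := hg1 (key a ha) (key b hb) hab
      exact List.map_injective_iff.2 fl_inj h3
  refine (Set.ncard_le_ncard h1 (hf.union (finite_VK n K _))).trans ?_
  refine (Set.ncard_union_le _ _).trans ?_
  omega

theorem abs_pos_le {l : List Pt} (hu : ∀ s ∈ l, Un s) {i : ℕ} (hi : i ≤ l.length) :
    |(pos l i).1| ≤ i ∧ |(pos l i).2| ≤ i := by
  induction i with
  | zero => simp
  | succ i ih =>
    have h1 := ih (by omega)
    rw [pos_succ l (by omega)]
    have h3 := hu _ (List.getElem_mem (show i < l.length by omega))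
    have h4 := abs_add_le (pos l i).1 (l[i]).1
    have h5 := abs_add_le (pos l i).2 (l[i]).2
    have h6 := abs_nonneg (l[i]).1
    have h7 := abs_nonneg (l[i]).2
    unfold Un at h3
    rw [Prod.fst_add, Prod.snd_add]
    push_cast
    omega

/-- Telescoping: y-bridges with prescribed heights against those which start in their first
column. -/
theorem ri_ncard (n : ℕ) {K : (ℕ → ℤ) → Prop} (hK : YB n K) :
    {l | VK n K l}.ncard ≤ (n + 2) * (NM n K).ncard := by
  have h0 : ∀ j e : ℕ, n < e + 2 * j → (NE n K e).ncard ≤ j * (NM n K).ncard := by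
    intro j
    induction j with
    | zero =>
      intro e he
      have : NE n K e = ∅ := by
        ext l
        simp only [Set.mem_empty_iff_false, iff_false]
        rintro ⟨⟨h1, h2, h3⟩, h4⟩
        have h5 := (abs_pos_le h1.1 (i := n) (by omega)).1
        have h6 := le_abs_self (pos l n).1
        omega
      rw [this, Set.ncard_empty]
      exact Nat.zero_le _
    | succ j ih =>
      intro e he
      have h1 := ne_step n hK e
      have h2 := ih (e + 2) (by omega)
      rw [Nat.succ_mul]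
      omega
  have h1 := h0 (n / 2 + 1) 0 (by omega)
  have h2 : {l | VK n K l} ⊆ NE n K 0 ∪ (fun l : List Pt => l.map fl) '' (NE n K 0) := by
    intro l hl
    rcases le_total 0 (pos l n).1 with h | h
    · exact Or.inl ⟨hl, by simpa using h⟩
    · right
      refine ⟨l.map fl, ⟨⟨hl.1.flip, by rw [List.length_map, hl.2.1], by rw [ys_fl]; exact hl.2.2⟩,
        ?_⟩, ?_⟩
      · rw [pos_flip]
        simp only [fl]
        push_cast
        omega
      · simp only [List.map_map]
        have h2 : fl ∘ fl = id := by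
          funext s
          exact fl_fl s
        rw [h2, List.map_id]
  have hf : (NE n K 0).Finite := finite_VK n K (fun l => ((0 : ℕ) : ℤ) ≤ (pos l n).1)
  have h3 := (Set.ncard_le_ncard h2 (hf.union (hf.image _))).trans (Set.ncard_union_le _ _)
  have h4 := Set.ncard_image_le (f := fun l : List Pt => l.map fl) hf
  have h5 : 2 * (n / 2 + 1) * (NM n K).ncard ≤ (n + 2) * (NM n K).ncard :=
    Nat.mul_le_mul_right _ (by omega)
  rw [mul_assoc] at h5
  omega

end Pool.Agent.Work.MP_376faf_co_gap
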