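import Pool.Agent.Work.MP_376faf_co_win.Flat
import Pool.Agent.Work.MP_376faf_co_gap.CornerFam
import Pool.Agent.Work.MP_376faf_co_gap.Refl
import Pool.Agent.Work.MP_376faf_co_gap.MinLen

/-! Masses of walks with exposed ends. -/

set_option autoImplicit false

namespace Pool.Agent.Work.MP_376faf_co_gap

open Pool.Agent.Work.MP_376faf_co_lower Pool.Agent.Work.MP_376faf_co_hw
open Pool.Agent.Work.MP_376faf_co_win
open scoped ENNReal

theorem brmass_le {x : ℝ≥0∞} (hu : ∀ t, uu x t ≤ 1) (M : ℕ) :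
    mass x (fun l => Bridge l ∧ l.length ≤ M) ≤ ((M + 1 : ℕ) : ℝ≥0∞) := by
  refine (mass_mono x fun l hl => ⟨hl.1, ?_⟩).trans (span_lt_mass hu (M + 1))
  have h1 := (abs_pos_le hl.1.1.1 (le_refl l.length)).1
  rw [pos_len] at h1
  have h2 := le_abs_self l.sum.1
  have h3 := hl.2
  push_cast
  omega

/-- both ends in the first column -/
theorem expo0 {x : ℝ≥0∞} (hx0 : x ≠ 0) (hx : x ≠ ⊤) (hu : ∀ t, uu x t ≤ 1) (N : ℕ) :
    mass x (fun l => Walk l ∧ l.length ≤ N ∧ l.sum.1 = 0 ∧ ∀ k ≤ l.length, 0 ≤ (pos l k).1) ≤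
      x⁻¹ * (((N + 2 : ℕ) : ℝ≥0∞) * ((N + 2 : ℕ) : ℝ≥0∞)) := by
  have h1 : mass x (fun l => Walk l ∧ l.length ≤ N ∧ l.sum.1 = 0 ∧
      ∀ k ≤ l.length, 0 ≤ (pos l k).1) ≤
      wsum (fun l => x ^ l.length) (fun a => Bridge ((1, 0) :: a) ∧ a.length ≤ N) *
      wsum (fun l => x ^ l.length) (fun b => Bridge (b.map fl) ∧ b.length ≤ N) := by
    rw [mass_eq]
    refine wsum_mul3 ?_
    rintro l ⟨hl, hlN, h0, hk⟩
    obtain ⟨t, ht, h1, h2⟩ := last_max (fun k => (pos l k).1) l.length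
    have hlt : (l.take t).length = t := by rw [List.length_take, min_eq_left ht]
    have hld : (l.drop t).length = l.length - t := List.length_drop
    refine ⟨l.take t, l.drop t, (List.take_append_drop t l).symm, ⟨⟨?_, ?_⟩, by omega⟩,
      ⟨⟨(hl.drop ht).flip, ?_⟩, by omega⟩, ?_⟩
    · refine walk_cons (by simp [Un]) (hl.take t) ?_
      intro j hj heq
      rw [hlt] at hj
      rw [pos_take _ hj] at heq
      have e1 := congrArg Prod.fst heq
      have e2 := hk j (by omega)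
      simp only [Prod.fst_add, Prod.fst_zero] at e1
      omega
    · intro i hi0 hi
      obtain ⟨i, rfl⟩ : ∃ k, i = k + 1 := ⟨i - 1, by omega⟩
      rw [List.length_cons, hlt] at hi ⊢
      rw [pos_cons, pos_cons, pos_take _ (by omega), pos_take _ le_rfl, Prod.fst_add,
        Prod.fst_add]
      have e1 := h1 i (by omega)
      have e2 := hk i (by omega)
      simp only at e1 ⊢
      omega
    · intro i hi0 hi
      rw [List.length_map, hld] at hi ⊢
      rw [pos_flip, pos_flip, pos_drop _ ht, pos_drop _ ht]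
      have e1 := h2 (t + i) (by omega) (by omega)
      have e2 := hk (t + i) (by omega)
      have e3 : (pos l (t + (l.length - t))).1 = 0 := by
        rw [show t + (l.length - t) = l.length by omega, pos_len, h0]
      simp only [fl, Prod.fst_sub] at e1 ⊢
      omega
    · rw [← pow_add, ← List.length_append, List.take_append_drop]
  refine h1.trans ?_
  have h2 : wsum (fun l => x ^ l.length) (fun a => Bridge ((1, 0) :: a) ∧ a.length ≤ N) ≤
      x⁻¹ * ((N + 2 : ℕ) : ℝ≥0∞) := by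
    refine le_trans ?_ (mul_le_mul' le_rfl (brmass_le hu (N + 1)))
    unfold wsum mass
    rw [← ENNReal.tsum_mul_left]
    refine tsum_le_inj (fun l : {a : List Pt // Bridge ((1, 0) :: a) ∧ a.length ≤ N} =>
      (⟨(1, 0) :: l.1, l.2.1, by rw [List.length_cons]; omega⟩ :
        {l : List Pt // Bridge l ∧ l.length ≤ N + 1})) ?_ ?_
    · intro a b hab
      have h3 := congrArg Subtype.val hab
      exact Subtype.ext (List.cons.inj h3).2
    · intro l
      simp only
      rw [List.length_cons, pow_succ', ← mul_assoc, ENNReal.inv_mul_cancel hx0 hx, one_mul]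
  have h3 : wsum (fun l => x ^ l.length) (fun b => Bridge (b.map fl) ∧ b.length ≤ N) ≤
      ((N + 2 : ℕ) : ℝ≥0∞) := by
    have h4 : wsum (fun l => x ^ l.length) (fun b => Bridge (b.map fl) ∧ b.length ≤ N) ≤
        wsum (fun l => x ^ l.length) (fun b => Bridge b ∧ b.length ≤ N) := by
      refine flip_le (fun l => by simp only [List.length_map]) fun l hl => ?_
      exact ⟨hl.1, by rw [List.length_map]; exact hl.2⟩
    refine h4.trans ((brmass_le hu N).trans ?_)
    exact_mod_cast (by omega : N + 1 ≤ N + 2)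
  calc _ ≤ (x⁻¹ * ((N + 2 : ℕ) : ℝ≥0∞)) * ((N + 2 : ℕ) : ℝ≥0∞) := mul_le_mul' h2 h3
    _ = _ := by ring

/-- start rightmost, end topmost, length and height fixed -/
def RT (n h : ℕ) (l : List Pt) : Prop := Walk l ∧ l.length = n ∧
  (∀ k ≤ n, (pos l k).1 ≤ 0) ∧ (∀ k ≤ n, (pos l k).2 ≤ h) ∧ l.sum.2 = h

theorem rt_sq {x : ℝ≥0∞} (hx0 : x ≠ 0) (hx : x ≠ ⊤) (hu : ∀ t, uu x t ≤ 1) (n h : ℕ) :
    mass x (RT n h) * mass x (RT n h) ≤
      x⁻¹ * (x⁻¹ * (((2 * n + 3 : ℕ) : ℝ≥0∞) * ((2 * n + 3 : ℕ) : ℝ≥0∞))) := by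
  refine le_trans ?_ (mul_le_mul' le_rfl (expo0 hx0 hx hu (2 * n + 1)))
  unfold mass
  rw [← tsum_mul (fun l : {l // RT n h l} => x ^ l.1.length)
    (fun l : {l // RT n h l} => x ^ l.1.length), ← ENNReal.tsum_mul_left]
  have key : ∀ a b : List Pt, RT n h a → RT n h b →
      (Walk (rv a ++ ((1, 0) :: b.map fl)) ∧ (rv a ++ ((1, 0) :: b.map fl)).length = 2 * n + 1) ∧
      (rv a ++ ((1, 0) :: b.map fl)).sum.2 = 0 ∧
      ∀ k ≤ 2 * n + 1, (pos (rv a ++ ((1, 0) :: b.map fl)) k).2 ≤ 0 := by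
    rintro a b ⟨a1, a2, a3, a4, a5⟩ ⟨b1, b2, b3, b4, b5⟩
    have hb' : Walk ((1, 0) :: b.map fl) := by
      refine walk_cons (by simp [Un]) b1.flip ?_
      intro j hj heq
      rw [List.length_map] at hj
      have h1 := congrArg Prod.fst heq
      rw [pos_flip, Prod.fst_add] at h1
      have h2 := b3 j (by omega)
      simp only [fl, Prod.fst_zero] at h1
      omega
    have hp : ∀ i ≤ n, pos (rv a) i = pos a (n - i) - a.sum := by
      intro i hi
      rw [pos_rv a (by omega), a2, ← a2, pos_len]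
    have hs : (rv a).sum = - a.sum := by
      have := hp n le_rfl
      rw [Nat.sub_self, pos_zero, zero_sub] at this
      rw [← this, ← a2, ← rv_length a, pos_len]
    have hlen : ((1, 0) :: b.map fl : List Pt).length = n + 1 := by
      rw [List.length_cons, List.length_map, b2]
    have hla : (rv a).length = n := by rw [rv_length, a2]
    refine ⟨⟨walk_app a1.rv hb' ?_, by rw [List.length_append, hla, hlen]; omega⟩, ?_, ?_⟩
    · intro i hi j hj hj0 heq
      obtain ⟨j, rfl⟩ : ∃ k, j = k + 1 := ⟨j - 1, by omega⟩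
      rw [pos_cons, pos_flip, hp i (by omega), hs] at heq
      have h1 := congrArg Prod.fst heq
      have h2 := a3 (n - i) (by omega)
      have h3 := b3 j (by omega)
      simp only [fl, Prod.fst_add, Prod.fst_sub, Prod.fst_neg] at h1
      omega
    · rw [List.sum_append, List.sum_cons, hs]
      have e1 : (b.map fl).sum = fl b.sum := by
        rw [← pos_len, List.length_map, pos_flip, pos_len]
      rw [e1]
      simp only [fl, Prod.snd_add, Prod.snd_neg]
      omega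
    · intro k hk
      rcases pos_app hla hlen (k := k) (by omega) with ⟨h1, h2⟩ | ⟨j, hj, h1, h2⟩
      · rw [h2, hp k h1, Prod.snd_sub]
        have := a4 (n - k) (by omega)
        omega
      · rw [h2, hs, Prod.snd_add, Prod.snd_neg]
        rcases Nat.eq_zero_or_pos j with h4 | h4
        · rw [h4, pos_zero]
          simp only [Prod.snd_zero]
          omega
        · obtain ⟨j, rfl⟩ : ∃ k, j = k + 1 := ⟨j - 1, by omega⟩
          rw [pos_cons, pos_flip]
          have := b4 j (by omega)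
          simp only [fl, Prod.snd_add]
          omega
  have hrot : ∀ l : List Pt, Walk l → l.length = 2 * n + 1 → l.sum.2 = 0 →
      (∀ k ≤ 2 * n + 1, (pos l k).2 ≤ 0) →
      Walk ((l.map Prod.swap).map fl) ∧ ((l.map Prod.swap).map fl).length ≤ 2 * n + 1 ∧
      ((l.map Prod.swap).map fl).sum.1 = 0 ∧
      ∀ k ≤ ((l.map Prod.swap).map fl).length, 0 ≤ (pos ((l.map Prod.swap).map fl) k).1 := by
    intro l h1 h2 h3 h4
    have hlen : ((l.map Prod.swap).map fl).length = 2 * n + 1 := by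
      rw [List.length_map, List.length_map, h2]
    refine ⟨(walk_sw h1).flip, hlen.le, ?_, ?_⟩
    · rw [← pos_len, hlen, pos_flip, pos_sw, ← h2, pos_len]
      simp only [fl, Prod.fst_swap]
      omega
    · intro k hk
      rw [hlen] at hk
      rw [pos_flip, pos_sw]
      have := h4 k hk
      simp only [fl, Prod.fst_swap]
      omega
  refine tsum_le_inj (fun p : {l // RT n h l} × {l // RT n h l} =>
    (⟨((rv p.1.1 ++ ((1, 0) :: p.2.1.map fl)).map Prod.swap).map fl, ?_⟩ :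
      {l : List Pt // Walk l ∧ l.length ≤ 2 * n + 1 ∧ l.sum.1 = 0 ∧
        ∀ k ≤ l.length, 0 ≤ (pos l k).1})) ?_ ?_
  · obtain ⟨⟨e1, e2⟩, e3, e4⟩ := key p.1.1 p.2.1 p.1.2 p.2.2
    exact hrot _ e1 e2 e3 e4
  · rintro ⟨⟨a, ha⟩, ⟨b, hb⟩⟩ ⟨⟨a', ha'⟩, ⟨b', hb'⟩⟩ heq
    have h3 := congrArg Subtype.val heq
    simp only at h3
    have h4 := map_swap_inj (List.map_injective_iff.2 fl_inj h3)
    obtain ⟨h5, h6⟩ := List.append_inj h4 (by rw [rv_length, rv_length, ha.2.1, ha'.2.1])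
    have h7 := List.map_injective_iff.2 fl_inj (List.cons.inj h6).2
    have h8 := rv_inj h5
    subst h7 h8
    rfl
  · rintro ⟨⟨a, ha⟩, ⟨b, hb⟩⟩
    simp only
    obtain ⟨⟨e1, e2⟩, e3, e4⟩ := key a b ha hb
    rw [List.length_map, List.length_map, e2, ha.2.1, hb.2.1]
    rw [show 2 * n + 1 = (n + n) + 1 by omega, pow_succ', ← mul_assoc,
      ENNReal.inv_mul_cancel hx0 hx, one_mul, pow_add]

theorem le_one_add_sq (a : ℝ≥0∞) : a ≤ 1 + a * a := by
  rcases le_total a 1 with h | h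
  · exact h.trans le_self_add
  · calc a = a * 1 := (mul_one a).symm
      _ ≤ a * a := mul_le_mul' le_rfl h
      _ ≤ _ := le_add_self

/-- start rightmost, end topmost -/
theorem expo2 {x : ℝ≥0∞} (hx0 : x ≠ 0) (hx : x ≠ ⊤) (hu : ∀ t, uu x t ≤ 1) (N : ℕ) :
    mass x (fun l => Walk l ∧ l.length ≤ N ∧ (∀ k ≤ l.length, (pos l k).1 ≤ 0) ∧
      ∀ k ≤ l.length, (pos l k).2 ≤ l.sum.2) ≤
      (((N + 1) * (N + 1) : ℕ) : ℝ≥0∞) *
        (1 + x⁻¹ * (x⁻¹ * (((2 * N + 3 : ℕ) : ℝ≥0∞) * ((2 * N + 3 : ℕ) : ℝ≥0∞)))) := by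
  have h1 : mass x (fun l => Walk l ∧ l.length ≤ N ∧ (∀ k ≤ l.length, (pos l k).1 ≤ 0) ∧
      ∀ k ≤ l.length, (pos l k).2 ≤ l.sum.2) ≤
      ∑' i : Fin (N + 1) × Fin (N + 1), mass x (RT i.1.val i.2.val) := by
    unfold mass
    refine sigma_ge (fun i : Fin (N + 1) × Fin (N + 1) => RT i.1.val i.2.val) _ ?_
      (fun l => x ^ l.length)
    rintro l ⟨hl, h1, h2, h3⟩
    have h4 := (abs_pos_le hl.1 (le_refl l.length)).2
    rw [pos_len] at h4
    have h5 := le_abs_self l.sum.2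
    have h6 := h3 0 (Nat.zero_le _)
    rw [pos_zero, Prod.snd_zero] at h6
    refine ⟨(⟨l.length, by omega⟩, ⟨l.sum.2.toNat, by omega⟩), hl, rfl, h2, ?_, ?_⟩
    · intro k hk
      have := h3 k hk
      simp only
      omega
    · simp only
      omega
  refine h1.trans ?_
  rw [tsum_fintype]
  have h2 : ∀ i ∈ (Finset.univ : Finset (Fin (N + 1) × Fin (N + 1))),
      mass x (RT i.1.val i.2.val) ≤
        1 + x⁻¹ * (x⁻¹ * (((2 * N + 3 : ℕ) : ℝ≥0∞) * ((2 * N + 3 : ℕ) : ℝ≥0∞))) := by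
    intro i _
    refine (le_one_add_sq _).trans (add_le_add le_rfl ((rt_sq hx0 hx hu _ _).trans ?_))
    have h3 : ((2 * i.1.val + 3 : ℕ) : ℝ≥0∞) ≤ ((2 * N + 3 : ℕ) : ℝ≥0∞) := by
      have := i.1.2
      exact_mod_cast (by omega : 2 * i.1.val + 3 ≤ 2 * N + 3)
    exact mul_le_mul' le_rfl (mul_le_mul' le_rfl (mul_le_mul' h3 h3))
  refine (Finset.sum_le_sum h2).trans (le_of_eq ?_)
  rw [Finset.sum_const, Finset.card_univ, Fintype.card_prod, Fintype.card_fin, nsmul_eq_mul]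

end Pool.Agent.Work.MP_376faf_co_gap
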