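import Pool.Agent.Work.MP_376faf_co_win.Flat
import Pool.Agent.Work.MP_376faf_co_win.Mass

set_option autoImplicit false

/-!
At every scale `S` the bridges with span in `[S, 3S)` and height at most `C S ^ 3` have mass at
least `1 / (C S ^ 2)`.
-/

namespace Pool.Agent.Work.MP_376faf_co_gap

open Filter Topology
open Pool.Agent.Work.MP_376faf_co_lower
open Pool.Agent.Work.MP_376faf_co_hw
open Pool.Agent.Work.MP_376faf_co_win
open scoped ENNReal

theorem tall_mass0 {x : ℝ≥0∞} (hx : x ≠ ⊤) (hu : ∀ t, uu x t ≤ 1) {S H R : ℕ} (hS : 0 < S)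
    (hR : R = 3 * S) (hH : R ≤ H)
    (hF0 : FB x S R H ≤ ENNReal.ofReal (1 / (144 * (S:ℝ) ^ 2))) :
    mass x (fun l => Walk l ∧ rg py l < R ∧ H < rg px l) ≤
      (2 * EE x S R + 2 * EE x S R * (2 * EE x S R + 2 * EE x S R)) / 2 ^ (H / (8 * R)) := by
  have hS1 : (1:ℝ) ≤ S := by exact_mod_cast hS
  obtain ⟨q, hq1, hqt, hq⟩ := exists_q (8 * R) (by omega)
  have hqle : ∀ n ≤ 8 * R, q ^ n ≤ 2 := fun n hn => hq ▸ pow_le_pow_right₀ hq1 hn
  set F := FB x S R H with hF
  set V := FB x 0 (2 * S) H with hV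
  have hVS : V ≤ ENNReal.ofReal (2 * S) := by
    refine (FB_le hu _ _ _).trans (le_of_eq ?_)
    rw [← ENNReal.ofReal_natCast]
    push_cast
    rfl
  have hFV : F * V ≤ ENNReal.ofReal (1 / 72) := by
    refine (mul_le_mul' hF0 hVS).trans ?_
    rw [← ENNReal.ofReal_mul (by positivity)]
    refine ENNReal.ofReal_le_ofReal ?_
    rw [div_mul_eq_mul_div, div_le_div_iff₀ (by positivity) (by norm_num)]
    nlinarith
  have hFVV : F * V * V ≤ ENNReal.ofReal (1 / 36) := by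
    refine (mul_le_mul' (mul_le_mul' hF0 hVS) hVS).trans ?_
    rw [← ENNReal.ofReal_mul (by positivity), ← ENNReal.ofReal_mul (by positivity)]
    refine ENNReal.ofReal_le_ofReal ?_
    rw [div_mul_eq_mul_div, div_mul_eq_mul_div, div_le_div_iff₀ (by positivity) (by norm_num)]
    nlinarith
  have hF1 : F ≤ ENNReal.ofReal (1 / 144) := by
    refine hF0.trans (ENNReal.ofReal_le_ofReal ?_)
    rw [div_le_div_iff₀ (by positivity) (by norm_num)]
    nlinarith
  refine mass_of_trunc fun N => ?_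
  rw [ENNReal.le_div_iff_mul_le (Or.inl (by positivity)) (Or.inl (ENNReal.pow_ne_top (by norm_num)))]
  set w := w1 x q R N with hw
  have hflat : ∀ (a b n : ℕ), b ≤ n → b ≤ R →
      wsum w (fun l => Bridge l ∧ (a : ℤ) ≤ l.sum.1 ∧ l.sum.1 < b) ≤ q ^ n * FB x a b H := by
    intro a b n hbn hb3
    unfold FB
    rw [mass_eq]
    refine wsum_le_mul _ fun l hl h0 => ?_
    rw [hw] at h0 ⊢
    unfold w1 at h0 ⊢
    by_cases h : rg py l < R ∧ l.length ≤ N
    · refine ⟨⟨hl.1, hl.2.1, hl.2.2, by omega⟩, ?_⟩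
      rw [if_pos h, mul_comm]
      refine mul_le_mul' (pow_le_pow_right₀ hq1 ?_) le_rfl
      have := rg_bridge hl.1
      have := hl.2.2
      omega
    · rw [if_neg h] at h0
      exact absurd rfl h0
  have hall : wsum w Walk ≤ 2 * EE x S R + 2 * EE x S R * (2 * EE x S R + 2 * EE x S R) := by
    refine tall_bound (w1_sub hq1 _ _) (w1_fl _ _ _ _) hS ?_ ?_ (w1_fin hx hq1 hqt _ _)
    · unfold EE
      rw [mass_eq]
      refine wsum_le_mul _ fun l hl h0 => ?_
      unfold w1 at h0 ⊢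
      by_cases h : rg py l < R ∧ l.length ≤ N
      · refine ⟨⟨hl.1, hl.2, h.1⟩, ?_⟩
        rw [if_pos h, mul_comm]
        exact mul_le_mul' (hqle _ (by omega)) le_rfl
      · rw [if_neg h] at h0
        exact absurd rfl h0
    · have hs := sm_small (w := w) (w1_sub hq1 _ _) (w1_fl _ _ _ _) hS (w1_fin hx hq1 hqt _ _) 0
        (s1 := 2 * F) (s2 := q ^ (3 * S) * F) (v1 := q ^ S * V) (v2 := q ^ (2 * S) * V)
        (a := 1 / 8) (b := 1 / 8) (by norm_num) (by norm_num) (by norm_num)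
        ?_ ?_ ?_ ?_ ?_ ?_
      · refine hs.trans ?_
        calc 2 * F + ENNReal.ofReal ((1 / 8) ^ 0 * (1 / 8 / (1 - 1 / 8)))
            ≤ 2 * ENNReal.ofReal (1 / 144) + ENNReal.ofReal (1 / 7) := by
              refine add_le_add (mul_le_mul' le_rfl hF1) (ENNReal.ofReal_le_ofReal ?_)
              norm_num
          _ = ENNReal.ofReal (2 * (1 / 144) + 1 / 7) := by
              rw [two_ofReal (by norm_num), ← ENNReal.ofReal_add (by norm_num) (by norm_num)]
          _ ≤ ENNReal.ofReal 2⁻¹ := ENNReal.ofReal_le_ofReal (by norm_num)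
          _ = 2⁻¹ := by
              rw [ENNReal.ofReal_inv_of_pos (by norm_num)]
              norm_num
      · have h1 := hflat S R R le_rfl le_rfl
        refine le_trans (wsum_mono w fun l hl => ?_)
          (h1.trans (mul_le_mul' (hqle _ (by omega)) le_rfl))
        refine ⟨hl.1, hl.2.1, ?_⟩
        rw [hR]
        have := hl.2.2
        push_cast at this ⊢
        linarith
      · have h1 := hflat (2 * S) (3 * S) (3 * S) le_rfl (by omega)
        push_cast at h1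
        exact h1.trans (mul_le_mul' le_rfl (FB_mono x (by omega) (by omega) le_rfl))
      · have h1 := hflat 0 S S le_rfl (by omega)
        refine le_trans (wsum_mono w fun l hl => ?_)
          (h1.trans (mul_le_mul' le_rfl (FB_mono x le_rfl (by omega) le_rfl)))
        refine ⟨hl.1, ?_, hl.2⟩
        have h3 := hl.1.nonneg le_rfl
        rw [pos_len] at h3
        simpa using h3
      · have h1 := hflat 0 (2 * S) (2 * S) le_rfl (by omega)
        push_cast at h1
        refine le_trans (wsum_mono w fun l hl => ?_) h1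
        refine ⟨hl.1, ?_, hl.2⟩
        have h3 := hl.1.nonneg le_rfl
        rw [pos_len] at h3
        exact h3
      · calc q ^ (3 * S) * F * (q ^ S * V * (q ^ (2 * S) * V))
            = q ^ (3 * S + S + 2 * S) * (F * V * V) := by rw [pow_add, pow_add]; ring
          _ ≤ 2 * ENNReal.ofReal (1 / 36) := mul_le_mul' (hqle _ (by omega)) hFVV
          _ = ENNReal.ofReal (2 * (1 / 36)) := two_ofReal (by norm_num)
          _ ≤ ENNReal.ofReal (1 / 8) := ENNReal.ofReal_le_ofReal (by norm_num)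
      · calc q ^ (3 * S) * F * (q ^ S * V) = q ^ (3 * S + S) * (F * V) := by
              rw [pow_add]; ring
          _ ≤ 2 * ENNReal.ofReal (1 / 72) := mul_le_mul' (hqle _ (by omega)) hFV
          _ = ENNReal.ofReal (2 * (1 / 72)) := two_ofReal (by norm_num)
          _ ≤ ENNReal.ofReal (1 / 8) := ENNReal.ofReal_le_ofReal (by norm_num)
  refine le_trans ?_ hall
  have h2 : (2 : ℝ≥0∞) ^ (H / (8 * R)) ≤ q ^ H := by
    rw [← hq, ← pow_mul]
    exact pow_le_pow_right₀ hq1 (Nat.mul_div_le H (8 * R))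
  refine (mul_le_mul' le_rfl h2).trans ?_
  unfold wsum
  rw [← ENNReal.tsum_mul_right]
  refine tsum_le_inj (fun l : {l // Walk l ∧ rg py l < R ∧ H < rg px l} =>
    (⟨l.1, l.2.1⟩ : {l // Walk l})) ?_ ?_
  · intro a b hab
    exact Subtype.ext (congrArg (fun t : {l // Walk l} => t.1) hab)
  · intro l
    simp only
    rw [hw]
    unfold w0 w1
    by_cases h : l.1.length ≤ N
    · rw [if_pos h, if_pos ⟨l.2.2.1, h⟩]
      exact mul_le_mul' le_rfl (pow_le_pow_right₀ hq1 l.2.2.2.le)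
    · rw [if_neg h, zero_mul]
      exact zero_le

theorem num_aux0 {f v τ S : ℝ} (hf : 0 ≤ f) (hv : 1 ≤ v) (hτ : 0 ≤ τ) (hS : 1 ≤ S)
    (hvS : v ≤ 2 * S) (hτS : τ * (144 * S ^ 2) ≤ 1) (h : f * (144 * S ^ 2) ≤ 1) :
    (f + τ) * ((v + τ) * (v + τ)) ≤ 1 / 8 ∧ (f + τ) * (v + τ) ≤ 1 / 8 ∧ f + τ ≤ 1 / 72 := by
  have hS2 : 0 ≤ S ^ 2 - 1 := by nlinarith
  have h1 : τ ≤ 1 / 144 := by nlinarith [mul_nonneg hτ hS2]
  have h2 : v + τ ≤ 3 * S := by linarith
  have h3 : 1 ≤ v + τ := by linarith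
  have h4 : (f + τ) * S ^ 2 ≤ 1 / 72 := by linarith
  have h5 : (f + τ) * ((v + τ) * (v + τ)) ≤ (f + τ) * ((3 * S) * (3 * S)) := by
    refine mul_le_mul_of_nonneg_left ?_ (by linarith)
    exact mul_le_mul h2 h2 (by linarith) (by linarith)
  have h6 : (f + τ) * ((v + τ) * (v + τ)) ≤ 1 / 8 := by nlinarith
  refine ⟨h6, ?_, ?_⟩
  · refine le_trans ?_ h6
    refine mul_le_mul_of_nonneg_left ?_ (by linarith)
    nlinarith
  · nlinarith [mul_nonneg (by linarith : 0 ≤ f + τ) hS2]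

/-- FLAT MASS with the window `[S, 3S)` -/
theorem flat_mass0 {x : ℝ≥0∞} (hx : x ≠ ⊤) (hu : ∀ t, uu x t ≤ 1) (hH0 : mass x Half = ⊤)
    {S H R : ℕ} (hS : 0 < S) (hR : R = 3 * S) (hH : R ≤ H)
    (hE : (2 * EE x S R + 2 * EE x S R * (2 * EE x S R + 2 * EE x S R)) / 2 ^ (H / (8 * R)) ≤
      ENNReal.ofReal (1 / (144 * (S : ℝ) ^ 2))) :
    ENNReal.ofReal (1 / (144 * (S : ℝ) ^ 2)) < FB x S R H := by
  by_contra hcon
  rw [not_lt] at hcon
  have hS1 : (1:ℝ) ≤ S := by exact_mod_cast hS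
  set τ : ℝ := 1 / (144 * (S : ℝ) ^ 2) with hτ
  have hτ0 : 0 ≤ τ := by positivity
  have hT : mass x (fun l => Walk l ∧ rg px l < R ∧ H < rg py l) ≤ ENNReal.ofReal τ := by
    refine le_trans ?_ ((tall_mass0 hx hu hS hR hH hcon).trans hE)
    rw [mass_eq, mass_eq]
    refine wsum_inj (fun l => l.map Prod.swap)
      (List.map_injective_iff.2 Prod.swap_injective) (fun l => by rw [List.length_map]) ?_
    rintro l ⟨h1, h2, h3⟩
    exact ⟨walk_swap h1, by rwa [(rg_swap l).2], by rwa [(rg_swap l).1]⟩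
  set F := FB x S R H with hF
  set V := FB x 0 (2 * S) H with hV
  have hV1 : 1 ≤ V := one_le_FB x (by omega) H
  have hVle : V ≤ ((2 * S : ℕ) : ℝ≥0∞) := FB_le hu _ _ _
  have hVt : V ≠ ⊤ := ne_top_of_le_ne_top (ENNReal.natCast_ne_top _) hVle
  have hFt : F ≠ ⊤ := ne_top_of_le_ne_top (ENNReal.natCast_ne_top _) (FB_le hu _ _ _)
  set v := V.toReal with hv
  set f := F.toReal with hf
  have hVv : V = ENNReal.ofReal v := (ENNReal.ofReal_toReal hVt).symm
  have hFf : F = ENNReal.ofReal f := (ENNReal.ofReal_toReal hFt).symm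
  have hf0 : 0 ≤ f := ENNReal.toReal_nonneg
  have hv1 : 1 ≤ v := by
    have := ENNReal.toReal_mono hVt hV1
    simpa using this
  have hv2 : v ≤ 2 * S := by
    have := ENNReal.toReal_mono (ENNReal.natCast_ne_top _) hVle
    rw [ENNReal.toReal_natCast] at this
    push_cast at this
    exact this
  have hv0 : 0 ≤ v := by linarith
  have hτS : τ * (144 * (S:ℝ) ^ 2) ≤ 1 := by
    rw [hτ, one_div, inv_mul_cancel₀ (by positivity)]
  have hfS : f * (144 * (S:ℝ) ^ 2) ≤ 1 := by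
    rw [hFf, ENNReal.ofReal_le_ofReal_iff hτ0] at hcon
    exact (mul_le_mul_of_nonneg_right hcon (by positivity)).trans hτS
  obtain ⟨hn1, hn2, hn3⟩ := num_aux0 hf0 hv1 hτ0 hS1 hv2 hτS hfS
  have hsplit : ∀ a b : ℕ, b ≤ R → mass x (fun l => Bridge l ∧ (a : ℤ) ≤ l.sum.1 ∧
      l.sum.1 < b) ≤ FB x a b H + ENNReal.ofReal τ := by
    intro a b hb
    refine le_trans ?_ (add_le_add le_rfl hT)
    rw [mass_eq, mass_eq]
    unfold FB
    rw [mass_eq]
    refine wsum_or _ fun l hl => ?_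
    rcases Nat.lt_or_ge H (rg py l) with h | h
    · right
      have h1 := rg_bridge hl.1
      have h2 := hl.2.2
      exact ⟨hl.1.1, by omega, h⟩
    · exact Or.inl ⟨hl.1, hl.2.1, hl.2.2, h⟩
  have hnn : ∀ (N b : ℕ), wsum (w0 x N) (fun l => Bridge l ∧ l.sum.1 < (b : ℤ)) ≤
      mass x (fun l => Bridge l ∧ ((0 : ℕ) : ℤ) ≤ l.sum.1 ∧ l.sum.1 < (b : ℤ)) := by
    intro N b
    refine (w0_le x N _).trans (mass_mono x fun l hl => ⟨hl.1, ?_, hl.2⟩)
    have h3 := hl.1.nonneg le_rfl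
    rw [pos_len] at h3
    simpa using h3
  have key : ∀ N, wsum (w0 x N) (fun l => Bridge l ∧ (S : ℤ) ≤ l.sum.1) ≤ 2 := by
    intro N
    refine bridge_far (w0_sub x N) (w0_fl x N) (w0_nil x N) hS ?_ (w0_fin hx N)
    have hs := sm_small (w := w0 x N) (w0_sub x N) (w0_fl x N) hS (w0_fin hx N) 0
      (s1 := F + ENNReal.ofReal τ) (s2 := F + ENNReal.ofReal τ) (v1 := V + ENNReal.ofReal τ)
      (v2 := V + ENNReal.ofReal τ) (a := 1 / 8) (b := 1 / 8) (by norm_num)
      (by norm_num) (by norm_num) ?_ ?_ ?_ ?_ ?_ ?_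
    · refine hs.trans ?_
      rw [hFf, ← ENNReal.ofReal_add hf0 hτ0, ← ENNReal.ofReal_add (by positivity) (by positivity)]
      refine ENNReal.ofReal_le_ofReal ?_
      norm_num
      linarith
    · refine (w0_le x N _).trans (le_trans (mass_mono x fun l hl => ?_) (hsplit S R le_rfl))
      refine ⟨hl.1, hl.2.1, ?_⟩
      rw [hR]
      have := hl.2.2
      push_cast at this ⊢
      linarith
    · have h1 := hsplit (2 * S) (3 * S) (by omega)
      push_cast at h1
      exact (w0_le x N _).trans (h1.trans (add_le_add (FB_mono x (by omega) (by omega) le_rfl)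
        le_rfl))
    · exact (hnn N S).trans ((hsplit 0 S (by omega)).trans
        (add_le_add (FB_mono x le_rfl (by omega) le_rfl) le_rfl))
    · have h1 := (hnn N (2 * S)).trans (hsplit 0 (2 * S) (by omega))
      push_cast at h1
      exact h1
    · rw [hFf, hVv, ← ENNReal.ofReal_add hf0 hτ0, ← ENNReal.ofReal_add hv0 hτ0,
        ← ENNReal.ofReal_mul (by positivity), ← ENNReal.ofReal_mul (by positivity)]
      exact ENNReal.ofReal_le_ofReal hn1
    · rw [hFf, hVv, ← ENNReal.ofReal_add hf0 hτ0, ← ENNReal.ofReal_add hv0 hτ0,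
        ← ENNReal.ofReal_mul (by positivity)]
      exact ENNReal.ofReal_le_ofReal hn2
  have hfar : mass x (fun l => Bridge l ∧ (S : ℤ) ≤ l.sum.1) ≤ 2 := mass_of_trunc key
  have htop := bridge_top hH0
  have hfin : (∑' l : {l // Bridge l ∧ l ≠ []}, x ^ l.1.length) ≤ (S : ℝ≥0∞) + 2 := by
    refine le_trans ?_ (add_le_add (span_lt_mass hu S) hfar)
    have := wsum_or (fun l => x ^ l.length) (P := fun l => Bridge l ∧ l ≠ [])
      (Q := fun l => Bridge l ∧ l.sum.1 < (S : ℤ)) (R := fun l => Bridge l ∧ (S : ℤ) ≤ l.sum.1)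
      (fun l hl => by
        rcases lt_or_ge l.sum.1 (S : ℤ) with h | h
        · exact Or.inl ⟨hl.1, h⟩
        · exact Or.inr ⟨hl.1, h⟩)
    exact this
  rw [htop, top_le_iff] at hfin
  exact ENNReal.add_ne_top.2 ⟨ENNReal.natCast_ne_top _, by norm_num⟩ hfin

theorem walk_zero_le : Nat.card (WalkFun 0) ≤ 1 := by
  rw [Finite.card_le_one_iff_subsingleton]
  refine ⟨fun f g => Subtype.ext (funext fun i => ?_)⟩
  have hi : i = 0 := Subsingleton.elim (α := Fin 1) i 0
  rw [hi, f.2.1, g.2.1]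

/-- trivial exponential bound -/
theorem walk_le_two_pow (n : ℕ) : Nat.card (WalkFun n) ≤ 2 ^ (Nat.card (WalkFun 1) * n) := by
  induction n with
  | zero => simpa using walk_zero_le
  | succ n ih =>
    refine (walk_submul n 1).trans ?_
    rw [Nat.mul_succ, pow_add]
    exact Nat.mul_le_mul ih Nat.lt_two_pow_self.le

/-- **Flat bridges at every scale.** -/
theorem flat0 {μ : ℝ} (hμ : 1 ≤ μ)
    (hT : Tendsto (fun n : ℕ => (Nat.card (WalkFun n) : ℝ) ^ (1 / (n : ℝ))) atTop (𝓝 μ))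
    (hc : ∀ n : ℕ, μ ^ n ≤ (Nat.card (WalkFun n) : ℝ)) :
    ∃ C : ℕ, 1 ≤ C ∧ ∀ S : ℕ, 1 ≤ S → ENNReal.ofReal (1 / ((C:ℝ) * (S:ℝ) ^ 2)) ≤
      FB (ENNReal.ofReal μ)⁻¹ S (3 * S) (C * S ^ 3) := by
  have hμ0 : 0 < μ := by linarith
  set k : ℕ := Nat.card (WalkFun 1) with hk
  refine ⟨24 * (20 + 6 * k), by omega, fun S hS => ?_⟩
  have hu := uu_le_one hμ hT
  set x : ℝ≥0∞ := (ENNReal.ofReal μ)⁻¹ with hx
  have hxt : x ≠ ⊤ := by rw [hx]; simpa using hμ0
  set H : ℕ := 24 * (20 + 6 * k) * S ^ 3 with hH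
  have hS1 : (1:ℝ) ≤ S := by exact_mod_cast hS
  have hS3 : S ≤ S ^ 3 := Nat.le_self_pow (by norm_num) S
  have hRH : 3 * S ≤ H := by
    rw [hH]
    calc 3 * S ≤ 24 * (20 + 6 * k) * S := Nat.mul_le_mul (by omega) le_rfl
      _ ≤ _ := Nat.mul_le_mul le_rfl hS3
  have hdiv : H / (8 * (3 * S)) = (20 + 6 * k) * S ^ 2 := by
    have e : H = (20 + 6 * k) * S ^ 2 * (8 * (3 * S)) := by rw [hH]; ring
    rw [e, Nat.mul_div_cancel _ (by omega)]
  set M : ℝ := 2 ^ (k * (3 * S ^ 2)) with hM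
  have hM0 : 0 < M := by positivity
  have hE : EE x S (3 * S) ≤ ENNReal.ofReal ((S:ℝ) * (3 * S : ℕ) * M) := by
    refine EE_le hμ hM0.le fun n hn => ?_
    have h1 : (Nat.card (WalkFun n) : ℝ) ≤ 2 ^ (k * n) := by exact_mod_cast walk_le_two_pow n
    have h2 : (2:ℝ) ^ (k * n) ≤ M := by
      refine pow_le_pow_right₀ (by norm_num) (Nat.mul_le_mul le_rfl ?_)
      calc n ≤ S * (3 * S) := hn.le
        _ = 3 * S ^ 2 := by ring
    calc (Nat.card (WalkFun n) : ℝ) ≤ 1 * M := by rw [one_mul]; exact h1.trans h2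
      _ ≤ μ ^ n * M := mul_le_mul_of_nonneg_right (one_le_pow₀ hμ) hM0.le
  set e : ℝ := (S:ℝ) * (3 * S : ℕ) * M with he
  have he1 : 1 ≤ e := by
    have h1 : (1:ℝ) ≤ M := one_le_pow₀ (by norm_num)
    have h2 : (1:ℝ) ≤ (S:ℝ) * (3 * S : ℕ) := by
      push_cast
      nlinarith
    rw [he]
    nlinarith
  have hbox : 1440 * e ^ 2 * (S:ℝ) ^ 2 ≤ 2 ^ (H / (8 * (3 * S))) := by
    rw [hdiv]
    have h1 : (S:ℝ) ≤ 2 ^ S := by exact_mod_cast Nat.lt_two_pow_self.le
    have h2 : (S:ℝ) ^ 6 ≤ 2 ^ (6 * S ^ 2) := by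
      calc (S:ℝ) ^ 6 ≤ (2 ^ S) ^ 6 := pow_le_pow_left₀ (by linarith) h1 6
        _ = 2 ^ (6 * S) := by rw [← pow_mul]; ring_nf
        _ ≤ 2 ^ (6 * S ^ 2) := pow_le_pow_right₀ (by norm_num)
            (Nat.mul_le_mul le_rfl (Nat.le_self_pow (by norm_num) S))
    have h3 : e ^ 2 = 9 * (S:ℝ) ^ 4 * 2 ^ (6 * k * S ^ 2) := by
      rw [he, hM]
      push_cast
      rw [mul_pow, ← pow_mul]
      ring_nf
    have h4 : (12960:ℝ) ≤ 2 ^ (14 * S ^ 2) := by
      calc (12960:ℝ) ≤ 2 ^ 14 := by norm_num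
        _ ≤ 2 ^ (14 * S ^ 2) := pow_le_pow_right₀ (by norm_num)
            (by nlinarith [Nat.one_le_pow 2 S hS])
    calc 1440 * e ^ 2 * (S:ℝ) ^ 2 = 12960 * (S:ℝ) ^ 6 * 2 ^ (6 * k * S ^ 2) := by
          rw [h3]; ring
      _ ≤ 2 ^ (14 * S ^ 2) * 2 ^ (6 * S ^ 2) * 2 ^ (6 * k * S ^ 2) := by
          refine mul_le_mul_of_nonneg_right ?_ (by positivity)
          exact mul_le_mul h4 h2 (by positivity) (by positivity)
      _ = 2 ^ ((20 + 6 * k) * S ^ 2) := by
          rw [← pow_add, ← pow_add]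
          congr 1
          ring
  have hfl := flat_mass0 hxt hu (mass_half_top hμ hc) (S := S) (H := H) (R := 3 * S) hS rfl hRH ?_
  · refine le_trans (ENNReal.ofReal_le_ofReal ?_) hfl.le
    rw [div_le_div_iff₀ (by positivity) (by positivity)]
    push_cast
    have : (0:ℝ) ≤ k := Nat.cast_nonneg k
    have h5 : (0:ℝ) ≤ (S:ℝ) ^ 2 := by positivity
    nlinarith [mul_nonneg this h5]
  · have h1 : 2 * EE x S (3 * S) + 2 * EE x S (3 * S) * (2 * EE x S (3 * S) +
        2 * EE x S (3 * S)) ≤ ENNReal.ofReal (10 * e ^ 2) := by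
      have h2 : 2 * EE x S (3 * S) ≤ ENNReal.ofReal (2 * e) := by
        rw [← two_ofReal (by linarith)]
        exact mul_le_mul' le_rfl hE
      calc _ ≤ ENNReal.ofReal (2 * e) + ENNReal.ofReal (2 * e) *
            (ENNReal.ofReal (2 * e) + ENNReal.ofReal (2 * e)) :=
            add_le_add h2 (mul_le_mul' h2 (add_le_add h2 h2))
        _ = ENNReal.ofReal (2 * e + 2 * e * (2 * e + 2 * e)) := by
            rw [← ENNReal.ofReal_add (by linarith) (by linarith),
              ← ENNReal.ofReal_mul (by linarith), ← ENNReal.ofReal_add (by linarith)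
                (by nlinarith)]
        _ ≤ _ := ENNReal.ofReal_le_ofReal (by nlinarith)
    have h2 : (2 : ℝ≥0∞) ^ (H / (8 * (3 * S))) =
        ENNReal.ofReal (2 ^ (H / (8 * (3 * S)))) := by
      rw [ENNReal.ofReal_pow (by norm_num)]
      norm_num
    rw [h2]
    refine (ENNReal.div_le_div_right h1 _).trans ?_
    rw [← ENNReal.ofReal_div_of_pos (by positivity)]
    refine ENNReal.ofReal_le_ofReal ?_
    rw [div_le_div_iff₀ (by positivity) (by positivity)]
    nlinarith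

end Pool.Agent.Work.MP_376faf_co_gap
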