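import Mathlib

/-! Two elementary lemmas: the strong induction of the gap argument and greedy sums. -/

set_option autoImplicit false

namespace Pool.Agent.Work.MP_376faf_co_gap

/-- strong induction: a gap in the masses is preserved by cutting -/
theorem gap_induct {A : ℕ → ℝ} {T n0 B : ℕ} {ε g : ℝ} (hA : ∀ N, 0 ≤ A N) (hT : 32 ≤ T)
    (hT0 : 2 * n0 ≤ T) (hg : 0 < g) (hε : 0 ≤ ε)
    (hB : ∀ N, B < N → A N = 0)
    (hstep : ∀ N, 16 * T < N → ∃ k n, N ≤ 16 * k ∧ 16 * k ≤ 15 * N ∧ n ≤ n0 ∧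
      A N * g ^ 2 ≤ (N:ℝ) ^ 2 * (n0 + 1) * (A (k + n) * A (N - k + n)))
    (hsmall : (B:ℝ) ^ 2 * (n0 + 1) * ε ≤ g ^ 2)
    (hgap : ∀ N, T ≤ N → N ≤ 16 * T → A N ≤ ε) : ∀ N, T ≤ N → A N ≤ ε := by
  intro N
  induction N using Nat.strong_induction_on with
  | _ N ih =>
    intro hTN
    rcases Nat.lt_or_ge (16 * T) N with h1 | h1
    · rcases Nat.lt_or_ge B N with h2 | h2
      · rw [hB N h2]
        exact hε
      · obtain ⟨k, n, k1, k2, k3, k4⟩ := hstep N h1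
        have e1 : A (k + n) ≤ ε := ih (k + n) (by omega) (by omega)
        have e2 : A (N - k + n) ≤ ε := ih (N - k + n) (by omega) (by omega)
        have e3 : A (k + n) * A (N - k + n) ≤ ε * ε :=
          mul_le_mul e1 e2 (hA _) hε
        have e4 : (N:ℝ) ^ 2 ≤ (B:ℝ) ^ 2 := by
          have : (N:ℝ) ≤ (B:ℝ) := by exact_mod_cast h2
          exact pow_le_pow_left₀ (Nat.cast_nonneg _) this 2
        have e5 : (0:ℝ) ≤ (n0:ℝ) + 1 := by positivity
        have e6 : A N * g ^ 2 ≤ ε * g ^ 2 := by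
          calc A N * g ^ 2 ≤ (N:ℝ) ^ 2 * (n0 + 1) * (A (k + n) * A (N - k + n)) := k4
            _ ≤ (N:ℝ) ^ 2 * (n0 + 1) * (ε * ε) :=
                mul_le_mul_of_nonneg_left e3 (mul_nonneg (sq_nonneg _) e5)
            _ ≤ (B:ℝ) ^ 2 * (n0 + 1) * (ε * ε) :=
                mul_le_mul_of_nonneg_right (mul_le_mul_of_nonneg_right e4 e5)
                  (mul_nonneg hε hε)
            _ = ((B:ℝ) ^ 2 * (n0 + 1) * ε) * ε := by ring
            _ ≤ g ^ 2 * ε := mul_le_mul_of_nonneg_right hsmall hε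
            _ = ε * g ^ 2 := mul_comm _ _
        exact le_of_mul_le_mul_right e6 (pow_pos hg 2)
    · exact hgap N hTN h1

/-- greedy sums: `j` good pieces -/
theorem greedy {F : ℕ → ℝ} (hsub : ∀ p q, F (p + q) ≤ F p + F q) (h0 : F 0 ≤ 0) {K : ℕ} {c : ℝ}
    (hK : 1 ≤ K) (hc : 0 ≤ c)
    (h : ∀ n : ℕ, K ≤ n → ∃ m : ℕ, m ≤ n ∧ n ≤ K * m ∧ F m ≤ c * (Real.log n + 1)) (j n : ℕ)
    (hn : 1 ≤ n) : ∃ m ≤ n, ((n - m : ℕ) : ℝ) ≤ K + (1 - 1 / (K:ℝ)) ^ j * n ∧
      F m ≤ j * (c * (Real.log n + 1)) := by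
  have hK0 : (1:ℝ) ≤ (K:ℝ) := by exact_mod_cast hK
  have hKp : (0:ℝ) < (K:ℝ) := lt_of_lt_of_le one_pos hK0
  have hq : (0:ℝ) ≤ 1 - 1 / (K:ℝ) := by
    rw [sub_nonneg, div_le_one hKp]
    exact hK0
  have hlog : (0:ℝ) ≤ Real.log n := Real.log_nonneg (by exact_mod_cast hn)
  have hX : 0 ≤ c * (Real.log n + 1) := mul_nonneg hc (by linarith)
  induction j with
  | zero =>
    refine ⟨0, Nat.zero_le _, ?_, ?_⟩
    · rw [Nat.sub_zero, pow_zero, one_mul]
      linarith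
    · simpa using h0
  | succ j ih =>
    obtain ⟨m, hm, h1, h2⟩ := ih
    rcases Nat.lt_or_ge (n - m) K with h3 | h3
    · refine ⟨m, hm, ?_, ?_⟩
      · have e1 : ((n - m : ℕ) : ℝ) ≤ (K:ℝ) := by exact_mod_cast h3.le
        have e2 : (0:ℝ) ≤ (1 - 1 / (K:ℝ)) ^ (j + 1) * n :=
          mul_nonneg (pow_nonneg hq _) (Nat.cast_nonneg _)
        linarith
      · push_cast
        linarith
    · obtain ⟨m', a1, a2, a3⟩ := h (n - m) h3
      refine ⟨m + m', by omega, ?_, ?_⟩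
      · have e1 : ((n - (m + m') : ℕ) : ℝ) = ((n - m : ℕ) : ℝ) - (m':ℝ) := by
          rw [show n - (m + m') = (n - m) - m' by omega, Nat.cast_sub a1]
        have e2 : ((n - m : ℕ) : ℝ) ≤ (K:ℝ) * (m':ℝ) := by exact_mod_cast a2
        have e3 : ((n - m : ℕ) : ℝ) / (K:ℝ) ≤ (m':ℝ) := by
          rw [div_le_iff₀ hKp]
          linarith
        have e4 : ((n - m : ℕ) : ℝ) - (m':ℝ) ≤ (1 - 1 / (K:ℝ)) * ((n - m : ℕ) : ℝ) := by
          have : (1 - 1 / (K:ℝ)) * ((n - m : ℕ) : ℝ) =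
              ((n - m : ℕ) : ℝ) - ((n - m : ℕ) : ℝ) / (K:ℝ) := by ring
          rw [this]
          linarith
        have e5 : (1 - 1 / (K:ℝ)) * ((n - m : ℕ) : ℝ) ≤
            (1 - 1 / (K:ℝ)) * (K + (1 - 1 / (K:ℝ)) ^ j * n) :=
          mul_le_mul_of_nonneg_left h1 hq
        have e6 : (1 - 1 / (K:ℝ)) * (K + (1 - 1 / (K:ℝ)) ^ j * n) =
            (K - 1) + (1 - 1 / (K:ℝ)) ^ (j + 1) * n := by
          rw [pow_succ]
          field_simp
        rw [e1]
        linarith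
      · have e1 : Real.log ((n - m : ℕ) : ℝ) ≤ Real.log (n:ℝ) := by
          apply Real.log_le_log
          · have : 0 < n - m := by omega
            exact_mod_cast this
          · exact_mod_cast Nat.sub_le n m
        have e2 : c * (Real.log ((n - m : ℕ) : ℝ) + 1) ≤ c * (Real.log n + 1) :=
          mul_le_mul_of_nonneg_left (by linarith) hc
        have e3 := hsub m m'
        push_cast
        linarith

end Pool.Agent.Work.MP_376faf_co_gap
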