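import Pool.Agent.Work.MP_376faf_co_gap.ChordsBox
import Pool.Agent.Work.MP_376faf_co_gap.Induct

/-! Assembly of the bounded gap theorem for polygons in boxes. -/

set_option autoImplicit false

namespace Pool.Agent.Work.MP_376faf_co_gap

open Pool.Agent.Work.MP_376faf_co_lower
open Pool.Agent.Work.MP_376faf_co_hw
open Pool.Agent.Work.MP_376faf_co_hw.HP (Nb)

theorem exists_pow_bound (c : ℝ) (e : ℕ) :
    ∃ K : ℕ, ∀ n : ℕ, 1 ≤ n → c * (n:ℝ) ^ e ≤ (K:ℝ) * (n:ℝ) ^ K := by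
  refine ⟨max ⌈c⌉₊ e, fun n hn => ?_⟩
  have h1 : (1:ℝ) ≤ (n:ℝ) := by exact_mod_cast hn
  have h2 : c ≤ ((max ⌈c⌉₊ e : ℕ) : ℝ) :=
    (Nat.le_ceil c).trans (by exact_mod_cast le_max_left _ _)
  have h3 : (n:ℝ) ^ e ≤ (n:ℝ) ^ (max ⌈c⌉₊ e) := pow_le_pow_right₀ h1 (le_max_right _ _)
  exact mul_le_mul h2 h3 (by positivity) (by positivity)

theorem gap_main_of {x : ℝ} (hx : 0 < x) (hx1 : x ≤ 1) {C : ℕ} {a m : ℕ → ℕ} (hF : Fam x C a m)
    (h2 : ∀ K : ℕ, ∃ C' : ℕ, ∀ S : ℕ, 1 ≤ S → ∀ M : ℕ, (∀ s, 1 ≤ s → s ≤ S → m s ≤ M) →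
      ∀ (x0 x1 y0 y1 : ℤ) (s t : Pt), InR x0 x1 y0 y1 s → InR x0 x1 y0 y1 t → s ≠ t →
        sd s t ≤ K * S → sd s t ≤ 4 * (x1 - x0) + 4 → sd s t ≤ 4 * (y1 - y0) + 4 →
        ∃ n ≤ C' * (M + 1), 1 ≤ (C':ℝ) * (S:ℝ) ^ C' *
          ((Nat.card {w : List Pt // RW x0 x1 y0 y1 s t n w} : ℝ) * x ^ n))
    (hcs : ∀ {L N n0 : ℕ} {g : ℝ}, 32 ≤ N → 0 < g →
      (∀ l, PGB L N l → ∃ i < N, ∃ k, N ≤ 16 * k ∧ 16 * k ≤ 15 * N ∧ ∃ n ≤ n0,
        g ≤ (Nat.card {D : List Pt // Chord L (l.rotate i) k n D} : ℝ) * x ^ n) →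
      ∃ k n, N ≤ 16 * k ∧ 16 * k ≤ 15 * N ∧ n ≤ n0 ∧
        (cPG L N : ℝ) * x ^ N * g ^ 2 ≤ (N:ℝ) ^ 2 * (n0 + 1) *
          (((cPG L (k + n) : ℝ) * x ^ (k + n)) * ((cPG L (N - k + n) : ℝ) * x ^ (N - k + n))))
    (hdia : ∀ a m : ℕ, (Nat.card {l : List Pt // CW a m l}) ^ 4 ≤ cPG (2 * a + 1) (4 * m + 4))
    (hcw : ∀ {a m : ℕ} {l : List Pt}, CW a m l → 2 * a ≤ m)
    (hz : ∀ {L N : ℕ}, (L + 1) ^ 2 < N → cPG L N = 0) :
    ∃ K : ℕ, ∀ n : ℕ, 1 ≤ n → ∃ N L : ℕ, n ≤ N ∧ N ≤ K * n ∧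
      1 ≤ (K:ℝ) * (n:ℝ) ^ K * ((cPG L N : ℝ) * x ^ N) := by
  obtain ⟨C', hC'⟩ := h2 (4 * C + 1)
  have hC1 : 1 ≤ C := by
    have e1 := hF.lo 1 le_rfl
    have e2 := hF.hi 1 le_rfl
    omega
  -- corner walks exist, and are long
  have hm2 : ∀ s, 1 ≤ s → 2 * s ≤ m s := by
    intro s hs
    have e1 := hF.mass s hs
    have e2 : Nat.card {l : List Pt // CW (a s) (m s) l} ≠ 0 := by
      intro e
      rw [e] at e1
      simp at e1
      linarith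
    have e3 : 0 < Nat.card {l : List Pt // CW (a s) (m s) l} := Nat.pos_of_ne_zero e2
    obtain ⟨⟨l, hl⟩⟩ := (Nat.card_pos_iff.1 e3).1
    have e4 := hcw hl
    have e5 := hF.lo s hs
    omega
  obtain ⟨K1, hK1⟩ := exists_pow_bound
    (2 * ((4 * (C:ℝ) + 2) * (C + 1)) ^ 4 * (C' * (C + 2) + 5) * ((C:ℝ) * (C + 2) ^ C) ^ 4 *
      (C' + 1) ^ 2 * (C + 1) ^ (2 * C') / x ^ 12) (4 + 1 + C * 4 + 2 * C')
  refine ⟨K1 + 16 * (2 * C' * (C + 2) + 41), fun n hn => ?_⟩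
  set M := n + C with hM
  have hex : ∃ s, M < m (s + 1) := ⟨M, by have := hm2 (M + 1) (by omega); omega⟩
  set S := Nat.find hex with hSdef
  have hS : M < m (S + 1) := Nat.find_spec hex
  have hSM : S ≤ M := Nat.find_min' hex (by have := hm2 (M + 1) (by omega); omega)
  have hm1 : m 1 ≤ M := by
    have e1 := hF.len 1 le_rfl
    rw [one_pow, mul_one] at e1
    omega
  have hS1 : 1 ≤ S := by
    by_contra hcon
    have e1 : S = 0 := by omega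
    rw [e1, zero_add] at hS
    omega
  have hall : ∀ s, 1 ≤ s → s ≤ S → m s ≤ M := by
    intro s hs1 hs2
    have e1 := Nat.find_min hex (m := s - 1) (by omega)
    rw [show s - 1 + 1 = s by omega] at e1
    omega
  set L := 2 * a (S + 1) + 1 with hL
  have haS : a (S + 1) ≤ C * (S + 1) := hF.hi (S + 1) (by omega)
  have hCS : C * 1 ≤ C * S := Nat.mul_le_mul_left C hS1
  have hLS : L ≤ (4 * C + 1) * S := by
    have e1 : C * (S + 1) = C * S + C * 1 := by ring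
    have e2 : (4 * C + 1) * S = 4 * (C * S) + S := by ring
    omega
  set n1 := C' * (M + 1) + 4 with hn1
  set T := 2 * n1 + 32 + n with hT
  -- real constants
  have hn1' : (1:ℝ) ≤ (n:ℝ) := by exact_mod_cast hn
  have hS1' : (1:ℝ) ≤ (S:ℝ) := by exact_mod_cast hS1
  have hC1' : (1:ℝ) ≤ (C:ℝ) := by exact_mod_cast hC1
  set D : ℝ := ((C:ℝ) * ((S:ℝ) + 1) ^ C) ^ 4 with hD
  have hD1 : 1 ≤ D := by
    rw [hD]
    apply one_le_pow₀
    have e1 : (1:ℝ) ≤ ((S:ℝ) + 1) ^ C := one_le_pow₀ (by linarith)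
    nlinarith
  set A : ℕ → ℝ := fun N => (cPG L N : ℝ) * x ^ N with hA
  have hA0 : ∀ N, 0 ≤ A N := fun N => mul_nonneg (Nat.cast_nonneg _) (pow_nonneg hx.le _)
  have hstar : x ^ 4 ≤ D * A (4 * m (S + 1) + 4) := by
    have e1 := hF.mass (S + 1) (by omega)
    have e2 := hdia (a (S + 1)) (m (S + 1))
    have e3 : ((Nat.card {l : List Pt // CW (a (S + 1)) (m (S + 1)) l} : ℝ)) ^ 4 ≤
        (cPG L (4 * m (S + 1) + 4) : ℝ) := by exact_mod_cast e2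
    have e4 : (1:ℝ) ≤ ((C:ℝ) * ((S + 1 : ℕ):ℝ) ^ C *
        ((Nat.card {l : List Pt // CW (a (S + 1)) (m (S + 1)) l} : ℝ) * x ^ m (S + 1))) ^ 4 :=
      one_le_pow₀ e1
    have e5 : ((C:ℝ) * ((S + 1 : ℕ):ℝ) ^ C *
        ((Nat.card {l : List Pt // CW (a (S + 1)) (m (S + 1)) l} : ℝ) * x ^ m (S + 1))) ^ 4 =
        D * ((Nat.card {l : List Pt // CW (a (S + 1)) (m (S + 1)) l} : ℝ) ^ 4 *
          x ^ (4 * m (S + 1))) := by
      rw [hD]
      push_cast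
      rw [mul_pow _ _ 4, mul_pow (Nat.card _ : ℝ) _ 4, ← pow_mul, mul_comm (m (S + 1)) 4]
    rw [e5] at e4
    calc x ^ 4 = 1 * x ^ 4 := (one_mul _).symm
      _ ≤ (D * ((Nat.card {l : List Pt // CW (a (S + 1)) (m (S + 1)) l} : ℝ) ^ 4 *
          x ^ (4 * m (S + 1)))) * x ^ 4 := mul_le_mul_of_nonneg_right e4 (by positivity)
      _ ≤ (D * ((cPG L (4 * m (S + 1) + 4) : ℝ) * x ^ (4 * m (S + 1)))) * x ^ 4 := by
          gcongr
      _ = D * A (4 * m (S + 1) + 4) := by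
          rw [hA]
          simp only
          rw [pow_add x (4 * m (S + 1)) 4]
          ring
  set E : ℝ := 2 * ((L:ℝ) + 1) ^ 4 * ((n1:ℝ) + 1) * D * ((C':ℝ) + 1) ^ 2 * (S:ℝ) ^ (2 * C') /
    x ^ 12 with hE
  have hx12 : (0:ℝ) < x ^ 12 := pow_pos hx 12
  have hEK : E ≤ (K1:ℝ) * (n:ℝ) ^ K1 := by
    refine le_trans ?_ (hK1 n hn)
    have b1 : ((L:ℝ) + 1) ≤ ((4 * (C:ℝ) + 2) * (C + 1)) * n := by
      have c1 : (L:ℝ) ≤ (4 * C + 1) * S := by exact_mod_cast hLS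
      have c2 : (S:ℝ) ≤ n + C := by exact_mod_cast hSM
      have c3 : (n:ℝ) + C ≤ (C + 1) * n := by nlinarith
      calc (L:ℝ) + 1 ≤ (4 * C + 1) * S + S := add_le_add c1 hS1'
        _ = (4 * C + 2) * S := by ring
        _ ≤ (4 * C + 2) * ((C + 1) * n) :=
            mul_le_mul_of_nonneg_left (c2.trans c3) (by positivity)
        _ = _ := by ring
    have b2 : ((n1:ℝ) + 1) ≤ (C' * (C + 2) + 5) * n := by
      have c1 : (n1:ℝ) = C' * (n + C + 1) + 4 := by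
        rw [hn1, hM]
        push_cast
        ring
      rw [c1]
      have c2 : (n:ℝ) + C + 1 ≤ (C + 2) * n := by nlinarith
      have c3 : (C':ℝ) * (n + C + 1) ≤ C' * ((C + 2) * n) :=
        mul_le_mul_of_nonneg_left c2 (by positivity)
      nlinarith
    have b3 : (S:ℝ) + 1 ≤ (C + 2) * n := by
      have c2 : (S:ℝ) ≤ n + C := by exact_mod_cast hSM
      nlinarith
    have b4 : (S:ℝ) ≤ (C + 1) * n := by
      have c2 : (S:ℝ) ≤ n + C := by exact_mod_cast hSM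
      nlinarith
    have b5 : D ≤ ((C:ℝ) * (((C:ℝ) + 2) * n) ^ C) ^ 4 := by
      rw [hD]
      gcongr
    have b6 : ((C:ℝ) * (((C:ℝ) + 2) * n) ^ C) ^ 4 =
        ((C:ℝ) * ((C:ℝ) + 2) ^ C) ^ 4 * (n:ℝ) ^ (C * 4) := by
      rw [mul_pow ((C:ℝ) + 2) (n:ℝ) C, ← mul_assoc, mul_pow _ ((n:ℝ) ^ C) 4, ← pow_mul]
    rw [hE, div_mul_eq_mul_div]
    rw [div_le_div_iff_of_pos_right hx12]
    calc 2 * ((L:ℝ) + 1) ^ 4 * ((n1:ℝ) + 1) * D * ((C':ℝ) + 1) ^ 2 * (S:ℝ) ^ (2 * C')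
        ≤ 2 * ((((4 * (C:ℝ) + 2) * (C + 1)) * n)) ^ 4 * ((C' * (C + 2) + 5) * n) *
          (((C:ℝ) * ((C:ℝ) + 2) ^ C) ^ 4 * (n:ℝ) ^ (C * 4)) * ((C':ℝ) + 1) ^ 2 *
          (((C:ℝ) + 1) * n) ^ (2 * C') := by
          rw [← b6]
          gcongr
      _ = _ := by
          rw [mul_pow _ (n:ℝ) 4, mul_pow _ (n:ℝ) (2 * C'), pow_add, pow_add, pow_add, pow_one]
          ring
  have hfin : ∀ N, n ≤ N → N ≤ 16 * T → 1 ≤ E * A N →
      ∃ N L : ℕ, n ≤ N ∧ N ≤ (K1 + 16 * (2 * C' * (C + 2) + 41)) * n ∧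
      1 ≤ ((K1 + 16 * (2 * C' * (C + 2) + 41) : ℕ):ℝ) *
        (n:ℝ) ^ (K1 + 16 * (2 * C' * (C + 2) + 41)) * ((cPG L N : ℝ) * x ^ N) := by
    intro N h3 h4 h5
    refine ⟨N, L, h3, ?_, ?_⟩
    · have c1 : T ≤ (2 * C' * (C + 2) + 41) * n := by
        have c2 : n + C + 1 ≤ (C + 2) * n := by nlinarith
        have c3 : C' * (n + C + 1) ≤ C' * ((C + 2) * n) := Nat.mul_le_mul_left _ c2
        rw [hT, hn1, hM]
        have c4 : (2 * C' * (C + 2) + 41) * n = 2 * (C' * ((C + 2) * n)) + 41 * n := by ring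
        rw [c4]
        omega
      calc N ≤ 16 * T := h4
        _ ≤ 16 * ((2 * C' * (C + 2) + 41) * n) := Nat.mul_le_mul_left _ c1
        _ = (16 * (2 * C' * (C + 2) + 41)) * n := by ring
        _ ≤ _ := Nat.mul_le_mul_right _ (Nat.le_add_left _ _)
    · refine h5.trans (mul_le_mul_of_nonneg_right ?_ (hA0 N))
      refine hEK.trans ?_
      have c1 : (K1:ℝ) ≤ ((K1 + 16 * (2 * C' * (C + 2) + 41) : ℕ):ℝ) := by
        exact_mod_cast Nat.le_add_right _ _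
      have c2 : (n:ℝ) ^ K1 ≤ (n:ℝ) ^ (K1 + 16 * (2 * C' * (C + 2) + 41)) :=
        pow_le_pow_right₀ hn1' (Nat.le_add_right _ _)
      exact mul_le_mul c1 c2 (by positivity) (by positivity)
  have hLp : (1:ℝ) ≤ ((L:ℝ) + 1) := by
    have : (0:ℝ) ≤ (L:ℝ) := Nat.cast_nonneg _
    linarith
  have hn1p : (1:ℝ) ≤ ((n1:ℝ) + 1) := by
    have : (0:ℝ) ≤ (n1:ℝ) := Nat.cast_nonneg _
    linarith
  have hC'p : (1:ℝ) ≤ ((C':ℝ) + 1) := by
    have : (0:ℝ) ≤ (C':ℝ) := Nat.cast_nonneg _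
    linarith
  have hSp : (1:ℝ) ≤ (S:ℝ) ^ (2 * C') := one_le_pow₀ hS1'
  rcases Nat.lt_or_ge T (4 * m (S + 1) + 4) with hcase | hcase
  swap
  · -- the diamond itself is short
    refine hfin (4 * m (S + 1) + 4) (by omega) (by omega) ?_
    have c1 : 1 ≤ (D / x ^ 4) * A (4 * m (S + 1) + 4) := by
      rw [div_mul_eq_mul_div, le_div_iff₀ (pow_pos hx 4), one_mul]
      exact hstar
    refine c1.trans (mul_le_mul_of_nonneg_right ?_ (hA0 _))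
    rw [hE]
    have c2 : x ^ 12 ≤ x ^ 4 := pow_le_pow_of_le_one hx.le hx1 (by norm_num)
    have c3 : D ≤ 2 * ((L:ℝ) + 1) ^ 4 * ((n1:ℝ) + 1) * D * ((C':ℝ) + 1) ^ 2 *
        (S:ℝ) ^ (2 * C') := by
      have d1 : (1:ℝ) ≤ ((L:ℝ) + 1) ^ 4 := one_le_pow₀ hLp
      have d2 : (1:ℝ) ≤ ((C':ℝ) + 1) ^ 2 := one_le_pow₀ hC'p
      have d3 : (1:ℝ) ≤ 2 * ((L:ℝ) + 1) ^ 4 := by linarith
      have d4 : (1:ℝ) ≤ 2 * ((L:ℝ) + 1) ^ 4 * ((n1:ℝ) + 1) := one_le_mul_of_one_le_of_one_le d3 hn1p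
      calc D = 1 * D * 1 * 1 := by ring
        _ ≤ (2 * ((L:ℝ) + 1) ^ 4 * ((n1:ℝ) + 1)) * D * ((C':ℝ) + 1) ^ 2 * (S:ℝ) ^ (2 * C') := by
            have hD0 : (0:ℝ) ≤ D := by linarith
            gcongr
    calc D / x ^ 4 ≤ D / x ^ 12 := div_le_div_of_nonneg_left (by linarith) hx12 c2
      _ ≤ _ := div_le_div_of_nonneg_right c3 hx12.le
  · -- otherwise a gap is impossible
    set g0 : ℝ := 1 / (((C':ℝ) + 1) * (S:ℝ) ^ C') with hg0
    have hSC : (1:ℝ) ≤ (S:ℝ) ^ C' := one_le_pow₀ hS1'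
    have hden : (1:ℝ) ≤ ((C':ℝ) + 1) * (S:ℝ) ^ C' := one_le_mul_of_one_le_of_one_le hC'p hSC
    have hden0 : (0:ℝ) < ((C':ℝ) + 1) * (S:ℝ) ^ C' := by linarith
    have hg0p : 0 < g0 := by rw [hg0]; positivity
    have hg01 : g0 ≤ 1 := by
      rw [hg0, div_le_one hden0]
      exact hden
    set g : ℝ := g0 * x ^ 4 with hg
    have hgp : 0 < g := mul_pos hg0p (pow_pos hx 4)
    have hx41 : x ^ 4 ≤ 1 := pow_le_one₀ hx.le hx1
    have hg1 : g ≤ 1 := by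
      rw [hg]
      exact mul_le_one₀ hg01 (by positivity) hx41
    have hR : ∀ (x0 x1 y0 y1 : ℤ) (s t : Pt), InR x0 x1 y0 y1 s → InR x0 x1 y0 y1 t → s ≠ t →
        sd s t ≤ L → sd s t ≤ 4 * (x1 - x0) + 4 → sd s t ≤ 4 * (y1 - y0) + 4 →
        ∃ n ≤ C' * (M + 1),
          g0 ≤ (Nat.card {w : List Pt // RW x0 x1 y0 y1 s t n w} : ℝ) * x ^ n := by
      intro x0 x1 y0 y1 s t h3 h4 h5 h6 h7 h8
      have h9 : sd s t ≤ ((4 * C + 1 : ℕ) : ℤ) * (S:ℤ) := by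
        refine h6.trans ?_
        exact_mod_cast hLS
      obtain ⟨q, hq1, hq2⟩ := hC' S hS1 M hall x0 x1 y0 y1 s t h3 h4 h5 h9 h7 h8
      refine ⟨q, hq1, ?_⟩
      rw [hg0, div_le_iff₀ hden0]
      set V : ℝ := (Nat.card {w : List Pt // RW x0 x1 y0 y1 s t q w} : ℝ) * x ^ q with hV
      have hV0 : 0 ≤ V := mul_nonneg (Nat.cast_nonneg _) (pow_nonneg hx.le _)
      have c1 : (C':ℝ) * (S:ℝ) ^ C' * V ≤ (((C':ℝ) + 1) * (S:ℝ) ^ C') * V := by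
        apply mul_le_mul_of_nonneg_right _ hV0
        apply mul_le_mul_of_nonneg_right _ (by positivity)
        linarith
      calc (1:ℝ) ≤ _ := hq2
        _ ≤ _ := c1
        _ = _ := mul_comm _ _
    set ε : ℝ := 1 / E with hε
    have hE0 : 0 < E := by
      rw [hE]
      have : 0 < D := by linarith
      positivity
    have hEg : E * (g ^ 2 * x ^ 4) = 2 * ((L:ℝ) + 1) ^ 4 * ((n1:ℝ) + 1) * D := by
      rw [hE, hg, hg0]
      have hSne : (S:ℝ) ^ C' ≠ 0 := by positivity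
      have hxne : x ≠ 0 := hx.ne'
      rw [pow_mul (S:ℝ) 2 C', ← pow_mul, mul_comm 2 C', pow_mul (S:ℝ) C' 2]
      field_simp
    by_contra hcon
    push Not at hcon
    have hno : ∀ N, T ≤ N → N ≤ 16 * T → A N ≤ ε := by
      intro N h3 h4
      by_contra h5
      push Not at h5
      have h6 : 1 ≤ E * A N := by
        have : E * ε ≤ E * A N := mul_le_mul_of_nonneg_left h5.le hE0.le
        rwa [hε, mul_one_div_cancel hE0.ne'] at this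
      obtain ⟨N', L', c1, c2, c3⟩ := hfin N (by omega) h4 h6
      exact absurd c3 (not_le.2 (hcon N' L' c1 c2))
    have hmain := gap_induct (A := A) (T := T) (n0 := n1) (B := (L + 1) ^ 2) (ε := ε) (g := g)
      hA0 (by omega) (by omega) hgp (by rw [hε]; positivity) (by
        intro N hN
        simp only [hA]
        rw [hz hN]
        simp) (by
        intro N hN
        refine hcs (L := L) (N := N) (n0 := n1) (g := g) (by omega) hgp ?_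
        intro l hl
        exact exists_chords (by omega) hx hx1 hg0p hg01 hR hl) (by
        -- smallness
        have c1 : ((((L + 1) ^ 2 : ℕ) : ℝ)) ^ 2 * ((n1:ℝ) + 1) * ε * E =
            ((L:ℝ) + 1) ^ 4 * ((n1:ℝ) + 1) := by
          rw [mul_assoc, hε, one_div_mul_cancel hE0.ne']
          push_cast
          ring
        have c2 : g ^ 2 * E * x ^ 4 = 2 * ((L:ℝ) + 1) ^ 4 * ((n1:ℝ) + 1) * D := by
          rw [← hEg]
          ring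
        have c3 : ((((L + 1) ^ 2 : ℕ) : ℝ)) ^ 2 * ((n1:ℝ) + 1) * ε * E ≤ g ^ 2 * E := by
          rw [c1]
          have d0 : (0:ℝ) ≤ g ^ 2 * E := by positivity
          have d1 : g ^ 2 * E * x ^ 4 ≤ g ^ 2 * E * 1 := mul_le_mul_of_nonneg_left hx41 d0
          rw [c2, mul_one] at d1
          refine le_trans ?_ d1
          have d2 : (0:ℝ) ≤ ((L:ℝ) + 1) ^ 4 * ((n1:ℝ) + 1) := by positivity
          nlinarith
        exact le_of_mul_le_mul_right c3 hE0) hno (4 * m (S + 1) + 4) hcase.le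
    -- contradiction at the diamond
    have c1 : x ^ 4 ≤ D * ε := hstar.trans (mul_le_mul_of_nonneg_left hmain (by linarith))
    have c2 : x ^ 4 * E ≤ D := by
      have := mul_le_mul_of_nonneg_right c1 hE0.le
      rwa [mul_assoc, hε, one_div_mul_cancel hE0.ne', mul_one] at this
    have c3 : 2 * ((L:ℝ) + 1) ^ 4 * ((n1:ℝ) + 1) * D ≤ D := by
      rw [← hEg]
      have d1 : g ^ 2 ≤ 1 := pow_le_one₀ hgp.le hg1
      calc E * (g ^ 2 * x ^ 4) = g ^ 2 * (x ^ 4 * E) := by ring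
        _ ≤ 1 * (x ^ 4 * E) := mul_le_mul_of_nonneg_right d1 (by positivity)
        _ = x ^ 4 * E := one_mul _
        _ ≤ D := c2
    have c4 : (1:ℝ) ≤ ((L:ℝ) + 1) ^ 4 * ((n1:ℝ) + 1) :=
      one_le_mul_of_one_le_of_one_le (one_le_pow₀ hLp) hn1p
    have c5 : 2 * D ≤ 2 * ((L:ℝ) + 1) ^ 4 * ((n1:ℝ) + 1) * D := by
      have : 2 * ((L:ℝ) + 1) ^ 4 * ((n1:ℝ) + 1) * D =
        (((L:ℝ) + 1) ^ 4 * ((n1:ℝ) + 1)) * (2 * D) := by ring
      rw [this]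
      nlinarith
    linarith

end Pool.Agent.Work.MP_376faf_co_gap
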