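import Pool.Agent.Work.MP_376faf_co_gap.Block

set_option autoImplicit false

/-!
Concatenation of strip walks, diagonal legs.
-/

namespace Pool.Agent.Work.MP_376faf_co_gap

open Pool.Agent.Work.MP_376faf_co_lower
open Pool.Agent.Work.MP_376faf_co_hw.HP (Nb)

theorem SP.nonneg {U V lo hi : ℤ} {l : List Pt} (h : SP U V lo hi l) : 0 ≤ U := by
  rcases Nat.eq_zero_or_pos l.length with h1 | h1
  · have h2 := h.2.1
    rw [List.eq_nil_of_length_eq_zero h1] at h2
    have h3 := congrArg Prod.fst h2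
    simp only [List.sum_nil, Prod.fst_zero] at h3
    omega
  · have := h.2.2.1 0 h1
    omega

theorem SP.box {U V lo hi : ℤ} {l : List Pt} (h : SP U V lo hi l) {q : Pt} (hq : VW 0 l q) :
    0 ≤ q.1 ∧ q.1 ≤ U ∧ lo ≤ q.2 ∧ q.2 ≤ hi := by
  obtain ⟨i, hi, rfl⟩ := hq
  rw [zero_add]
  have h1 := h.2.2.2 i hi
  rcases Nat.lt_or_ge i l.length with h2 | h2
  · have := h.2.2.1 i h2
    omega
  · have h3 := h.nonneg
    have h4 : i = l.length := by omega
    rw [h4, pos_len, h.2.1]
    rw [h4, pos_len, h.2.1] at h1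
    simp only at h1 ⊢
    omega

theorem SP.mono {U V lo hi lo' hi' : ℤ} (h1 : lo' ≤ lo) (h2 : hi ≤ hi') {l : List Pt}
    (h : SP U V lo hi l) : SP U V lo' hi' l :=
  ⟨h.1, h.2.1, h.2.2.1, fun i hi => ⟨h1.trans (h.2.2.2 i hi).1, (h.2.2.2 i hi).2.trans h2⟩⟩

theorem SP.app {U1 V1 U2 V2 lo hi : ℤ} {a b : List Pt} (ha : SP U1 V1 lo hi a)
    (hb : SP U2 V2 (lo - V1) (hi - V1) b) : SP (U1 + U2) (V1 + V2) lo hi (a ++ b) := by
  have hU := hb.nonneg
  have hU1 := ha.nonneg
  have hW : Walk (a ++ b) := by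
    refine walk_append (p := 0) ha.1 hb.1 ?_
    rintro q ⟨i, hi', rfl⟩ h2
    obtain ⟨q', h3, h4⟩ := VW_shift h2
    have h5 := hb.box h3
    rw [zero_add, ha.2.1] at h4
    rcases Nat.lt_or_ge i a.length with h6 | h6
    · exfalso
      have h7 := ha.2.2.1 i h6
      have h8 := congrArg Prod.fst h4
      rw [zero_add] at h8
      simp only [Prod.fst_add] at h8
      omega
    · rw [show i = a.length by omega, pos_len]
  refine SP_of hW (by rw [List.sum_append, ha.2.1, hb.2.1]; rfl) ?_ ?_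
  · intro q hq
    rcases VW.append.1 hq with ⟨i, hi', rfl⟩ | h2
    · rw [zero_add]
      rcases Nat.lt_or_ge i a.length with h6 | h6
      · right
        have h7 := ha.2.2.1 i h6
        omega
      · rw [show i = a.length by omega, pos_len, ha.2.1]
        rcases Nat.eq_zero_or_pos b.length with h8 | h8
        · left
          have h9 := hb.2.1
          rw [List.eq_nil_of_length_eq_zero h8, List.sum_nil] at h9
          have h10 := congrArg Prod.fst h9
          have h11 := congrArg Prod.snd h9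
          simp only [Prod.fst_zero, Prod.snd_zero] at h10 h11
          rw [← h10, ← h11, add_zero, add_zero]
        · right
          have := hb.2.2.1 0 h8
          simp only
          omega
    · obtain ⟨q', ⟨j, hj, h4⟩, rfl⟩ := VW_shift h2
      rw [zero_add] at h4
      subst h4
      rw [zero_add, ha.2.1]
      rcases Nat.lt_or_ge j b.length with h6 | h6
      · right
        have h7 := hb.2.2.1 j h6
        simp only [Prod.fst_add]
        omega
      · left
        rw [show j = b.length by omega, pos_len, hb.2.1]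
        rfl
  · intro q hq
    rcases VW.append.1 hq with h2 | h2
    · have := ha.box h2
      omega
    · obtain ⟨q', h3, rfl⟩ := VW_shift h2
      have h5 := hb.box h3
      rw [zero_add, ha.2.1]
      simp only [Prod.snd_add]
      omega

theorem SP.neg {U V lo hi : ℤ} {l : List Pt} (h : SP U V lo hi l) :
    SP U (-V) (-hi) (-lo) (l.map fy) := by
  refine ⟨walk_hom h.1 fy fy_inj fy_un, ?_, ?_, ?_⟩
  · rw [← map_list_sum, h.2.1, fy_app]
  · intro i hi'
    rw [List.length_map] at hi'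
    rw [pos_hom, fy_app]
    exact h.2.2.1 i hi'
  · intro i hi'
    rw [List.length_map] at hi'
    rw [pos_hom, fy_app]
    have := h.2.2.2 i hi'
    simp only
    omega

/-- number of strip walks -/
noncomputable def nSP (U V lo hi : ℤ) (n : ℕ) : ℕ :=
  Nat.card {l // SP U V lo hi l ∧ l.length = n}

theorem fin_SP (U V lo hi : ℤ) (n : ℕ) : Finite {l // SP U V lo hi l ∧ l.length = n} :=
  finite_of n fun _ h => ⟨h.1.1.1, h.2⟩

theorem nSP_mul (U1 V1 U2 V2 lo hi : ℤ) (p q : ℕ) :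
    nSP U1 V1 lo hi p * nSP U2 V2 (lo - V1) (hi - V1) q ≤
      nSP (U1 + U2) (V1 + V2) lo hi (p + q) := by
  have := fin_SP (U1 + U2) (V1 + V2) lo hi (p + q)
  unfold nSP
  rw [← Nat.card_prod]
  refine Nat.card_le_card_of_injective (fun z => ⟨z.1.1 ++ z.2.1, z.1.2.1.app z.2.2.1, by
    rw [List.length_append, z.1.2.2, z.2.2.2]⟩) ?_
  rintro ⟨⟨a, ha⟩, ⟨b, hb⟩⟩ ⟨⟨c, hc⟩, ⟨d, hd⟩⟩ e
  simp only [Subtype.mk.injEq] at e
  obtain ⟨rfl, rfl⟩ := List.append_inj e (by rw [ha.2, hc.2])
  rfl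

theorem nSP_mono {U V lo hi lo' hi' : ℤ} (h1 : lo' ≤ lo) (h2 : hi ≤ hi') (n : ℕ) :
    nSP U V lo hi n ≤ nSP U V lo' hi' n := by
  have := fin_SP U V lo' hi' n
  unfold nSP
  refine Nat.card_le_card_of_injective (fun z => ⟨z.1, z.2.1.mono h1 h2, z.2.2⟩) ?_
  rintro ⟨a, ha⟩ ⟨c, hc⟩ e
  simp only [Subtype.mk.injEq] at e
  subst e
  rfl

theorem nSP_neg (U V lo hi : ℤ) (n : ℕ) : nSP U V lo hi n ≤ nSP U (-V) (-hi) (-lo) n := by
  have := fin_SP U (-V) (-hi) (-lo) n
  unfold nSP
  refine Nat.card_le_card_of_injective (fun z => ⟨z.1.map fy, z.2.1.neg, by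
    rw [List.length_map, z.2.2]⟩) ?_
  rintro ⟨a, ha⟩ ⟨c, hc⟩ e
  simp only [Subtype.mk.injEq] at e
  have := List.map_injective_iff.2 fy_inj e
  subst this
  rfl

/-! ### legs -/

theorem leg_SP {a m : ℕ} {l : List Pt} (h : CW a m l) :
    SP ((a : ℤ) + 1) a 0 a (l ++ [(1, 0)]) := by
  have hW : Walk (l ++ [(1, 0)]) := by
    refine walk_snoc0 h.1 un10 ?_
    intro hq
    have := h.box hq
    rw [h.2.2.1] at this
    simp only [Prod.fst_add] at this
    omega
  refine SP_of hW (by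
    rw [List.sum_append, h.2.2.1, List.sum_singleton]
    ext <;> simp) ?_ ?_
  · intro q hq
    rw [VW.append, VW_cons, VW_nil, h.2.2.1] at hq
    rcases hq with hq | rfl | rfl
    · have := h.box hq
      omega
    · right
      simp only [Prod.fst_add, Prod.fst_zero]
      omega
    · left
      ext <;> simp
  · intro q hq
    rw [VW.append, VW_cons, VW_nil, h.2.2.1] at hq
    rcases hq with hq | rfl | rfl
    · have := h.box hq
      omega
    · simp only [Prod.snd_add, Prod.snd_zero]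
      omega
    · simp only [Prod.snd_add, Prod.snd_zero]
      omega

theorem leg_card (a m : ℕ) : Nat.card {l // CW a m l} ≤ nSP ((a : ℤ) + 1) a 0 a (m + 1) := by
  have := fin_SP ((a : ℤ) + 1) a 0 a (m + 1)
  unfold nSP
  refine Nat.card_le_card_of_injective (fun z => ⟨z.1 ++ [(1, 0)], leg_SP z.2, by
    rw [List.length_append, z.2.2.1, List.length_singleton]⟩) ?_
  rintro ⟨c, hc⟩ ⟨d, hd⟩ e
  simp only [Subtype.mk.injEq] at e
  have := List.append_cancel_right e
  subst this
  rfl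

theorem legs_card (a m p : ℕ) : Nat.card {l // CW a m l} ^ p ≤
    nSP ((p : ℤ) * (a + 1)) ((p : ℤ) * a) 0 ((p : ℤ) * a) (p * (m + 1)) := by
  induction p with
  | zero =>
    have := fin_SP (((0 : ℕ) : ℤ) * (a + 1)) (((0 : ℕ) : ℤ) * a) 0 (((0 : ℕ) : ℤ) * a)
      (0 * (m + 1))
    rw [pow_zero]
    refine Nat.card_pos_iff.2 ⟨⟨⟨[], ?_, by simp⟩⟩, this⟩
    refine SP_of walk_nil (by simp; rfl) ?_ ?_
    · intro q hq
      rw [VW_nil] at hq
      left
      rw [hq]
      ext <;> simp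
    · intro q hq
      rw [VW_nil] at hq
      rw [hq]
      simp
  | succ p ih =>
    have h1 := nSP_mul ((p : ℤ) * (a + 1)) ((p : ℤ) * a) ((a : ℤ) + 1) a 0
      (((p + 1 : ℕ) : ℤ) * a) (p * (m + 1)) (m + 1)
    have h2 : nSP ((p : ℤ) * (a + 1)) ((p : ℤ) * a) 0 ((p : ℤ) * a) (p * (m + 1)) ≤
        nSP ((p : ℤ) * (a + 1)) ((p : ℤ) * a) 0 (((p + 1 : ℕ) : ℤ) * a) (p * (m + 1)) :=
      nSP_mono le_rfl (by push_cast; nlinarith) _
    have h3 : nSP ((a : ℤ) + 1) a 0 a (m + 1) ≤
        nSP ((a : ℤ) + 1) a (0 - (p : ℤ) * a) (((p + 1 : ℕ) : ℤ) * a - (p : ℤ) * a) (m + 1) := by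
      refine nSP_mono ?_ ?_ _
      · have : 0 ≤ (p : ℤ) * a := by positivity
        omega
      · push_cast
        linarith
    rw [pow_succ]
    refine (Nat.mul_le_mul (ih.trans h2) ((leg_card a m).trans h3)).trans (h1.trans
      (le_of_eq ?_))
    congr 1
    · push_cast
      ring
    · push_cast
      ring
    · ring

end Pool.Agent.Work.MP_376faf_co_gap
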