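import Pool.Agent.Work.MP_376faf_co_hw.Sep

set_option autoImplicit false

/-!
Planar topology of `ℤ × ℤ` by cochains: closed cochains are exact, the boundary between two
connected complementary sets is connected by plaquettes, double contact in a rectangle.
-/

namespace Pool.Agent.Work.MP_376faf_co_gap

open Pool.Agent.Work.MP_376faf_co_hw.HP

/-! ### closed cochains are exact -/

theorem exists_prim {G : Type*} [AddCommGroup G] (f : ℤ → G) :
    ∃ F : ℤ → G, ∀ n, F (n + 1) = F n + f n := by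
  refine ⟨fun n => ∑ i ∈ Finset.Ico 0 n, f i - ∑ i ∈ Finset.Ico n 0, f i, fun n => ?_⟩
  simp only
  rcases lt_or_ge n 0 with h | h
  · have e1 : Finset.Ico n 0 = insert n (Finset.Ico (n + 1) 0) := by
      ext i
      simp only [Finset.mem_Ico, Finset.mem_insert]
      omega
    have e2 : Finset.Ico (0 : ℤ) (n + 1) = ∅ := Finset.Ico_eq_empty (by omega)
    have e3 : Finset.Ico (0 : ℤ) n = ∅ := Finset.Ico_eq_empty (by omega)
    rw [e1, e2, e3, Finset.sum_insert (by simp)]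
    simp
  · have e1 : Finset.Ico 0 (n + 1) = insert n (Finset.Ico 0 n) := by
      ext i
      simp only [Finset.mem_Ico, Finset.mem_insert]
      omega
    have e2 : Finset.Ico (n + 1) 0 = ∅ := Finset.Ico_eq_empty (by omega)
    have e3 : Finset.Ico n 0 = ∅ := Finset.Ico_eq_empty (by omega)
    rw [e1, e2, e3, Finset.sum_insert (by simp)]
    simp [add_comm]

/-- `a x y` belongs to the edge `(x,y) → (x+1,y)`, `b x y` to the edge `(x,y) → (x,y+1)` -/
theorem exact_coord {G : Type*} [AddCommGroup G] (a b : ℤ → ℤ → G)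
    (h : ∀ x y, a x y + b (x + 1) y = b x y + a x (y + 1)) :
    ∃ ψ : ℤ × ℤ → G, (∀ x y, ψ (x + 1, y) = ψ (x, y) + a x y) ∧
      ∀ x y, ψ (x, y + 1) = ψ (x, y) + b x y := by
  obtain ⟨A, hA⟩ := exists_prim (fun x => a x 0)
  choose B hB using fun x => exists_prim (b x)
  refine ⟨fun p => A p.1 + (B p.1 p.2 - B p.1 0), ?_, ?_⟩
  · intro x y
    simp only
    have key : ∀ y : ℤ, B (x + 1) y - B (x + 1) 0 + a x 0 = B x y - B x 0 + a x y := by
      intro y
      induction y using Int.induction_on with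
      | zero => abel
      | succ i ih =>
        have h1 := h x i
        rw [hB, hB]
        have e1 : B (x + 1) i + b (x + 1) i - B (x + 1) 0 + a x 0 =
            (B (x + 1) i - B (x + 1) 0 + a x 0) + b (x + 1) i := by abel
        rw [e1, ih]
        have e2 : B x i - B x 0 + a x i + b (x + 1) i = B x i - B x 0 + (a x i + b (x + 1) i) := by
          abel
        rw [e2, h1]
        abel
      | pred i ih =>
        have h1 := h x (-i - 1)
        have h2 := hB x (-i - 1)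
        have h3 := hB (x + 1) (-i - 1)
        rw [sub_add_cancel] at h1 h2 h3
        rw [h2, h3] at ih
        have e1 : B (x + 1) (-i - 1) - B (x + 1) 0 + a x 0 =
            (B (x + 1) (-i - 1) + b (x + 1) (-i - 1) - B (x + 1) 0 + a x 0) -
              b (x + 1) (-i - 1) := by abel
        rw [e1, ih]
        have e2 : B x (-i - 1) + b x (-i - 1) - B x 0 + a x (-i) - b (x + 1) (-i - 1) =
            B x (-i - 1) - B x 0 + (b x (-i - 1) + a x (-i)) - b (x + 1) (-i - 1) := by abel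
        rw [e2, ← h1]
        abel
    have h1 := key y
    rw [hA]
    have e1 : A x + a x 0 + (B (x + 1) y - B (x + 1) 0) =
        A x + (B (x + 1) y - B (x + 1) 0 + a x 0) := by abel
    rw [e1, h1]
    abel
  · intro x y
    simp only
    rw [hB]
    abel

theorem nb_symm {p q : ℤ × ℤ} (h : Nb p q) : Nb q p := by
  unfold Nb at h ⊢
  rw [abs_sub_comm p.1, abs_sub_comm p.2]
  exact h

theorem nb_right (x y : ℤ) : Nb (x, y) (x + 1, y) := by
  unfold Nb
  simp

theorem nb_up (x y : ℤ) : Nb (x, y) (x, y + 1) := by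
  unfold Nb
  simp

/-- an antisymmetric cochain which is closed on all unit squares is exact -/
theorem exact_nb {G : Type*} [AddCommGroup G] (φ : ℤ × ℤ → ℤ × ℤ → G)
    (anti : ∀ p q, φ q p = -φ p q)
    (closed : ∀ x y : ℤ, φ (x, y) (x + 1, y) + φ (x + 1, y) (x + 1, y + 1) =
      φ (x, y) (x, y + 1) + φ (x, y + 1) (x + 1, y + 1)) :
    ∃ ψ : ℤ × ℤ → G, ∀ p q, Nb p q → ψ q = ψ p + φ p q := by
  obtain ⟨ψ, h1, h2⟩ := exact_coord (fun x y => φ (x, y) (x + 1, y))
    (fun x y => φ (x, y) (x, y + 1)) closed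
  refine ⟨ψ, ?_⟩
  rintro ⟨x, y⟩ ⟨x', y'⟩ h
  rcases h.cases with ⟨e1, e2⟩ | ⟨e1, e2⟩ | ⟨e1, e2⟩ | ⟨e1, e2⟩ <;> simp only at e1 e2 <;>
    subst e1 e2
  · exact h1 x y'
  · have h3 := h1 (x - 1) y'
    rw [sub_add_cancel] at h3
    rw [h3, anti (x - 1, y') (x, y')]
    abel
  · exact h2 x' y
  · have h3 := h2 x' (y - 1)
    rw [sub_add_cancel] at h3
    rw [h3, anti (x', y - 1) (x', y)]
    abel

/-! ### connected sets -/

/-- `a` and `b` are joined by a path in `S` -/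
def Jn (S : ℤ × ℤ → Prop) : ℤ × ℤ → ℤ × ℤ → Prop :=
  Relation.ReflTransGen (fun p q => Nb p q ∧ S p ∧ S q)

theorem Jn.refl' (S : ℤ × ℤ → Prop) (a : ℤ × ℤ) : Jn S a a := Relation.ReflTransGen.refl

theorem Jn.symm {S : ℤ × ℤ → Prop} {a b : ℤ × ℤ} (h : Jn S a b) : Jn S b a := by
  induction h with
  | refl => exact Relation.ReflTransGen.refl
  | tail _ h2 ih => exact Relation.ReflTransGen.head ⟨nb_symm h2.1, h2.2.2, h2.2.1⟩ ih

theorem Jn.trans {S : ℤ × ℤ → Prop} {a b c : ℤ × ℤ} (h : Jn S a b) (h' : Jn S b c) : Jn S a c :=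
  Relation.ReflTransGen.trans h h'

theorem Jn.mono {S T : ℤ × ℤ → Prop} (hST : ∀ p, S p → T p) {a b : ℤ × ℤ} (h : Jn S a b) :
    Jn T a b := by
  induction h with
  | refl => exact Relation.ReflTransGen.refl
  | tail _ h2 ih => exact ih.tail ⟨h2.1, hST _ h2.2.1, hST _ h2.2.2⟩

theorem Jn.step {S : ℤ × ℤ → Prop} {a b : ℤ × ℤ} (h : Nb a b) (ha : S a) (hb : S b) : Jn S a b :=
  Relation.ReflTransGen.single ⟨h, ha, hb⟩

theorem Jn.mem {S : ℤ × ℤ → Prop} {a b : ℤ × ℤ} (h : Jn S a b) (ha : S a) : S b := by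
  induction h with
  | refl => exact ha
  | tail _ h2 _ => exact h2.2.2

/-- vertical segments -/
theorem Jn.vert {S : ℤ × ℤ → Prop} {x y y' : ℤ} (hy : y ≤ y')
    (h : ∀ z, y ≤ z → z ≤ y' → S (x, z)) : Jn S (x, y) (x, y') := by
  induction y', hy using Int.le_induction with
  | base => exact Jn.refl' _ _
  | succ z hz ih =>
    exact (ih fun w h1 h2 => h w h1 (by omega)).trans
      (Jn.step (nb_up x z) (h z hz (by omega)) (h (z + 1) (by omega) le_rfl))

/-- horizontal segments -/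
theorem Jn.horiz {S : ℤ × ℤ → Prop} {x x' y : ℤ} (hx : x ≤ x')
    (h : ∀ z, x ≤ z → z ≤ x' → S (z, y)) : Jn S (x, y) (x', y) := by
  induction x', hx using Int.le_induction with
  | base => exact Jn.refl' _ _
  | succ z hz ih =>
    exact (ih fun w h1 h2 => h w h1 (by omega)).trans
      (Jn.step (nb_right z y) (h z hz (by omega)) (h (z + 1) (by omega) le_rfl))

/-- the plane is connected -/
theorem Jn.univ (a b : ℤ × ℤ) : Jn (fun _ => True) a b := by
  obtain ⟨x, y⟩ := a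
  obtain ⟨x', y'⟩ := b
  have h1 : Jn (fun _ => True) (x, y) (x, y') := by
    rcases le_total y y' with h | h
    · exact Jn.vert h fun _ _ _ => trivial
    · exact (Jn.vert h fun _ _ _ => trivial).symm
  have h2 : Jn (fun _ => True) (x, y') (x', y') := by
    rcases le_total x x' with h | h
    · exact Jn.horiz h fun _ _ _ => trivial
    · exact (Jn.horiz h fun _ _ _ => trivial).symm
  exact h1.trans h2

/-- `S` is connected -/
def Conn (S : ℤ × ℤ → Prop) : Prop := ∀ a b, S a → S b → Jn S a b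

/-- `p` is a corner of the unit square with lower left corner `(x, y)` -/
def InP (x y : ℤ) (p : ℤ × ℤ) : Prop := x ≤ p.1 ∧ p.1 ≤ x + 1 ∧ y ≤ p.2 ∧ p.2 ≤ y + 1

/-- **Unicoherence.** The boundary edges between two complementary connected sets are connected by
unit squares. -/
theorem unico {W : ℤ × ℤ → Prop} (hW : Conn W) (hV : Conn (fun p => ¬ W p))
    {c : ℤ × ℤ → ℤ × ℤ → Prop}
    (hc : ∀ x y : ℤ, ∀ p q p' q' : ℤ × ℤ, InP x y p → InP x y q → InP x y p' → InP x y q' →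
      Nb p q → Nb p' q' → W p → ¬ W q → W p' → ¬ W q' → c p q → c p' q')
    {p q p' q' : ℤ × ℤ} (h1 : Nb p q) (h2 : W p) (h3 : ¬ W q) (h1' : Nb p' q') (h2' : W p')
    (h3' : ¬ W q') (h : c p q) : c p' q' := by
  classical
  set φ : ℤ × ℤ → ℤ × ℤ → ℤ := fun p q => if W p ∧ ¬ W q ∧ c p q then 1 else
    if W q ∧ ¬ W p ∧ c q p then -1 else 0 with hφ
  have anti : ∀ p q, φ q p = -φ p q := by
    intro p q
    simp only [hφ]
    by_cases e1 : W p ∧ ¬ W q ∧ c p q
    · have e2 : ¬ (W q ∧ ¬ W p ∧ c q p) := fun e => e.2.1 e1.1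
      rw [if_neg e2, if_pos e1, if_pos e1]
    · rw [if_neg e1]
      by_cases e2 : W q ∧ ¬ W p ∧ c q p
      · rw [if_pos e2, if_neg e1, if_pos e2]
        norm_num
      · rw [if_neg e2, if_neg e2, if_neg e1]
        norm_num
  have closed : ∀ x y : ℤ, φ (x, y) (x + 1, y) + φ (x + 1, y) (x + 1, y + 1) =
      φ (x, y) (x, y + 1) + φ (x, y + 1) (x + 1, y + 1) := by
    intro x y
    have m1 : InP x y (x, y) := ⟨le_rfl, by simp, le_rfl, by simp⟩
    have m2 : InP x y (x + 1, y) := ⟨by simp, le_rfl, le_rfl, by simp⟩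
    have m3 : InP x y (x, y + 1) := ⟨le_rfl, by simp, by simp, le_rfl⟩
    have m4 : InP x y (x + 1, y + 1) := ⟨by simp, le_rfl, by simp, le_rfl⟩
    by_cases hex : ∃ p q : ℤ × ℤ, InP x y p ∧ InP x y q ∧ Nb p q ∧ W p ∧ ¬ W q ∧ c p q
    · obtain ⟨p₀, q₀, i1, i2, i3, i4, i5, i6⟩ := hex
      have hv : ∀ p q, InP x y p → InP x y q → Nb p q →
          φ p q = (if W p then 1 else 0) - (if W q then 1 else 0) := by
        intro p q j1 j2 j3
        simp only [hφ]
        by_cases e1 : W p <;> by_cases e2 : W q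
        · simp [e1, e2]
        · have := hc x y p₀ q₀ p q i1 i2 j1 j2 i3 j3 i4 i5 e1 e2 i6
          simp [e1, e2, this]
        · have := hc x y p₀ q₀ q p i1 i2 j2 j1 i3 (nb_symm j3) i4 i5 e2 e1 i6
          simp [e1, e2, this]
        · simp [e1, e2]
      rw [hv _ _ m1 m2 (nb_right x y), hv _ _ m2 m4 (nb_up (x + 1) y), hv _ _ m1 m3 (nb_up x y),
        hv _ _ m3 m4 (nb_right x (y + 1))]
      ring
    · have hv : ∀ p q, InP x y p → InP x y q → Nb p q → φ p q = 0 := by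
        intro p q j1 j2 j3
        simp only [hφ]
        rw [if_neg (fun e => hex ⟨p, q, j1, j2, j3, e⟩),
          if_neg (fun e => hex ⟨q, p, j2, j1, (nb_symm j3), e⟩)]
      rw [hv _ _ m1 m2 (nb_right x y), hv _ _ m2 m4 (nb_up (x + 1) y), hv _ _ m1 m3 (nb_up x y),
        hv _ _ m3 m4 (nb_right x (y + 1))]
  obtain ⟨ψ, hψ⟩ := exact_nb φ anti closed
  have c1 : ∀ a b, Jn W a b → ψ a = ψ b := by
    intro a b hab
    induction hab with
    | refl => rfl
    | tail _ k ih =>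
      rw [ih, hψ _ _ k.1]
      simp [hφ, k.2.1, k.2.2]
  have c2 : ∀ a b, Jn (fun p => ¬ W p) a b → ψ a = ψ b := by
    intro a b hab
    induction hab with
    | refl => rfl
    | tail _ k ih =>
      rw [ih, hψ _ _ k.1]
      simp [hφ, k.2.1, k.2.2]
  have a1 := hψ p q h1
  have a2 := hψ p' q' h1'
  rw [c1 p p' (hW p p' h2 h2'), c2 q q' (hV q q' h3 h3')] at a1
  by_contra hcon
  have e1 : φ p q = 1 := by simp only [hφ]; rw [if_pos ⟨h2, h3, h⟩]
  have e2 : φ p' q' = 0 := by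
    simp only [hφ]
    rw [if_neg (fun e => hcon e.2.2), if_neg (fun e => e.2.1 h2')]
  omega

/-! ### double contact -/

/-- the nearest point of the rectangle -/
def clmp (x0 x1 y0 y1 : ℤ) (p : ℤ × ℤ) : ℤ × ℤ := (max x0 (min p.1 x1), max y0 (min p.2 y1))

theorem clmp_nb {x0 x1 y0 y1 : ℤ} (hx : x0 ≤ x1) (hy : y0 ≤ y1) {p q : ℤ × ℤ} (h : Nb p q) :
    clmp x0 x1 y0 y1 p = clmp x0 x1 y0 y1 q ∨
      Nb (clmp x0 x1 y0 y1 p) (clmp x0 x1 y0 y1 q) := by
  obtain ⟨x, y⟩ := p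
  obtain ⟨x', y'⟩ := q
  unfold clmp Nb
  simp only [Prod.mk.injEq]
  rcases h.cases with ⟨e1, e2⟩ | ⟨e1, e2⟩ | ⟨e1, e2⟩ | ⟨e1, e2⟩ <;> simp only at e1 e2 <;>
    subst e1 e2
  · rcases lt_or_ge x x0 with h1 | h1
    · left; constructor <;> omega
    · rcases lt_or_ge x x1 with h2 | h2
      · right
        rw [sub_self, abs_zero, add_zero, show max x0 (min (x + 1) x1) - max x0 (min x x1) = 1 by
          omega]
        rfl
      · left; constructor <;> omega
  · rcases le_or_gt x x0 with h1 | h1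
    · left; constructor <;> omega
    · rcases le_or_gt x x1 with h2 | h2
      · right
        rw [sub_self, abs_zero, add_zero, show max x0 (min (x - 1) x1) - max x0 (min x x1) = -1 by
          omega]
        rfl
      · left; constructor <;> omega
  · rcases lt_or_ge y y0 with h1 | h1
    · left; constructor <;> omega
    · rcases lt_or_ge y y1 with h2 | h2
      · right
        rw [sub_self, abs_zero, zero_add, show max y0 (min (y + 1) y1) - max y0 (min y y1) = 1 by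
          omega]
        rfl
      · left; constructor <;> omega
  · rcases le_or_gt y y0 with h1 | h1
    · left; constructor <;> omega
    · rcases le_or_gt y y1 with h2 | h2
      · right
        rw [sub_self, abs_zero, zero_add, show max y0 (min (y - 1) y1) - max y0 (min y y1) = -1 by
          omega]
        rfl
      · left; constructor <;> omega

/-- discrete intermediate value -/
theorem exists_switch {P : ℤ → Prop} {a b : ℤ} (hab : a ≤ b) (ha : P a) (hb : ¬ P b) :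
    ∃ z, a ≤ z ∧ z < b ∧ P z ∧ ¬ P (z + 1) := by
  by_contra hcon
  push Not at hcon
  have : ∀ z, a ≤ z → z ≤ b → P z := by
    intro z hz
    induction z, hz using Int.le_induction with
    | base => intro _; exact ha
    | succ w hw ih => intro h2; exact hcon w hw (by omega) (ih (by omega))
  exact hb (this b hab le_rfl)

/-- **Double contact.** In a rectangle the bottom row is bad, the top row is free, in the left
column all bad points are red and in the right column none: then there is a free point `w`, joined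
to the top row by free points, close to a red bad point and to a bad point which is not red. -/
theorem double {x0 x1 y0 y1 : ℤ} (hx : x0 ≤ x1) (hy : y0 ≤ y1) {bad red : ℤ × ℤ → Prop}
    (hbot : ∀ x, x0 ≤ x → x ≤ x1 → bad (x, y0)) (htop : ∀ x, x0 ≤ x → x ≤ x1 → ¬ bad (x, y1))
    (hl : ∀ y, y0 ≤ y → y ≤ y1 → bad (x0, y) → red (x0, y))
    (hr : ∀ y, y0 ≤ y → y ≤ y1 → bad (x1, y) → ¬ red (x1, y)) :
    ∃ w b b' : ℤ × ℤ, Jn (fun p => x0 ≤ p.1 ∧ p.1 ≤ x1 ∧ y0 ≤ p.2 ∧ p.2 ≤ y1 ∧ ¬ bad p)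
      (x0, y1) w ∧ (x0 ≤ w.1 ∧ w.1 ≤ x1 ∧ y0 ≤ w.2 ∧ w.2 ≤ y1) ∧ ¬ bad w ∧ bad b ∧ red b ∧
      bad b' ∧ ¬ red b' ∧ |w.1 - b.1| ≤ 1 ∧ |w.2 - b.2| ≤ 1 ∧ |w.1 - b'.1| ≤ 1 ∧
      |w.2 - b'.2| ≤ 1 ∧ (x0 ≤ b.1 ∧ b.1 ≤ x1 ∧ y0 ≤ b.2 ∧ b.2 ≤ y1) ∧
      (x0 ≤ b'.1 ∧ b'.1 ≤ x1 ∧ y0 ≤ b'.2 ∧ b'.2 ≤ y1) := by
  classical
  by_contra hcon
  set K := clmp x0 x1 y0 y1 with hK
  have K1 : ∀ p, x0 ≤ (K p).1 ∧ (K p).1 ≤ x1 ∧ y0 ≤ (K p).2 ∧ (K p).2 ≤ y1 := by
    intro p
    simp only [hK, clmp]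
    omega
  have Kid : ∀ x y, x0 ≤ x → x ≤ x1 → y0 ≤ y → y ≤ y1 → K (x, y) = (x, y) := by
    intro x y h1 h2 h3 h4
    simp only [hK, clmp, Prod.mk.injEq]
    omega
  set F : ℤ × ℤ → Prop := fun p => ¬ bad (K p) with hF
  set W : ℤ × ℤ → Prop := fun p => Jn F (x0, y1) p with hWd
  have base : F (x0, y1) := by
    simp only [hF]
    rw [Kid x0 y1 le_rfl hx hy le_rfl]
    exact htop x0 le_rfl hx
  have hWF : ∀ p, W p → F p := fun p hp => Jn.mem hp base
  have hbotW : ∀ x, x0 ≤ x → x ≤ x1 → ¬ W (x, y0) := by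
    intro x h1 h2 h3
    have := hWF _ h3
    simp only [hF] at this
    rw [Kid x y0 h1 h2 le_rfl hy] at this
    exact this (hbot x h1 h2)
  have htopW : ∀ x, x0 ≤ x → x ≤ x1 → W (x, y1) := by
    intro x h1 h2
    refine Jn.horiz h1 fun z h3 h4 => ?_
    simp only [hF]
    rw [Kid z y1 h3 (by omega) hy le_rfl]
    exact htop z h3 (by omega)
  set V : ℤ × ℤ → Prop := fun p => Jn (fun q => ¬ W q) (x0, y0) p with hVd
  have hVW : ∀ p, V p → ¬ W p := fun p hp => Jn.mem hp (hbotW x0 le_rfl hx)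
  have hbotV : ∀ x, x0 ≤ x → x ≤ x1 → V (x, y0) := by
    intro x h1 h2
    exact Jn.horiz h1 fun z h3 h4 => hbotW z h3 (by omega)
  -- `V` is connected
  have lift : ∀ (S : ℤ × ℤ → Prop) (o p : ℤ × ℤ), Jn S o p → Jn (fun q => Jn S o q) o p := by
    intro S o p h
    induction h with
    | refl => exact Jn.refl' _ _
    | tail k1 k2 ih =>
      exact ih.tail ⟨k2.1, k1, k1.tail k2⟩
  have cV : Conn V := fun a b ha hb => ((lift _ _ _ ha).symm).trans (lift _ _ _ hb)
  have cW : Conn W := fun a b ha hb => ((lift _ _ _ ha).symm).trans (lift _ _ _ hb)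
  have W0 : W (x0, y1) := Jn.refl' _ _
  have cV' : ∀ a, ¬ V a → Jn (fun p => ¬ V p) a (x0, y1) := by
    intro a
    have hu : Jn (fun _ => True) a (x0, y1) := Jn.univ _ _
    induction hu using Relation.ReflTransGen.head_induction_on with
    | refl => intro _; exact Jn.refl' _ _
    | @head a c hac _ ih =>
      intro ha
      by_cases hWa : W a
      · exact (cW a _ hWa W0).mono fun p hp hV => hVW p hV hp
      · have hcV : ¬ V c := fun hVc => ha (Relation.ReflTransGen.tail hVc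
          ⟨nb_symm hac.1, hVW c hVc, hWa⟩)
        exact (Jn.step hac.1 ha hcV).trans (ih hcV)
  have cVc : Conn (fun p => ¬ V p) := fun a b ha hb => (cV' a ha).trans (cV' b hb).symm
  have cVcc : Conn (fun p => ¬ ¬ V p) := by
    intro a b ha hb
    exact (cV a b (not_not.1 ha) (not_not.1 hb)).mono fun p hp => not_not.2 hp
  -- boundary edges
  have bd : ∀ p q, Nb p q → ¬ V p → V q → W p ∧ bad (K q) := by
    intro p q h1 h2 h3
    have h4 : W p := by
      by_contra hp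
      exact h2 (Relation.ReflTransGen.tail h3 ⟨nb_symm h1, hVW q h3, hp⟩)
    refine ⟨h4, ?_⟩
    by_contra hq
    exact hVW q h3 (Relation.ReflTransGen.tail h4 ⟨h1, hWF p h4, hq⟩)
  have toW : ∀ p, W p → Jn (fun p => x0 ≤ p.1 ∧ p.1 ≤ x1 ∧ y0 ≤ p.2 ∧ p.2 ≤ y1 ∧ ¬ bad p)
      (x0, y1) (K p) := by
    intro p hp
    have : Jn (fun p => x0 ≤ p.1 ∧ p.1 ≤ x1 ∧ y0 ≤ p.2 ∧ p.2 ≤ y1 ∧ ¬ bad p)
        (K (x0, y1)) (K p) := by
      induction hp with
      | refl => exact Jn.refl' _ _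
      | @tail b c k1 k2 ih =>
        rcases clmp_nb hx hy k2.1 with h | h
        · rw [← hK] at h
          rwa [← h]
        · rw [← hK] at h
          have m1 := K1 b
          have m2 := K1 c
          exact ih.tail ⟨h, ⟨m1.1, m1.2.1, m1.2.2.1, m1.2.2.2, k2.2.1⟩,
            ⟨m2.1, m2.2.1, m2.2.2.1, m2.2.2.2, k2.2.2⟩⟩
    rwa [Kid x0 y1 le_rfl hx hy le_rfl] at this
  have Kclose : ∀ x y : ℤ, ∀ p q, InP x y p → InP x y q →
      |(K p).1 - (K q).1| ≤ 1 ∧ |(K p).2 - (K q).2| ≤ 1 := by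
    intro x y p q h1 h2
    obtain ⟨a1, a2, a3, a4⟩ := h1
    obtain ⟨b1, b2, b3, b4⟩ := h2
    simp only [hK, clmp]
    constructor <;> rw [abs_le] <;> constructor <;> omega
  have mix : ∀ x y : ℤ, ∀ p q p' q' : ℤ × ℤ, InP x y p → InP x y q → InP x y p' → InP x y q' →
      Nb p q → Nb p' q' → ¬ V p → V q → ¬ V p' → V q' → red (K q) → red (K q') := by
    intro x y p q p' q' i1 i2 i3 i4 j1 j2 k1 k2 k3 k4 hred
    by_contra hnred
    obtain ⟨b1, b2⟩ := bd p q j1 k1 k2
    obtain ⟨b3, b4⟩ := bd p' q' j2 k3 k4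
    refine hcon ⟨K p, K q, K q', toW p b1, K1 p, hWF p b1, b2, hred, b4, hnred,
      (Kclose x y p q i1 i2).1, (Kclose x y p q i1 i2).2, (Kclose x y p q' i1 i4).1,
      (Kclose x y p q' i1 i4).2, K1 q, K1 q'⟩
  -- the two columns
  have col : ∀ x, x0 ≤ x → x ≤ x1 → ∃ y, y0 ≤ y ∧ y ≤ y1 ∧ V (x, y) ∧ ¬ V (x, y + 1) := by
    intro x h1 h2
    obtain ⟨z, z1, z2, z3, z4⟩ := exists_switch (P := fun y => V (x, y)) hy (hbotV x h1 h2)
      (fun h => hVW _ h (htopW x h1 h2))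
    exact ⟨z, z1, z2.le, z3, z4⟩
  obtain ⟨y, l1, l2, l3, l4⟩ := col x0 le_rfl hx
  obtain ⟨y', r1, r2, r3, r4⟩ := col x1 hx le_rfl
  have e1 := bd (x0, y + 1) (x0, y) (nb_symm (nb_up x0 y)) l4 l3
  have e2 := bd (x1, y' + 1) (x1, y') (nb_symm (nb_up x1 y')) r4 r3
  rw [Kid x0 y le_rfl hx l1 l2] at e1
  rw [Kid x1 y' hx le_rfl r1 r2] at e2
  have key := unico (W := fun p => ¬ V p) cVc cVcc (c := fun _ q => red (K q))
    (fun x y p q p' q' i1 i2 i3 i4 j1 j2 k1 k2 k3 k4 h => mix x y p q p' q' i1 i2 i3 i4 j1 j2 k1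
      (not_not.1 k2) k3 (not_not.1 k4) h)
    (nb_symm (nb_up x0 y)) l4 (not_not.2 l3) (nb_symm (nb_up x1 y')) r4 (not_not.2 r3)
  rw [Kid x0 y le_rfl hx l1 l2, Kid x1 y' hx le_rfl r1 r2] at key
  exact hr y' r1 r2 e2.2 (key (hl y l1 l2 e1.2))

end Pool.Agent.Work.MP_376faf_co_gap
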