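import Pool.Agent.Work.MP_376faf_co_lower.Walks
import Pool.Agent.Work.MP_376faf_co_gap.Unico

set_option autoImplicit false

/-!
Closed self-avoiding walks as lists of unit steps: rotation, composition of two walks.
-/

namespace Pool.Agent.Work.MP_376faf_co_gap

open Pool.Agent.Work.MP_376faf_co_lower
open Pool.Agent.Work.MP_376faf_co_hw.HP (Nb)

/-- self-avoiding polygon, rooted and oriented -/
def PG (l : List Pt) : Prop :=
  (∀ s ∈ l, Un s) ∧ l.sum = 0 ∧ Set.InjOn (pos l) (Set.Iio l.length) ∧ 2 < l.length

/-- the vertices of a walk which starts in `p` -/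
def VW (p : Pt) (l : List Pt) (q : Pt) : Prop := ∃ i ≤ l.length, q = p + pos l i

/-- the vertices of a polygon which starts in `p` -/
def VS (p : Pt) (l : List Pt) (q : Pt) : Prop := ∃ i < l.length, q = p + pos l i

theorem VW.start (p : Pt) (l : List Pt) : VW p l p := ⟨0, Nat.zero_le _, by simp⟩

theorem VW.end (p : Pt) (l : List Pt) : VW p l (p + l.sum) :=
  ⟨l.length, le_rfl, by rw [pos_len]⟩

theorem nb_iff_un {p q : Pt} : Nb p q ↔ Un (q - p) := Iff.rfl

theorem VW.append {p : Pt} {a b : List Pt} {q : Pt} :
    VW p (a ++ b) q ↔ VW p a q ∨ VW (p + a.sum) b q := by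
  constructor
  · rintro ⟨i, hi, rfl⟩
    rw [List.length_append] at hi
    rcases le_total i a.length with h | h
    · exact Or.inl ⟨i, h, by rw [pos_append_left _ _ h]⟩
    · obtain ⟨j, rfl⟩ : ∃ j, i = a.length + j := ⟨i - a.length, by omega⟩
      exact Or.inr ⟨j, by omega, by rw [pos_append_right, add_assoc]⟩
  · rintro (⟨i, hi, rfl⟩ | ⟨j, hj, rfl⟩)
    · exact ⟨i, by rw [List.length_append]; omega, by rw [pos_append_left _ _ hi]⟩
    · exact ⟨a.length + j, by rw [List.length_append]; omega, by
        rw [pos_append_right, add_assoc]⟩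

theorem walk_append {p : Pt} {a b : List Pt} (ha : Walk a) (hb : Walk b)
    (h : ∀ q, VW p a q → VW (p + a.sum) b q → q = p + a.sum) : Walk (a ++ b) := by
  refine ⟨?_, ?_⟩
  · intro s hs
    rcases List.mem_append.1 hs with h1 | h1
    · exact ha.1 s h1
    · exact hb.1 s h1
  · have key : ∀ i ≤ a.length, ∀ j ≤ b.length, pos a i = a.sum + pos b j →
        i = a.length ∧ j = 0 := by
      intro i hi j hj hij
      have h1 := h (p + pos a i) ⟨i, hi, rfl⟩ ⟨j, hj, by rw [hij, add_assoc]⟩
      have h2 : pos a i = a.sum := add_left_cancel h1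
      refine ⟨ha.2 (Set.mem_Iic.2 hi) (Set.mem_Iic.2 le_rfl) (by rw [pos_len, h2]), ?_⟩
      have h3 : pos b j = 0 := by
        rw [h2] at hij
        exact (add_eq_left.1 hij.symm)
      exact hb.2 (Set.mem_Iic.2 hj) (Set.mem_Iic.2 (Nat.zero_le _)) (by rw [h3, pos_zero])
    intro i hi j hj hij
    simp only [Set.mem_Iic, List.length_append] at hi hj
    rcases le_total i a.length with h1 | h1 <;> rcases le_total j a.length with h2 | h2
    · rw [pos_append_left _ _ h1, pos_append_left _ _ h2] at hij
      exact ha.2 h1 h2 hij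
    · obtain ⟨j, rfl⟩ : ∃ k, j = a.length + k := ⟨j - a.length, by omega⟩
      rw [pos_append_left _ _ h1, pos_append_right] at hij
      obtain ⟨h3, h4⟩ := key i h1 j (by omega) hij
      omega
    · obtain ⟨i, rfl⟩ : ∃ k, i = a.length + k := ⟨i - a.length, by omega⟩
      rw [pos_append_left _ _ h2, pos_append_right] at hij
      obtain ⟨h3, h4⟩ := key j h2 i (by omega) hij.symm
      omega
    · obtain ⟨i, rfl⟩ : ∃ k, i = a.length + k := ⟨i - a.length, by omega⟩
      obtain ⟨j, rfl⟩ : ∃ k, j = a.length + k := ⟨j - a.length, by omega⟩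
      rw [pos_append_right, pos_append_right] at hij
      have := hb.2 (show i ∈ Set.Iic b.length by simp only [Set.mem_Iic]; omega)
        (show j ∈ Set.Iic b.length by simp only [Set.mem_Iic]; omega) (add_left_cancel hij)
      omega

/-- two walks which meet only in their ends form a polygon -/
theorem pg_append {p : Pt} {a b : List Pt} (ha : Walk a) (hb : Walk b) (hs : a.sum + b.sum = 0)
    (hl : 2 < a.length + b.length)
    (h : ∀ q, VW p a q → VW (p + a.sum) b q → q = p + a.sum ∨ q = p) : PG (a ++ b) := by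
  refine ⟨?_, by rw [List.sum_append, hs], ?_, by rw [List.length_append]; exact hl⟩
  · intro s hs
    rcases List.mem_append.1 hs with h1 | h1
    · exact ha.1 s h1
    · exact hb.1 s h1
  · have key : ∀ i ≤ a.length, ∀ j, 0 < j → j < b.length → pos a i ≠ a.sum + pos b j := by
      intro i hi j hj0 hj hij
      rcases h (p + pos a i) ⟨i, hi, rfl⟩ ⟨j, hj.le, by rw [hij, add_assoc]⟩ with h1 | h1
      · have h2 : pos a i = a.sum := add_left_cancel h1
        have h3 : pos b j = 0 := by
          rw [h2] at hij
          exact (add_eq_left.1 hij.symm)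
        have := hb.2 (Set.mem_Iic.2 hj.le) (Set.mem_Iic.2 (Nat.zero_le _)) (by rw [h3, pos_zero])
        omega
      · have h2 : pos a i = 0 := add_eq_left.1 h1
        have h3 : pos b j = b.sum := by
          rw [h2, ← hs] at hij
          exact (add_left_cancel hij).symm
        have := hb.2 (Set.mem_Iic.2 hj.le) (Set.mem_Iic.2 le_rfl) (by rw [h3, pos_len])
        omega
    intro i hi j hj hij
    simp only [Set.mem_Iio, List.length_append] at hi hj
    rcases le_or_gt i a.length with h1 | h1 <;> rcases le_or_gt j a.length with h2 | h2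
    · rw [pos_append_left _ _ h1, pos_append_left _ _ h2] at hij
      exact ha.2 h1 h2 hij
    · obtain ⟨j, rfl⟩ : ∃ k, j = a.length + k := ⟨j - a.length, by omega⟩
      rw [pos_append_left _ _ h1, pos_append_right] at hij
      exact absurd hij (key i h1 j (by omega) (by omega))
    · obtain ⟨i, rfl⟩ : ∃ k, i = a.length + k := ⟨i - a.length, by omega⟩
      rw [pos_append_left _ _ h2, pos_append_right] at hij
      exact absurd hij.symm (key j h2 i (by omega) (by omega))
    · obtain ⟨i, rfl⟩ : ∃ k, i = a.length + k := ⟨i - a.length, by omega⟩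
      obtain ⟨j, rfl⟩ : ∃ k, j = a.length + k := ⟨j - a.length, by omega⟩
      rw [pos_append_right, pos_append_right] at hij
      have := hb.2 (show i ∈ Set.Iic b.length by simp only [Set.mem_Iic]; omega)
        (show j ∈ Set.Iic b.length by simp only [Set.mem_Iic]; omega) (add_left_cancel hij)
      omega

/-! ### rotation -/

theorem rot_eq (l : List Pt) {r : ℕ} (hr : r ≤ l.length) : l.rotate r = l.drop r ++ l.take r :=
  List.rotate_eq_drop_append_take hr

theorem pos_rot_le (l : List Pt) {r i : ℕ} (hr : r ≤ l.length) (hi : i ≤ l.length - r) :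
    pos (l.rotate r) i = pos l (r + i) - pos l r := by
  rw [rot_eq l hr, pos_append_left _ _ (by rw [List.length_drop]; exact hi), pos_drop _ hr]

theorem pos_rot_ge {l : List Pt} (h0 : l.sum = 0) {r i : ℕ} (hr : r ≤ l.length) (hi : i ≤ r) :
    pos (l.rotate r) (l.length - r + i) = pos l i - pos l r := by
  rw [rot_eq l hr]
  have h1 := pos_append_right (l.drop r) (l.take r) i
  rw [List.length_drop] at h1
  rw [h1, pos_take _ hi]
  have h2 : (l.take r).sum + (l.drop r).sum = 0 := by
    rw [← List.sum_append, List.take_append_drop, h0]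
  have h3 : pos l r = (l.take r).sum := rfl
  rw [h3, eq_neg_of_add_eq_zero_right h2]
  abel

theorem sum_rot {l : List Pt} (h0 : l.sum = 0) {r : ℕ} (hr : r ≤ l.length) :
    (l.rotate r).sum = 0 := by
  rw [rot_eq l hr, List.sum_append, add_comm, ← List.sum_append, List.take_append_drop, h0]

theorem PG.rot {l : List Pt} (h : PG l) {r : ℕ} (hr : r ≤ l.length) : PG (l.rotate r) := by
  obtain ⟨h1, h2, h3, h4⟩ := h
  refine ⟨fun s hs => h1 s (List.mem_rotate.1 hs), sum_rot h2 hr, ?_, by rwa [List.length_rotate]⟩
  have key : ∀ i, i < l.length → ∃ j < l.length, pos (l.rotate r) i = pos l j - pos l r ∧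
      ((r + i < l.length ∧ j = r + i) ∨ (l.length ≤ r + i ∧ j + l.length = r + i)) := by
    intro i hi
    rcases Nat.lt_or_ge (r + i) l.length with h5 | h5
    · exact ⟨r + i, h5, pos_rot_le l hr (by omega), Or.inl ⟨h5, rfl⟩⟩
    · refine ⟨r + i - l.length, by omega, ?_, Or.inr ⟨h5, by omega⟩⟩
      have := pos_rot_ge h2 hr (i := r + i - l.length) (by omega)
      rwa [show l.length - r + (r + i - l.length) = i by omega] at this
  intro i hi j hj hij
  simp only [Set.mem_Iio, List.length_rotate] at hi hj
  obtain ⟨i', hi', e1, c1⟩ := key i hi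
  obtain ⟨j', hj', e2, c2⟩ := key j hj
  rw [e1, e2] at hij
  have h6 := h3 (Set.mem_Iio.2 hi') (Set.mem_Iio.2 hj') (sub_left_inj.1 hij)
  omega

theorem VS_rot {l : List Pt} (h : PG l) {r : ℕ} (hr : r ≤ l.length) (p q : Pt) :
    VS (p + pos l r) (l.rotate r) q ↔ VS p l q := by
  obtain ⟨h1, h2, h3, h4⟩ := h
  constructor
  · rintro ⟨i, hi, rfl⟩
    rw [List.length_rotate] at hi
    rcases Nat.lt_or_ge (r + i) l.length with h5 | h5
    · refine ⟨r + i, h5, ?_⟩
      rw [pos_rot_le l hr (by omega)]
      abel
    · refine ⟨r + i - l.length, by omega, ?_⟩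
      have := pos_rot_ge h2 hr (i := r + i - l.length) (by omega)
      rw [show l.length - r + (r + i - l.length) = i by omega] at this
      rw [this]
      abel
  · rintro ⟨i, hi, rfl⟩
    rcases Nat.lt_or_ge i r with h5 | h5
    · refine ⟨l.length - r + i, by rw [List.length_rotate]; omega, ?_⟩
      rw [pos_rot_ge h2 hr h5.le]
      abel
    · refine ⟨i - r, by rw [List.length_rotate]; omega, ?_⟩
      rw [pos_rot_le l hr (by omega), show r + (i - r) = i by omega]
      abel

/-- cutting a polygon at two vertices -/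
theorem PG.cut {l : List Pt} (h : PG l) {a : ℕ} (h0 : 0 < a) (ha : a < l.length) :
    Walk (l.take a) ∧ Walk (l.drop a) ∧ (l.take a).sum + (l.drop a).sum = 0 := by
  obtain ⟨h1, h2, h3, h4⟩ := h
  refine ⟨⟨fun s hs => h1 s (List.mem_of_mem_take hs), ?_⟩,
    ⟨fun s hs => h1 s (List.mem_of_mem_drop hs), ?_⟩, by
      rw [← List.sum_append, List.take_append_drop, h2]⟩
  · intro i hi j hj hij
    simp only [Set.mem_Iic, List.length_take, le_min_iff] at hi hj
    rw [pos_take _ hi.1, pos_take _ hj.1] at hij
    exact h3 (Set.mem_Iio.2 (by omega)) (Set.mem_Iio.2 (by omega)) hij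
  · intro i hi j hj hij
    simp only [Set.mem_Iic, List.length_drop] at hi hj
    rw [pos_drop _ ha.le, pos_drop _ ha.le] at hij
    have hij := sub_left_inj.1 hij
    have e : pos l l.length = pos l 0 := by rw [pos_len, h2, pos_zero]
    rcases Nat.lt_or_ge (a + i) l.length with h5 | h5 <;>
      rcases Nat.lt_or_ge (a + j) l.length with h6 | h6
    · have := h3 (Set.mem_Iio.2 h5) (Set.mem_Iio.2 h6) hij
      omega
    · rw [show a + j = l.length by omega, e] at hij
      have := h3 (Set.mem_Iio.2 h5) (Set.mem_Iio.2 (by omega)) hij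
      omega
    · rw [show a + i = l.length by omega, e] at hij
      have := h3 (Set.mem_Iio.2 (by omega)) (Set.mem_Iio.2 h6) hij
      omega
    · omega

theorem VW_take {l : List Pt} {a : ℕ} (ha : a < l.length) {p q : Pt} (h : VW p (l.take a) q) :
    VS p l q := by
  obtain ⟨i, hi, rfl⟩ := h
  rw [List.length_take, le_min_iff] at hi
  exact ⟨i, by omega, by rw [pos_take _ hi.1]⟩

theorem VW_drop {l : List Pt} (h0 : l.sum = 0) {a : ℕ} (h1 : 0 < a) (ha : a < l.length) {p q : Pt}
    (h : VW (p + (l.take a).sum) (l.drop a) q) : VS p l q := by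
  obtain ⟨i, hi, rfl⟩ := h
  rw [List.length_drop] at hi
  rw [pos_drop _ ha.le]
  have e : pos l a = (l.take a).sum := rfl
  rcases Nat.lt_or_ge (a + i) l.length with h5 | h5
  · refine ⟨a + i, h5, ?_⟩
    rw [← e]
    abel
  · refine ⟨0, by omega, ?_⟩
    rw [← e, show a + i = l.length by omega, pos_len, h0, pos_zero]
    abel

theorem VW_rv {l : List Pt} {p q : Pt} : VW (p + l.sum) (rv l) q ↔ VW p l q := by
  constructor
  · rintro ⟨i, hi, rfl⟩
    rw [rv_length] at hi
    refine ⟨l.length - i, by omega, ?_⟩
    rw [pos_rv _ hi, pos_len]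
    abel
  · rintro ⟨i, hi, rfl⟩
    refine ⟨l.length - i, by rw [rv_length]; omega, ?_⟩
    rw [pos_rv _ (by omega), pos_len, show l.length - (l.length - i) = i by omega]
    abel

theorem rv_sum (l : List Pt) : (rv l).sum = -l.sum := by
  have h := pos_rv l (le_refl l.length)
  rw [Nat.sub_self, pos_zero, pos_len] at h
  rw [pos_ge _ (by rw [rv_length])] at h
  rw [h, zero_sub]

/-! ### simple paths -/

/-- a path contains a simple path -/
theorem exists_simple {S : Pt → Prop} {a b : Pt} (h : Jn S a b) (ha : S a) :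
    ∃ W : List Pt, Walk W ∧ a + W.sum = b ∧ ∀ q, VW a W q → S q := by
  classical
  have hex : ∃ n : ℕ, ∃ W : List Pt, (∀ s ∈ W, Un s) ∧ a + W.sum = b ∧ (∀ q, VW a W q → S q) ∧
      W.length = n := by
    induction h with
    | refl => exact ⟨0, [], by simp, by simp, by
        rintro q ⟨i, _, rfl⟩
        simpa [pos] using ha, rfl⟩
    | @tail b c _ h2 ih =>
      obtain ⟨n, W, h3, h4, h5, h6⟩ := ih
      refine ⟨n + 1, W ++ [c - b], ?_, ?_, ?_, by simp [h6]⟩
      · intro s hs
        rcases List.mem_append.1 hs with h7 | h7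
        · exact h3 s h7
        · rw [List.mem_singleton] at h7
          rw [h7]
          exact nb_iff_un.1 h2.1
      · rw [List.sum_append, ← add_assoc, h4]
        simp
      · intro q hq
        rcases VW.append.1 hq with h7 | h7
        · exact h5 q h7
        · rw [h4] at h7
          obtain ⟨i, hi, rfl⟩ := h7
          simp only [List.length_singleton] at hi
          rcases Nat.eq_zero_or_pos i with h8 | h8
          · rw [h8, pos_zero, add_zero]
            exact h2.2.1
          · rw [show i = 1 by omega]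
            simpa [pos] using h2.2.2
  set n := Nat.find hex with hn
  obtain ⟨W, h1, h2, h3, h4⟩ := Nat.find_spec hex
  refine ⟨W, ⟨h1, ?_⟩, h2, h3⟩
  have key : ∀ i j, i < j → j ≤ W.length → pos W i ≠ pos W j := by
    intro i j hij hj e
    have h5 : (W.take i ++ W.drop j).length < n := by
      rw [hn, ← h4]
      simp only [List.length_append, List.length_take, List.length_drop]
      omega
    refine Nat.find_min hex h5 ⟨W.take i ++ W.drop j, ?_, ?_, ?_, rfl⟩
    · intro s hs
      rcases List.mem_append.1 hs with h7 | h7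
      · exact h1 s (List.mem_of_mem_take h7)
      · exact h1 s (List.mem_of_mem_drop h7)
    · have e1 : (W.take i).sum = pos W i := rfl
      have e2 : (W.take j).sum = pos W j := rfl
      have e3 : (W.take j).sum + (W.drop j).sum = W.sum := by
        rw [← List.sum_append, List.take_append_drop]
      rw [List.sum_append, e1, e, ← e2, e3, h2]
    · intro q hq
      rcases VW.append.1 hq with ⟨s, hs, rfl⟩ | ⟨s, hs, rfl⟩
      · rw [List.length_take] at hs
        rw [pos_take _ (by omega)]
        exact h3 _ ⟨s, by omega, rfl⟩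
      · rw [List.length_drop] at hs
        rw [pos_drop _ hj]
        refine h3 _ ⟨j + s, by omega, ?_⟩
        have e1 : (W.take i).sum = pos W i := rfl
        rw [e1, e]
        abel
  intro i hi j hj hij
  simp only [Set.mem_Iic] at hi hj
  rcases lt_trichotomy i j with h5 | h5 | h5
  · exact absurd hij (key i j h5 hj)
  · exact h5
  · exact absurd hij.symm (key j i h5 hi)

end Pool.Agent.Work.MP_376faf_co_gap
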