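import Pool.Agent.Work.MP_376faf_co_gap.Legs

set_option autoImplicit false

/-!
Bounds by powers of the scale.
-/

namespace Pool.Agent.Work.MP_376faf_co_gap

open Pool.Agent.Work.MP_376faf_co_lower

/-- a power of the scale -/
noncomputable def pw (s c : ℕ) : ℝ := ((c : ℝ) * s) ^ c

theorem pw_mono {s c c' : ℕ} (hs : 1 ≤ s) (h : c ≤ c') : pw s c ≤ pw s c' := by
  unfold pw
  have hs' : (1 : ℝ) ≤ s := by exact_mod_cast hs
  rcases Nat.eq_zero_or_pos c' with h1 | h1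
  · rw [show c = 0 by omega, h1]
  · have h2 : (1 : ℝ) ≤ (c' : ℝ) * s := by
      have : (1 : ℝ) ≤ c' := by exact_mod_cast h1
      nlinarith
    have h3 : (c : ℝ) ≤ c' := by exact_mod_cast h
    calc ((c : ℝ) * s) ^ c ≤ ((c' : ℝ) * s) ^ c := by gcongr
      _ ≤ ((c' : ℝ) * s) ^ c' := pow_le_pow_right₀ h2 h

theorem pw_one {s c : ℕ} (hs : 1 ≤ s) : 1 ≤ pw s c := by
  have h := pw_mono hs (Nat.zero_le c)
  have h1 : pw s 0 = 1 := by
    unfold pw
    simp
  rwa [h1] at h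

theorem pw_mul {s c c' : ℕ} : pw s c * pw s c' ≤ pw s (c + c') := by
  unfold pw
  rw [pow_add]
  push_cast
  have h1 : (0 : ℝ) ≤ c := by positivity
  have h2 : (0 : ℝ) ≤ c' := by positivity
  have h3 : (0 : ℝ) ≤ s := by positivity
  gcongr
  · linarith
  · linarith

theorem pw_pow {s c p : ℕ} : pw s c ^ p ≤ pw s (c * p) := by
  unfold pw
  rw [← pow_mul]
  rcases Nat.eq_zero_or_pos p with h | h
  · rw [h, mul_zero, pow_zero, pow_zero]
  · have h1 : (1 : ℝ) ≤ p := by exact_mod_cast h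
    have h2 : (0 : ℝ) ≤ c := by positivity
    push_cast
    gcongr
    nlinarith

/-- functions of the scale which are bounded by a power -/
def PB (f : ℕ → ℝ) : Prop := ∃ c : ℕ, ∀ s : ℕ, 1 ≤ s → f s ≤ pw s c

theorem PB.le {f g : ℕ → ℝ} (hg : PB g) (h : ∀ s, 1 ≤ s → f s ≤ g s) : PB f := by
  obtain ⟨c, hc⟩ := hg
  exact ⟨c, fun s hs => (h s hs).trans (hc s hs)⟩

theorem PB.const (r : ℝ) : PB fun _ => r := by
  obtain ⟨c, hc⟩ := exists_nat_ge r
  refine ⟨c + 1, fun s hs => ?_⟩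
  unfold pw
  have hs' : (1 : ℝ) ≤ s := by exact_mod_cast hs
  have h0 : (0 : ℝ) ≤ c := by positivity
  have h1 : (1 : ℝ) ≤ ((c + 1 : ℕ) : ℝ) * s := by
    push_cast
    nlinarith
  calc r ≤ c := hc
    _ ≤ ((c + 1 : ℕ) : ℝ) * s := by
      push_cast
      nlinarith
    _ ≤ (((c + 1 : ℕ) : ℝ) * s) ^ (c + 1) := le_self_pow₀ h1 (Nat.succ_ne_zero c)

theorem PB.mul {f g : ℕ → ℝ} (hf : PB f) (hg : PB g) (h0 : ∀ s, 0 ≤ g s) :
    PB fun s => f s * g s := by
  obtain ⟨c, hc⟩ := hf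
  obtain ⟨c', hc'⟩ := hg
  refine ⟨c + c', fun s hs => ?_⟩
  calc f s * g s ≤ pw s c * g s := mul_le_mul_of_nonneg_right (hc s hs) (h0 s)
    _ ≤ pw s c * pw s c' := mul_le_mul_of_nonneg_left (hc' s hs) (le_trans zero_le_one (pw_one hs))
    _ ≤ _ := pw_mul

theorem PB.pow {f : ℕ → ℝ} (hf : PB f) (h0 : ∀ s, 0 ≤ f s) (p : ℕ) : PB fun s => f s ^ p := by
  obtain ⟨c, hc⟩ := hf
  exact ⟨c * p, fun s hs => (pow_le_pow_left₀ (h0 s) (hc s hs) p).trans pw_pow⟩

theorem PB.add {f g : ℕ → ℝ} (hf : PB f) (hg : PB g) : PB fun s => f s + g s := by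
  obtain ⟨c, hc⟩ := hf
  obtain ⟨c', hc'⟩ := hg
  refine ⟨c + c' + 2, fun s hs => ?_⟩
  have h1 := (hc s hs).trans (pw_mono hs (show c ≤ c + c' by omega))
  have h2 := (hc' s hs).trans (pw_mono hs (show c' ≤ c + c' by omega))
  have h3 : (2 : ℝ) ≤ pw s 2 := by
    unfold pw
    have hs' : (1 : ℝ) ≤ s := by exact_mod_cast hs
    push_cast
    nlinarith
  have h4 : pw s (c + c') * pw s 2 ≤ pw s (c + c' + 2) := pw_mul
  have h5 := pw_one (c := c + c') hs
  nlinarith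

theorem PB.id : PB fun s => (s : ℝ) := by
  refine ⟨1, fun s _ => ?_⟩
  unfold pw
  simp

/-- `v` is not smaller than a negative power of the scale -/
def Gd (s c : ℕ) (v : ℝ) : Prop := 1 ≤ pw s c * v

theorem Gd.pos {s c : ℕ} {v : ℝ} (h : Gd s c v) : 0 < v := by
  by_contra hv
  push Not at hv
  have h1 : 0 ≤ pw s c := by
    unfold pw
    positivity
  have := mul_nonpos_of_nonneg_of_nonpos h1 hv
  unfold Gd at h
  linarith

theorem Gd.mono {s c c' : ℕ} {v : ℝ} (hs : 1 ≤ s) (hc : c ≤ c') (h : Gd s c v) : Gd s c' v :=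
  le_trans h (mul_le_mul_of_nonneg_right (pw_mono hs hc) h.pos.le)

theorem Gd.le {s c : ℕ} {v v' : ℝ} (h : Gd s c v) (hv : v ≤ v') : Gd s c v' := by
  refine le_trans h (mul_le_mul_of_nonneg_left hv ?_)
  unfold pw
  positivity

theorem Gd.mul {s c c' : ℕ} {v v' : ℝ} (h : Gd s c v) (h' : Gd s c' v') :
    Gd s (c + c') (v * v') := by
  have h1 := mul_le_mul h h' zero_le_one (le_trans zero_le_one h)
  rw [one_mul] at h1
  have h2 : pw s c * v * (pw s c' * v') = (pw s c * pw s c') * (v * v') := by ring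
  rw [h2] at h1
  exact h1.trans (mul_le_mul_of_nonneg_right pw_mul (mul_nonneg h.pos.le h'.pos.le))

/-- one of two factors is good -/
theorem Gd.split {s c : ℕ} (hs : 1 ≤ s) {v v' : ℝ} (hv : 0 ≤ v)
    (h : Gd s c (v * v')) : Gd s c v ∨ Gd s c v' := by
  by_contra hcon
  unfold Gd at hcon h
  push Not at hcon
  obtain ⟨h1, h2⟩ := hcon
  have h3 := pw_one (c := c) hs
  have h4 : v' ≤ pw s c * v' := by nlinarith
  have h5 : v' < 1 := by linarith
  have h6 : pw s c * (v * v') = (pw s c * v) * v' := by ring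
  rw [h6] at h
  have h7 : 0 ≤ pw s c * v := by positivity
  nlinarith

end Pool.Agent.Work.MP_376faf_co_gap
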