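import Pool.Agent.Work.MP_376faf_co_gap.PG

set_option autoImplicit false

/-!
The two walls of a chain of polygons.
-/

namespace Pool.Agent.Work.MP_376faf_co_gap

open Pool.Agent.Work.MP_376faf_co_lower

/-- connector, number of the polygon, rotation, length of the first wall -/
abbrev Cd (ι : Type) : Type := List Pt × ι × ℕ × ℕ

def W1 {ι : Type} (Y : ι → List Pt) : List (Cd ι) → List Pt → List Pt
  | [], cf => cf
  | c :: t, cf => c.1 ++ (((Y c.2.1).rotate c.2.2.1).take c.2.2.2 ++ W1 Y t cf)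

def W2 {ι : Type} (Y : ι → List Pt) : List (Cd ι) → List Pt → List Pt
  | [], cf => rv cf
  | c :: t, cf => W2 Y t cf ++ (((Y c.2.1).rotate c.2.2.1).drop c.2.2.2 ++ rv c.1)

/-- the number of steps of a path outside of the polygons, when no polygon is visited twice -/
theorem len_bound {ι : Type} [Fintype ι] {V : ι → Pt → Prop} {C : Finset Pt} {w : ℕ → Pt} {p q : ℕ}
    (hinj : ∀ s t, p < s → s < q → p < t → t < q → w s = w t → s = t)
    (hC : ∀ t, p < t → t < q → w t ∈ C ∨ ∃ l, V l (w t))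
    (h1 : ∀ l s t, p < s → s < t → t < q → V l (w s) → ¬ V l (w t)) :
    q - p ≤ C.card + Fintype.card ι + 1 := by
  classical
  set T := Finset.Ioo p q with hT
  have h2 : ∀ t : {t // t ∈ T}, ∃ z : {c // c ∈ C} ⊕ ι,
      match z with
      | Sum.inl c => c.1 = w t.1
      | Sum.inr l => V l (w t.1) := by
    rintro ⟨t, ht⟩
    rw [hT, Finset.mem_Ioo] at ht
    rcases hC t ht.1 ht.2 with h | ⟨l, h⟩
    · exact ⟨Sum.inl ⟨w t, h⟩, rfl⟩
    · exact ⟨Sum.inr l, h⟩
  choose f hf using h2
  have hfi : Function.Injective f := by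
    rintro ⟨s, hs⟩ ⟨t, ht⟩ hst
    have e1 := hf ⟨s, hs⟩
    have e2 := hf ⟨t, ht⟩
    rw [hT, Finset.mem_Ioo] at hs ht
    rw [hst] at e1
    rcases hz : f ⟨t, by rw [hT, Finset.mem_Ioo]; exact ht⟩ with c | l
    · rw [hz] at e1 e2
      simp only at e1 e2
      exact Subtype.ext (hinj s t hs.1 hs.2 ht.1 ht.2 (e1.symm.trans e2))
    · rw [hz] at e1 e2
      simp only at e1 e2
      apply Subtype.ext
      rcases lt_trichotomy s t with h | h | h
      · exact absurd e2 (h1 l s t hs.1 h ht.2 e1)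
      · exact h
      · exact absurd e1 (h1 l t s ht.1 h hs.2 e2)
  have h3 := Fintype.card_le_of_injective f hfi
  rw [Fintype.card_sum, Fintype.card_coe, Fintype.card_coe, hT,
    Nat.card_Ioo] at h3
  omega

/-- **Walls.** -/
theorem walls_aux {ι : Type} [Fintype ι] {Y : ι → List Pt} {o : ι → Pt} (hY : ∀ l, PG (Y l))
    (hdis : ∀ l l', l ≠ l' → ∀ q, VS (o l) (Y l) q → ¬ VS (o l') (Y l') q) {W : List Pt}
    (hW : Walk W) {e : Pt} {C : Finset Pt}
    (hC : ∀ t, 0 < t → t < W.length → e + pos W t ∈ C ∨ ∃ l, VS (o l) (Y l) (e + pos W t))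
    (d : ℕ) :
    ∀ t₀ : ℕ, t₀ ≤ W.length → W.length - t₀ ≤ d → ∀ S : Finset ι,
      (∀ t, t₀ < t → t ≤ W.length → ∀ l, VS (o l) (Y l) (e + pos W t) → l ∈ S) →
      (∀ l ∈ S, ¬ VS (o l) (Y l) (e + pos W t₀)) →
      ∃ (cs : List (Cd ι)) (cf : List Pt), Walk (W1 Y cs cf) ∧ Walk (W2 Y cs cf) ∧
        pos W t₀ + (W1 Y cs cf).sum = W.sum ∧ W.sum + (W2 Y cs cf).sum = pos W t₀ ∧
        (∀ q, VW (e + pos W t₀) (W1 Y cs cf) q →
          (∃ t, t₀ ≤ t ∧ t ≤ W.length ∧ q = e + pos W t) ∨
            ∃ c ∈ cs, VS (o c.2.1) (Y c.2.1) q) ∧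
        (∀ q, VW (e + W.sum) (W2 Y cs cf) q →
          (∃ t, t₀ ≤ t ∧ t ≤ W.length ∧ q = e + pos W t) ∨
            ∃ c ∈ cs, VS (o c.2.1) (Y c.2.1) q) ∧
        (∀ c ∈ cs, c.2.1 ∈ S ∧ c.2.2.1 < (Y c.2.1).length ∧ c.2.2.2 < (Y c.2.1).length ∧
          (∀ s ∈ c.1, Un s) ∧ c.1.length ≤ C.card + Fintype.card ι + 1 ∧
          ∃ t₁ t₂, t₀ < t₁ ∧ t₁ < t₂ ∧ t₂ ≤ W.length ∧ VS (o c.2.1) (Y c.2.1) (e + pos W t₁) ∧
            VS (o c.2.1) (Y c.2.1) (e + pos W t₂)) ∧
        (cs.map fun c => c.2.1).Nodup ∧ (∀ s ∈ cf, Un s) ∧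
        cf.length ≤ C.card + Fintype.card ι + 1 := by
  classical
  have winj : ∀ s t, s ≤ W.length → t ≤ W.length → e + pos W s = e + pos W t → s = t :=
    fun s t hs ht h => hW.2 (Set.mem_Iic.2 hs) (Set.mem_Iic.2 ht) (add_left_cancel h)
  induction d with
  | zero =>
    intro t₀ h1 h2 S _ _
    have e1 : t₀ = W.length := by omega
    have w0 : Walk ([] : List Pt) := ⟨by simp, by
      intro a ha b hb _
      simp only [List.length_nil, Set.mem_Iic] at ha hb
      omega⟩
    have hd : ∀ q, VW (e + pos W t₀) [] q →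
        (∃ t, t₀ ≤ t ∧ t ≤ W.length ∧ q = e + pos W t) := by
      rintro q ⟨i, _, rfl⟩
      exact ⟨t₀, le_rfl, h1, by simp [pos]⟩
    refine ⟨[], [], w0, w0, ?_, ?_, fun q hq => Or.inl (hd q hq), ?_, by simp, by simp, by simp,
      by simp⟩
    · rw [e1, pos_len]
      simp [W1]
    · rw [e1, pos_len]
      simp [W2, rv]
    · intro q hq
      left
      rw [← pos_len, ← e1] at hq
      exact hd q hq
  | succ d ih =>
    intro t₀ h1 h2 S hS h0
    by_cases hdbl : ∃ v, t₀ < v ∧ ∃ l, VS (o l) (Y l) (e + pos W v) ∧ ∃ u, v < u ∧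
        u ≤ W.length ∧ VS (o l) (Y l) (e + pos W u)
    · -- the first polygon which is visited twice
      set v := Nat.find hdbl with hv
      obtain ⟨v1, l, v2, u₀, v3, v4, v5⟩ := Nat.find_spec hdbl
      have vmin : ∀ t, t₀ < t → t < v → ∀ l', VS (o l') (Y l') (e + pos W t) →
          ∀ u, t < u → u ≤ W.length → ¬ VS (o l') (Y l') (e + pos W u) := by
        intro t a1 a2 l' a3 u a4 a5 a6
        exact Nat.find_min hdbl a2 ⟨a1, l', a3, u, a4, a5, a6⟩
      set u := Nat.findGreatest (fun u => VS (o l) (Y l) (e + pos W u)) W.length with hu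
      have u1 : VS (o l) (Y l) (e + pos W u) :=
        Nat.findGreatest_spec (P := fun u => VS (o l) (Y l) (e + pos W u)) v4 v5
      have u2 : v < u := lt_of_lt_of_le v3
        (Nat.le_findGreatest (P := fun u => VS (o l) (Y l) (e + pos W u)) v4 v5)
      have u3 : u ≤ W.length := Nat.findGreatest_le _
      have u4 : ∀ t, u < t → t ≤ W.length → ¬ VS (o l) (Y l) (e + pos W t) :=
        fun t a1 a2 => Nat.findGreatest_is_greatest a1 a2
      have vle : v ≤ W.length := by omega
      have lS : l ∈ S := hS v v1 vle l v2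
      obtain ⟨cs, cf, k1, k2, k3, k4, k5, k6, k7, k8, k9, k10⟩ := ih u u3 (by omega) (S.erase l)
        (by
          intro t a1 a2 l' a3
          refine Finset.mem_erase.2 ⟨?_, hS t (by omega) a2 l' a3⟩
          rintro rfl
          exact u4 t a1 a2 a3)
        (by
          intro l' hl' a3
          exact hdis l l' (Ne.symm (Finset.ne_of_mem_erase hl')) _ u1 a3)
      -- the polygon, rooted at the first vertex
      obtain ⟨s1, s2, s3⟩ := v2
      set R := (Y l).rotate s1 with hR
      have hRl : R.length = (Y l).length := List.length_rotate _ _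
      have hRP : PG R := (hY l).rot s2.le
      have hRV : ∀ q, VS (e + pos W v) R q ↔ VS (o l) (Y l) q := by
        intro q
        rw [s3]
        exact VS_rot (hY l) s2.le _ _
      obtain ⟨a, a1, a2⟩ := (hRV _).2 u1
      have a0 : 0 < a := by
        rcases Nat.eq_zero_or_pos a with h | h
        · rw [h, pos_zero, add_zero] at a2
          have := winj u v u3 vle a2
          omega
        · exact h
      obtain ⟨r1, r2, r3⟩ := hRP.cut a0 a1
      have ra : (R.take a).sum = pos R a := rfl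
      have av : e + pos W v + (R.take a).sum = e + pos W u := by rw [ra, a2]
      -- the connector
      set c := (W.take v).drop t₀ with hc
      have cl : c.length = v - t₀ := by
        rw [hc, List.length_drop, List.length_take]
        omega
      have cw : Walk c := (hW.take v).drop (by rw [List.length_take]; omega)
      have cpos : ∀ i ≤ v - t₀, pos c i = pos W (t₀ + i) - pos W t₀ := by
        intro i hi
        rw [hc, pos_drop _ (by rw [List.length_take]; omega), pos_take _ (by omega),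
          pos_take _ (by omega)]
      have csum : pos W t₀ + c.sum = pos W v := by
        rw [← pos_len, cl, cpos _ le_rfl, show t₀ + (v - t₀) = v by omega]
        abel
      have cV : ∀ q, VW (e + pos W t₀) c q → ∃ t, t₀ ≤ t ∧ t ≤ v ∧ q = e + pos W t := by
        rintro q ⟨i, hi, rfl⟩
        rw [cl] at hi
        refine ⟨t₀ + i, by omega, by omega, ?_⟩
        rw [cpos i hi]
        abel
      -- vertices of the walls of the polygon
      have tV : ∀ q, VW (e + pos W v) (R.take a) q → VS (o l) (Y l) q :=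
        fun q hq => (hRV q).1 (VW_take a1 hq)
      have dV : ∀ q, VW (e + pos W u) (R.drop a) q → VS (o l) (Y l) q := by
        intro q hq
        rw [← av] at hq
        exact (hRV q).1 (VW_drop hRP.2.1 a0 a1 hq)
      -- intersections
      have i1 : ∀ t, t₀ ≤ t → t ≤ v → VS (o l) (Y l) (e + pos W t) → t = v := by
        intro t b1 b2 b3
        by_contra hne
        rcases b1.eq_or_lt with h | h
        · rw [← h] at b3
          exact h0 l lS b3
        · exact vmin t h (by omega) l b3 u (by omega) u3 u1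
      have i2 : ∀ t, t₀ ≤ t → t ≤ v → ∀ c' ∈ cs, ¬ VS (o c'.2.1) (Y c'.2.1) (e + pos W t) := by
        intro t b1 b2 c' hc' b3
        obtain ⟨m1, -, -, -, -, t₁, t₂, m2, m3, m4, m5, m6⟩ := k7 c' hc'
        rcases b1.eq_or_lt with h | h
        · rw [← h] at b3
          exact h0 _ (Finset.mem_of_mem_erase m1) b3
        · rcases b2.eq_or_lt with h' | h'
          · rw [h'] at b3
            exact hdis l _ (Ne.symm (Finset.ne_of_mem_erase m1)) _ ⟨s1, s2, s3⟩ b3
          · exact vmin t h h' _ b3 t₁ (by omega) (by omega) m5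
      have i3 : ∀ t, u ≤ t → t ≤ W.length → VS (o l) (Y l) (e + pos W t) → t = u := by
        intro t b1 b2 b3
        by_contra hne
        exact u4 t (by omega) b2 b3
      have i4 : ∀ q, VS (o l) (Y l) q → ∀ c' ∈ cs, ¬ VS (o c'.2.1) (Y c'.2.1) q := by
        intro q b1 c' hc'
        exact hdis l _ (Ne.symm (Finset.ne_of_mem_erase (k7 c' hc').1)) q b1
      -- first wall
      have x1 : Walk (R.take a ++ W1 Y cs cf) := by
        refine walk_append (p := e + pos W v) r1 k1 ?_
        intro q b1 b2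
        rw [av] at b2 ⊢
        rcases k5 q b2 with ⟨t, b3, b4, rfl⟩ | ⟨c', hc', b3⟩
        · rw [i3 t b3 b4 (tV _ b1)]
        · exact absurd b3 (i4 q (tV q b1) c' hc')
      have x1V : ∀ q, VW (e + pos W v) (R.take a ++ W1 Y cs cf) q → VS (o l) (Y l) q ∨
          (∃ t, u ≤ t ∧ t ≤ W.length ∧ q = e + pos W t) ∨
            ∃ c ∈ cs, VS (o c.2.1) (Y c.2.1) q := by
        intro q b1
        rcases VW.append.1 b1 with b2 | b2
        · exact Or.inl (tV q b2)
        · rw [av] at b2
          exact Or.inr (k5 q b2)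
      have x2 : Walk (c ++ (R.take a ++ W1 Y cs cf)) := by
        refine walk_append (p := e + pos W t₀) cw x1 ?_
        intro q b1 b2
        rw [add_assoc, csum] at b2 ⊢
        obtain ⟨t, b3, b4, rfl⟩ := cV q b1
        rcases x1V _ b2 with b5 | ⟨t', b5, b6, b7⟩ | ⟨c', hc', b5⟩
        · rw [i1 t b3 b4 b5]
        · have := winj t t' (by omega) b6 b7
          omega
        · exact absurd b5 (i2 t b3 b4 c' hc')
      -- second wall
      have uE : e + W.sum + (W2 Y cs cf).sum = e + pos W u := by rw [add_assoc, k4]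
      have dsum : e + pos W u + (R.drop a).sum = e + pos W v := by
        have : (R.drop a).sum = -(R.take a).sum := eq_neg_of_add_eq_zero_right r3
        rw [← av, this]
        abel
      have cV' : ∀ q, VW (e + pos W v) (rv c) q → ∃ t, t₀ ≤ t ∧ t ≤ v ∧ q = e + pos W t := by
        intro q hq
        rw [← csum, ← add_assoc] at hq
        exact cV q (VW_rv.1 hq)
      have y1 : Walk (R.drop a ++ rv c) := by
        refine walk_append (p := e + pos W u) r2 cw.rv ?_
        intro q b1 b2
        rw [dsum] at b2 ⊢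
        obtain ⟨t, b3, b4, rfl⟩ := cV' q b2
        rw [i1 t b3 b4 (dV _ b1)]
      have y1V : ∀ q, VW (e + pos W u) (R.drop a ++ rv c) q → VS (o l) (Y l) q ∨
          ∃ t, t₀ ≤ t ∧ t ≤ v ∧ q = e + pos W t := by
        intro q b1
        rcases VW.append.1 b1 with b2 | b2
        · exact Or.inl (dV q b2)
        · rw [dsum] at b2
          exact Or.inr (cV' q b2)
      have y2 : Walk (W2 Y cs cf ++ (R.drop a ++ rv c)) := by
        refine walk_append (p := e + W.sum) k2 y1 ?_
        intro q b1 b2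
        rw [uE] at b2 ⊢
        rcases k6 q b1 with ⟨t, b3, b4, rfl⟩ | ⟨c', hc', b3⟩
        · rcases y1V _ b2 with b5 | ⟨t', b5, b6, b7⟩
          · rw [i3 t b3 b4 b5]
          · have := winj t t' b4 (by omega) b7
            omega
        · rcases y1V _ b2 with b5 | ⟨t', b5, b6, rfl⟩
          · exact absurd b3 (i4 q b5 c' hc')
          · exact absurd b3 (i2 t' b5 b6 c' hc')
      refine ⟨(c, l, s1, a) :: cs, cf, x2, y2, ?_, ?_, ?_, ?_, ?_, ?_, k9, k10⟩
      · simp only [W1]
        rw [List.sum_append, List.sum_append, ← add_assoc, csum]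
        rw [← hR]
        have h5 : e + (pos W v + ((R.take a).sum + (W1 Y cs cf).sum)) = e + W.sum := by
          rw [← add_assoc, ← add_assoc, av, add_assoc, k3]
        exact add_left_cancel h5
      · simp only [W2]
        rw [← hR, List.sum_append, List.sum_append, rv_sum]
        have h5 : e + (W.sum + ((W2 Y cs cf).sum + ((R.drop a).sum + -c.sum))) =
            e + pos W t₀ := by
          rw [← add_assoc, ← add_assoc, uE, ← add_assoc, dsum, ← csum]
          abel
        exact add_left_cancel h5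
      · intro q hq
        simp only [W1] at hq
        rw [← hR] at hq
        rcases VW.append.1 hq with b1 | b1
        · obtain ⟨t, b2, b3, b4⟩ := cV q b1
          exact Or.inl ⟨t, b2, by omega, b4⟩
        · rw [add_assoc, csum] at b1
          rcases x1V q b1 with b2 | ⟨t, b2, b3, b4⟩ | ⟨c', hc', b2⟩
          · exact Or.inr ⟨_, List.mem_cons_self, b2⟩
          · exact Or.inl ⟨t, by omega, b3, b4⟩
          · exact Or.inr ⟨c', List.mem_cons_of_mem _ hc', b2⟩
      · intro q hq
        simp only [W2] at hq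
        rw [← hR] at hq
        rcases VW.append.1 hq with b1 | b1
        · rcases k6 q b1 with ⟨t, b2, b3, b4⟩ | ⟨c', hc', b2⟩
          · exact Or.inl ⟨t, by omega, b3, b4⟩
          · exact Or.inr ⟨c', List.mem_cons_of_mem _ hc', b2⟩
        · rw [uE] at b1
          rcases y1V q b1 with b2 | ⟨t, b2, b3, b4⟩
          · exact Or.inr ⟨_, List.mem_cons_self, b2⟩
          · exact Or.inl ⟨t, b2, by omega, b4⟩
      · intro c' hc'
        rcases List.mem_cons.1 hc' with rfl | hc'
        · refine ⟨lS, s2, by simp only; omega, cw.1, ?_, v, u, v1, u2, u3, ⟨s1, s2, s3⟩, u1⟩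
          simp only
          rw [cl]
          exact len_bound (V := fun l q => VS (o l) (Y l) q) (w := fun t => e + pos W t)
            (fun s t b1 b2 b3 b4 h => winj s t (by omega) (by omega) h)
            (fun t b1 b2 => hC t (by omega) (by omega))
            (fun l' s t b1 b2 b3 b4 => vmin s b1 (by omega) l' b4 t b2 (by omega))
        · obtain ⟨m1, m2, m3, m4, m5, t₁, t₂, m6, m7, m8, m9, m10⟩ := k7 c' hc'
          exact ⟨Finset.mem_of_mem_erase m1, m2, m3, m4, m5, t₁, t₂, by omega, m7, m8, m9, m10⟩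
      · simp only [List.map_cons, List.nodup_cons]
        refine ⟨?_, k8⟩
        intro hmem
        obtain ⟨c', hc', h5⟩ := List.mem_map.1 hmem
        have := (k7 c' hc').1
        rw [h5] at this
        exact Finset.notMem_erase l S this
    · -- no polygon is visited twice
      push Not at hdbl
      have w1 : Walk (W.drop t₀) := hW.drop h1
      have s1 : pos W t₀ + (W.drop t₀).sum = W.sum := by
        have e1 : pos W t₀ = (W.take t₀).sum := rfl
        rw [e1, ← List.sum_append, List.take_append_drop]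
      have hV : ∀ q, VW (e + pos W t₀) (W.drop t₀) q →
          ∃ t, t₀ ≤ t ∧ t ≤ W.length ∧ q = e + pos W t := by
        rintro q ⟨i, hi, rfl⟩
        rw [List.length_drop] at hi
        refine ⟨t₀ + i, by omega, by omega, ?_⟩
        rw [pos_drop _ h1]
        abel
      refine ⟨[], W.drop t₀, w1, w1.rv, s1, ?_, fun q hq => Or.inl (hV q hq), ?_, by simp, by simp,
        w1.1, ?_⟩
      · simp only [W2]
        rw [rv_sum, ← s1]
        abel
      · intro q hq
        simp only [W2] at hq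
        rw [← s1, ← add_assoc] at hq
        exact Or.inl (hV q (VW_rv.1 hq))
      · rw [List.length_drop]
        exact len_bound (V := fun l q => VS (o l) (Y l) q) (w := fun t => e + pos W t)
          (fun s t b1 b2 b3 b4 h => winj s t (by omega) (by omega) h)
          (fun t b1 b2 => hC t (by omega) b2)
          (fun l' s t b1 b2 b3 b4 b5 => hdbl s b1 l' b4 t b2 (by omega) b5)

/-- **Walls** of a chain of pairwise disjoint polygons which joins `0` and `u`, with the help of
the set `C`. -/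
theorem walls {ι : Type} [Fintype ι] {Y : ι → List Pt} {o : ι → Pt} (hY : ∀ l, PG (Y l))
    (hdis : ∀ l l', l ≠ l' → ∀ q, VS (o l) (Y l) q → ¬ VS (o l') (Y l') q) {u : Pt}
    {C : Finset Pt} (h0 : ∀ l, ¬ VS (o l) (Y l) 0)
    (h : Jn (fun q => q = 0 ∨ q = u ∨ q ∈ C ∨ ∃ l, VS (o l) (Y l) q) 0 u) :
    ∃ (cs : List (Cd ι)) (cf : List Pt), Walk (W1 Y cs cf) ∧ Walk (W2 Y cs cf) ∧
      (W1 Y cs cf).sum = u ∧ (W2 Y cs cf).sum = -u ∧
      (∀ q, VW 0 (W1 Y cs cf) q → q = 0 ∨ q = u ∨ q ∈ C ∨ ∃ l, VS (o l) (Y l) q) ∧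
      (∀ q, VW u (W2 Y cs cf) q → q = 0 ∨ q = u ∨ q ∈ C ∨ ∃ l, VS (o l) (Y l) q) ∧
      (∀ c ∈ cs, c.2.2.1 < (Y c.2.1).length ∧ c.2.2.2 < (Y c.2.1).length ∧
        (∀ s ∈ c.1, Un s) ∧ c.1.length ≤ C.card + Fintype.card ι + 1) ∧
      (cs.map fun c => c.2.1).Nodup ∧ (∀ s ∈ cf, Un s) ∧
        cf.length ≤ C.card + Fintype.card ι + 1 := by
  obtain ⟨W, hW, hs, hV⟩ := exists_simple h (Or.inl rfl)
  rw [zero_add] at hs
  have hV' : ∀ t, t ≤ W.length → pos W t = 0 ∨ pos W t = u ∨ pos W t ∈ C ∨
      ∃ l, VS (o l) (Y l) (pos W t) := fun t ht => hV _ ⟨t, ht, by rw [zero_add]⟩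
  have winj : ∀ s t, s ≤ W.length → t ≤ W.length → pos W s = pos W t → s = t :=
    fun s t hs ht h => hW.2 (Set.mem_Iic.2 hs) (Set.mem_Iic.2 ht) h
  obtain ⟨cs, cf, k1, k2, k3, k4, k5, k6, k7, k8, k9, k10⟩ := walls_aux (e := 0) (C := C) hY hdis
    hW (by
      intro t ht0 ht
      rw [zero_add]
      rcases hV' t ht.le with h1 | h1 | h1
      · have := winj t 0 ht.le (Nat.zero_le _) (by rw [h1, pos_zero])
        omega
      · have := winj t W.length ht.le le_rfl (by rw [h1, pos_len, hs])
        omega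
      · exact h1) W.length 0 (Nat.zero_le _) (by omega) Finset.univ
    (fun _ _ _ l _ => Finset.mem_univ l) (by
      intro l _
      rw [pos_zero, zero_add]
      exact h0 l)
  rw [pos_zero, zero_add] at k3 k5
  rw [pos_zero] at k4
  rw [zero_add] at k6
  have kk : ∀ q, ((∃ t, 0 ≤ t ∧ t ≤ W.length ∧ q = 0 + pos W t) ∨
      ∃ c ∈ cs, VS (o c.2.1) (Y c.2.1) q) → q = 0 ∨ q = u ∨ q ∈ C ∨ ∃ l, VS (o l) (Y l) q := by
    rintro q (⟨t, -, h1, rfl⟩ | ⟨c, _, h1⟩)
    · rw [zero_add]
      exact hV' t h1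
    · exact Or.inr (Or.inr (Or.inr ⟨_, h1⟩))
  refine ⟨cs, cf, k1, k2, k3.trans hs, ?_, fun q hq => kk q (k5 q hq), fun q hq => kk q (k6 q ?_),
    fun c hc => ?_, k8, k9, k10⟩
  · rw [hs] at k4
    exact eq_neg_of_add_eq_zero_right k4
  · rw [hs]
    exact hq
  · obtain ⟨-, m1, m2, m3, m4, -⟩ := k7 c hc
    exact ⟨m1, m2, m3, m4⟩

end Pool.Agent.Work.MP_376faf_co_gap
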