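import Pool.Agent.Work.MP_376faf_co_gap.Expo

/-! Wide bridges with corner start are rare at the minimal typical length. -/

set_option autoImplicit false

namespace Pool.Agent.Work.MP_376faf_co_gap

open Pool.Agent.Work.MP_376faf_co_lower Pool.Agent.Work.MP_376faf_co_hw
open Pool.Agent.Work.MP_376faf_co_win
open scoped ENNReal

theorem mass_card {P : List Pt → Prop} {n : ℕ} (h : ∀ l, P l → Walk l ∧ l.length = n)
    (x : ℝ≥0∞) : mass x P = (Nat.card {l : List Pt // P l} : ℝ≥0∞) * x ^ n := by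
  have hf : Finite {l : List Pt // P l} := fin_len n h
  have := Fintype.ofFinite {l : List Pt // P l}
  unfold mass
  rw [tsum_fintype, Finset.sum_congr rfl (fun l _ => by rw [(h l.1 l.2).2]), Finset.sum_const,
    Finset.card_univ, nsmul_eq_mul, Nat.card_eq_fintype_card]

/-- heights of bridges in the second direction, total height in `[S, 3S)` -/
def KS (S n : ℕ) (y : ℕ → ℤ) : Prop :=
  (∀ k, 0 < k → k ≤ n → y 0 < y k ∧ y k ≤ y n) ∧ (S : ℤ) ≤ y n ∧ y n < 3 * S

theorem KS_YB (S n : ℕ) : YB n (KS S n) := fun _ hy => hy.1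

/-- bridges of length `n` and span in `[S, 3S)` -/
noncomputable def BS (x : ℝ≥0∞) (S n : ℕ) : ℝ≥0∞ :=
  mass x (fun l => Bridge l ∧ l.length = n ∧ (S : ℤ) ≤ l.sum.1 ∧ l.sum.1 < 3 * S)

/-- reflection: bridges against bridges with corner start -/
theorem BS_le_NM (x : ℝ≥0∞) (S n : ℕ) :
    BS x S n ≤ ((n + 2 : ℕ) : ℝ≥0∞) * mass x (fun l => l ∈ NM n (KS S n)) := by
  have h1 : BS x S n ≤ mass x (fun l => VK n (KS S n) l) := by
    unfold BS
    rw [mass_eq, mass_eq]
    refine wsum_inj (fun l => l.map Prod.swap)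
      (List.map_injective_iff.2 Prod.swap_injective) (fun l => by rw [List.length_map]) ?_
    rintro l ⟨h1, h2, h3, h4⟩
    have hy : ∀ k, ys (l.map Prod.swap) k = (pos l k).1 := fun k => by
      unfold ys
      rw [pos_sw]
      rfl
    refine ⟨walk_sw h1.1, by rw [List.length_map, h2], ?_, ?_, ?_⟩
    · intro k h5 h6
      rw [hy, hy, hy, pos_zero]
      have := h1.2 k h5 (by omega)
      rw [h2] at this
      exact this
    · rw [hy, ← h2, pos_len]
      exact h3
    · rw [hy, ← h2, pos_len]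
      exact h4
  refine h1.trans ?_
  rw [mass_card (n := n) (fun l hl => ⟨hl.1, hl.2.1⟩),
    mass_card (n := n) (fun l hl => ⟨hl.1.1, hl.1.2.1⟩), ← mul_assoc]
  refine mul_le_mul' ?_ le_rfl
  have h2 := ri_ncard n (KS_YB S n)
  rw [Set.ncard_def, Set.encard] at h2
  have h3 : Nat.card {l : List Pt // VK n (KS S n) l} ≤
      (n + 2) * Nat.card {l : List Pt // l ∈ NM n (KS S n)} := by
    have h4 := ri_ncard n (KS_YB S n)
    rw [← Nat.card_coe_set_eq, ← Nat.card_coe_set_eq] at h4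
    exact h4
  exact_mod_cast h3

/-- decomposition of a wide bridge with corner start -/
theorem wid_le (x : ℝ≥0∞) (S N : ℕ) :
    mass x (fun l => l ∈ NM (N + 1) (KS S (N + 1)) ∧ ∃ k ≤ N + 1, 9 * (S : ℤ) < (pos l k).1) ≤
      mass x (fun l => Walk l ∧ l.length ≤ N + 1 ∧ l.sum.1 = 0 ∧
        ∀ k ≤ l.length, 0 ≤ (pos l k).1) *
      (wsum (w0 x (N + 1)) (fun l => Bridge l ∧ 9 * (S : ℤ) ≤ l.sum.1) *
        mass x (fun l => Walk l ∧ l.length ≤ N + 1 ∧ (∀ k ≤ l.length, (pos l k).1 ≤ 0) ∧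
          ∀ k ≤ l.length, (pos l k).2 ≤ l.sum.2)) := by
  set Q2 : List Pt → Prop := fun l => Walk l ∧ l.length ≤ N + 1 ∧
    (∀ k ≤ l.length, (pos l k).1 ≤ 0) ∧ ∀ k ≤ l.length, (pos l k).2 ≤ l.sum.2 with hQ2
  set R : List Pt → Prop := fun m => ∃ b c, m = b ++ c ∧ (Bridge b ∧ 9 * (S : ℤ) ≤ b.sum.1) ∧
    Q2 c ∧ b.length ≤ N + 1 with hR
  have h1 : mass x (fun l => l ∈ NM (N + 1) (KS S (N + 1)) ∧
      ∃ k ≤ N + 1, 9 * (S : ℤ) < (pos l k).1) ≤
      mass x (fun l => Walk l ∧ l.length ≤ N + 1 ∧ l.sum.1 = 0 ∧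
        ∀ k ≤ l.length, 0 ≤ (pos l k).1) * mass x R := by
    rw [mass_eq, mass_eq, mass_eq]
    refine wsum_mul3 ?_
    rintro l ⟨⟨⟨hl, hlN, hK⟩, hx⟩, k0, hk0, hk9⟩
    obtain ⟨t2, ht2, h1, -⟩ := last_max (fun k => (pos l k).1) (N + 1)
    obtain ⟨t1, ht1, h2, h3⟩ := last_min (fun k => (pos l k).1) t2
    have e0 : (pos l t1).1 = 0 := by
      have e1 := h2 0 (Nat.zero_le _)
      have e2 := hx t1 (by omega)
      simp only [pos_zero, Prod.fst_zero] at e1
      omega
    have e9 : 9 * (S : ℤ) < (pos l t2).1 := lt_of_lt_of_le hk9 (h1 k0 hk0)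
    have hl1 : t1 ≤ l.length := by omega
    have hl2 : t2 ≤ l.length := by omega
    have hlt : (l.take t1).length = t1 := by rw [List.length_take, min_eq_left hl1]
    have hld : (l.drop t1).length = l.length - t1 := List.length_drop
    have hlb : ((l.drop t1).take (t2 - t1)).length = t2 - t1 := by
      rw [List.length_take, hld]
      omega
    have hpb : ∀ i ≤ t2 - t1, pos ((l.drop t1).take (t2 - t1)) i = pos l (t1 + i) - pos l t1 := by
      intro i hi
      rw [pos_take _ hi, pos_drop _ hl1]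
    have hc : (l.drop t1).drop (t2 - t1) = l.drop t2 := by
      rw [List.drop_drop, show t1 + (t2 - t1) = t2 by omega]
    refine ⟨l.take t1, l.drop t1, (List.take_append_drop t1 l).symm, ⟨hl.take t1, by omega, ?_,
      ?_⟩, ⟨(l.drop t1).take (t2 - t1), (l.drop t1).drop (t2 - t1),
        (List.take_append_drop _ _).symm, ⟨⟨(hl.drop hl1).take _, ?_⟩, ?_⟩,
        ⟨?_, ?_, ?_, ?_⟩, by omega⟩, ?_⟩
    · exact e0
    · intro k hk
      rw [hlt] at hk
      rw [pos_take _ hk]
      exact hx k (by omega)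
    · intro i hi0 hi
      rw [hlb] at hi ⊢
      rw [hpb i hi, hpb _ le_rfl, show t1 + (t2 - t1) = t2 by omega, Prod.fst_sub, Prod.fst_sub]
      have e1 := h3 (t1 + i) (by omega) (by omega)
      have e2 := h1 (t1 + i) (by omega)
      omega
    · rw [← pos_len, hlb, hpb _ le_rfl, show t1 + (t2 - t1) = t2 by omega, Prod.fst_sub, e0]
      omega
    · rw [hc]
      exact hl.drop hl2
    · rw [hc, List.length_drop]
      omega
    · rw [hc]
      intro k hk
      rw [List.length_drop] at hk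
      rw [pos_drop _ hl2, Prod.fst_sub]
      have e2 := h1 (t2 + k) (by omega)
      omega
    · rw [hc]
      intro k hk
      rw [List.length_drop] at hk
      rw [← pos_len, List.length_drop, pos_drop _ hl2, pos_drop _ hl2,
        show t2 + (l.length - t2) = N + 1 by omega, Prod.snd_sub, Prod.snd_sub]
      have e3 : (pos l (t2 + k)).2 ≤ (pos l (N + 1)).2 := by
        rcases Nat.eq_zero_or_pos (t2 + k) with h5 | h5
        · rw [h5]
          exact (hK.1 (N + 1) (by omega) le_rfl).1.le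
        · exact (hK.1 (t2 + k) h5 (by omega)).2
      omega
    · rw [← pow_add, ← List.length_append, List.take_append_drop]
  refine h1.trans (mul_le_mul' le_rfl ?_)
  rw [mass_eq, mass_eq]
  refine wsum_mul3 ?_
  rintro l ⟨b, c, rfl, hb, hc, hlb⟩
  refine ⟨b, c, rfl, hb, hc, ?_⟩
  unfold w0
  rw [if_pos hlb, List.length_append, pow_add]

/-- narrow bridges with corner start belong to few families -/
theorem nar_le (x : ℝ≥0∞) (S n : ℕ) (c : ℝ≥0∞)
    (hc : ∀ e h : ℕ, S ≤ h → h < 3 * S → e ≤ 9 * S → mass x (CF e h (9 * S) n) ≤ c) :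
    mass x (fun l => l ∈ NM n (KS S n) ∧ ∀ k ≤ n, (pos l k).1 ≤ 9 * (S : ℤ)) ≤
      (((9 * S + 1) * (2 * S) : ℕ) : ℝ≥0∞) * c := by
  have h1 : mass x (fun l => l ∈ NM n (KS S n) ∧ ∀ k ≤ n, (pos l k).1 ≤ 9 * (S : ℤ)) ≤
      ∑' i : Fin (9 * S + 1) × Fin (2 * S), mass x (CF i.1.val (S + i.2.val) (9 * S) n) := by
    unfold mass
    refine sigma_ge (fun i : Fin (9 * S + 1) × Fin (2 * S) =>
      CF i.1.val (S + i.2.val) (9 * S) n) _ ?_ (fun l => x ^ l.length)
    rintro l ⟨⟨⟨hl, hln, hK⟩, hx⟩, h9⟩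
    have hs : l.sum = pos l n := by rw [← hln, pos_len]
    have e1 := hx n le_rfl
    have e2 := h9 n le_rfl
    have e3 := hK.2.1
    have e4 := hK.2.2
    unfold ys at e3 e4
    refine ⟨(⟨(pos l n).1.toNat, by omega⟩, ⟨((pos l n).2 - S).toNat, by omega⟩), hl, hln, ?_, ?_⟩
    · rw [hs]
      ext
      · simp only
        omega
      · simp only
        push_cast
        omega
    · intro k hk
      have e5 := hx k hk
      have e6 := h9 k hk
      refine ⟨e5, ?_, ?_, ?_⟩
      · simp only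
        push_cast
        omega
      · intro h0
        have := (hK.1 k h0 hk).1
        unfold ys at this
        rwa [pos_zero, Prod.snd_zero] at this
      · simp only
        push_cast
        rcases Nat.eq_zero_or_pos k with h0 | h0
        · rw [h0, pos_zero, Prod.snd_zero]
          omega
        · have := (hK.1 k h0 hk).2
          unfold ys at this
          omega
  refine h1.trans ?_
  rw [tsum_fintype]
  refine (Finset.sum_le_sum fun i _ => hc i.1.val (S + i.2.val) (by omega)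
    (by have := i.2.2; omega) (by have := i.1.2; omega)).trans (le_of_eq ?_)
  rw [Finset.sum_const, Finset.card_univ, Fintype.card_prod, Fintype.card_fin, Fintype.card_fin,
    nsmul_eq_mul]

/-- bridges of small length in the window of spans -/
theorem short_le (x : ℝ≥0∞) (S N : ℕ) (c : ℝ≥0∞) (hc : ∀ n ≤ N, BS x S n ≤ c) :
    wsum (w0 x N) (fun l => Bridge l ∧ (S : ℤ) ≤ l.sum.1 ∧ l.sum.1 < 3 * S) ≤
      ((N + 1 : ℕ) : ℝ≥0∞) * c := by
  have h1 : wsum (w0 x N) (fun l => Bridge l ∧ (S : ℤ) ≤ l.sum.1 ∧ l.sum.1 < 3 * S) ≤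
      mass x (fun l => (Bridge l ∧ (S : ℤ) ≤ l.sum.1 ∧ l.sum.1 < 3 * S) ∧ l.length ≤ N) := by
    rw [mass_eq]
    refine wsum_le fun l hl h0 => ?_
    unfold w0 at h0 ⊢
    by_cases h : l.length ≤ N
    · rw [if_pos h]
      exact ⟨⟨hl, h⟩, le_rfl⟩
    · rw [if_neg h] at h0
      exact absurd rfl h0
  have h2 : mass x (fun l => (Bridge l ∧ (S : ℤ) ≤ l.sum.1 ∧ l.sum.1 < 3 * S) ∧
      l.length ≤ N) ≤ ∑' i : Fin (N + 1), BS x S i.val := by
    unfold mass BS mass
    refine sigma_ge (fun i : Fin (N + 1) => fun l => Bridge l ∧ l.length = i.val ∧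
      (S : ℤ) ≤ l.sum.1 ∧ l.sum.1 < 3 * S) _ ?_ (fun l => x ^ l.length)
    rintro l ⟨⟨h1, h2, h3⟩, h4⟩
    exact ⟨⟨l.length, by omega⟩, h1, rfl, h2, h3⟩
  refine h1.trans (h2.trans ?_)
  rw [tsum_fintype]
  refine (Finset.sum_le_sum fun i _ => hc i.val (by have := i.2; omega)).trans (le_of_eq ?_)
  rw [Finset.sum_const, Finset.card_univ, Fintype.card_fin, nsmul_eq_mul]

end Pool.Agent.Work.MP_376faf_co_gap
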